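import Pool.Agent.W_MP_b91f46_mp.Defs

/-!
# `H¹(ℝ³)` is closed under the elementary operations
-/

open MeasureTheory Filter Topology Set
open scoped RealInnerProductSpace ContDiff ENNReal

namespace Pool.Agent.W_MP_b91f46_mp

namespace H1AlgAux

theorem inner_gradient' {φ : E3 → ℝ} (x v : E3) : ⟪gradient φ x, v⟫ = fderiv ℝ φ x v := by
  rw [← toDual_gradient, InnerProductSpace.toDual_apply_apply]

theorem cont_fderiv {φ : E3 → ℝ} (h : ContDiff ℝ ∞ φ) : Continuous (fun x => fderiv ℝ φ x) :=
  h.continuous_fderiv (by simp)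

theorem cont_fderiv_apply {φ : E3 → ℝ} (h : ContDiff ℝ ∞ φ) (v : E3) :
    Continuous (fun x => fderiv ℝ φ x v) :=
  (cont_fderiv h).clm_apply continuous_const

theorem supp_fderiv_apply {φ : E3 → ℝ} (hc : HasCompactSupport φ) (v : E3) :
    HasCompactSupport (fun x => fderiv ℝ φ x v) :=
  hc.fderiv_apply (𝕜 := ℝ) v

theorem cont_gradient {φ : E3 → ℝ} (h : ContDiff ℝ ∞ φ) : Continuous (gradient φ) := by
  unfold gradient
  exact (InnerProductSpace.toDual ℝ E3).symm.continuous.comp (cont_fderiv h)

theorem supp_gradient {φ : E3 → ℝ} (hc : HasCompactSupport φ) :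
    HasCompactSupport (gradient φ) := by
  refine (hc.fderiv (𝕜 := ℝ)).mono fun x hx => ?_
  contrapose! hx
  rw [Function.mem_support, not_not] at hx ⊢
  simp [gradient, hx]

theorem int1 {ψ φ : E3 → ℝ} (h : MemLp ψ 2 volume) (hφ : ContDiff ℝ ∞ φ)
    (hc : HasCompactSupport φ) (v : E3) : Integrable (fun x => ψ x * fderiv ℝ φ x v) :=
  MemLp.integrable_mul (p := 2) (q := 2) h
    ((cont_fderiv_apply hφ v).memLp_of_hasCompactSupport (supp_fderiv_apply hc v))

theorem int2 {g : E3 → E3} {φ : E3 → ℝ} (h : MemLp g 2 volume) (hφ : Continuous φ)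
    (hc : HasCompactSupport φ) (v : E3) : Integrable (fun x => φ x * ⟪g x, v⟫) :=
  MemLp.integrable_mul (p := 2) (q := 2) (hφ.memLp_of_hasCompactSupport hc) (h.inner_const v)

end H1AlgAux

open H1AlgAux

theorem H1.add {ψ φ : E3 → ℝ} {g k : E3 → E3} (h : H1 ψ g) (h' : H1 φ k) :
    H1 (fun x => ψ x + φ x) (fun x => g x + k x) where
  memLp := h.memLp.add h'.memLp
  memLp_grad := h.memLp_grad.add h'.memLp_grad
  weakGrad := by
    intro θ hθ hc v
    simp only [add_mul, inner_add_left, mul_add]
    rw [integral_add (int1 h.memLp hθ hc v) (int1 h'.memLp hθ hc v),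
      integral_add (int2 h.memLp_grad hθ.continuous hc v) (int2 h'.memLp_grad hθ.continuous hc v),
      h.weakGrad θ hθ hc v, h'.weakGrad θ hθ hc v]
    ring

theorem H1.smul {ψ : E3 → ℝ} {g : E3 → E3} (h : H1 ψ g) (c : ℝ) :
    H1 (fun x => c * ψ x) (fun x => c • g x) where
  memLp := h.memLp.const_mul c
  memLp_grad := h.memLp_grad.const_smul c
  weakGrad := by
    intro θ hθ hc v
    simp only [real_inner_smul_left, mul_assoc, mul_left_comm _ c _]
    rw [integral_const_mul, integral_const_mul, h.weakGrad θ hθ hc v]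
    ring

theorem H1.translate {ψ : E3 → ℝ} {g : E3 → E3} (h : H1 ψ g) (a : E3) :
    H1 (fun x => ψ (x + a)) (fun x => g (x + a)) where
  memLp := h.memLp.comp_measurePreserving (measurePreserving_add_right volume a)
  memLp_grad := h.memLp_grad.comp_measurePreserving (measurePreserving_add_right volume a)
  weakGrad := by
    intro θ hθ hc v
    have key := h.weakGrad (fun y => θ (y - a)) (hθ.comp (contDiff_id.sub contDiff_const))
      (hc.comp_homeomorph (Homeomorph.subRight a)) v
    have e1 : ∀ y, fderiv ℝ (fun y => θ (y - a)) y = fderiv ℝ θ (y - a) := fun y => by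
      exact fderiv_comp_sub a
    have i1 := integral_add_right_eq_self (μ := (volume : Measure E3))
      (fun y => ψ y * fderiv ℝ θ (y - a) v) a
    have i2 := integral_add_right_eq_self (μ := (volume : Measure E3))
      (fun y => θ (y - a) * ⟪g y, v⟫) a
    simp only [add_sub_cancel_right] at i1 i2
    rw [i1, i2]
    simpa only [e1] using key

theorem H1.congr {ψ ψ' : E3 → ℝ} {g g' : E3 → E3} (h : H1 ψ g) (h1 : ψ' =ᵐ[volume] ψ)
    (h2 : g' =ᵐ[volume] g) : H1 ψ' g' where
  memLp := h.memLp.ae_eq h1.symm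
  memLp_grad := h.memLp_grad.ae_eq h2.symm
  weakGrad := by
    intro θ hθ hc v
    have i1 : ∫ x, ψ' x * fderiv ℝ θ x v = ∫ x, ψ x * fderiv ℝ θ x v :=
      integral_congr_ae (h1.mono fun x hx => by simp only [hx])
    have i2 : ∫ x, θ x * ⟪g' x, v⟫ = ∫ x, θ x * ⟪g x, v⟫ :=
      integral_congr_ae (h2.mono fun x hx => by simp only [hx])
    rw [i1, i2]
    exact h.weakGrad θ hθ hc v

theorem H1.of_test {φ : E3 → ℝ} (h : ContDiff ℝ ∞ φ) (hc : HasCompactSupport φ) :
    H1 φ (gradient φ) where
  memLp := h.continuous.memLp_of_hasCompactSupport hc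
  memLp_grad := (cont_gradient h).memLp_of_hasCompactSupport (supp_gradient hc)
  weakGrad := by
    intro θ hθ hcθ v
    simp only [inner_gradient']
    have hφ2 : MemLp φ 2 volume := h.continuous.memLp_of_hasCompactSupport hc
    have hθ2 : MemLp θ 2 volume := hθ.continuous.memLp_of_hasCompactSupport hcθ
    have i1 : Integrable (fun x => fderiv ℝ φ x v * θ x) := by
      have := int1 hθ2 h hc v
      simpa only [mul_comm] using this
    rw [integral_mul_fderiv_eq_neg_fderiv_mul_of_integrable i1 (int1 hφ2 hθ hcθ v)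
      (hφ2.integrable_mul hθ2) (fun x _ => (h.differentiable (by simp)) x)
      (fun x _ => (hθ.differentiable (by simp)) x)]
    simp only [mul_comm]

theorem H1.mul_test {ψ : E3 → ℝ} {g : E3 → E3} (h : H1 ψ g) {χ : E3 → ℝ} (hχ : ContDiff ℝ ∞ χ)
    (hc : HasCompactSupport χ) :
    H1 (fun x => χ x * ψ x) (fun x => χ x • g x + ψ x • gradient χ x) where
  memLp := by
    obtain ⟨C, hC⟩ := hc.exists_bound_of_continuous hχ.continuous
    refine (h.memLp.const_mul C).mono (hχ.continuous.aestronglyMeasurable.mul h.memLp.1) ?_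
    refine Eventually.of_forall fun x => ?_
    rw [norm_mul, norm_mul]
    exact mul_le_mul_of_nonneg_right ((hC x).trans (le_abs_self C)) (norm_nonneg _)
  memLp_grad := by
    obtain ⟨C, hC⟩ := hc.exists_bound_of_continuous hχ.continuous
    obtain ⟨D, hD⟩ := (supp_gradient hc).exists_bound_of_continuous (cont_gradient hχ)
    refine MemLp.add ?_ ?_
    · refine (h.memLp_grad.const_smul C).mono
        (hχ.continuous.aestronglyMeasurable.smul h.memLp_grad.1) ?_
      refine Eventually.of_forall fun x => ?_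
      simp only [Pi.smul_apply, norm_smul]
      exact mul_le_mul_of_nonneg_right ((hC x).trans (le_abs_self C)) (norm_nonneg _)
    · refine (h.memLp.const_mul D).mono
        (h.memLp.1.smul (cont_gradient hχ).aestronglyMeasurable) ?_
      refine Eventually.of_forall fun x => ?_
      rw [norm_smul, norm_mul, mul_comm]
      exact mul_le_mul_of_nonneg_right ((hD x).trans (le_abs_self D)) (norm_nonneg _)
  weakGrad := by
    intro θ hθ hcθ v
    have hprod : ContDiff ℝ ∞ (fun x => χ x * θ x) := hχ.mul hθ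
    have hcp : HasCompactSupport (fun x => χ x * θ x) := hc.mul_right
    have key := h.weakGrad _ hprod hcp v
    have e1 : ∀ x, fderiv ℝ (fun x => χ x * θ x) x v =
        χ x * fderiv ℝ θ x v + θ x * fderiv ℝ χ x v := fun x => by
      rw [fderiv_fun_mul ((hχ.differentiable (by simp)) x) ((hθ.differentiable (by simp)) x)]
      simp
    have i0 : Integrable (fun x => ψ x * fderiv ℝ (fun x => χ x * θ x) x v) :=
      int1 h.memLp hprod hcp v
    have i2 : Integrable (fun x => ψ x * (θ x * fderiv ℝ χ x v)) :=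
      MemLp.integrable_mul (p := 2) (q := 2) h.memLp
        ((hθ.continuous.mul (cont_fderiv_apply hχ v)).memLp_of_hasCompactSupport hcθ.mul_right)
    have i3 : Integrable (fun x => χ x * θ x * ⟪g x, v⟫) :=
      int2 h.memLp_grad hprod.continuous hcp v
    have e2 : ∫ x, χ x * ψ x * fderiv ℝ θ x v =
        (∫ x, ψ x * fderiv ℝ (fun x => χ x * θ x) x v) - ∫ x, ψ x * (θ x * fderiv ℝ χ x v) := by
      rw [← integral_sub i0 i2]
      refine integral_congr_ae (Eventually.of_forall fun x => ?_)
      simp only [e1 x]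
      ring
    have e3 : ∫ x, θ x * ⟪χ x • g x + ψ x • gradient χ x, v⟫ =
        (∫ x, χ x * θ x * ⟪g x, v⟫) + ∫ x, ψ x * (θ x * fderiv ℝ χ x v) := by
      rw [← integral_add i3 i2]
      refine integral_congr_ae (Eventually.of_forall fun x => ?_)
      simp only [inner_add_left, real_inner_smul_left, inner_gradient']
      ring
    rw [e2, e3, key]
    ring

end Pool.Agent.W_MP_b91f46_mp
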