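import Pool.Agent.W_MP_b91f46_mp.Translate
import Pool.Agent.W_MP_b91f46_mp.H1Alg

/-!
# Ball averages of `H¹` functions
-/

open MeasureTheory Filter Topology Set
open scoped RealInnerProductSpace ContDiff ENNReal

namespace Pool.Agent.W_MP_b91f46_mp

/-- average over the ball of radius `ℓ` -/
noncomputable def avg (ℓ : ℝ) (ψ : E3 → ℝ) (x : E3) : ℝ :=
  (volume.real (Metric.ball (0 : E3) ℓ))⁻¹ * ∫ y in Metric.ball x ℓ, ψ y

namespace AvgAux

theorem setIntegral_ball_eq (ψ : E3 → ℝ) (ℓ : ℝ) (x : E3) :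
    ∫ y in Metric.ball x ℓ, ψ y = ∫ y in Metric.ball (0 : E3) ℓ, ψ (x + y) := by
  rw [← integral_indicator measurableSet_ball, ← integral_indicator measurableSet_ball,
    ← integral_add_left_eq_self (fun y => (Metric.ball x ℓ).indicator ψ y) x]
  refine integral_congr_ae (Eventually.of_forall fun y => ?_)
  by_cases hy : y ∈ Metric.ball (0 : E3) ℓ
  · have : x + y ∈ Metric.ball x ℓ := by
      rw [Metric.mem_ball, dist_eq_norm, add_sub_cancel_left]
      simpa using hy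
    simp only [indicator_of_mem this, indicator_of_mem hy]
  · have : x + y ∉ Metric.ball x ℓ := by
      rw [Metric.mem_ball, dist_eq_norm, add_sub_cancel_left]
      simpa using hy
    simp only [indicator_of_notMem this, indicator_of_notMem hy]

theorem vol_pos {ℓ : ℝ} (hℓ : 0 < ℓ) : 0 < volume.real (Metric.ball (0 : E3) ℓ) :=
  ENNReal.toReal_pos (Metric.measure_ball_pos volume _ hℓ).ne' measure_ball_lt_top.ne

/-- Jensen / Cauchy-Schwarz. -/
theorem jensen {α : Type*} [MeasurableSpace α] {μ : Measure α} [IsFiniteMeasure μ] {V : ℝ}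
    (hV : 0 < V) (hμ : μ.real univ = V) {f : α → ℝ} (hf : MemLp f 2 μ) :
    (V⁻¹ * ∫ y, f y ∂μ) ^ 2 ≤ V⁻¹ * ∫ y, f y ^ 2 ∂μ := by
  have hi : Integrable f μ := hf.integrable (by norm_num)
  have hi2 : Integrable (fun y => f y ^ 2) μ := hf.integrable_sq
  set m := V⁻¹ * ∫ y, f y ∂μ with hm
  have hI : ∫ y, f y ∂μ = V * m := by rw [hm]; field_simp
  have h0 : 0 ≤ ∫ y, (f y - m) ^ 2 ∂μ := integral_nonneg fun y => sq_nonneg _
  have e : ∫ y, (f y - m) ^ 2 ∂μ = (∫ y, f y ^ 2 ∂μ) - 2 * m * (∫ y, f y ∂μ) + V * m ^ 2 := by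
    have : (fun y => (f y - m) ^ 2) = fun y => (f y ^ 2 - (2 * m) * f y) + m ^ 2 := by
      funext y; ring
    have i3 : Integrable (fun y => f y ^ 2 - (2 * m) * f y) μ := hi2.sub (hi.const_mul _)
    have i4 : Integrable (fun y => (2 * m) * f y) μ := hi.const_mul _
    have i5 : Integrable (fun _ : α => m ^ 2) μ := integrable_const _
    rw [this, integral_add i3 i5, integral_sub hi2 i4, integral_const_mul, integral_const, hμ,
      smul_eq_mul]
  rw [e, hI] at h0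
  have h1 : V * m ^ 2 ≤ ∫ y, f y ^ 2 ∂μ := by nlinarith
  calc m ^ 2 = V⁻¹ * (V * m ^ 2) := by field_simp
    _ ≤ V⁻¹ * ∫ y, f y ^ 2 ∂μ := mul_le_mul_of_nonneg_left h1 (inv_nonneg.2 hV.le)

theorem main {ψ : E3 → ℝ} {g : E3 → E3} (h : H1 ψ g) (hm : Measurable ψ) {ℓ : ℝ} (hℓ : 0 < ℓ) :
    MemLp (avg ℓ ψ) 2 volume ∧ ∫ x, (ψ x - avg ℓ ψ x) ^ 2 ≤ ℓ ^ 2 * kin g := by
  set B := Metric.ball (0 : E3) ℓ with hB
  set V := volume.real B with hVdef
  have hV : 0 < V := vol_pos hℓ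
  have hBfin : volume B ≠ ⊤ := measure_ball_lt_top.ne
  have : IsFiniteMeasure (volume.restrict B) := ⟨by
    rw [Measure.restrict_apply_univ]; exact measure_ball_lt_top⟩
  have hμ : (volume.restrict B).real univ = V := by
    rw [measureReal_restrict_apply_univ]
  have hsm : StronglyMeasurable (Function.uncurry fun x y : E3 => ψ (x + y)) :=
    (hm.comp (measurable_fst.add measurable_snd)).stronglyMeasurable
  have havg : ∀ x, avg ℓ ψ x = V⁻¹ * ∫ y in B, ψ (x + y) := fun x => by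
    rw [avg, setIntegral_ball_eq]
  have havgm : StronglyMeasurable (avg ℓ ψ) := by
    have : avg ℓ ψ = fun x => V⁻¹ * ∫ y in B, ψ (x + y) := funext havg
    rw [this]
    exact (hsm.integral_prod_right (ν := volume.restrict B)).const_mul _
  have hf : ∀ x, MemLp (fun y => ψ x - ψ (x + y)) 2 (volume.restrict B) := fun x =>
    (memLp_const (ψ x)).sub
      ((h.memLp.comp_measurePreserving (measurePreserving_add_left volume x)).restrict B)
  have hdiff : ∀ x, ψ x - avg ℓ ψ x = V⁻¹ * ∫ y in B, (ψ x - ψ (x + y)) := fun x => by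
    have hi : Integrable (fun y => ψ (x + y)) (volume.restrict B) :=
      ((h.memLp.comp_measurePreserving (measurePreserving_add_left volume x)).restrict B).integrable
        (by norm_num)
    rw [havg x, integral_sub (integrable_const _) hi, integral_const, hμ, smul_eq_mul]
    field_simp
  have hpt : ∀ x, ENNReal.ofReal ((ψ x - avg ℓ ψ x) ^ 2) ≤
      ENNReal.ofReal V⁻¹ * ∫⁻ y in B, ENNReal.ofReal ((ψ x - ψ (x + y)) ^ 2) := fun x => by
    rw [hdiff x]
    refine (ENNReal.ofReal_le_ofReal (jensen hV hμ (hf x))).trans ?_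
    rw [ENNReal.ofReal_mul (inv_nonneg.2 hV.le),
      ofReal_integral_eq_lintegral_ofReal (hf x).integrable_sq
        (Eventually.of_forall fun y => sq_nonneg _)]
  have hg2 : Integrable (fun x => ‖g x‖ ^ 2) := h.memLp_grad.norm.integrable_sq
  have hin : ∀ y ∈ B, ∫⁻ x, ENNReal.ofReal ((ψ x - ψ (x + y)) ^ 2) ≤
      ENNReal.ofReal (ℓ ^ 2 * kin g) := fun y hy => by
    have hml : MemLp (fun x => ψ x - ψ (x + y)) 2 volume :=
      h.memLp.sub (h.memLp.comp_measurePreserving (measurePreserving_add_right volume y))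
    rw [← ofReal_integral_eq_lintegral_ofReal hml.integrable_sq
      (Eventually.of_forall fun x => sq_nonneg _)]
    refine ENNReal.ofReal_le_ofReal ?_
    have e1 : ∫ x, (ψ x - ψ (x + y)) ^ 2 = ∫ x, (ψ (x + y) - ψ x) ^ 2 :=
      integral_congr_ae (Eventually.of_forall fun x => by ring)
    rw [e1]
    refine (translate_le h y).trans ?_
    rw [kin, ← integral_const_mul]
    refine integral_mono_of_nonneg (Eventually.of_forall fun x => sq_nonneg _)
      (hg2.const_mul _) (Eventually.of_forall fun x => ?_)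
    have hy' : ‖y‖ ≤ ℓ := by
      rw [hB, mem_ball_zero_iff] at hy
      exact hy.le
    have h1 : |⟪g x, y⟫| ≤ ‖g x‖ * ‖y‖ := abs_real_inner_le_norm _ _
    have h2 : |⟪g x, y⟫| ≤ ‖g x‖ * ℓ := h1.trans (mul_le_mul_of_nonneg_left hy' (norm_nonneg _))
    calc ⟪g x, y⟫ ^ 2 = |⟪g x, y⟫| ^ 2 := (sq_abs _).symm
      _ ≤ (‖g x‖ * ℓ) ^ 2 := pow_le_pow_left₀ (abs_nonneg _) h2 2
      _ = ℓ ^ 2 * ‖g x‖ ^ 2 := by ring
  have hmeas : Measurable (Function.uncurry fun x y : E3 =>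
      ENNReal.ofReal ((ψ x - ψ (x + y)) ^ 2)) := by
    refine ENNReal.measurable_ofReal.comp ?_
    exact ((hm.comp measurable_fst).sub (hm.comp (measurable_fst.add measurable_snd))).pow_const 2
  have hlint : ∫⁻ x, ENNReal.ofReal ((ψ x - avg ℓ ψ x) ^ 2) ≤ ENNReal.ofReal (ℓ ^ 2 * kin g) := by
    calc ∫⁻ x, ENNReal.ofReal ((ψ x - avg ℓ ψ x) ^ 2)
        ≤ ∫⁻ x, ENNReal.ofReal V⁻¹ * ∫⁻ y in B, ENNReal.ofReal ((ψ x - ψ (x + y)) ^ 2) :=
          lintegral_mono hpt
      _ = ENNReal.ofReal V⁻¹ * ∫⁻ x, ∫⁻ y in B, ENNReal.ofReal ((ψ x - ψ (x + y)) ^ 2) :=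
          lintegral_const_mul _ (Measurable.lintegral_prod_right hmeas)
      _ = ENNReal.ofReal V⁻¹ * ∫⁻ y in B, ∫⁻ x, ENNReal.ofReal ((ψ x - ψ (x + y)) ^ 2) := by
          rw [lintegral_lintegral_swap hmeas.aemeasurable]
      _ ≤ ENNReal.ofReal V⁻¹ * ∫⁻ _ in B, ENNReal.ofReal (ℓ ^ 2 * kin g) :=
          mul_le_mul_right (setLIntegral_mono' measurableSet_ball hin) _
      _ = ENNReal.ofReal (ℓ ^ 2 * kin g) := by
          rw [setLIntegral_const, ← ENNReal.ofReal_toReal hBfin, mul_left_comm,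
            ← ENNReal.ofReal_mul (inv_nonneg.2 hV.le)]
          have : V⁻¹ * (volume B).toReal = 1 := by
            rw [← Measure.real, ← hVdef, inv_mul_cancel₀ hV.ne']
          rw [this, ENNReal.ofReal_one, mul_one]
  have hsub_meas : AEStronglyMeasurable (fun x => ψ x - avg ℓ ψ x) volume :=
    hm.aestronglyMeasurable.sub havgm.aestronglyMeasurable
  have hint : Integrable (fun x => (ψ x - avg ℓ ψ x) ^ 2) := by
    refine ⟨hsub_meas.pow 2, ?_⟩
    rw [hasFiniteIntegral_iff_ofReal (Eventually.of_forall fun x => sq_nonneg _)]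
    exact hlint.trans_lt ENNReal.ofReal_lt_top
  have hkin : 0 ≤ ℓ ^ 2 * kin g :=
    mul_nonneg (sq_nonneg _) (integral_nonneg fun x => sq_nonneg _)
  refine ⟨?_, ?_⟩
  · have h1 : MemLp (fun x => ψ x - avg ℓ ψ x) 2 volume := (memLp_two_iff_integrable_sq hsub_meas).2 hint
    have h2 : avg ℓ ψ = fun x => ψ x - (ψ x - avg ℓ ψ x) := by funext x; ring
    rw [h2]
    exact h.memLp.sub h1
  · rw [← ENNReal.ofReal_le_ofReal_iff hkin,
      ofReal_integral_eq_lintegral_ofReal hint (Eventually.of_forall fun x => sq_nonneg _)]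
    exact hlint

end AvgAux

theorem avg_sub_le {ψ : E3 → ℝ} {g : E3 → E3} (h : H1 ψ g) {ℓ : ℝ} (hℓ : 0 < ℓ) :
    MemLp (avg ℓ ψ) 2 volume ∧ ∫ x, (ψ x - avg ℓ ψ x) ^ 2 ≤ ℓ ^ 2 * kin g := by
  obtain ⟨ψ', hm, he⟩ : ∃ ψ' : E3 → ℝ, Measurable ψ' ∧ ψ =ᵐ[volume] ψ' :=
    ⟨h.memLp.1.mk ψ, h.memLp.1.stronglyMeasurable_mk.measurable, h.memLp.1.ae_eq_mk⟩
  have h' : H1 ψ' g := h.congr he.symm EventuallyEq.rfl
  have hav : avg ℓ ψ = avg ℓ ψ' := by
    funext x
    rw [avg, avg]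
    congr 1
    exact integral_congr_ae (ae_restrict_of_ae he)
  obtain ⟨h1, h2⟩ := AvgAux.main h' hm hℓ
  refine ⟨hav ▸ h1, ?_⟩
  rw [hav]
  refine le_trans (le_of_eq ?_) h2
  exact integral_congr_ae (he.mono fun x hx => by simp only [hx])

end Pool.Agent.W_MP_b91f46_mp
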