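import Pool.Agent.W_MP_b91f46_mp.NonlinB

open MeasureTheory Filter Topology Set
open scoped RealInnerProductSpace ContDiff ENNReal

namespace Pool.Agent.W_MP_b91f46_mp

namespace BLAux

lemma sub_sq_rpow_le {p : ℝ} (hp : 0 < p) (a b : ℝ) :
    ((a - b) ^ 2) ^ p ≤ 4 ^ p * ((a ^ 2) ^ p + (b ^ 2) ^ p) := by
  have h1 : (a - b) ^ 2 ≤ 4 * max (a ^ 2) (b ^ 2) := by
    nlinarith [le_max_left (a ^ 2) (b ^ 2), le_max_right (a ^ 2) (b ^ 2), sq_nonneg (a + b)]
  have h2 : ((a - b) ^ 2) ^ p ≤ (4 * max (a ^ 2) (b ^ 2)) ^ p :=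
    Real.rpow_le_rpow (sq_nonneg _) h1 hp.le
  rw [Real.mul_rpow (by norm_num) (le_max_of_le_left (sq_nonneg a))] at h2
  refine h2.trans (mul_le_mul_of_nonneg_left ?_ (by positivity))
  rcases le_total (a ^ 2) (b ^ 2) with h | h
  · rw [max_eq_right h]
    have : 0 ≤ (a ^ 2) ^ p := by positivity
    linarith
  · rw [max_eq_left h]
    have : 0 ≤ (b ^ 2) ^ p := by positivity
    linarith

lemma integrable_of_ae_lim {f : ℕ → E3 → ℝ} {g : E3 → ℝ} {C : ℝ} (hf : ∀ n, Integrable (f n))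
    (h0 : ∀ n x, 0 ≤ f n x) (hC : ∀ n, ∫ x, f n x ≤ C)
    (hlim : ∀ᵐ x, Tendsto (fun n => f n x) atTop (𝓝 (g x))) : Integrable g := by
  have hm : AEStronglyMeasurable g volume := aestronglyMeasurable_of_tendsto_ae atTop
    (fun n => (hf n).1) hlim
  rw [← memLp_one_iff_integrable]
  refine ⟨hm, ?_⟩
  refine lt_of_le_of_lt (Lp.eLpNorm_lim_le_liminf_eLpNorm (fun n => (hf n).1) g hlim) ?_
  refine lt_of_le_of_lt (b := ENNReal.ofReal C) ?_ ENNReal.ofReal_lt_top
  refine Filter.liminf_le_of_frequently_le' (Frequently.of_forall fun n => ?_)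
  rw [eLpNorm_one_eq_lintegral_enorm, ← ofReal_integral_norm_eq_lintegral_enorm (hf n)]
  refine ENNReal.ofReal_le_ofReal ?_
  have : ∀ x, ‖f n x‖ = f n x := fun x => by rw [Real.norm_eq_abs, abs_of_nonneg (h0 n x)]
  simp only [this]
  exact hC n

end BLAux

open BLAux in
theorem brezis_lieb {p : ℝ} (hp : 4 / 3 < p) {u : ℕ → E3 → ℝ} {w : E3 → ℝ} {C : ℝ}
    (hu : ∀ n, MemLp (u n) 2 volume) (hw : MemLp w 2 volume)
    (hup : ∀ n, Integrable (fun x => (u n x ^ 2) ^ p))
    (hm : ∀ n, mass (u n) ≤ C) (hC : ∀ n, ∫ x, (u n x ^ 2) ^ p ≤ C)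
    (hae : ∀ᵐ x, Tendsto (fun n => u n x) atTop (𝓝 (w x))) :
    Integrable (fun x => (w x ^ 2) ^ p) ∧ (∀ n, Integrable (fun x => ((u n x - w x) ^ 2) ^ p)) ∧
    Tendsto (fun n => ig p (u n) - ig p (fun x => u n x - w x)) atTop (𝓝 (ig p w)) := by
  have hp0 : 0 < p := by linarith
  obtain ⟨CG, hCG, hG⟩ := abs_G_le hp
  have hmeas : ∀ {f : E3 → ℝ}, MemLp f 2 volume →
      AEStronglyMeasurable (fun x => (f x ^ 2) ^ p) volume := fun {f} hf =>
    ((hf.1.aemeasurable.pow_const 2).pow_const p).aestronglyMeasurable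
  have hmeasG : ∀ {f : E3 → ℝ}, MemLp f 2 volume →
      AEStronglyMeasurable (fun x => G p (f x ^ 2)) volume := fun {f} hf =>
    (continuous_G hp).comp_aestronglyMeasurable (hf.1.pow 2)
  have hwlim : ∀ᵐ x, Tendsto (fun n => (u n x ^ 2) ^ p) atTop (𝓝 ((w x ^ 2) ^ p)) := by
    filter_upwards [hae] with x hx
    exact (hx.pow 2).rpow_const (Or.inr hp0.le)
  have hwp : Integrable (fun x => (w x ^ 2) ^ p) :=
    integrable_of_ae_lim hup (fun n x => by positivity) hC hwlim
  have hd : ∀ n, MemLp (fun x => u n x - w x) 2 volume := fun n => (hu n).sub hw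
  have hdp : ∀ n, Integrable (fun x => ((u n x - w x) ^ 2) ^ p) := fun n => by
    refine Integrable.mono' (((hup n).add hwp).const_mul (4 ^ p)) (hmeas (hd n)) ?_
    refine Eventually.of_forall fun x => ?_
    rw [Real.norm_eq_abs, abs_of_nonneg (by positivity)]
    exact sub_sq_rpow_le hp0 _ _
  refine ⟨hwp, hdp, ?_⟩
  -- integrability of the `G` terms
  have hGi : ∀ {f : E3 → ℝ}, MemLp f 2 volume → Integrable (fun x => (f x ^ 2) ^ p) →
      Integrable (fun x => G p (f x ^ 2)) := fun {f} hf hfp => by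
    refine Integrable.mono' ((hf.integrable_sq.add hfp).const_mul CG) (hmeasG hf) ?_
    exact Eventually.of_forall fun x => hG _ (sq_nonneg _)
  have hGu := fun n => hGi (hu n) (hup n)
  have hGd := fun n => hGi (hd n) (hdp n)
  have hGw := hGi hw hwp
  set F : ℕ → E3 → ℝ := fun n x => |G p (u n x ^ 2) - G p ((u n x - w x) ^ 2) - G p (w x ^ 2)|
    with hF
  have hFi : ∀ n, Integrable (F n) := fun n => (((hGu n).sub (hGd n)).sub hGw).abs
  have hF0 : ∀ᵐ x, Tendsto (fun n => F n x) atTop (𝓝 0) := by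
    filter_upwards [hae] with x hx
    have h1 : Tendsto (fun n => G p (u n x ^ 2)) atTop (𝓝 (G p (w x ^ 2))) :=
      ((continuous_G hp).tendsto _).comp (hx.pow 2)
    have h2 : Tendsto (fun n => G p ((u n x - w x) ^ 2)) atTop (𝓝 (G p 0)) := by
      have : Tendsto (fun n => (u n x - w x) ^ 2) atTop (𝓝 0) := by
        have := (hx.sub_const (w x)).pow 2
        simpa using this
      exact ((continuous_G hp).tendsto _).comp this
    rw [G_zero hp] at h2
    have h3 := ((h1.sub h2).sub_const (G p (w x ^ 2))).abs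
    simpa [hF] using h3
  -- the functions `X(s) = s² + (s²)^p`
  set Xd : ℕ → E3 → ℝ := fun n x => (u n x - w x) ^ 2 + ((u n x - w x) ^ 2) ^ p with hXd
  set Xw : E3 → ℝ := fun x => w x ^ 2 + (w x ^ 2) ^ p with hXw
  have hXdi : ∀ n, Integrable (Xd n) := fun n => (hd n).integrable_sq.add (hdp n)
  have hXwi : Integrable Xw := hw.integrable_sq.add hwp
  have hXd0 : ∀ n x, 0 ≤ Xd n x := fun n x => by simp only [hXd]; positivity
  have hXw0 : ∀ x, 0 ≤ Xw x := fun x => by simp only [hXw]; positivity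
  set K : ℝ := 2 * C + 2 * mass w + 4 ^ p * (C + ∫ x, (w x ^ 2) ^ p) with hK
  have hXK : ∀ n, ∫ x, Xd n x ≤ K := fun n => by
    have e1 : ∫ x, Xd n x = (∫ x, (u n x - w x) ^ 2) + ∫ x, ((u n x - w x) ^ 2) ^ p :=
      integral_add (hd n).integrable_sq (hdp n)
    have e2 : ∫ x, (u n x - w x) ^ 2 ≤ 2 * C + 2 * mass w := by
      have : ∫ x, (u n x - w x) ^ 2 ≤ ∫ x, (2 * u n x ^ 2 + 2 * w x ^ 2) := by
        refine integral_mono (hd n).integrable_sq
          (((hu n).integrable_sq.const_mul 2).add (hw.integrable_sq.const_mul 2)) fun x => ?_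
        show (u n x - w x) ^ 2 ≤ 2 * u n x ^ 2 + 2 * w x ^ 2
        nlinarith [sq_nonneg (u n x + w x)]
      rw [integral_add ((hu n).integrable_sq.const_mul 2) (hw.integrable_sq.const_mul 2),
        integral_const_mul, integral_const_mul] at this
      have hmn : (∫ x, u n x ^ 2) ≤ C := hm n
      have : mass w = ∫ x, w x ^ 2 := rfl
      linarith
    have e3 : ∫ x, ((u n x - w x) ^ 2) ^ p ≤ 4 ^ p * (C + ∫ x, (w x ^ 2) ^ p) := by
      have : ∫ x, ((u n x - w x) ^ 2) ^ p ≤ ∫ x, 4 ^ p * ((u n x ^ 2) ^ p + (w x ^ 2) ^ p) :=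
        integral_mono (hdp n) (((hup n).add hwp).const_mul _) fun x => sub_sq_rpow_le hp0 _ _
      rw [integral_const_mul, integral_add (hup n) hwp] at this
      refine this.trans (mul_le_mul_of_nonneg_left ?_ (by positivity))
      linarith [hC n]
    rw [e1]; linarith
  have hK0 : 0 ≤ K := (integral_nonneg (hXd0 0)).trans (hXK 0)
  -- main limit
  have hmain : Tendsto (fun n => ∫ x, F n x) atTop (𝓝 0) := by
    rw [Metric.tendsto_atTop]
    intro δ hδ
    set ε : ℝ := δ / (2 * (K + 1)) with hε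
    have hεpos : 0 < ε := by positivity
    obtain ⟨Cε, hCε, hbl⟩ := G_brezis_lieb hp hεpos
    set W : ℕ → E3 → ℝ := fun n x => max (F n x - ε * Xd n x) 0 with hW
    have hWle : ∀ n x, W n x ≤ (Cε + CG) * Xw x := fun n x => by
      refine max_le ?_ (mul_nonneg (by positivity) (hXw0 x))
      have h1 := hbl (u n x - w x) (w x)
      rw [sub_add_cancel] at h1
      have h2 := hG (w x ^ 2) (sq_nonneg _)
      have h3 : F n x ≤ |G p (u n x ^ 2) - G p ((u n x - w x) ^ 2)| + |G p (w x ^ 2)| := abs_sub _ _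
      have h4 : Cε * (w x ^ 2 + (w x ^ 2) ^ p) + CG * (w x ^ 2 + (w x ^ 2) ^ p)
          = (Cε + CG) * Xw x := by simp only [hXw]; ring
      have h5 : ε * ((u n x - w x) ^ 2 + ((u n x - w x) ^ 2) ^ p) = ε * Xd n x := rfl
      linarith
    have hWi : ∀ n, Integrable (W n) := fun n =>
      ((hFi n).sub ((hXdi n).const_mul ε)).pos_part
    have hWlim : Tendsto (fun n => ∫ x, W n x) atTop (𝓝 (∫ _x : E3, (0 : ℝ))) := by
      refine tendsto_integral_of_dominated_convergence (fun x => (Cε + CG) * Xw x)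
        (fun n => (hWi n).1) (hXwi.const_mul _) (fun n => Eventually.of_forall fun x => ?_) ?_
      · rw [Real.norm_eq_abs, abs_of_nonneg (le_max_right _ _)]
        exact hWle n x
      · filter_upwards [hF0] with x hx
        refine tendsto_of_tendsto_of_tendsto_of_le_of_le tendsto_const_nhds hx
          (fun n => le_max_right _ _) fun n => ?_
        refine max_le ?_ (abs_nonneg _)
        have := mul_nonneg hεpos.le (hXd0 n x)
        linarith
    rw [integral_zero] at hWlim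
    obtain ⟨N, hN⟩ := (Metric.tendsto_atTop.1 hWlim) (δ / 2) (by positivity)
    refine ⟨N, fun n hn => ?_⟩
    have h1 := hN n hn
    rw [Real.dist_eq, sub_zero, abs_of_nonneg (integral_nonneg fun x => le_max_right _ _)] at h1
    rw [Real.dist_eq, sub_zero, abs_of_nonneg (integral_nonneg fun x => abs_nonneg _)]
    have h2 : ∫ x, F n x ≤ ∫ x, (W n x + ε * Xd n x) := by
      refine integral_mono (hFi n) ((hWi n).add ((hXdi n).const_mul ε)) fun x => ?_
      have : F n x - ε * Xd n x ≤ W n x := le_max_left _ _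
      show F n x ≤ W n x + ε * Xd n x
      linarith
    rw [integral_add (hWi n) ((hXdi n).const_mul ε), integral_const_mul] at h2
    have h3 : ε * ∫ x, Xd n x ≤ ε * K := mul_le_mul_of_nonneg_left (hXK n) hεpos.le
    have h4 : ε * K < δ / 2 := by
      rw [hε, div_mul_eq_mul_div, div_lt_div_iff₀ (by positivity) (by norm_num)]
      nlinarith
    linarith
  -- conclude
  rw [tendsto_iff_norm_sub_tendsto_zero]
  refine squeeze_zero (fun n => norm_nonneg _) (fun n => ?_) hmain
  have e : ig p (u n) - ig p (fun x => u n x - w x) - ig p w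
      = ∫ x, (G p (u n x ^ 2) - G p ((u n x - w x) ^ 2) - G p (w x ^ 2)) := by
    have e1 := integral_sub ((hGu n).sub (hGd n)) hGw
    have e2 := integral_sub (hGu n) (hGd n)
    simp only [Pi.sub_apply] at e1
    rw [e1, e2]
    rfl
  rw [e]
  exact norm_integral_le_integral_norm _

end Pool.Agent.W_MP_b91f46_mp
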