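import Pool.Agent.W_MP_b91f46_mp.Nuc

open MeasureTheory Filter Topology Set
open scoped RealInnerProductSpace ContDiff ENNReal

namespace Pool.Agent.W_MP_b91f46_mp

theorem coul_nonneg {ρ : E3 → ℝ} (h : ∀ x, 0 ≤ ρ x) : 0 ≤ coul ρ := by
  unfold coul pot
  refine mul_nonneg (by norm_num) (integral_nonneg fun x => mul_nonneg (h x) ?_)
  exact integral_nonneg fun y => div_nonneg (h y) (norm_nonneg _)

namespace CoulAux

theorem meas_ker {f : E3 → ℝ} (hf : AEStronglyMeasurable f volume) :
    AEStronglyMeasurable (fun z : E3 × E3 => f z.2 / ‖z.1 - z.2‖)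
      ((volume : Measure E3).prod (volume : Measure E3)) := by
  have h1 : AEStronglyMeasurable (fun z : E3 × E3 => f z.2)
      ((volume : Measure E3).prod (volume : Measure E3)) := hf.comp_snd
  have h2 : Measurable (fun z : E3 × E3 => ‖z.1 - z.2‖⁻¹) := by fun_prop
  simp_rw [div_eq_mul_inv]
  exact h1.mul h2.aestronglyMeasurable

theorem meas_pot {f : E3 → ℝ} (hf : AEStronglyMeasurable f volume) :
    AEStronglyMeasurable (pot f) volume :=
  (meas_ker hf).integral_prod_right'

/-- `f` integrable with bounded Coulomb potential of `|f|`. -/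
structure Nice (f : E3 → ℝ) (B : ℝ) : Prop where
  int : Integrable f
  intk : ∀ x, Integrable (fun y => f y / ‖x - y‖)
  bdd : ∀ x, pot (fun y => |f y|) x ≤ B

theorem Nice.abs_pot_le {f : E3 → ℝ} {B : ℝ} (h : Nice f B) (x : E3) : |pot f x| ≤ B := by
  refine le_trans ?_ (h.bdd x)
  unfold pot
  refine abs_integral_le_integral_abs.trans (le_of_eq ?_)
  congr 1
  ext y
  rw [abs_div, abs_norm]

theorem Nice.int_mul {f k : E3 → ℝ} {B : ℝ} (h : Nice f B) (hk : Integrable k) :
    Integrable (fun x => k x * pot f x) := by
  refine hk.mul_bdd (c := B) (meas_pot h.int.1) (Eventually.of_forall fun x => ?_)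
  exact h.abs_pot_le x

theorem Nice.swap {f k : E3 → ℝ} {B B' : ℝ} (h : Nice f B) (hk : Nice k B') :
    ∫ x, f x * pot k x = ∫ x, k x * pot f x := by
  have hm : AEStronglyMeasurable (Function.uncurry fun x y : E3 => f x * (k y / ‖x - y‖))
      ((volume : Measure E3).prod (volume : Measure E3)) := by
    have h1 : AEStronglyMeasurable (fun z : E3 × E3 => f z.1)
      ((volume : Measure E3).prod (volume : Measure E3)) := h.int.1.comp_fst
    exact h1.mul (meas_ker hk.int.1)
  have e0 : ∀ y : E3, ∫ x, ‖Function.uncurry (fun x y : E3 => f x * (k y / ‖x - y‖)) (x, y)‖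
      = |k y| * pot (fun x => |f x|) y := by
    intro y
    unfold pot
    rw [← integral_const_mul]
    congr 1
    ext x
    simp only [Function.uncurry_apply_pair, norm_mul, norm_div, Real.norm_eq_abs, abs_norm]
    rw [norm_sub_rev]
    ring
  have hi : Integrable (Function.uncurry fun x y : E3 => f x * (k y / ‖x - y‖))
      ((volume : Measure E3).prod (volume : Measure E3)) := by
    rw [integrable_prod_iff' hm]
    constructor
    · refine Eventually.of_forall fun y => ?_
      refine ((h.intk y).mul_const (k y)).congr (Eventually.of_forall fun x => ?_)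
      simp only [Function.uncurry_apply_pair]
      rw [norm_sub_rev]
      ring
    · simp_rw [e0]
      refine (hk.int.abs).mul_bdd (c := B) (meas_pot h.int.abs.1)
        (Eventually.of_forall fun x => ?_)
      rw [Real.norm_of_nonneg]
      · exact h.bdd x
      · exact integral_nonneg fun y => div_nonneg (abs_nonneg _) (norm_nonneg _)
  have := integral_integral_swap hi
  have e1 : ∀ x, ∫ y, f x * (k y / ‖x - y‖) = f x * pot k x := fun x => integral_const_mul _ _
  have e2 : ∀ y, ∫ x, f x * (k y / ‖x - y‖) = k y * pot f y := by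
    intro y
    unfold pot
    rw [← integral_const_mul]
    congr 1
    ext x
    rw [norm_sub_rev]
    ring
  simp_rw [e1, e2] at this
  exact this

theorem Nice.of_sq {u : E3 → ℝ} {gu : E3 → E3} (hu : H1 u gu) {B : ℝ}
    (hB : ∀ x, pot (fun y => u y ^ 2) x ≤ B) : Nice (fun y => u y ^ 2) B where
  int := hu.memLp.integrable_sq
  intk x := by
    refine ((nuc_le hu x).1).congr (Eventually.of_forall fun y => ?_)
    simp only
    rw [norm_sub_rev]
  bdd x := by
    simpa using hB x

end CoulAux

open CoulAux in
theorem coul_split {u r : E3 → ℝ} {gu gr : E3 → E3} (hu : H1 u gu) (hr : H1 r gr) {B : ℝ}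
    (hBu : ∀ x, pot (fun y => u y ^ 2) x ≤ B) (hBr : ∀ x, pot (fun y => r y ^ 2) x ≤ B) :
    coul (fun x => u x ^ 2) + coul (fun x => r x ^ 2) - 6 * B * ∫ x, |u x * r x|
      ≤ coul (fun x => (u x + r x) ^ 2) := by
  have na := Nice.of_sq hu hBu
  have nb := Nice.of_sq hr hBr
  set a : E3 → ℝ := fun y => u y ^ 2 with ha
  set b : E3 → ℝ := fun y => r y ^ 2 with hb
  set c : E3 → ℝ := fun y => 2 * (u y * r y) with hc
  have hcab : ∀ y, |c y| ≤ a y + b y := by
    intro y
    simp only [hc, ha, hb]
    rw [abs_le]
    constructor <;> nlinarith [sq_nonneg (u y + r y), sq_nonneg (u y - r y)]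
  have ci : Integrable c := (hu.memLp.integrable_mul hr.memLp).const_mul 2
  have ci' : Integrable (fun x => u x * r x) := hu.memLp.integrable_mul hr.memLp
  have ck : ∀ x, Integrable (fun y => c y / ‖x - y‖) := by
    intro x
    refine ((na.intk x).add (nb.intk x)).mono' ?_ (Eventually.of_forall fun y => ?_)
    · have h2 : Measurable (fun y : E3 => ‖x - y‖⁻¹) := by fun_prop
      simp_rw [div_eq_mul_inv]
      exact ci.1.mul h2.aestronglyMeasurable
    · rw [norm_div, norm_norm, Pi.add_apply, ← add_div]
      exact div_le_div_of_nonneg_right (hcab y) (norm_nonneg _)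
  have pa0 : ∀ x, 0 ≤ pot a x := fun x =>
    integral_nonneg fun y => div_nonneg (sq_nonneg _) (norm_nonneg _)
  have pb0 : ∀ x, 0 ≤ pot b x := fun x =>
    integral_nonneg fun y => div_nonneg (sq_nonneg _) (norm_nonneg _)
  have cle : ∀ x, pot (fun y => |c y|) x ≤ pot a x + pot b x := by
    intro x
    unfold pot
    rw [← integral_add (na.intk x) (nb.intk x)]
    refine integral_mono ?_ ((na.intk x).add (nb.intk x)) fun y => ?_
    · refine (ck x).abs.congr (Eventually.of_forall fun y => ?_)
      simp only
      rw [abs_div, abs_norm]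
    · simp only [Pi.add_apply]
      rw [← add_div]
      exact div_le_div_of_nonneg_right (hcab y) (norm_nonneg _)
  have nc : Nice c (2 * B) := ⟨ci, ck, fun x => by linarith [cle x, hBu x, hBr x]⟩
  have pcle : ∀ x, |pot c x| ≤ pot a x + pot b x := by
    intro x
    refine le_trans ?_ (cle x)
    unfold pot
    refine abs_integral_le_integral_abs.trans (le_of_eq ?_)
    congr 1
    ext y
    rw [abs_div, abs_norm]
  have e0 : (fun x => (u x + r x) ^ 2) = fun x => a x + b x + c x := by
    ext x
    simp only [ha, hb, hc]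
    ring
  have e1 : ∀ x, pot (fun x => a x + b x + c x) x = pot a x + pot b x + pot c x := by
    intro x
    unfold pot
    rw [← integral_add (na.intk x) (nb.intk x), ← integral_add ?_ (ck x)]
    · congr 1
      ext y
      ring
    · exact (na.intk x).add (nb.intk x)
  rw [e0]
  unfold coul
  simp_rw [e1]
  have i1 := na.int_mul na.int
  have i2 := nb.int_mul nb.int
  have i3 := nb.int_mul na.int
  have i4 := na.int_mul nb.int
  have i5 := nc.int_mul na.int
  have i6 := nc.int_mul nb.int
  have i7 := na.int_mul ci
  have i8 := nb.int_mul ci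
  have i9 := nc.int_mul ci
  have s1 : ∫ x, a x * pot c x = ∫ x, c x * pot a x := na.swap nc
  have s2 : ∫ x, b x * pot c x = ∫ x, c x * pot b x := nb.swap nc
  have p1 : 0 ≤ ∫ x, a x * pot b x := integral_nonneg fun x => mul_nonneg (sq_nonneg _) (pb0 x)
  have p2 : 0 ≤ ∫ x, b x * pot a x := integral_nonneg fun x => mul_nonneg (sq_nonneg _) (pa0 x)
  have e2 : ∫ x, (a x + b x + c x) * (pot a x + pot b x + pot c x)
      = (∫ x, a x * pot a x) + (∫ x, b x * pot b x) + (∫ x, a x * pot b x)
        + (∫ x, b x * pot a x) + (∫ x, a x * pot c x) + (∫ x, b x * pot c x)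
        + (∫ x, c x * pot a x) + (∫ x, c x * pot b x) + (∫ x, c x * pot c x) := by
    have j2 : Integrable (fun x => a x * pot a x + b x * pot b x) := i1.add i2
    have j3 : Integrable (fun x => a x * pot a x + b x * pot b x + a x * pot b x) := j2.add i3
    have j4 : Integrable (fun x => a x * pot a x + b x * pot b x + a x * pot b x
      + b x * pot a x) := j3.add i4
    have j5 : Integrable (fun x => a x * pot a x + b x * pot b x + a x * pot b x
      + b x * pot a x + a x * pot c x) := j4.add i5
    have j6 : Integrable (fun x => a x * pot a x + b x * pot b x + a x * pot b x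
      + b x * pot a x + a x * pot c x + b x * pot c x) := j5.add i6
    have j7 : Integrable (fun x => a x * pot a x + b x * pot b x + a x * pot b x
      + b x * pot a x + a x * pot c x + b x * pot c x + c x * pot a x) := j6.add i7
    have j8 : Integrable (fun x => a x * pot a x + b x * pot b x + a x * pot b x
      + b x * pot a x + a x * pot c x + b x * pot c x + c x * pot a x + c x * pot b x) := j7.add i8
    rw [← integral_add i1 i2, ← integral_add j2 i3, ← integral_add j3 i4, ← integral_add j4 i5,
      ← integral_add j5 i6, ← integral_add j6 i7, ← integral_add j7 i8, ← integral_add j8 i9]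
    congr 1
    ext x
    ring
  have e3 : -(12 * B * ∫ x, |u x * r x|) ≤ 2 * (∫ x, c x * pot a x) + 2 * (∫ x, c x * pot b x)
      + (∫ x, c x * pot c x) := by
    have k1 : Integrable (fun x => 2 * (c x * pot a x)) := i7.const_mul 2
    have k2 : Integrable (fun x => 2 * (c x * pot b x)) := i8.const_mul 2
    have k3 : Integrable (fun x => 2 * (c x * pot a x) + 2 * (c x * pot b x)) := k1.add k2
    rw [← integral_const_mul, ← integral_const_mul 2, ← integral_const_mul 2, ← integral_neg,
      ← integral_add k1 k2, ← integral_add k3 i9]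
    refine integral_mono ((ci'.abs.const_mul _).neg) (k3.add i9) fun x => ?_
    have h1 := abs_le.1 (pcle x)
    have h2 : |2 * pot a x + 2 * pot b x + pot c x| ≤ 6 * B := by
      rw [abs_le]
      constructor <;> linarith [hBu x, hBr x, pa0 x, pb0 x, h1.1, h1.2]
    have h3 : |c x * (2 * pot a x + 2 * pot b x + pot c x)| ≤ 12 * B * |u x * r x| := by
      rw [abs_mul]
      have : |c x| = 2 * |u x * r x| := by
        simp only [hc]
        rw [abs_mul, abs_of_pos (by norm_num : (0 : ℝ) < 2)]
      rw [this]
      have := mul_le_mul_of_nonneg_left h2 (by positivity : 0 ≤ 2 * |u x * r x|)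
      linarith
    have h4 := (abs_le.1 h3).1
    simp only
    linarith
  rw [e2]
  linarith

end Pool.Agent.W_MP_b91f46_mp
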