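import Pool.Agent.W_MP_b91f46_mp.Translate

open MeasureTheory Filter Topology Set
open scoped RealInnerProductSpace ContDiff ENNReal

namespace Pool.Agent.W_MP_b91f46_mp

namespace NucAux

/-- Cauchy-Schwarz. -/
theorem cs {α : Type*} [MeasurableSpace α] {μ : Measure α} {f k : α → ℝ} (hf : MemLp f 2 μ)
    (hk : MemLp k 2 μ) :
    |∫ x, f x * k x ∂μ| ≤ √(∫ x, f x ^ 2 ∂μ) * √(∫ x, k x ^ 2 ∂μ) := by
  have h1 := MeasureTheory.integral_mul_norm_le_Lp_mul_Lq (μ := μ) (p := 2) (q := 2) (f := f)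
    (g := k) Real.HolderConjugate.two_two (by simpa using hf) (by simpa using hk)
  have h2 : |∫ x, f x * k x ∂μ| ≤ ∫ x, ‖f x‖ * ‖k x‖ ∂μ := by
    refine (abs_integral_le_integral_abs).trans (le_of_eq ?_)
    congr 1
    ext x
    rw [abs_mul]
    rfl
  refine h2.trans (h1.trans (le_of_eq ?_))
  rw [Real.sqrt_eq_rpow, Real.sqrt_eq_rpow]
  congr 2 <;> · congr 1; ext x; simp

theorem int_mul {α : Type*} [MeasurableSpace α] {μ : Measure α} {f k : α → ℝ} (hf : MemLp f 2 μ)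
    (hk : MemLp k 2 μ) : Integrable (fun x => f x * k x) μ :=
  hf.integrable_mul hk

/-- Minkowski. -/
theorem mink {α : Type*} [MeasurableSpace α] {μ : Measure α} {f k : α → ℝ} (hf : MemLp f 2 μ)
    (hk : MemLp k 2 μ) :
    √(∫ x, (f x + k x) ^ 2 ∂μ) ≤ √(∫ x, f x ^ 2 ∂μ) + √(∫ x, k x ^ 2 ∂μ) := by
  rw [Real.sqrt_le_iff]
  refine ⟨by positivity, ?_⟩
  have i1 : Integrable (fun x => f x ^ 2) μ := hf.integrable_sq
  have i2 : Integrable (fun x => k x ^ 2) μ := hk.integrable_sq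
  have i3 : Integrable (fun x => 2 * (f x * k x)) μ := (int_mul hf hk).const_mul 2
  have i4 : Integrable (fun x => f x ^ 2 + 2 * (f x * k x)) μ := i1.add i3
  have h1 : ∫ x, (f x + k x) ^ 2 ∂μ = ∫ x, f x ^ 2 ∂μ + 2 * ∫ x, f x * k x ∂μ
      + ∫ x, k x ^ 2 ∂μ := by
    rw [← integral_const_mul, ← integral_add i1 i3, ← integral_add i4 i2]
    congr 1
    ext x
    ring
  have h2 := (abs_le.1 (cs hf hk)).2
  have h3 : 0 ≤ ∫ x, f x ^ 2 ∂μ := integral_nonneg fun x => sq_nonneg _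
  have h4 : 0 ≤ ∫ x, k x ^ 2 ∂μ := integral_nonneg fun x => sq_nonneg _
  have h5 := Real.sq_sqrt h3
  have h6 := Real.sq_sqrt h4
  rw [h1]
  nlinarith

theorem memLp_translate {ψ : E3 → ℝ} (h : MemLp ψ 2 volume) (a : E3) :
    MemLp (fun x => ψ (x + a)) 2 volume :=
  h.comp_measurePreserving (measurePreserving_add_right volume a)

theorem memLp_mul_bdd {ψ η : E3 → ℝ} (h : MemLp ψ 2 volume) (hη : Continuous η) {M : ℝ}
    (hM : ∀ x, |η x| ≤ M) : MemLp (fun x => ψ x * η x) 2 volume := by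
  refine h.of_le_mul (c := M) (h.aestronglyMeasurable.mul hη.aestronglyMeasurable) ?_
  refine Eventually.of_forall fun x => ?_
  rw [norm_mul, mul_comm]
  exact mul_le_mul_of_nonneg_right (hM x) (norm_nonneg _)

theorem step {ψ : E3 → ℝ} {g : E3 → E3} (h : H1 ψ g) {η : E3 → ℝ} (hη : Continuous η)
    {M : ℝ} (hM : ∀ x, |η x| ≤ M) (v : E3) {c : ℝ} (hc : 0 < c) :
    ∫ x, ψ x ^ 2 * (c * (η (x + c⁻¹ • v) - η x)) ≤
      √(∫ x, ⟪g x, v⟫ ^ 2) * (√(∫ x, (ψ x * η (x + c⁻¹ • v)) ^ 2) + √(∫ x, (ψ x * η x) ^ 2)) := by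
  set w : E3 := c⁻¹ • v with hw
  have hη' : Continuous fun x => η (x + w) := hη.comp (continuous_id.add continuous_const)
  have m1 : MemLp (fun x => ψ x * η x) 2 volume := memLp_mul_bdd h.memLp hη hM
  have m2 : MemLp (fun x => ψ x * η (x + w)) 2 volume :=
    memLp_mul_bdd h.memLp hη' fun x => hM _
  have m3 : MemLp (fun x => ψ (x + (-w))) 2 volume := memLp_translate h.memLp _
  have m4 : MemLp (fun x => ψ (x + (-w)) * η x) 2 volume := memLp_mul_bdd m3 hη hM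
  have m5 : MemLp (fun x => ψ (x + (-w)) - ψ x) 2 volume := m3.sub h.memLp
  have m6 : MemLp (fun x => ψ (x + (-w)) * η x + ψ x * η x) 2 volume := m4.add m1
  have e1 : ∫ x, ψ x ^ 2 * (c * (η (x + w) - η x))
      = c * ∫ x, (ψ (x + (-w)) - ψ x) * (ψ (x + (-w)) * η x + ψ x * η x) := by
    have i1 : Integrable fun x => ψ x * (ψ x * η (x + w)) := int_mul h.memLp m2
    have i2 : Integrable fun x => ψ x * (ψ x * η x) := int_mul h.memLp m1
    have i3 : Integrable fun x => ψ (x + (-w)) * (ψ (x + (-w)) * η x) := int_mul m3 m4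
    have e2 : ∫ x, ψ x * (ψ x * η (x + w)) = ∫ x, ψ (x + (-w)) * (ψ (x + (-w)) * η x) := by
      have := integral_add_right_eq_self (μ := (volume : Measure E3))
        (fun x => ψ (x + (-w)) * (ψ (x + (-w)) * η x)) w
      rw [← this]
      simp
    calc ∫ x, ψ x ^ 2 * (c * (η (x + w) - η x))
        = c * ((∫ x, ψ x * (ψ x * η (x + w))) - ∫ x, ψ x * (ψ x * η x)) := by
          rw [← integral_sub i1 i2, ← integral_const_mul]
          congr 1
          ext x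
          ring
      _ = c * ((∫ x, ψ (x + (-w)) * (ψ (x + (-w)) * η x)) - ∫ x, ψ x * (ψ x * η x)) := by
          rw [e2]
      _ = c * ∫ x, (ψ (x + (-w)) - ψ x) * (ψ (x + (-w)) * η x + ψ x * η x) := by
          rw [← integral_sub i3 i2]
          congr 2
          ext x
          ring
  have h1 := (abs_le.1 (cs m5 m6)).2
  have h2 : √(∫ x, (ψ (x + (-w)) - ψ x) ^ 2) ≤ c⁻¹ * √(∫ x, ⟪g x, v⟫ ^ 2) := by
    have := translate_le h (-w)
    calc √(∫ x, (ψ (x + (-w)) - ψ x) ^ 2) ≤ √(∫ x, ⟪g x, -w⟫ ^ 2) := Real.sqrt_le_sqrt this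
      _ = √((c⁻¹) ^ 2 * ∫ x, ⟪g x, v⟫ ^ 2) := by
          rw [← integral_const_mul]
          congr 2
          ext x
          rw [hw, inner_neg_right, inner_smul_right]
          ring
      _ = c⁻¹ * √(∫ x, ⟪g x, v⟫ ^ 2) := by
          rw [Real.sqrt_mul (by positivity), Real.sqrt_sq (by positivity)]
  have h3 := mink m4 m1
  have e3 : ∫ x, (ψ (x + (-w)) * η x) ^ 2 = ∫ x, (ψ x * η (x + w)) ^ 2 := by
    have := integral_add_right_eq_self (μ := (volume : Measure E3))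
        (fun x => (ψ (x + (-w)) * η x) ^ 2) w
    rw [← this]
    simp
  rw [e3] at h3
  rw [e1]
  calc c * ∫ x, (ψ (x + (-w)) - ψ x) * (ψ (x + (-w)) * η x + ψ x * η x)
      ≤ c * ((c⁻¹ * √(∫ x, ⟪g x, v⟫ ^ 2)) *
          (√(∫ x, (ψ x * η (x + w)) ^ 2) + √(∫ x, (ψ x * η x) ^ 2))) := by
        refine mul_le_mul_of_nonneg_left (h1.trans ?_) hc.le
        exact mul_le_mul h2 h3 (Real.sqrt_nonneg _) (by positivity)
    _ = _ := by
        field_simp

theorem key {ψ : E3 → ℝ} {g : E3 → E3} (h : H1 ψ g) {η : E3 → ℝ} {K : NNReal}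
    (hd : Differentiable ℝ η) (hK : LipschitzWith K η) {M : ℝ} (hM : ∀ x, |η x| ≤ M) (v : E3) :
    ∫ x, ψ x ^ 2 * fderiv ℝ η x v ≤ √(∫ x, ⟪g x, v⟫ ^ 2) * (2 * √(∫ x, (ψ x * η x) ^ 2)) := by
  have hc : Continuous η := hd.continuous
  have hM0 : 0 ≤ M := (abs_nonneg _).trans (hM 0)
  have hψ : Integrable (fun x => ψ x ^ 2) := h.memLp.integrable_sq
  have hψm : AEStronglyMeasurable ψ volume := h.memLp.aestronglyMeasurable
  have t0 : Tendsto (fun n : ℕ => (n : ℝ) + 1) atTop atTop :=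
    tendsto_atTop_add_const_right _ _ tendsto_natCast_atTop_atTop
  have t1 : Tendsto (fun n : ℕ => ∫ x, ψ x ^ 2 * (((n : ℝ) + 1) *
      (η (x + ((n : ℝ) + 1)⁻¹ • v) - η x))) atTop (𝓝 (∫ x, ψ x ^ 2 * fderiv ℝ η x v)) := by
    refine tendsto_integral_of_dominated_convergence (fun x => ψ x ^ 2 * (K * ‖v‖)) ?_
      (hψ.mul_const _) ?_ ?_
    · intro n
      refine (hψm.pow 2).mul (Continuous.aestronglyMeasurable ?_)
      fun_prop
    · intro n
      refine Eventually.of_forall fun x => ?_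
      have hn : (0 : ℝ) < (n : ℝ) + 1 := by positivity
      have := hK.dist_le_mul (x + ((n : ℝ) + 1)⁻¹ • v) x
      rw [Real.dist_eq, dist_eq_norm, add_sub_cancel_left, norm_smul, norm_inv,
        Real.norm_of_nonneg hn.le] at this
      rw [norm_mul, norm_mul, Real.norm_of_nonneg (sq_nonneg _), Real.norm_of_nonneg hn.le]
      refine mul_le_mul_of_nonneg_left ?_ (sq_nonneg _)
      calc ((n : ℝ) + 1) * ‖η (x + ((n : ℝ) + 1)⁻¹ • v) - η x‖
          ≤ ((n : ℝ) + 1) * (K * (((n : ℝ) + 1)⁻¹ * ‖v‖)) :=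
            mul_le_mul_of_nonneg_left this hn.le
        _ = K * ‖v‖ := by field_simp
    · refine Eventually.of_forall fun x => ?_
      have := ((hd x).hasFDerivAt.lim_real v).comp t0
      exact (tendsto_const_nhds.mul this)
  have t2 : Tendsto (fun n : ℕ => ∫ x, (ψ x * η (x + ((n : ℝ) + 1)⁻¹ • v)) ^ 2) atTop
      (𝓝 (∫ x, (ψ x * η x) ^ 2)) := by
    refine tendsto_integral_of_dominated_convergence (fun x => ψ x ^ 2 * M ^ 2) ?_
      (hψ.mul_const _) ?_ ?_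
    · intro n
      refine (hψm.mul (Continuous.aestronglyMeasurable ?_)).pow 2
      fun_prop
    · intro n
      refine Eventually.of_forall fun x => ?_
      rw [Real.norm_of_nonneg (sq_nonneg _), mul_pow]
      refine mul_le_mul_of_nonneg_left ?_ (sq_nonneg _)
      have h7 := abs_le.1 (hM (x + ((n : ℝ) + 1)⁻¹ • v))
      exact sq_le_sq' h7.1 h7.2
    · refine Eventually.of_forall fun x => ?_
      have t3 : Tendsto (fun n : ℕ => x + ((n : ℝ) + 1)⁻¹ • v) atTop (𝓝 x) := by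
        have := (tendsto_const_nhds (x := x) (f := (atTop : Filter ℕ))).add
          ((tendsto_inv_atTop_zero.comp t0).smul_const v)
        simpa using this
      exact (tendsto_const_nhds.mul ((hc.tendsto x).comp t3)).pow 2
  have t4 : Tendsto (fun n : ℕ => √(∫ x, ⟪g x, v⟫ ^ 2) *
      (√(∫ x, (ψ x * η (x + ((n : ℝ) + 1)⁻¹ • v)) ^ 2) + √(∫ x, (ψ x * η x) ^ 2))) atTop
      (𝓝 (√(∫ x, ⟪g x, v⟫ ^ 2) * (√(∫ x, (ψ x * η x) ^ 2) + √(∫ x, (ψ x * η x) ^ 2)))) :=
    tendsto_const_nhds.mul (((Real.continuous_sqrt.tendsto _).comp t2).add tendsto_const_nhds)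
  rw [two_mul]
  exact le_of_tendsto_of_tendsto' t1 t4 fun n => step h hc hM v (by positivity)


/-- regularised distance -/
noncomputable def sR (a : E3) (d : ℝ) (x : E3) : ℝ := √(‖x - a‖ ^ 2 + d ^ 2)

/-- the vector field -/
noncomputable def et (a : E3) (d : ℝ) (i : Fin 3) (x : E3) : ℝ := (x - a) i * (sR a d x)⁻¹

theorem sR_pos {a : E3} {d : ℝ} (hd : 0 < d) (x : E3) : 0 < sR a d x :=
  Real.sqrt_pos.2 (by positivity)

theorem sR_sq {a : E3} {d : ℝ} (x : E3) : sR a d x ^ 2 = ‖x - a‖ ^ 2 + d ^ 2 :=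
  Real.sq_sqrt (by positivity)

theorem hasFDerivAt_sR {a : E3} {d : ℝ} (hd : 0 < d) (x : E3) :
    HasFDerivAt (sR a d) ((sR a d x)⁻¹ • innerSL ℝ (x - a)) x := by
  have h1 : HasFDerivAt (fun x : E3 => ‖x - a‖ ^ 2) (2 • (innerSL ℝ (x - a))) x := by
    have h0 : HasFDerivAt (fun x : E3 => x - a) (ContinuousLinearMap.id ℝ E3) x :=
      (hasFDerivAt_id x).sub_const a
    have := (hasStrictFDerivAt_norm_sq (x - a)).hasFDerivAt.comp x h0
    rwa [ContinuousLinearMap.comp_id] at this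
  have h2 : HasFDerivAt (fun x : E3 => ‖x - a‖ ^ 2 + d ^ 2) (2 • (innerSL ℝ (x - a))) x :=
    h1.add_const _
  have h3 := h2.sqrt (by positivity)
  have h4 : (sR a d x)⁻¹ • innerSL ℝ (x - a)
      = (1 / (2 * √(‖x - a‖ ^ 2 + d ^ 2))) • (2 • (innerSL ℝ (x - a))) := by
    rw [← Nat.cast_smul_eq_nsmul ℝ, smul_smul, sR]
    congr 1
    have : √(‖x - a‖ ^ 2 + d ^ 2) ≠ 0 := by positivity
    field_simp
    norm_num
  rw [h4]
  exact h3

theorem hasFDerivAt_et {a : E3} {d : ℝ} (hd : 0 < d) (i : Fin 3) (x : E3) :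
    HasFDerivAt (et a d i) ((x - a) i • (-((sR a d x) ^ 2)⁻¹ • ((sR a d x)⁻¹ • innerSL ℝ (x - a)))
      + (sR a d x)⁻¹ • (EuclideanSpace.proj i : E3 →L[ℝ] ℝ)) x := by
  have h1 : HasFDerivAt (fun x : E3 => (x - a) i) (EuclideanSpace.proj i : E3 →L[ℝ] ℝ) x := by
    have h0 : HasFDerivAt (fun x : E3 => x - a) (ContinuousLinearMap.id ℝ E3) x :=
      (hasFDerivAt_id x).sub_const a
    have := (EuclideanSpace.proj i : E3 →L[ℝ] ℝ).hasFDerivAt.comp x h0
    rwa [ContinuousLinearMap.comp_id] at this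
  have h2 : HasFDerivAt (fun x : E3 => (sR a d x)⁻¹)
      (-((sR a d x) ^ 2)⁻¹ • ((sR a d x)⁻¹ • innerSL ℝ (x - a))) x :=
    (hasDerivAt_inv (sR_pos hd x).ne').comp_hasFDerivAt x (hasFDerivAt_sR hd x)
  exact h1.mul h2

theorem fderiv_et {a : E3} {d : ℝ} (hd : 0 < d) (i : Fin 3) (x v : E3) :
    fderiv ℝ (et a d i) x v = v i * (sR a d x)⁻¹ - (x - a) i * ⟪x - a, v⟫ * ((sR a d x)⁻¹) ^ 3 := by
  rw [(hasFDerivAt_et hd i x).fderiv]
  have h1 : (EuclideanSpace.proj i : E3 →L[ℝ] ℝ) v = v i := rfl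
  simp only [add_apply, smul_apply, innerSL_apply_apply, smul_eq_mul, h1]
  have := (sR_pos (a := a) hd x).ne'
  field_simp
  ring

theorem abs_coord_le (x : E3) (i : Fin 3) : |x i| ≤ ‖x‖ := by
  simpa using PiLp.norm_apply_le x i

theorem norm_le_sR {a : E3} {d : ℝ} (x : E3) : ‖x - a‖ ≤ sR a d x :=
  Real.le_sqrt_of_sq_le (by nlinarith [sq_nonneg d])

theorem d_le_sR {a : E3} {d : ℝ} (x : E3) : d ≤ sR a d x :=
  Real.le_sqrt_of_sq_le (by nlinarith [sq_nonneg ‖x - a‖])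

theorem abs_et_le {a : E3} {d : ℝ} (hd : 0 < d) (i : Fin 3) (x : E3) : |et a d i x| ≤ 1 := by
  rw [et, abs_mul, abs_inv, abs_of_pos (sR_pos hd x), ← div_eq_mul_inv, div_le_one (sR_pos hd x)]
  exact (abs_coord_le _ _).trans (norm_le_sR x)

theorem lip_et {a : E3} {d : ℝ} (hd : 0 < d) (i : Fin 3) :
    LipschitzWith (Real.toNNReal (2 * d⁻¹)) (et a d i) := by
  refine lipschitzWith_of_nnnorm_fderiv_le (𝕜 := ℝ)
    (fun x => (hasFDerivAt_et hd i x).differentiableAt) fun x => ?_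
  rw [← NNReal.coe_le_coe, coe_nnnorm, Real.coe_toNNReal _ (by positivity)]
  refine ContinuousLinearMap.opNorm_le_bound _ (by positivity) fun v => ?_
  rw [fderiv_et hd]
  have hs := sR_pos (a := a) hd x
  have h1 := norm_le_sR (a := a) (d := d) x
  have h2 := d_le_sR (a := a) (d := d) x
  have h3 : (sR a d x)⁻¹ ≤ d⁻¹ := inv_anti₀ hd h2
  have h4 : ‖v i * (sR a d x)⁻¹‖ ≤ ‖v‖ * d⁻¹ := by
    rw [norm_mul, norm_inv, Real.norm_of_nonneg hs.le]
    exact mul_le_mul (abs_coord_le _ _) h3 (by positivity) (by positivity)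
  have h5 : ‖(x - a) i * ⟪x - a, v⟫ * ((sR a d x)⁻¹) ^ 3‖ ≤ ‖v‖ * d⁻¹ := by
    rw [norm_mul, norm_mul, norm_pow, norm_inv, Real.norm_of_nonneg hs.le]
    have h6 : ‖(x - a) i‖ ≤ sR a d x := (abs_coord_le _ _).trans h1
    have h7 : ‖⟪x - a, v⟫‖ ≤ sR a d x * ‖v‖ :=
      (norm_inner_le_norm _ _).trans (mul_le_mul_of_nonneg_right h1 (norm_nonneg _))
    calc ‖(x - a) i‖ * ‖⟪x - a, v⟫‖ * ((sR a d x)⁻¹) ^ 3
        ≤ sR a d x * (sR a d x * ‖v‖) * ((sR a d x)⁻¹) ^ 3 := by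
          gcongr
      _ = ‖v‖ * (sR a d x)⁻¹ := by field_simp
      _ ≤ ‖v‖ * d⁻¹ := by gcongr
  calc ‖v i * (sR a d x)⁻¹ - (x - a) i * ⟪x - a, v⟫ * ((sR a d x)⁻¹) ^ 3‖
      ≤ _ := norm_sub_le _ _
    _ ≤ ‖v‖ * d⁻¹ + ‖v‖ * d⁻¹ := add_le_add h4 h5
    _ = 2 * d⁻¹ * ‖v‖ := by ring

theorem sum_fderiv {a : E3} {d : ℝ} (hd : 0 < d) (x : E3) :
    2 * (sR a d x)⁻¹ ≤ ∑ i, fderiv ℝ (et a d i) x (EuclideanSpace.single i 1) := by
  have hs := sR_pos (a := a) hd x
  have h1 : ∀ i : Fin 3, fderiv ℝ (et a d i) x (EuclideanSpace.single i 1)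
      = (sR a d x)⁻¹ - ((x - a) i) ^ 2 * ((sR a d x)⁻¹) ^ 3 := by
    intro i
    rw [fderiv_et hd]
    have h2 : (EuclideanSpace.single i (1 : ℝ) : E3) i = 1 := by simp
    have h3 : ⟪x - a, EuclideanSpace.single i (1 : ℝ)⟫ = (x - a) i := by
      simp [EuclideanSpace.inner_single_right]
    rw [h2, h3]
    ring
  simp_rw [h1]
  rw [Finset.sum_sub_distrib, ← Finset.sum_mul]
  have h2 : ∑ i, ((x - a) i) ^ 2 = ‖x - a‖ ^ 2 := by
    rw [EuclideanSpace.norm_sq_eq]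
    simp
  rw [h2]
  simp only [Finset.sum_const, Finset.card_univ, Fintype.card_fin, nsmul_eq_mul]
  have h3 : ‖x - a‖ ^ 2 * ((sR a d x)⁻¹) ^ 3 ≤ (sR a d x)⁻¹ := by
    calc ‖x - a‖ ^ 2 * ((sR a d x)⁻¹) ^ 3 ≤ (sR a d x) ^ 2 * ((sR a d x)⁻¹) ^ 3 := by
          gcongr
          exact norm_le_sR x
      _ = (sR a d x)⁻¹ := by field_simp
  push_cast
  linarith

theorem sum_et_sq {a : E3} {d : ℝ} (hd : 0 < d) (x : E3) : ∑ i, (et a d i x) ^ 2 ≤ 1 := by
  have hs := sR_pos (a := a) hd x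
  simp_rw [et, mul_pow]
  rw [← Finset.sum_mul]
  have h2 : ∑ i, ((x - a) i) ^ 2 = ‖x - a‖ ^ 2 := by
    rw [EuclideanSpace.norm_sq_eq]
    simp
  rw [h2, inv_pow, ← div_eq_mul_inv, div_le_one (by positivity)]
  exact pow_le_pow_left₀ (norm_nonneg _) (norm_le_sR x) 2


theorem fatou_real {α : Type*} [MeasurableSpace α] {μ : Measure α} {f : ℕ → α → ℝ} {f' : α → ℝ}
    {C : ℝ} (h0 : ∀ n x, 0 ≤ f n x) (hi : ∀ n, Integrable (f n) μ) (hC : ∀ n, ∫ x, f n x ∂μ ≤ C)
    (hae : ∀ᵐ x ∂μ, Tendsto (fun n => f n x) atTop (𝓝 (f' x))) :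
    Integrable f' μ ∧ ∫ x, f' x ∂μ ≤ C := by
  have hm : AEStronglyMeasurable f' μ :=
    aestronglyMeasurable_of_tendsto_ae atTop (fun n => (hi n).1) hae
  have h0' : 0 ≤ᵐ[μ] f' := by
    filter_upwards [hae] with x hx
    exact ge_of_tendsto' hx fun n => h0 n x
  have h1 : ∫⁻ x, ENNReal.ofReal (f' x) ∂μ ≤ ENNReal.ofReal C := by
    calc ∫⁻ x, ENNReal.ofReal (f' x) ∂μ
        = ∫⁻ x, liminf (fun n => ENNReal.ofReal (f n x)) atTop ∂μ := by
          refine lintegral_congr_ae ?_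
          filter_upwards [hae] with x hx
          exact ((ENNReal.continuous_ofReal.tendsto _).comp hx).liminf_eq.symm
      _ ≤ liminf (fun n => ∫⁻ x, ENNReal.ofReal (f n x) ∂μ) atTop :=
          lintegral_liminf_le' fun n => (hi n).1.aemeasurable.ennreal_ofReal
      _ ≤ ENNReal.ofReal C := by
          refine liminf_le_of_frequently_le' (Eventually.frequently
            (Eventually.of_forall fun n => ?_))
          rw [← ofReal_integral_eq_lintegral_ofReal (hi n) (Eventually.of_forall (h0 n))]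
          exact ENNReal.ofReal_le_ofReal (hC n)
  have hC0 : 0 ≤ C := (integral_nonneg (h0 0)).trans (hC 0)
  have hi' : Integrable f' μ := by
    refine ⟨hm, ?_⟩
    rw [hasFiniteIntegral_iff_ofReal h0']
    exact h1.trans_lt ENNReal.ofReal_lt_top
  refine ⟨hi', ?_⟩
  rw [integral_eq_lintegral_of_nonneg_ae h0' hm]
  exact ENNReal.toReal_le_of_le_ofReal hC0 h1

theorem reg_le {ψ : E3 → ℝ} {g : E3 → E3} (h : H1 ψ g) (a : E3) {d : ℝ} (hd : 0 < d) :
    Integrable (fun x => ψ x ^ 2 * (sR a d x)⁻¹) ∧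
      ∫ x, ψ x ^ 2 * (sR a d x)⁻¹ ≤ √(mass ψ) * √(kin g) := by
  have hψ : Integrable (fun x => ψ x ^ 2) := h.memLp.integrable_sq
  have hψm : AEStronglyMeasurable ψ volume := h.memLp.aestronglyMeasurable
  have hsc : Continuous (sR a d) := continuous_iff_continuousAt.2 fun x =>
    (hasFDerivAt_sR hd x).continuousAt
  have hec : ∀ i, Continuous (et a d i) := fun i => continuous_iff_continuousAt.2 fun x =>
    (hasFDerivAt_et hd i x).continuousAt
  have i0 : Integrable (fun x => ψ x ^ 2 * (sR a d x)⁻¹) := by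
    refine hψ.mul_bdd (c := d⁻¹) ?_ (Eventually.of_forall fun x => ?_)
    · exact (hsc.inv₀ fun x => (sR_pos hd x).ne').aestronglyMeasurable
    · rw [norm_inv, Real.norm_of_nonneg (sR_pos hd x).le]
      exact inv_anti₀ hd (d_le_sR x)
  refine ⟨i0, ?_⟩
  have i1 : ∀ i : Fin 3, Integrable
      (fun x => ψ x ^ 2 * fderiv ℝ (et a d i) x (EuclideanSpace.single i 1)) := by
    intro i
    refine hψ.mul_bdd (c := 2 * d⁻¹) ?_ (Eventually.of_forall fun x => ?_)
    · have : (fun x => fderiv ℝ (et a d i) x (EuclideanSpace.single i 1))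
          = fun x => (EuclideanSpace.single i (1 : ℝ) : E3) i * (sR a d x)⁻¹ - (x - a) i *
            ⟪x - a, EuclideanSpace.single i (1 : ℝ)⟫ * ((sR a d x)⁻¹) ^ 3 := by
        ext x
        rw [fderiv_et hd]
      rw [this]
      have c1 := hsc.inv₀ fun x => (sR_pos hd x).ne'
      have c2 : Continuous fun x : E3 => (x - a) i :=
        (EuclideanSpace.proj i : E3 →L[ℝ] ℝ).continuous.comp (continuous_id.sub continuous_const)
      have c3 : Continuous fun x : E3 => ⟪x - a, EuclideanSpace.single i (1 : ℝ)⟫ :=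
        (continuous_id.sub continuous_const).inner continuous_const
      exact ((continuous_const.mul c1).sub ((c2.mul c3).mul (c1.pow 3))).aestronglyMeasurable
    · have h1 := norm_fderiv_le_of_lipschitz ℝ (lip_et (a := a) hd i) (x₀ := x)
      rw [Real.coe_toNNReal _ (by positivity)] at h1
      refine (ContinuousLinearMap.le_opNorm _ _).trans ?_
      have : ‖(EuclideanSpace.single i (1 : ℝ) : E3)‖ = 1 := by simp
      rw [this, mul_one]
      exact h1
  have m1 : ∀ i : Fin 3, MemLp (fun x => ψ x * et a d i x) 2 volume := fun i =>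
    memLp_mul_bdd h.memLp (hec i) (abs_et_le hd i)
  have mg : ∀ i : Fin 3, MemLp (fun x => ⟪g x, EuclideanSpace.single i (1 : ℝ)⟫) 2 volume := by
    intro i
    refine h.memLp_grad.of_le_mul (c := 1)
      (h.memLp_grad.aestronglyMeasurable.inner aestronglyMeasurable_const) ?_
    refine Eventually.of_forall fun x => ?_
    refine (norm_inner_le_norm _ _).trans ?_
    simp
  have e1 : ∑ i : Fin 3, ∫ x, ⟪g x, EuclideanSpace.single i (1 : ℝ)⟫ ^ 2 = kin g := by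
    rw [← integral_finsetSum _ fun i _ => (mg i).integrable_sq, kin]
    congr 1
    ext x
    rw [EuclideanSpace.norm_sq_eq]
    simp [EuclideanSpace.inner_single_right]
  have e2 : ∑ i : Fin 3, ∫ x, (ψ x * et a d i x) ^ 2 ≤ mass ψ := by
    rw [← integral_finsetSum _ fun i _ => (m1 i).integrable_sq, mass]
    refine integral_mono (integrable_finsetSum _ fun i _ => (m1 i).integrable_sq) hψ fun x => ?_
    simp only
    simp_rw [mul_pow]
    rw [← Finset.mul_sum]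
    exact mul_le_of_le_one_right (sq_nonneg _) (sum_et_sq hd x)
  have e3 : ∫ x, ψ x ^ 2 * (2 * (sR a d x)⁻¹) ≤
      ∑ i : Fin 3, ∫ x, ψ x ^ 2 * fderiv ℝ (et a d i) x (EuclideanSpace.single i 1) := by
    rw [← integral_finsetSum _ fun i _ => i1 i]
    refine integral_mono ?_ (integrable_finsetSum _ fun i _ => i1 i) fun x => ?_
    · refine (i0.const_mul 2).congr (Eventually.of_forall fun x => ?_)
      simp only
      ring
    · simp only
      rw [← Finset.mul_sum]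
      exact mul_le_mul_of_nonneg_left (sum_fderiv hd x) (sq_nonneg _)
  have e4 : ∑ i : Fin 3, ∫ x, ψ x ^ 2 * fderiv ℝ (et a d i) x (EuclideanSpace.single i 1) ≤
      2 * (√(kin g) * √(mass ψ)) := by
    calc ∑ i : Fin 3, ∫ x, ψ x ^ 2 * fderiv ℝ (et a d i) x (EuclideanSpace.single i 1)
        ≤ ∑ i : Fin 3, √(∫ x, ⟪g x, EuclideanSpace.single i (1 : ℝ)⟫ ^ 2) *
            (2 * √(∫ x, (ψ x * et a d i x) ^ 2)) :=
          Finset.sum_le_sum fun i _ => key h
            (fun x => (hasFDerivAt_et hd i x).differentiableAt) (lip_et hd i) (abs_et_le hd i) _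
      _ = 2 * ∑ i : Fin 3, √(∫ x, ⟪g x, EuclideanSpace.single i (1 : ℝ)⟫ ^ 2) *
            √(∫ x, (ψ x * et a d i x) ^ 2) := by
          rw [Finset.mul_sum]
          refine Finset.sum_congr rfl fun i _ => ?_
          ring
      _ ≤ 2 * (√(∑ i : Fin 3, √(∫ x, ⟪g x, EuclideanSpace.single i (1 : ℝ)⟫ ^ 2) ^ 2) *
            √(∑ i : Fin 3, √(∫ x, (ψ x * et a d i x) ^ 2) ^ 2)) := by
          gcongr
          exact Real.sum_mul_le_sqrt_mul_sqrt _ _ _
      _ ≤ 2 * (√(kin g) * √(mass ψ)) := by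
          gcongr
          · rw [← e1]
            refine le_of_eq (Finset.sum_congr rfl fun i _ => ?_)
            exact Real.sq_sqrt (integral_nonneg fun x => sq_nonneg _)
          · refine le_trans (le_of_eq (Finset.sum_congr rfl fun i _ => ?_)) e2
            exact Real.sq_sqrt (integral_nonneg fun x => sq_nonneg _)
  have e5 : ∫ x, ψ x ^ 2 * (2 * (sR a d x)⁻¹) = 2 * ∫ x, ψ x ^ 2 * (sR a d x)⁻¹ := by
    rw [← integral_const_mul]
    congr 1
    ext x
    ring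
  rw [e5] at e3
  have := e3.trans e4
  linarith [mul_comm (√(kin g)) (√(mass ψ))]

end NucAux

theorem nuc_le {ψ : E3 → ℝ} {g : E3 → E3} (h : H1 ψ g) (a : E3) :
    Integrable (fun x => ψ x ^ 2 / ‖x - a‖) ∧ nuc a ψ ≤ √(mass ψ) * √(kin g) := by
  have hd : ∀ n : ℕ, (0 : ℝ) < ((n : ℝ) + 1)⁻¹ := fun n => by positivity
  refine NucAux.fatou_real (f := fun (n : ℕ) x => ψ x ^ 2 * (NucAux.sR a ((n : ℝ) + 1)⁻¹ x)⁻¹)
    (fun n x => ?_) (fun n => (NucAux.reg_le h a (hd n)).1)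
    (fun n => (NucAux.reg_le h a (hd n)).2) ?_
  · exact mul_nonneg (sq_nonneg _) (inv_nonneg.2 (NucAux.sR_pos (hd n) x).le)
  · have hne : ∀ᵐ x : E3, x ≠ a := by
      rw [ae_iff]
      simp
    filter_upwards [hne] with x hx
    rw [div_eq_mul_inv]
    refine tendsto_const_nhds.mul (Tendsto.inv₀ ?_ (norm_ne_zero_iff.2 (sub_ne_zero.2 hx)))
    have t0 : Tendsto (fun n : ℕ => (n : ℝ) + 1) atTop atTop :=
      tendsto_atTop_add_const_right _ _ tendsto_natCast_atTop_atTop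
    have t1 : Tendsto (fun n : ℕ => √(‖x - a‖ ^ 2 + (((n : ℝ) + 1)⁻¹) ^ 2)) atTop
        (𝓝 (√(‖x - a‖ ^ 2 + 0 ^ 2))) :=
      (Real.continuous_sqrt.tendsto _).comp
        (tendsto_const_nhds.add ((tendsto_inv_atTop_zero.comp t0).pow 2))
    have e : √(‖x - a‖ ^ 2 + 0 ^ 2) = ‖x - a‖ := by
      rw [zero_pow two_ne_zero, add_zero, Real.sqrt_sq (norm_nonneg _)]
    rw [e] at t1
    exact t1

end Pool.Agent.W_MP_b91f46_mp
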