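import Pool.Agent.W_MP_b91f46_mp.Nonlin
import Pool.Agent.W_MP_b91f46_mp.Nuc
import Pool.Agent.W_MP_b91f46_mp.H1Alg
import Pool.Agent.W_MP_b91f46_mp.Coul

open MeasureTheory Filter Topology Set
open scoped RealInnerProductSpace ContDiff ENNReal

namespace Pool.Agent.W_MP_b91f46_mp

theorem H1.integrable_sq {ψ : E3 → ℝ} {g : E3 → E3} (h : H1 ψ g) :
    Integrable (fun x => ψ x ^ 2) := h.memLp.integrable_sq

theorem H1.integrable_grad_sq {ψ : E3 → ℝ} {g : E3 → E3} (h : H1 ψ g) :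
    Integrable (fun x => ‖g x‖ ^ 2) := by
  have := h.memLp_grad.integrable_norm_pow (by norm_num)
  simpa using this

theorem mass_nonneg (ψ : E3 → ℝ) : 0 ≤ mass ψ := integral_nonneg fun _ => sq_nonneg _

theorem kin_nonneg (g : E3 → E3) : 0 ≤ kin g := integral_nonneg fun _ => sq_nonneg _

theorem nuc_nonneg (a : E3) (ψ : E3 → ℝ) : 0 ≤ nuc a ψ :=
  integral_nonneg fun _ => div_nonneg (sq_nonneg _) (norm_nonneg _)

theorem ig_nonneg {p : ℝ} (hp : 4 / 3 < p) (ψ : E3 → ℝ) : 0 ≤ ig p ψ :=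
  integral_nonneg fun _ => G_nonneg hp (sq_nonneg _)

theorem coul_sq_nonneg (ψ : E3 → ℝ) : 0 ≤ coul (fun x => ψ x ^ 2) :=
  coul_nonneg fun _ => sq_nonneg _

theorem PP_nonneg {A p : ℝ} (hp : 4 / 3 < p) (hA : 0 ≤ A) (ψ : E3 → ℝ) (g : E3 → E3) :
    0 ≤ PP A p ψ g := by
  unfold PP
  have h1 := kin_nonneg g
  have h2 := ig_nonneg hp ψ
  have h3 := coul_sq_nonneg ψ
  positivity

theorem pot_sq_eq_nuc (ψ : E3 → ℝ) (x : E3) : pot (fun y => ψ y ^ 2) x = nuc x ψ := by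
  unfold pot nuc
  congr 1
  ext y
  rw [norm_sub_rev]

theorem Adm.integrable_G {p : ℝ} (hp : 4 / 3 < p) {ψ : E3 → ℝ} {g : E3 → E3} (h : Adm p ψ g) :
    Integrable (fun x => G p (ψ x ^ 2)) := by
  obtain ⟨C, hC, hb⟩ := abs_G_le hp
  have h1 := (h.toH1.integrable_sq.add h.integrable_pow).const_mul C
  refine h1.mono' ?_ ?_
  · have : AEStronglyMeasurable (fun x => ψ x ^ 2) volume := h.toH1.integrable_sq.1
    exact (continuous_G hp).comp_aestronglyMeasurable this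
  · refine Eventually.of_forall fun x => ?_
    simpa [Real.norm_eq_abs] using hb (ψ x ^ 2) (sq_nonneg _)

theorem JJ_eq {p : ℝ} (hp : 4 / 3 < p) (t : ℝ) : JJ p (4 * (p - 1)) p t = J p t := by
  unfold JJ J
  have : p ≠ 0 := by linarith
  field_simp

theorem energy_eq {A p z κ : ℝ} (hp : 4 / 3 < p) {ψ : E3 → ℝ} {g : E3 → E3} (h : Adm p ψ g) :
    energy A p (4 * (p - 1)) p z ψ g = FF A p z κ ψ g + (κ - (3 * p - 4)) * mass ψ := by
  have h1 : (∫ x, JJ p (4 * (p - 1)) p (ψ x ^ 2)) = ig p ψ - (3 * p - 4) * mass ψ := by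
    have : ∀ x, JJ p (4 * (p - 1)) p (ψ x ^ 2) = G p (ψ x ^ 2) - (3 * p - 4) * ψ x ^ 2 := by
      intro x
      rw [JJ_eq hp]
      unfold G
      ring
    simp_rw [this]
    rw [integral_sub (h.integrable_G hp) (h.toH1.integrable_sq.const_mul _), integral_const_mul]
    rfl
  have h2 : (1 / 2) * ∫ x, ∫ y, ψ x ^ 2 * ψ y ^ 2 / ‖x - y‖ = coul (fun x => ψ x ^ 2) := by
    unfold coul pot
    congr 2
    ext x
    rw [← integral_const_mul]
    congr 1
    ext y
    ring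
  have h3 : (∫ x, ψ x ^ 2 / ‖x‖) = nuc 0 ψ := by
    unfold nuc
    simp
  unfold energy
  rw [h1, h2, h3]
  unfold FF PP kin
  ring

/-- the a priori bound for functions with `FF ≤ 0` -/
theorem apriori {A p z κ : ℝ} (hp : 4 / 3 < p) (hA : 0 < A) (hz : 0 < z)
    {ψ : E3 → ℝ} {g : E3 → E3} (h : H1 ψ g) (hF : FF A p z κ ψ g ≤ 0) :
    A * kin g + ig p ψ ≤ (z ^ 2 / A + 2 * κ) * mass ψ := by
  have h1 := (nuc_le h 0).2
  have h2 : z * (√(mass ψ) * √(kin g)) ≤ A / 2 * kin g + z ^ 2 / (2 * A) * mass ψ := by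
    have hk := Real.sq_sqrt (kin_nonneg g)
    have hm := Real.sq_sqrt (mass_nonneg ψ)
    have h3 : 0 ≤ (A * √(kin g) - z * √(mass ψ)) ^ 2 / (2 * A) := by positivity
    have h4 : (A * √(kin g) - z * √(mass ψ)) ^ 2 / (2 * A) = A / 2 * (√(kin g)) ^ 2
        + z ^ 2 / (2 * A) * (√(mass ψ)) ^ 2 - z * (√(mass ψ) * √(kin g)) := by
      field_simp
      ring
    rw [hk, hm] at h4
    linarith
  have h3 : z * nuc 0 ψ ≤ z * (√(mass ψ) * √(kin g)) := mul_le_mul_of_nonneg_left h1 hz.le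
  have h4 := coul_sq_nonneg ψ
  have h5 := ig_nonneg hp ψ
  unfold FF PP at hF
  have h6 : z ^ 2 / A * mass ψ = 2 * (z ^ 2 / (2 * A) * mass ψ) := by
    field_simp
  nlinarith

/-- Cauchy–Schwarz for gradients -/
theorem abs_integral_inner_le {g k : E3 → E3} (hg : MemLp g 2 volume) (hk : MemLp k 2 volume) :
    |∫ x, ⟪g x, k x⟫| ≤ √(kin g) * √(kin k) := by
  have hg' : Integrable (fun x => ‖g x‖ ^ 2) := by
    simpa using hg.integrable_norm_pow (by norm_num)
  have hk' : Integrable (fun x => ‖k x‖ ^ 2) := by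
    simpa using hk.integrable_norm_pow (by norm_num)
  have h1 : |∫ x, ⟪g x, k x⟫| ≤ ∫ x, ‖g x‖ * ‖k x‖ := by
    rw [← Real.norm_eq_abs]
    refine (norm_integral_le_integral_norm _).trans ?_
    refine integral_mono_of_nonneg (Eventually.of_forall fun _ => norm_nonneg _) ?_
      (Eventually.of_forall fun x => norm_inner_le_norm _ _)
    exact MemLp.integrable_mul hg.norm hk.norm
  refine h1.trans ?_
  have h2 := integral_mul_le_Lp_mul_Lq_of_nonneg (μ := (volume : Measure E3)) (p := 2) (q := 2)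
    (f := fun x => ‖g x‖) (g := fun x => ‖k x‖) (by constructor <;> norm_num)
    (Eventually.of_forall fun _ => norm_nonneg _) (Eventually.of_forall fun _ => norm_nonneg _)
    (by simpa using hg.norm) (by simpa using hk.norm)
  simp only [Real.rpow_two] at h2
  rw [← Real.sqrt_eq_rpow, ← Real.sqrt_eq_rpow] at h2
  exact h2

end Pool.Agent.W_MP_b91f46_mp
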