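import Pool.Agent.W_MP_b91f46_mp.Defs

open MeasureTheory Filter Topology Set
open scoped RealInnerProductSpace ContDiff ENNReal

namespace Pool.Agent.W_MP_b91f46_mp

namespace TranslateAux

/-- Cauchy–Schwarz for real `L²` functions. -/
theorem cs {f g : E3 → ℝ} (hf : MemLp f 2 volume) (hg : MemLp g 2 volume) :
    |∫ x, f x * g x| ≤ √(∫ x, f x ^ 2) * √(∫ x, g x ^ 2) := by
  have key : ∀ {u w : E3 → ℝ} (hu : MemLp u 2 volume) (hw : MemLp w 2 volume),
      inner ℝ (hu.toLp u) (hw.toLp w) = ∫ x, u x * w x := by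
    intro u w hu hw
    rw [MeasureTheory.L2.inner_def]
    apply integral_congr_ae
    filter_upwards [hu.coeFn_toLp, hw.coeFn_toLp] with x h1 h2
    rw [h1, h2]
    simp [mul_comm]
  have nrm : ∀ {u : E3 → ℝ} (hu : MemLp u 2 volume),
      ‖hu.toLp u‖ = √(∫ x, u x ^ 2) := by
    intro u hu
    have h1 := key hu hu
    rw [real_inner_self_eq_norm_sq] at h1
    have h2 : (∫ x, u x ^ 2) = ‖hu.toLp u‖ ^ 2 := by
      rw [h1]; congr 1; ext x; ring
    rw [h2, Real.sqrt_sq (norm_nonneg _)]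
  have := abs_real_inner_le_norm (hf.toLp f) (hg.toLp g)
  rw [key hf hg, nrm hf, nrm hg] at this
  exact this

theorem memLp_inner {g : E3 → E3} (hg : MemLp g 2 volume) (v : E3) :
    MemLp (fun x => ⟪g x, v⟫) 2 volume := by
  have := hg.inner_const (𝕜 := ℝ) v
  exact this

theorem memLp_translate {ψ : E3 → ℝ} (hψ : MemLp ψ 2 volume) (v : E3) :
    MemLp (fun x => ψ (x + v)) 2 volume :=
  hψ.comp_measurePreserving (measurePreserving_add_right volume v)

/-- For a test function, `|∫ (ψ(x+v) - ψ(x)) φ(x) dx| ≤ ‖φ‖₂ ‖⟨g, v⟩‖₂`. -/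
theorem test_bound {ψ : E3 → ℝ} {g : E3 → E3} (h : H1 ψ g) (v : E3)
    {φ : E3 → ℝ} (hφ : ContDiff ℝ ∞ φ) (hφc : HasCompactSupport φ) :
    |∫ x, (ψ (x + v) - ψ x) * φ x| ≤ √(∫ x, ⟪g x, v⟫ ^ 2) * √(∫ x, φ x ^ 2) := by
  have hφL : MemLp φ 2 volume := hφ.continuous.memLp_of_hasCompactSupport hφc
  have hloc : LocallyIntegrable ψ volume := h.memLp.locallyIntegrable (by norm_num)
  -- the reflected test function
  set φn : E3 → ℝ := fun y => φ (-y) with hφn
  have hφn1 : ContDiff ℝ 1 φn := (hφ.of_le (by exact_mod_cast le_top)).comp contDiff_neg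
  have hφnc : HasCompactSupport φn := hφc.comp_homeomorph (Homeomorph.neg E3)
  set F : E3 → ℝ := fun y => ∫ t, ψ t * φ (t - y) with hF
  have hFconv : F = convolution ψ φn (ContinuousLinearMap.mul ℝ ℝ) volume := by
    ext y
    rw [hF, convolution_def]
    apply integral_congr_ae
    filter_upwards with t
    simp [hφn]
  have hderF : ∀ y, HasFDerivAt F
      ((convolution ψ (fderiv ℝ φn) ((ContinuousLinearMap.mul ℝ ℝ).precompR E3) volume) y) y := by
    intro y
    rw [hFconv]
    exact hφnc.hasFDerivAt_convolution_right _ hloc hφn1 y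
  have hval : ∀ y, ((convolution ψ (fderiv ℝ φn)
      ((ContinuousLinearMap.mul ℝ ℝ).precompR E3) volume) y) v = ∫ t, φ (t - y) * ⟪g t, v⟫ := by
    intro y
    rw [convolution_precompR_apply _ hloc (hφnc.fderiv ℝ) (hφn1.continuous_fderiv one_ne_zero) y v]
    rw [convolution_def]
    have hφy : ContDiff ℝ ∞ (fun x => φ (x - y)) := hφ.comp (contDiff_id.sub contDiff_const)
    have hφyc : HasCompactSupport (fun x => φ (x - y)) := 
      hφc.comp_homeomorph (Homeomorph.subRight y)
    have hw := h.weakGrad (fun x => φ (x - y)) hφy hφyc v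
    have h2 : (∫ x, φ (x - y) * ⟪g x, v⟫) = - ∫ x, ψ x * fderiv ℝ (fun x => φ (x - y)) x v := by
      rw [hw, neg_neg]
    rw [h2, ← integral_neg]
    apply integral_congr_ae
    filter_upwards with t
    have e1 : fderiv ℝ φn (y - t) = - fderiv ℝ φ (t - y) := by
      have hd : HasFDerivAt φ (fderiv ℝ φ (-(y - t))) (-(y - t)) :=
        ((hφ.differentiable (by simp)) _).hasFDerivAt
      have h3 : HasFDerivAt φn ((fderiv ℝ φ (-(y - t))).comp (-(ContinuousLinearMap.id ℝ E3)))
          (y - t) := hd.comp (y - t) (hasFDerivAt_id (y - t)).neg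
      rw [h3.fderiv, neg_sub]
      ext w
      simp
    have e2 : fderiv ℝ (fun x => φ (x - y)) t = fderiv ℝ φ (t - y) := by
      rw [fderiv_comp_sub]
    rw [e1, e2]
    simp
  have hbd : ∀ y, |∫ t, φ (t - y) * ⟪g t, v⟫| ≤ √(∫ x, ⟪g x, v⟫ ^ 2) * √(∫ x, φ x ^ 2) := by
    intro y
    have hφyL : MemLp (fun x => φ (x - y)) 2 volume :=
      hφL.comp_measurePreserving (measurePreserving_sub_right volume y)
    refine (cs hφyL (memLp_inner h.memLp_grad v)).trans ?_
    have : (∫ x, φ (x - y) ^ 2) = ∫ x, φ x ^ 2 := by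
      exact integral_sub_right_eq_self (fun x => φ x ^ 2) y
    rw [this, mul_comm]
  -- mean value inequality along `s ↦ F (s • v)`
  have hder : ∀ s : ℝ, HasDerivAt (fun s : ℝ => F (s • v)) (∫ t, φ (t - s • v) * ⟪g t, v⟫) s := by
    intro s
    have h1 : HasDerivAt (fun s : ℝ => s • v) v s := by
      simpa using (hasDerivAt_id s).smul_const v
    have h2 := (hderF (s • v)).comp_hasDerivAt s h1
    rw [hval] at h2
    exact h2
  have hmv : ‖F ((1 : ℝ) • v) - F ((0 : ℝ) • v)‖ ≤
      √(∫ x, ⟪g x, v⟫ ^ 2) * √(∫ x, φ x ^ 2) * ‖(1 : ℝ) - 0‖ := by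
    apply convex_univ.norm_image_sub_le_of_norm_hasDerivWithin_le
      (f := fun s : ℝ => F (s • v)) (f' := fun s => ∫ t, φ (t - s • v) * ⟪g t, v⟫)
      (fun s _ => (hder s).hasDerivWithinAt) (fun s _ => ?_) (mem_univ _) (mem_univ _)
    rw [Real.norm_eq_abs]
    exact hbd _
  have hFv : F v - F 0 = ∫ x, (ψ (x + v) - ψ x) * φ x := by
    have e1 : F v = ∫ x, ψ (x + v) * φ x := by
      have := integral_add_right_eq_self (fun x => ψ x * φ (x - v)) (μ := volume) v
      rw [hF]
      simp only at this ⊢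
      rw [← this]
      simp
    have e2 : F 0 = ∫ x, ψ x * φ x := by
      rw [hF]; simp
    rw [e1, e2, ← integral_sub]
    · apply integral_congr_ae
      filter_upwards with x
      ring
    · exact (memLp_translate h.memLp v).integrable_mul hφL
    · exact h.memLp.integrable_mul hφL
  simp only [one_smul, zero_smul, sub_zero, norm_one, mul_one] at hmv
  rw [hFv] at hmv
  exact hmv

end TranslateAux

open TranslateAux in
theorem translate_le {ψ : E3 → ℝ} {g : E3 → E3} (h : H1 ψ g) (v : E3) :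
    ∫ x, (ψ (x + v) - ψ x) ^ 2 ≤ ∫ x, ⟪g x, v⟫ ^ 2 := by
  set M : ℝ := √(∫ x, ⟪g x, v⟫ ^ 2) with hM
  set D : E3 → ℝ := fun x => ψ (x + v) - ψ x with hD
  have hDL : MemLp D 2 volume := (memLp_translate h.memLp v).sub h.memLp
  set N : ℝ := √(∫ x, D x ^ 2) with hN
  have hN0 : 0 ≤ N := Real.sqrt_nonneg _
  have hM0 : 0 ≤ M := Real.sqrt_nonneg _
  have hN2 : N ^ 2 = ∫ x, D x ^ 2 := Real.sq_sqrt (integral_nonneg fun x => sq_nonneg _)
  have hM2 : M ^ 2 = ∫ x, ⟪g x, v⟫ ^ 2 := Real.sq_sqrt (integral_nonneg fun x => sq_nonneg _)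
  have nrm : ∀ {u : E3 → ℝ} (hu : MemLp u 2 volume),
      (eLpNorm u 2 volume).toReal = √(∫ x, u x ^ 2) := by
    intro u hu
    rw [hu.eLpNorm_eq_integral_rpow_norm (by norm_num) (by norm_num)]
    rw [ENNReal.toReal_ofReal (by positivity), Real.sqrt_eq_rpow]
    congr 1
    · apply integral_congr_ae
      filter_upwards with x
      simp
    · norm_num
  have key : ∀ ε : ℝ, 0 < ε → N ^ 2 ≤ M * (N + ε) + N * ε := by
    intro ε hε
    obtain ⟨φ, hφc, hφ, hφε⟩ := hDL.exist_eLpNorm_sub_le (by norm_num) (by norm_num) hε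
    have hφL : MemLp φ 2 volume := hφ.continuous.memLp_of_hasCompactSupport hφc
    have hsub : MemLp (D - φ) 2 volume := hDL.sub hφL
    have hsub' : √(∫ x, (D - φ) x ^ 2) ≤ ε := by
      rw [← nrm hsub]
      exact ENNReal.toReal_le_of_le_ofReal hε.le hφε
    have hφN : √(∫ x, φ x ^ 2) ≤ N + ε := by
      rw [hN, ← nrm hφL, ← nrm hDL]
      have : φ = D - (D - φ) := by simp
      have h1 : eLpNorm φ 2 volume ≤ eLpNorm D 2 volume + eLpNorm (D - φ) 2 volume := by
        conv_lhs => rw [this]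
        exact eLpNorm_sub_le hDL.1 hsub.1 (by norm_num)
      have h2 : (eLpNorm (D - φ) 2 volume).toReal ≤ ε :=
        ENNReal.toReal_le_of_le_ofReal hε.le hφε
      have h3 := ENNReal.toReal_mono (ENNReal.add_ne_top.2 ⟨hDL.2.ne, hsub.2.ne⟩) h1
      rw [ENNReal.toReal_add hDL.2.ne hsub.2.ne] at h3
      linarith
    have hsplit : (∫ x, D x ^ 2) = (∫ x, D x * φ x) + ∫ x, D x * (D - φ) x := by
      rw [← integral_add]
      · apply integral_congr_ae
        filter_upwards with x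
        simp only [Pi.sub_apply]
        ring
      · exact hDL.integrable_mul hφL
      · exact hDL.integrable_mul hsub
    have b1 : ∫ x, D x * φ x ≤ M * (N + ε) := by
      have := test_bound h v hφ hφc
      refine (le_abs_self _).trans (this.trans ?_)
      gcongr
    have b2 : ∫ x, D x * (D - φ) x ≤ N * ε := by
      refine (le_abs_self _).trans ((cs hDL hsub).trans ?_)
      gcongr
    rw [hN2, hsplit]
    linarith
  have hlim : N ^ 2 ≤ M * N := by
    have h1 : Tendsto (fun ε : ℝ => M * (N + ε) + N * ε) (𝓝[>] 0) (𝓝 (M * (N + 0) + N * 0)) := by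
      have : Continuous (fun ε : ℝ => M * (N + ε) + N * ε) := by fun_prop
      exact (this.tendsto 0).mono_left nhdsWithin_le_nhds
    have h2 := ge_of_tendsto h1 (by filter_upwards [self_mem_nhdsWithin] with ε hε using key ε hε)
    simpa using h2
  have hNM : N ≤ M := by
    rcases hN0.eq_or_lt with h0 | h0
    · rw [← h0]; exact hM0
    · nlinarith
  calc ∫ x, (ψ (x + v) - ψ x) ^ 2 = N ^ 2 := hN2.symm
    _ ≤ M ^ 2 := by gcongr
    _ = _ := hM2

end Pool.Agent.W_MP_b91f46_mp
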