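import Pool.Agent.W_MP_b91f46_mp.Nonlin
import Pool.Agent.W_MP_b91f46_mp.Translate

/-!
# MP_b91f46_mp: radial structure (bulk radius, thickness, surface energy)
-/

open MeasureTheory Filter Topology Set
open scoped RealInnerProductSpace ContDiff ENNReal

namespace Pool.Agent.W_MP_b91f46_mp
namespace BulkAux

/-- volume of the unit ball -/
noncomputable def V1 : ℝ := volume.real (Metric.ball (0 : E3) 1)

theorem V1_pos : 0 < V1 := by
  unfold V1
  rw [measureReal_def]
  exact ENNReal.toReal_pos (Metric.measure_ball_pos volume 0 one_pos).ne' measure_ball_lt_top.ne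

theorem vol_closedBall {r : ℝ} (hr : 0 ≤ r) :
    volume.real (Metric.closedBall (0 : E3) r) = r ^ 3 * V1 := by
  have := Measure.addHaar_real_closedBall (volume : Measure E3) 0 hr
  simpa [V1] using this

theorem vol_ball {r : ℝ} (hr : 0 ≤ r) :
    volume.real (Metric.ball (0 : E3) r) = r ^ 3 * V1 := by
  rw [← vol_closedBall hr]
  unfold Measure.real
  rw [Measure.addHaar_closedBall_eq_addHaar_ball]

theorem vol_shell {a b : ℝ} (ha : 0 ≤ a) (hab : a < b) :
    volume.real (Metric.ball (0 : E3) b \ Metric.closedBall 0 a) = (b ^ 3 - a ^ 3) * V1 := by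
  rw [measureReal_sdiff (Metric.closedBall_subset_ball hab) Metric.isClosed_closedBall.measurableSet
    measure_ball_lt_top.ne, vol_ball (ha.trans hab.le), vol_closedBall ha]
  ring

theorem ae_ne_zero : ∀ᵐ x : E3, x ≠ 0 := by
  rw [ae_iff]; simp

/-- Markov-type inequality for integrals over a set. -/
theorem le_integral_of_le_on {F : E3 → ℝ} (hF : Integrable F) (h0 : ∀ x, 0 ≤ F x) {s : Set E3}
    (hs : MeasurableSet s) (hsf : volume s ≠ ⊤) {c : ℝ} (h : ∀ x ∈ s, x ≠ 0 → c ≤ F x) :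
    c * volume.real s ≤ ∫ x, F x := by
  have h1 : ∫ x, s.indicator (fun _ => c) x = volume.real s * c := by
    rw [integral_indicator_const c hs, smul_eq_mul]
  rw [mul_comm, ← h1]
  apply integral_mono_ae
  · exact (integrable_indicator_iff hs).2 (integrableOn_const hsf)
  · exact hF
  · filter_upwards [ae_ne_zero] with x hx
    by_cases hxs : x ∈ s
    · simp only [indicator_of_mem hxs]; exact h x hxs hx
    · simp only [indicator_of_notMem hxs]; exact h0 x

theorem exists_coord (x : E3) : ∃ i, ‖x‖ ^ 2 ≤ 3 * (x i) ^ 2 := by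
  by_contra hcon
  push Not at hcon
  have h := EuclideanSpace.norm_sq_eq x
  rw [Fin.sum_univ_three] at h
  simp only [Real.norm_eq_abs, sq_abs] at h
  have h0 := hcon 0
  have h1 := hcon 1
  have h2 := hcon 2
  linarith

theorem norm_add_single_sq (x : E3) (i : Fin 3) (s : ℝ) :
    ‖x + EuclideanSpace.single i s‖ ^ 2 = ‖x‖ ^ 2 + 2 * (s * x i) + s ^ 2 := by
  rw [norm_add_sq_real, EuclideanSpace.inner_single_right]
  simp [sq_abs]

theorem surface {ψ : E3 → ℝ} {g : E3 → E3} {f : ℝ → ℝ} (h : H1 ψ g)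
    (hψ : ∀ x, x ≠ 0 → ψ x = f ‖x‖) (hf0 : ∀ r, 0 < r → 0 ≤ f r) (hanti : AntitoneOn f (Ioi 0))
    {tb R τ : ℝ} (htb : 0 < tb) (hR : 0 < R) (hτ : 0 < τ) (hτR : τ ≤ R / 2)
    (hin : ∀ r, 0 < r → r < R → tb ≤ f r ^ 2) (hout : f (R + τ) ^ 2 ≤ tb / 4) :
    tb * V1 * R ^ 2 ≤ 128 * τ * kin g := by
  -- the difference function
  set D : E3 → E3 → ℝ := fun v x => (ψ (x + v) - ψ x) ^ 2 with hD
  have hDint : ∀ v, Integrable (D v) := by
    intro v
    have h1 : MemLp (fun x => ψ (x + v)) 2 volume :=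
      h.memLp.comp_measurePreserving (measurePreserving_add_right volume v)
    exact (h1.sub h.memLp).integrable_sq
  have hgint : ∀ i : Fin 3, Integrable (fun x => (g x i) ^ 2) := by
    intro i
    have h1 : MemLp (fun x => g x i) 2 volume := by
      refine h.memLp_grad.mono ?_ (Eventually.of_forall fun x => ?_)
      · exact (EuclideanSpace.proj i : E3 →L[ℝ] ℝ).continuous.comp_aestronglyMeasurable
          h.memLp_grad.1
      · exact PiLp.norm_apply_le (g x) i
    exact h1.integrable_sq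
  have hkin : kin g = ∑ i : Fin 3, ∫ x, (g x i) ^ 2 := by
    unfold kin
    rw [← integral_finsetSum _ (fun i _ => hgint i)]
    refine integral_congr_ae (Eventually.of_forall fun x => ?_)
    simp [EuclideanSpace.norm_sq_eq]
  have hinner : ∀ (i : Fin 3) (s : ℝ),
      ∫ x, D (EuclideanSpace.single i s) x ≤ s ^ 2 * ∫ x, (g x i) ^ 2 := by
    intro i s
    refine (translate_le h (EuclideanSpace.single i s)).trans (le_of_eq ?_)
    rw [← integral_const_mul]
    refine integral_congr_ae (Eventually.of_forall fun x => ?_)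
    simp only [EuclideanSpace.inner_single_right]
    simp; ring
  -- the total function
  set F : E3 → ℝ := fun x => ∑ i : Fin 3,
    (D (EuclideanSpace.single i (4 * τ)) x + D (EuclideanSpace.single i (-(4 * τ))) x) with hF
  have hFint : Integrable F := integrable_finsetSum _ fun i _ => (hDint _).add (hDint _)
  have hF0 : ∀ x, 0 ≤ F x := fun x => Finset.sum_nonneg fun i _ =>
    add_nonneg (sq_nonneg _) (sq_nonneg _)
  have hFle : ∫ x, F x ≤ 32 * τ ^ 2 * kin g := by
    have e : ∫ x, F x = ∑ i : Fin 3, ∫ x, (D (EuclideanSpace.single i (4 * τ)) x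
        + D (EuclideanSpace.single i (-(4 * τ))) x) :=
      integral_finsetSum _ (fun i _ => (hDint _).add (hDint _))
    rw [e, hkin, Finset.mul_sum]
    refine Finset.sum_le_sum fun i _ => ?_
    rw [integral_add (hDint _) (hDint _)]
    have h1 := hinner i (4 * τ)
    have h2 := hinner i (-(4 * τ))
    nlinarith [h1, h2]
  -- pointwise lower bound on the shell
  have hpt : ∀ x ∈ Metric.ball (0 : E3) R \ Metric.closedBall 0 (R - τ), x ≠ 0 → tb / 4 ≤ F x := by
    intro x hx hx0
    have hxR : ‖x‖ < R := by simpa using hx.1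
    have hxr : R - τ < ‖x‖ := by simpa using hx.2
    obtain ⟨i, hi⟩ := exists_coord x
    have hxpos : 0 < ‖x‖ := norm_pos_iff.2 hx0
    -- the good sign
    obtain ⟨s, hs, hsx⟩ : ∃ s : ℝ, (s = 4 * τ ∨ s = -(4 * τ)) ∧ s * x i = 4 * τ * |x i| := by
      rcases le_total 0 (x i) with hpos | hneg
      · exact ⟨4 * τ, Or.inl rfl, by rw [abs_of_nonneg hpos]⟩
      · exact ⟨-(4 * τ), Or.inr rfl, by rw [abs_of_nonpos hneg]; ring⟩
    have hs2 : s ^ 2 = 16 * τ ^ 2 := by rcases hs with rfl | rfl <;> ring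
    have hm : 4 / 7 * ‖x‖ ≤ |x i| := by
      have h1 : ‖x‖ ^ 2 ≤ 3 * |x i| ^ 2 := by rw [sq_abs]; exact hi
      have h2 : 0 ≤ |x i| := abs_nonneg _
      by_contra hcon
      push Not at hcon
      nlinarith
    have hn : (R + τ) ^ 2 ≤ ‖x + EuclideanSpace.single i s‖ ^ 2 := by
      rw [norm_add_single_sq, hsx, hs2]
      nlinarith [mul_le_mul_of_nonneg_left hm hτ.le, mul_le_mul_of_nonneg_left hxr.le hτ.le]
    have hn' : R + τ ≤ ‖x + EuclideanSpace.single i s‖ := by
      exact le_of_sq_le_sq hn (norm_nonneg _)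
    have hy0 : x + EuclideanSpace.single i s ≠ 0 := by
      intro h0
      rw [h0, norm_zero] at hn'
      linarith
    have hD1 : tb / 4 ≤ D (EuclideanSpace.single i s) x := by
      rw [hD]
      simp only
      rw [hψ _ hy0, hψ x hx0]
      have ha : tb ≤ f ‖x‖ ^ 2 := hin _ hxpos hxR
      have ha0 : 0 ≤ f ‖x‖ := hf0 _ hxpos
      have hb0 : 0 ≤ f ‖x + EuclideanSpace.single i s‖ := hf0 _ (norm_pos_iff.2 hy0)
      have hb1 : f ‖x + EuclideanSpace.single i s‖ ≤ f (R + τ) :=
        hanti (mem_Ioi.2 (by linarith)) (mem_Ioi.2 (norm_pos_iff.2 hy0)) hn'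
      have hc0 : 0 ≤ f (R + τ) := hf0 _ (by linarith)
      have hb2 : f ‖x + EuclideanSpace.single i s‖ ^ 2 ≤ tb / 4 :=
        (pow_le_pow_left₀ hb0 hb1 2).trans hout
      have e1 : √tb ≤ f ‖x‖ := Real.sqrt_le_iff.2 ⟨ha0, ha⟩
      have e2 : f ‖x + EuclideanSpace.single i s‖ ≤ √tb / 2 := by
        refine le_of_sq_le_sq ?_ (by positivity)
        rw [div_pow, Real.sq_sqrt htb.le]; linarith
      have e3 : √tb / 2 ≤ f ‖x‖ - f ‖x + EuclideanSpace.single i s‖ := by linarith
      have e4 : (√tb / 2) ^ 2 ≤ (f ‖x‖ - f ‖x + EuclideanSpace.single i s‖) ^ 2 :=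
        pow_le_pow_left₀ (by positivity) e3 2
      rw [div_pow, Real.sq_sqrt htb.le] at e4
      nlinarith [e4]
    have hle : D (EuclideanSpace.single i s) x ≤ F x := by
      have h1 : D (EuclideanSpace.single i (4 * τ)) x + D (EuclideanSpace.single i (-(4 * τ))) x
          ≤ F x :=
        Finset.single_le_sum (f := fun i : Fin 3 => D (EuclideanSpace.single i (4 * τ)) x
          + D (EuclideanSpace.single i (-(4 * τ))) x)
          (fun j _ => add_nonneg (sq_nonneg _) (sq_nonneg _)) (Finset.mem_univ i)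
      have h2 : 0 ≤ D (EuclideanSpace.single i (4 * τ)) x := sq_nonneg _
      have h3 : 0 ≤ D (EuclideanSpace.single i (-(4 * τ))) x := sq_nonneg _
      rcases hs with rfl | rfl <;> linarith
    exact hD1.trans hle
  have hms : MeasurableSet (Metric.ball (0 : E3) R \ Metric.closedBall 0 (R - τ)) :=
    Metric.isOpen_ball.measurableSet.diff Metric.isClosed_closedBall.measurableSet
  have hfin : volume (Metric.ball (0 : E3) R \ Metric.closedBall 0 (R - τ)) ≠ ⊤ :=
    ((measure_mono sdiff_subset).trans_lt measure_ball_lt_top).ne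
  have hmain := le_integral_of_le_on hFint hF0 hms hfin hpt
  rw [vol_shell (by linarith) (by linarith)] at hmain
  have h3 : τ * R ^ 2 ≤ R ^ 3 - (R - τ) ^ 3 := by
    have : R ^ 3 - (R - τ) ^ 3 = τ * (R ^ 2 + R * (R - τ) + (R - τ) ^ 2) := by ring
    rw [this]
    have h4 : 0 ≤ R * (R - τ) := mul_nonneg hR.le (by linarith)
    nlinarith [mul_nonneg hτ.le h4, mul_nonneg hτ.le (sq_nonneg (R - τ))]
  have h5 : tb / 4 * (τ * R ^ 2 * V1) ≤ 32 * τ ^ 2 * kin g :=
    le_trans (mul_le_mul_of_nonneg_left (mul_le_mul_of_nonneg_right h3 V1_pos.le) (by positivity))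
      (hmain.trans hFle)
  have h6 : τ * (tb * V1 * R ^ 2) ≤ τ * (128 * τ * kin g) := by nlinarith [h5]
  exact le_of_mul_le_mul_left h6 hτ

end BulkAux

open BulkAux in
theorem bulk {p tb c1 T : ℝ} (hp : 4 / 3 < p) (hc : Consts p tb c1 T) :
    ∃ c > 0, ∃ C > 0, ∃ δ₀ > 0, ∀ (A δ : ℝ) (ψ : E3 → ℝ) (g : E3 → E3) (f : ℝ → ℝ),
      0 < A → 0 < δ → δ ≤ δ₀ →
      Adm p ψ g → (∀ x, x ≠ 0 → ψ x = f ‖x‖) → (∀ r, 0 < r → 0 ≤ f r) → AntitoneOn f (Ioi 0) →
      0 < mass ψ → A * kin g + ig p ψ ≤ δ * mass ψ →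
      ∃ R > 0, (∀ r, 0 < r → r < R → tb ≤ f r ^ 2) ∧ (∀ r, 11 / 10 * R < r → f r ^ 2 ≤ tb / 4) ∧
        mass ψ ≤ C * R ^ 3 ∧ c * √A * R ^ 2 ≤ δ * mass ψ := by
  have htb := hc.tb_pos
  have hc1 := hc.c1_pos
  have hT := hc.T_ge
  have hV := V1_pos
  refine ⟨min (tb * V1 / 128) (3 / 4 * c1 * tb * V1), by positivity, 2 * T * V1, by positivity,
    min (1 / (2 * (1 / c1 + 1))) (c1 * tb / (100 * T)), by positivity, ?_⟩
  intro A δ ψ g f hA hδ hδ₀ hadm hψ hf0 hanti hmpos hE
  have hδ1 : δ * (1 / c1 + 1) ≤ 1 / 2 := by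
    have h1 : δ ≤ 1 / (2 * (1 / c1 + 1)) := hδ₀.trans (min_le_left _ _)
    have h2 : 0 < 1 / c1 + 1 := by positivity
    rw [le_div_iff₀ (by positivity)] at h1
    linarith
  have hδ2 : δ * (100 * T) ≤ c1 * tb := by
    have h1 : δ ≤ c1 * tb / (100 * T) := hδ₀.trans (min_le_right _ _)
    rwa [le_div_iff₀ (by positivity)] at h1
  -- integrability
  have hψ2 : Integrable (fun x => ψ x ^ 2) := hadm.memLp.integrable_sq
  have hGint : Integrable (fun x => G p (ψ x ^ 2)) := by
    obtain ⟨C, hC, hCle⟩ := abs_G_le hp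
    refine Integrable.mono' ((hψ2.add hadm.integrable_pow).const_mul C) ?_ ?_
    · exact (continuous_G hp).comp_aestronglyMeasurable hψ2.aestronglyMeasurable
    · exact Eventually.of_forall fun x => hCle _ (sq_nonneg _)
  have hG0 : ∀ x, 0 ≤ G p (ψ x ^ 2) := fun x => G_nonneg hp (sq_nonneg _)
  have hig0 : 0 ≤ ig p ψ := integral_nonneg hG0
  have hkin0 : 0 ≤ kin g := integral_nonneg fun x => sq_nonneg _
  have hig : ig p ψ ≤ δ * mass ψ := by nlinarith [mul_nonneg hA.le hkin0]
  have hAk : A * kin g ≤ δ * mass ψ := by linarith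
  -- the set of bulk radii
  set S : Set ℝ := {r | 0 < r ∧ tb ≤ f r ^ 2} with hS
  have hSbdd : BddAbove S := by
    refine ⟨max 1 (mass ψ / (tb * V1)), ?_⟩
    rintro r ⟨hr0, hr⟩
    have h1 : tb * volume.real (Metric.ball (0 : E3) r) ≤ ∫ x, ψ x ^ 2 := by
      refine le_integral_of_le_on hψ2 (fun x => sq_nonneg _) Metric.isOpen_ball.measurableSet
        measure_ball_lt_top.ne ?_
      intro x hx hx0
      have hxr : ‖x‖ < r := by simpa using hx
      rw [hψ x hx0]
      refine hr.trans (pow_le_pow_left₀ (hf0 _ hr0) ?_ 2)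
      exact hanti (mem_Ioi.2 (norm_pos_iff.2 hx0)) (mem_Ioi.2 hr0) hxr.le
    rw [vol_ball hr0.le] at h1
    have h2 : r ^ 3 ≤ mass ψ / (tb * V1) := by
      rw [le_div_iff₀ (by positivity)]
      have : mass ψ = ∫ x, ψ x ^ 2 := rfl
      rw [this]; linarith
    rcases le_total r 1 with h | h
    · exact h.trans (le_max_left _ _)
    · have : r ≤ r ^ 3 := by nlinarith [sq_nonneg r, mul_self_nonneg (r - 1)]
      exact (this.trans h2).trans (le_max_right _ _)
  have hSne : S.Nonempty := by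
    by_contra hcon
    rw [Set.not_nonempty_iff_eq_empty] at hcon
    have h1 : mass ψ ≤ 1 / c1 * ig p ψ := by
      unfold mass ig
      rw [← integral_const_mul]
      refine integral_mono_ae hψ2 (hGint.const_mul _) ?_
      filter_upwards [ae_ne_zero] with x hx
      have h2 : ‖x‖ ∉ S := by rw [hcon]; exact notMem_empty _
      have h3 : f ‖x‖ ^ 2 < tb := by
        by_contra hh
        push Not at hh
        exact h2 ⟨norm_pos_iff.2 hx, hh⟩
      have h4 := hc.low (ψ x ^ 2) (sq_nonneg _) (by rw [hψ x hx]; exact h3.le)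
      rw [one_div, ← div_eq_inv_mul, le_div_iff₀ hc1]
      linarith
    have h2 : 1 / c1 * ig p ψ ≤ 1 / c1 * (δ * mass ψ) :=
      mul_le_mul_of_nonneg_left hig (by positivity)
    have h3 : 0 < 1 / c1 := by positivity
    nlinarith [mul_pos hδ hmpos]
  set R := sSup S with hRdef
  have hRpos : 0 < R := by
    obtain ⟨r, hr⟩ := hSne
    exact hr.1.trans_le (le_csSup hSbdd hr)
  have hin : ∀ r, 0 < r → r < R → tb ≤ f r ^ 2 := by
    intro r hr0 hr
    obtain ⟨s, hs, hrs⟩ := exists_lt_of_lt_csSup hSne hr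
    exact hs.2.trans (pow_le_pow_left₀ (hf0 _ hs.1) (hanti (mem_Ioi.2 hr0) (mem_Ioi.2 hs.1) hrs.le) 2)
  have hout : ∀ r, R < r → f r ^ 2 < tb := by
    intro r hr
    by_contra hcon
    push Not at hcon
    exact absurd (le_csSup hSbdd (show r ∈ S from ⟨hRpos.trans hr, hcon⟩)) (not_le.2 hr)
  -- mass bound
  have hmass : mass ψ ≤ 2 * T * V1 * R ^ 3 := by
    have h1 : mass ψ ≤ (1 / c1 + 1) * ig p ψ + T * (R ^ 3 * V1) := by
      have h2 : ∫ x, ((Metric.closedBall (0 : E3) R).indicator (fun _ => T) x) = R ^ 3 * V1 * T := by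
        rw [integral_indicator_const T Metric.isClosed_closedBall.measurableSet, smul_eq_mul,
          vol_closedBall hRpos.le]
      have hI : Integrable ((Metric.closedBall (0 : E3) R).indicator (fun _ => T)) :=
        (integrable_indicator_iff Metric.isClosed_closedBall.measurableSet).2
          (integrableOn_const measure_closedBall_lt_top.ne)
      unfold mass ig
      rw [← integral_const_mul, mul_comm T, ← h2, ← integral_add (hGint.const_mul _) hI]
      refine integral_mono_ae hψ2 ((hGint.const_mul _).add hI) ?_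
      filter_upwards [ae_ne_zero] with x hx
      have hGx := hG0 x
      by_cases hxR : ‖x‖ ≤ R
      · have hmem : x ∈ Metric.closedBall (0 : E3) R := by simpa using hxR
        simp only [indicator_of_mem hmem]
        have h3 : 0 ≤ (1 / c1) * G p (ψ x ^ 2) := by positivity
        rcases le_total T (ψ x ^ 2) with h4 | h4
        · have := hc.high _ h4
          nlinarith
        · nlinarith
      · push Not at hxR
        have hmem : x ∉ Metric.closedBall (0 : E3) R := by simpa using hxR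
        simp only [indicator_of_notMem hmem]
        have h3 := hout _ hxR
        have h4 := hc.low (ψ x ^ 2) (sq_nonneg _) (by rw [hψ x hx]; exact h3.le)
        have h5 : ψ x ^ 2 ≤ 1 / c1 * G p (ψ x ^ 2) := by
          rw [one_div, ← div_eq_inv_mul, le_div_iff₀ hc1]; linarith
        nlinarith
    have h2 : (1 / c1 + 1) * ig p ψ ≤ (1 / c1 + 1) * (δ * mass ψ) :=
      mul_le_mul_of_nonneg_left hig (by positivity)
    nlinarith [mul_le_mul_of_nonneg_right hδ1 hmpos.le]
  have hδM : δ * mass ψ ≤ c1 * tb / 50 * V1 * R ^ 3 := by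
    have h1 : δ * mass ψ ≤ δ * (2 * T * V1 * R ^ 3) := mul_le_mul_of_nonneg_left hmass hδ.le
    have h2 : δ * (100 * T) * (V1 * R ^ 3) ≤ c1 * tb * (V1 * R ^ 3) :=
      mul_le_mul_of_nonneg_right hδ2 (by positivity)
    nlinarith
  -- lower bound for `ig` from shells
  have hshell : ∀ b, R < b → tb / 4 < f b ^ 2 → c1 * (tb / 4) * ((b ^ 3 - R ^ 3) * V1) ≤ ig p ψ := by
    intro b hb hfb
    rw [← vol_shell hRpos.le hb]
    refine le_integral_of_le_on hGint hG0
      (Metric.isOpen_ball.measurableSet.diff Metric.isClosed_closedBall.measurableSet)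
      ((measure_mono sdiff_subset).trans_lt measure_ball_lt_top).ne ?_
    intro x hx hx0
    have hxb : ‖x‖ < b := by simpa using hx.1
    have hxR : R < ‖x‖ := by simpa using hx.2
    have h1 : tb / 4 ≤ f ‖x‖ ^ 2 :=
      hfb.le.trans (pow_le_pow_left₀ (hf0 _ (hRpos.trans hb))
        (hanti (mem_Ioi.2 (norm_pos_iff.2 hx0)) (mem_Ioi.2 (hRpos.trans hb)) hxb.le) 2)
    have h2 := hc.low (ψ x ^ 2) (sq_nonneg _) (by rw [hψ x hx0]; exact (hout _ hxR).le)
    rw [hψ x hx0] at h2 ⊢
    exact (mul_le_mul_of_nonneg_left h1 hc1.le).trans h2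
  have hthick : ∀ r, 11 / 10 * R < r → f r ^ 2 ≤ tb / 4 := by
    intro r hr
    by_contra hcon
    push Not at hcon
    have h1 := hshell r (by linarith) hcon
    have h2 : (11 / 10 * R) ^ 3 ≤ r ^ 3 := pow_le_pow_left₀ (by positivity) hr.le 3
    have h3 : c1 * (tb / 4) * (((11 / 10 * R) ^ 3 - R ^ 3) * V1) ≤ c1 * (tb / 4) * ((r ^ 3 - R ^ 3) * V1) := by
      apply mul_le_mul_of_nonneg_left _ (by positivity)
      exact mul_le_mul_of_nonneg_right (by linarith) hV.le
    have h4 : 0 < c1 * tb * V1 * R ^ 3 := by positivity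
    nlinarith
  refine ⟨R, hRpos, hin, hthick, hmass, ?_⟩
  -- surface energy
  set τ := min (√A) (R / 2) with hτ
  have hsA : 0 < √A := Real.sqrt_pos.2 hA
  have hτpos : 0 < τ := lt_min hsA (by linarith)
  have hτR : τ ≤ R / 2 := min_le_right _ _
  have hτA : τ ≤ √A := min_le_left _ _
  rcases le_or_gt (f (R + τ) ^ 2) (tb / 4) with hcase | hcase
  · have h1 := surface hadm.toH1 hψ hf0 hanti htb hRpos hτpos hτR hin hcase
    have h2 : √A * τ ≤ A := by
      calc √A * τ ≤ √A * √A := mul_le_mul_of_nonneg_left hτA hsA.le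
        _ = A := Real.mul_self_sqrt hA.le
    have h3 : √A * (tb * V1 * R ^ 2) ≤ 128 * (A * kin g) := by
      calc √A * (tb * V1 * R ^ 2) ≤ √A * (128 * τ * kin g) := mul_le_mul_of_nonneg_left h1 hsA.le
        _ = 128 * ((√A * τ) * kin g) := by ring
        _ ≤ 128 * (A * kin g) := by
            apply mul_le_mul_of_nonneg_left _ (by norm_num)
            exact mul_le_mul_of_nonneg_right h2 hkin0
    have h4 : min (tb * V1 / 128) (3 / 4 * c1 * tb * V1) * √A * R ^ 2
        ≤ tb * V1 / 128 * √A * R ^ 2 := by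
      apply mul_le_mul_of_nonneg_right _ (sq_nonneg R)
      exact mul_le_mul_of_nonneg_right (min_le_left _ _) hsA.le
    nlinarith
  · have hτeq : τ = √A := by
      rcases min_choice (√A) (R / 2) with h | h
      · exact h
      · exfalso
        have h1 : τ = R / 2 := h
        rw [h1] at hcase
        exact absurd (hthick (R + R / 2) (by linarith)) (not_le.2 hcase)
    have h1 := hshell (R + τ) (by linarith) hcase
    have h2 : 3 * R ^ 2 * τ ≤ (R + τ) ^ 3 - R ^ 3 := by
      have : (R + τ) ^ 3 - R ^ 3 = 3 * R ^ 2 * τ + (3 * R * τ ^ 2 + τ ^ 3) := by ring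
      rw [this]
      have : 0 ≤ 3 * R * τ ^ 2 + τ ^ 3 := by positivity
      linarith
    have h3 : c1 * (tb / 4) * (3 * R ^ 2 * τ * V1) ≤ c1 * (tb / 4) * (((R + τ) ^ 3 - R ^ 3) * V1) := by
      apply mul_le_mul_of_nonneg_left _ (by positivity)
      exact mul_le_mul_of_nonneg_right h2 hV.le
    have h4 : min (tb * V1 / 128) (3 / 4 * c1 * tb * V1) * √A * R ^ 2
        ≤ 3 / 4 * c1 * tb * V1 * √A * R ^ 2 := by
      apply mul_le_mul_of_nonneg_right _ (sq_nonneg R)
      exact mul_le_mul_of_nonneg_right (min_le_right _ _) hsA.le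
    rw [hτeq] at h3 h1
    nlinarith

end Pool.Agent.W_MP_b91f46_mp
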