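import Pool.Agent.W_MP_b91f46_mp.PotDrop

open MeasureTheory Filter Topology Set
open scoped RealInnerProductSpace ContDiff ENNReal

namespace Pool.Agent.W_MP_b91f46_mp

namespace BumpsAux

/-- a fixed bump function -/
noncomputable def β : ContDiffBump (0 : E3) := ⟨1 / 2, 1, by norm_num, by norm_num⟩

theorem integral_scale (g : E3 → ℝ) (a : E3) {s : ℝ} (hs : 0 < s) :
    ∫ x, g (s⁻¹ • (x - a)) = s ^ 3 * ∫ x, g x := by
  have h1 : ∫ x, g (s⁻¹ • (x - a)) = ∫ x, g (s⁻¹ • x) :=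
    integral_sub_right_eq_self (fun x => g (s⁻¹ • x)) a
  rw [h1, Measure.integral_comp_smul]
  have h3 : Module.finrank ℝ E3 = 3 := by simp
  rw [h3, abs_of_pos (by positivity)]
  simp

theorem norm_gradient_eq (f : E3 → ℝ) (x : E3) : ‖gradient f x‖ = ‖fderiv ℝ f x‖ := by
  unfold gradient
  exact LinearIsometryEquiv.norm_map _ _

theorem fderiv_scaled (a : E3) (s I : ℝ) (x : E3) :
    fderiv ℝ (fun x => I⁻¹ * β (s⁻¹ • (x - a))) x = I⁻¹ • s⁻¹ • fderiv ℝ β (s⁻¹ • (x - a)) := by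
  have hβ : Differentiable ℝ (β : E3 → ℝ) := (β.contDiff (n := 1)).differentiable (by norm_num)
  have h1 : HasFDerivAt (fun x : E3 => s⁻¹ • (x - a)) (s⁻¹ • ContinuousLinearMap.id ℝ E3) x :=
    ((hasFDerivAt_id x).sub_const a).const_smul s⁻¹
  have h2 := (hβ (s⁻¹ • (x - a))).hasFDerivAt.comp x h1
  have h3 : HasFDerivAt (fun x => I⁻¹ * β (s⁻¹ • (x - a)))
    (I⁻¹ • ((fderiv ℝ β (s⁻¹ • (x - a))).comp (s⁻¹ • ContinuousLinearMap.id ℝ E3))) x :=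
    h2.const_mul I⁻¹
  rw [h3.fderiv]
  ext v
  simp

theorem beta_pos : 0 < ∫ x, (β : E3 → ℝ) x := β.integral_pos

theorem exists_bump (a : E3) {s : ℝ} (hs : 0 < s) {tb : ℝ} (htb : 0 < tb) (ψ : E3 → ℝ)
    (hψ : MemLp ψ 2 volume) (h : ∀ x ∈ Metric.ball a s, √tb ≤ ψ x) :
    ∃ φ : E3 → ℝ, ContDiff ℝ ∞ φ ∧ HasCompactSupport φ ∧ (∀ x, 0 ≤ φ x) ∧
      (∀ x, φ x ≠ 0 → x ∈ Metric.ball a s) ∧ (∫ x, ψ x * φ x = 1) ∧
      √(kin (gradient φ)) ≤ √(kin (gradient (β : E3 → ℝ))) / (∫ x, (β : E3 → ℝ) x) / √tb *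
        s ^ (-(5 / 2) : ℝ) := by
  set b : E3 → ℝ := fun x => β (s⁻¹ • (x - a)) with hb
  have hbc : ContDiff ℝ ∞ b := by
    refine β.contDiff.comp ?_
    exact (contDiff_id.sub contDiff_const).const_smul s⁻¹
  have hsupp : ∀ x, b x ≠ 0 → x ∈ Metric.ball a s := by
    intro x hx
    have h1 : s⁻¹ • (x - a) ∈ Function.support (β : E3 → ℝ) := hx
    rw [β.support_eq] at h1
    rw [Metric.mem_ball, dist_zero_right, norm_smul, norm_inv, Real.norm_of_nonneg hs.le] at h1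
    have h2 : s⁻¹ * ‖x - a‖ < 1 := h1
    rw [Metric.mem_ball, dist_eq_norm]
    rw [inv_mul_lt_iff₀ hs] at h2
    linarith
  have hb0 : ∀ x, 0 ≤ b x := fun x => β.nonneg
  have hbs : HasCompactSupport b := by
    refine HasCompactSupport.intro (isCompact_closedBall a s) ?_
    intro x hx
    by_contra hne
    exact hx (Metric.ball_subset_closedBall (hsupp x hne))
  have hbint : Integrable b := hbc.continuous.integrable_of_hasCompactSupport hbs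
  have hb2 : MemLp b 2 volume := hbc.continuous.memLp_of_hasCompactSupport hbs
  have hψb : Integrable (fun x => ψ x * b x) := hψ.integrable_mul hb2
  have hIb : ∫ x, b x = s ^ 3 * ∫ x, (β : E3 → ℝ) x := integral_scale (β : E3 → ℝ) a hs
  set I : ℝ := ∫ x, ψ x * b x with hI
  have hIge : √tb * (s ^ 3 * ∫ x, (β : E3 → ℝ) x) ≤ I := by
    rw [← hIb, ← integral_const_mul]
    refine integral_mono (hbint.const_mul _) hψb ?_
    intro x
    by_cases hx : b x = 0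
    · simp [hx]
    · exact mul_le_mul_of_nonneg_right (h x (hsupp x hx)) (hb0 x)
  have hcβ := beta_pos
  have hst : 0 < √tb := Real.sqrt_pos.2 htb
  have hIpos : 0 < I := lt_of_lt_of_le (by positivity) hIge
  refine ⟨fun x => I⁻¹ * b x, contDiff_const.mul hbc, hbs.mul_left, fun x => ?_, ?_, ?_, ?_⟩
  · exact mul_nonneg (inv_nonneg.2 hIpos.le) (hb0 x)
  · intro x hx
    exact hsupp x (right_ne_zero_of_mul hx)
  · have : ∀ x, ψ x * (I⁻¹ * b x) = I⁻¹ * (ψ x * b x) := fun x => by ring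
    simp_rw [this]
    rw [integral_const_mul, ← hI]
    exact inv_mul_cancel₀ hIpos.ne'
  · have hkin : kin (gradient fun x => I⁻¹ * b x) = (I⁻¹ * s⁻¹) ^ 2 * (s ^ 3 *
        kin (gradient (β : E3 → ℝ))) := by
      unfold kin
      rw [← integral_scale (fun x => ‖gradient (β : E3 → ℝ) x‖ ^ 2) a hs, ← integral_const_mul]
      refine integral_congr_ae (Eventually.of_forall fun x => ?_)
      show ‖gradient (fun x => I⁻¹ * b x) x‖ ^ 2 = (I⁻¹ * s⁻¹) ^ 2 *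
        ‖gradient (β : E3 → ℝ) (s⁻¹ • (x - a))‖ ^ 2
      rw [norm_gradient_eq, norm_gradient_eq, fderiv_scaled, smul_smul, norm_smul,
        Real.norm_of_nonneg (by positivity)]
      ring
    have hk0 : 0 ≤ kin (gradient (β : E3 → ℝ)) := integral_nonneg fun x => by positivity
    rw [hkin, Real.sqrt_mul (by positivity), Real.sqrt_sq (by positivity),
      Real.sqrt_mul (by positivity)]
    set K := √(kin (gradient (β : E3 → ℝ)))
    set c := ∫ x, (β : E3 → ℝ) x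
    have hs3 : √(s ^ 3) = s ^ (3 / 2 : ℝ) := by
      rw [Real.sqrt_eq_rpow, ← Real.rpow_natCast s 3, ← Real.rpow_mul hs.le]
      norm_num
    have hKn : 0 ≤ K := Real.sqrt_nonneg _
    have h1 : I⁻¹ ≤ (√tb * (s ^ 3 * c))⁻¹ := by
      apply inv_anti₀ (by positivity) hIge
    calc I⁻¹ * s⁻¹ * (√(s ^ 3) * K) ≤ (√tb * (s ^ 3 * c))⁻¹ * s⁻¹ * (√(s ^ 3) * K) := by
          gcongr
      _ = K / c / √tb * (s ^ (3 / 2 : ℝ) / s ^ (4 : ℝ)) := by
          rw [hs3, show (4 : ℝ) = ((4 : ℕ) : ℝ) by norm_num, Real.rpow_natCast]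
          field_simp
      _ = K / c / √tb * s ^ (-(5 / 2) : ℝ) := by
          rw [← Real.rpow_sub hs]
          norm_num

theorem norm_e0 : ‖e0‖ = 1 := by
  unfold e0
  simp

end BumpsAux

open BumpsAux

theorem bumps : ∃ C > 0, ∀ R > 0, ∀ tb > 0, ∀ ψ : E3 → ℝ, MemLp ψ 2 volume →
    (∀ x, ‖x‖ < R → x ≠ 0 → √tb ≤ ψ x) →
    ∃ φ₁ φ₃ : E3 → ℝ, ContDiff ℝ ∞ φ₁ ∧ HasCompactSupport φ₁ ∧ ContDiff ℝ ∞ φ₃ ∧
      HasCompactSupport φ₃ ∧ (∀ x, 0 ≤ φ₁ x) ∧ (∀ x, 0 ≤ φ₃ x) ∧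
      (∀ x, φ₁ x ≠ 0 → x ∈ Metric.ball ((R / 8) • e0) (R / 64)) ∧
      (∀ x, φ₃ x ≠ 0 → x ∈ Metric.ball ((5 * R / 8) • e0) (R / 64)) ∧
      (∫ x, ψ x * φ₁ x = 1) ∧ (∫ x, ψ x * φ₃ x = 1) ∧
      √(kin (gradient φ₁)) ≤ C / √tb * R ^ (-(5 / 2) : ℝ) ∧
      √(kin (gradient φ₃)) ≤ C / √tb * R ^ (-(5 / 2) : ℝ) := by
  have hcβ := beta_pos
  set K := √(kin (gradient (β : E3 → ℝ))) with hK
  set c := ∫ x, (β : E3 → ℝ) x with hc
  have hKn : 0 ≤ K := Real.sqrt_nonneg _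
  refine ⟨(K / c + 1) * (64 : ℝ) ^ (5 / 2 : ℝ), by positivity, ?_⟩
  intro R hR tb htb ψ hψ hlow
  have hs : 0 < R / 64 := by positivity
  have hball : ∀ (r : ℝ), R / 8 ≤ r → r ≤ 5 * R / 8 → ∀ x ∈ Metric.ball (r • e0) (R / 64),
      √tb ≤ ψ x := by
    intro r hr1 hr2 x hx
    have hr0 : 0 < r := lt_of_lt_of_le (by positivity) hr1
    rw [Metric.mem_ball, dist_eq_norm] at hx
    have hn : ‖r • e0‖ = r := by
      rw [norm_smul, norm_e0, mul_one, Real.norm_of_nonneg hr0.le]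
    refine hlow x ?_ ?_
    · have : ‖x‖ ≤ ‖x - r • e0‖ + ‖r • e0‖ := by
        simpa using norm_add_le (x - r • e0) (r • e0)
      rw [hn] at this
      linarith
    · rintro rfl
      rw [zero_sub, norm_neg, hn] at hx
      linarith
  obtain ⟨φ₁, a1, a2, a3, a4, a5, a6⟩ := exists_bump ((R / 8) • e0) hs htb ψ hψ
    (hball _ le_rfl (by linarith))
  obtain ⟨φ₃, b1, b2, b3, b4, b5, b6⟩ := exists_bump ((5 * R / 8) • e0) hs htb ψ hψ
    (hball _ (by linarith) le_rfl)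
  have hconst : K / c / √tb * (R / 64) ^ (-(5 / 2) : ℝ) ≤
      (K / c + 1) * (64 : ℝ) ^ (5 / 2 : ℝ) / √tb * R ^ (-(5 / 2) : ℝ) := by
    rw [Real.div_rpow hR.le (by norm_num), Real.rpow_neg (by norm_num : (0 : ℝ) ≤ 64)]
    have hst : 0 < √tb := Real.sqrt_pos.2 htb
    have hRp : 0 < R ^ (-(5 / 2) : ℝ) := Real.rpow_pos_of_pos hR _
    have h64 : 0 < (64 : ℝ) ^ (5 / 2 : ℝ) := Real.rpow_pos_of_pos (by norm_num) _
    rw [show K / c / √tb * (R ^ (-(5 / 2) : ℝ) / ((64 : ℝ) ^ (5 / 2 : ℝ))⁻¹) =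
      K / c * (64 : ℝ) ^ (5 / 2 : ℝ) / √tb * R ^ (-(5 / 2) : ℝ) by
        rw [div_inv_eq_mul]; ring]
    gcongr
    linarith
  exact ⟨φ₁, φ₃, a1, a2, b1, b2, a3, b3, a4, b4, a5, b5, a6.trans hconst, b6.trans hconst⟩

end Pool.Agent.W_MP_b91f46_mp
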