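import Pool.Agent.W_MP_b91f46_mp.NonlinB
import Pool.Agent.W_MP_b91f46_mp.Nuc
import Pool.Agent.W_MP_b91f46_mp.H1Alg

open MeasureTheory Filter Topology Set
open scoped RealInnerProductSpace ContDiff ENNReal

namespace Pool.Agent.W_MP_b91f46_mp

namespace ELAux

/-- density with bounded Coulomb potential -/
structure Good (ρ : E3 → ℝ) : Prop where
  int : Integrable ρ
  ker : ∀ x, Integrable (fun y => ρ y / ‖x - y‖)
  bdd : ∃ B, ∀ x, ∫ y, |ρ y| / ‖x - y‖ ≤ B

theorem sq_ker {u : E3 → ℝ} {gu : E3 → E3} (hu : H1 u gu) (x : E3) :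
    Integrable (fun y => u y ^ 2 / ‖x - y‖) ∧ ∫ y, u y ^ 2 / ‖x - y‖ ≤ √(mass u) * √(kin gu) := by
  have h := nuc_le hu x
  have e : (fun y => u y ^ 2 / ‖x - y‖) = (fun y => u y ^ 2 / ‖y - x‖) := by
    funext y; rw [norm_sub_rev]
  rw [e]
  exact h

theorem good_mul {u v : E3 → ℝ} {gu gv : E3 → E3} (hu : H1 u gu) (hv : H1 v gv) :
    Good (fun y => u y * v y) := by
  have hk : ∀ x, Integrable (fun y => u y * v y / ‖x - y‖) := by
    intro x
    have h1 := (sq_ker hu x).1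
    have h2 := (sq_ker hv x).1
    have h3 := (sq_ker (hu.add hv) x).1
    have e : (fun y => u y * v y / ‖x - y‖) =
        (fun y => (1/2 : ℝ) * ((u y + v y) ^ 2 / ‖x - y‖ - u y ^ 2 / ‖x - y‖ - v y ^ 2 / ‖x - y‖)) := by
      funext y; ring
    rw [e]
    exact ((h3.sub h1).sub h2).const_mul _
  refine ⟨MemLp.integrable_mul hu.memLp hv.memLp, hk, ?_⟩
  refine ⟨√(mass u) * √(kin gu) + √(mass v) * √(kin gv), fun x => ?_⟩
  have h1 := (sq_ker hu x)
  have h2 := (sq_ker hv x)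
  calc ∫ y, |u y * v y| / ‖x - y‖ ≤ ∫ y, (u y ^ 2 / ‖x - y‖ + v y ^ 2 / ‖x - y‖) := by
        refine integral_mono ?_ (h1.1.add h2.1) ?_
        · have := (hk x).abs
          refine this.congr (Eventually.of_forall fun y => ?_)
          simp only [abs_div, abs_norm]
        · intro y
          simp only
          rw [← add_div]
          apply div_le_div_of_nonneg_right _ (norm_nonneg _)
          rw [abs_mul]
          nlinarith [sq_nonneg (|u y| - |v y|), sq_abs (u y), sq_abs (v y), sq_nonneg (u y), sq_nonneg (v y)]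
    _ = (∫ y, u y ^ 2 / ‖x - y‖) + ∫ y, v y ^ 2 / ‖x - y‖ := integral_add h1.1 h2.1
    _ ≤ _ := add_le_add h1.2 h2.2

theorem Good.abs_ker {ρ : E3 → ℝ} (h : Good ρ) (x : E3) : Integrable (fun y => |ρ y| / ‖x - y‖) := by
  refine (h.ker x).abs.congr (Eventually.of_forall fun y => ?_)
  simp only [abs_div, abs_norm]

theorem Good.add {ρ σ : E3 → ℝ} (h : Good ρ) (k : Good σ) : Good (fun y => ρ y + σ y) := by
  obtain ⟨B, hB⟩ := h.bdd
  obtain ⟨B', hB'⟩ := k.bdd
  have hk : ∀ x, Integrable (fun y => (ρ y + σ y) / ‖x - y‖) := by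
    intro x
    refine ((h.ker x).add (k.ker x)).congr (Eventually.of_forall fun y => ?_)
    simp only [Pi.add_apply, add_div]
  refine ⟨h.int.add k.int, hk, B + B', fun x => ?_⟩
  calc ∫ y, |ρ y + σ y| / ‖x - y‖ ≤ ∫ y, (|ρ y| / ‖x - y‖ + |σ y| / ‖x - y‖) := by
        refine integral_mono ?_ ((h.abs_ker x).add (k.abs_ker x)) ?_
        · refine (hk x).abs.congr (Eventually.of_forall fun y => ?_)
          simp only [abs_div, abs_norm]
        · intro y
          simp only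
          rw [← add_div]
          exact div_le_div_of_nonneg_right (abs_add_le _ _) (norm_nonneg _)
    _ = _ := integral_add (h.abs_ker x) (k.abs_ker x)
    _ ≤ _ := add_le_add (hB x) (hB' x)

theorem Good.smul {ρ : E3 → ℝ} (h : Good ρ) (t : ℝ) : Good (fun y => t * ρ y) := by
  obtain ⟨B, hB⟩ := h.bdd
  have hk : ∀ x, Integrable (fun y => (t * ρ y) / ‖x - y‖) := by
    intro x
    refine ((h.ker x).const_mul t).congr (Eventually.of_forall fun y => ?_)
    simp only [mul_div_assoc]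
  refine ⟨h.int.const_mul t, hk, |t| * B, fun x => ?_⟩
  have e : (fun y => |t * ρ y| / ‖x - y‖) = fun y => |t| * (|ρ y| / ‖x - y‖) := by
    funext y; rw [abs_mul, mul_div_assoc]
  rw [e, integral_const_mul]
  exact mul_le_mul_of_nonneg_left (hB x) (abs_nonneg _)

theorem pot_add {ρ σ : E3 → ℝ} (h : Good ρ) (k : Good σ) (x : E3) :
    pot (fun y => ρ y + σ y) x = pot ρ x + pot σ x := by
  unfold pot
  rw [← integral_add (h.ker x) (k.ker x)]
  congr 1; funext y; rw [add_div]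

theorem pot_smul (ρ : E3 → ℝ) (t : ℝ) (x : E3) :
    pot (fun y => t * ρ y) x = t * pot ρ x := by
  unfold pot
  rw [← integral_const_mul]
  congr 1; funext y; rw [mul_div_assoc]

noncomputable def DD (ρ σ : E3 → ℝ) : ℝ := ∫ x, ρ x * pot σ x

theorem meas_prod {ρ σ : E3 → ℝ} (h : Integrable ρ) (k : Integrable σ) :
    AEStronglyMeasurable (fun z : E3 × E3 => ρ z.1 * (σ z.2 / ‖z.1 - z.2‖)) (volume.prod volume) := by
  have h1 : AEStronglyMeasurable (fun z : E3 × E3 => ρ z.1) (volume.prod volume) :=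
    h.aestronglyMeasurable.comp_fst
  have h2 : AEStronglyMeasurable (fun z : E3 × E3 => σ z.2) (volume.prod volume) :=
    k.aestronglyMeasurable.comp_snd
  have h3 : Measurable (fun z : E3 × E3 => ‖z.1 - z.2‖) := (measurable_fst.sub measurable_snd).norm
  exact h1.mul (h2.aemeasurable.div h3.aemeasurable).aestronglyMeasurable

theorem int_prod {ρ σ : E3 → ℝ} (h : Good ρ) (k : Good σ) :
    Integrable (fun z : E3 × E3 => ρ z.1 * (σ z.2 / ‖z.1 - z.2‖)) (volume.prod volume) := by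
  obtain ⟨B, hB⟩ := k.bdd
  have hm := meas_prod h.int k.int
  rw [integrable_prod_iff hm]
  refine ⟨Eventually.of_forall fun x => (k.ker x).const_mul (ρ x), ?_⟩
  refine Integrable.mono' (h.int.abs.mul_const B) hm.norm.integral_prod_right' ?_
  refine Eventually.of_forall fun x => ?_
  simp only
  rw [Real.norm_of_nonneg (integral_nonneg fun y => norm_nonneg _)]
  have e : (fun y => ‖ρ x * (σ y / ‖x - y‖)‖) = fun y => |ρ x| * (|σ y| / ‖x - y‖) := by
    funext y; rw [Real.norm_eq_abs, abs_mul, abs_div, abs_norm]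
  rw [e, integral_const_mul]
  exact mul_le_mul_of_nonneg_left (hB x) (abs_nonneg _)

theorem DD_eq (ρ σ : E3 → ℝ) : DD ρ σ = ∫ x, ∫ y, ρ x * (σ y / ‖x - y‖) := by
  unfold DD pot
  congr 1; funext x
  rw [integral_const_mul]

theorem DD_int {ρ σ : E3 → ℝ} (h : Good ρ) (k : Good σ) : Integrable (fun x => ρ x * pot σ x) := by
  have := (int_prod h k).integral_prod_left
  refine this.congr (Eventually.of_forall fun x => ?_)
  simp only [pot]
  rw [integral_const_mul]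

theorem DD_comm {ρ σ : E3 → ℝ} (h : Good ρ) (k : Good σ) : DD ρ σ = DD σ ρ := by
  rw [DD_eq, DD_eq, integral_integral_swap (int_prod h k)]
  congr 1; funext x
  congr 1; funext y
  rw [norm_sub_rev]
  ring

theorem coul_eq (ρ : E3 → ℝ) : coul ρ = (1/2) * DD ρ ρ := rfl

theorem DD_add_left {ρ ρ' σ : E3 → ℝ} (h : Good ρ) (h' : Good ρ') (k : Good σ) :
    DD (fun y => ρ y + ρ' y) σ = DD ρ σ + DD ρ' σ := by
  unfold DD
  rw [← integral_add (DD_int h k) (DD_int h' k)]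
  congr 1; funext x; ring

theorem DD_smul_left (ρ σ : E3 → ℝ) (t : ℝ) : DD (fun y => t * ρ y) σ = t * DD ρ σ := by
  unfold DD
  rw [← integral_const_mul]
  congr 1; funext x; ring

theorem DD_smul_right (ρ σ : E3 → ℝ) (t : ℝ) : DD ρ (fun y => t * σ y) = t * DD ρ σ := by
  unfold DD
  rw [← integral_const_mul]
  congr 1; funext x; rw [pot_smul]; ring

theorem coul_add {a b : E3 → ℝ} (h : Good a) (k : Good b) :
    coul (fun y => a y + b y) = coul a + DD b a + coul b := by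
  rw [coul_eq, coul_eq, coul_eq, DD_add_left h k (h.add k), DD_comm h (h.add k), DD_comm k (h.add k),
    DD_add_left h k h, DD_add_left h k k, DD_comm h k]
  ring

theorem coul_smul (b : E3 → ℝ) (t : ℝ) : coul (fun y => t * b y) = t ^ 2 * coul b := by
  rw [coul_eq, coul_eq, DD_smul_left, DD_smul_right]; ring

/-- expansion of the Coulomb term along `u + t v` -/
theorem coul_expand {u v : E3 → ℝ} {gu gv : E3 → E3} (hu : H1 u gu) (hv : H1 v gv) :
    ∃ C, ∀ t : ℝ, |t| ≤ 1 →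
      coul (fun x => (u x + t * v x) ^ 2) ≤
        coul (fun x => u x ^ 2) + 2 * t * (∫ x, pot (fun y => u y ^ 2) x * (u x * v x)) + C * t ^ 2 := by
  have ga : Good (fun x => u x ^ 2) := by
    have := good_mul hu hu
    refine (?_ : (fun x => u x ^ 2) = fun y => u y * u y) ▸ this
    funext x; ring
  have gb1 : Good (fun x => 2 * (u x * v x)) := (good_mul hu hv).smul 2
  have gb2 : Good (fun x => v x ^ 2) := by
    have := good_mul hv hv
    refine (?_ : (fun x => v x ^ 2) = fun y => v y * v y) ▸ this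
    funext x; ring
  refine ⟨DD (fun x => v x ^ 2) (fun x => u x ^ 2) +
    (|coul (fun x => 2 * (u x * v x))| + |DD (fun x => v x ^ 2) (fun x => 2 * (u x * v x))|
     + |coul (fun x => v x ^ 2)|), fun t ht => ?_⟩
  have gb : Good (fun x => 2 * (u x * v x) + t * v x ^ 2) := gb1.add (gb2.smul t)
  have e1 : (fun x => (u x + t * v x) ^ 2) =
      fun x => u x ^ 2 + t * (2 * (u x * v x) + t * v x ^ 2) := by
    funext x; ring
  rw [e1, coul_add ga (gb.smul t), coul_smul (fun x => 2 * (u x * v x) + t * v x ^ 2) t,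
    DD_smul_left, DD_add_left gb1 (gb2.smul t) ga,
    DD_smul_left, DD_smul_left, coul_add gb1 (gb2.smul t), DD_smul_left,
    coul_smul (fun x => v x ^ 2) t]
  have e2 : DD (fun x => u x * v x) (fun x => u x ^ 2) =
      ∫ x, pot (fun y => u y ^ 2) x * (u x * v x) := by
    unfold DD; congr 1; funext x; ring
  rw [e2]
  set X := coul (fun x => 2 * (u x * v x))
  set Y := DD (fun x => v x ^ 2) (fun x => 2 * (u x * v x))
  set Z := coul (fun x => v x ^ 2)
  set W := ∫ x, pot (fun y => u y ^ 2) x * (u x * v x)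
  set V := DD (fun x => v x ^ 2) (fun x => u x ^ 2)
  have h1 : X ≤ |X| := le_abs_self _
  have h2 : t * Y ≤ |Y| := by
    calc t * Y ≤ |t * Y| := le_abs_self _
      _ = |t| * |Y| := abs_mul _ _
      _ ≤ 1 * |Y| := mul_le_mul_of_nonneg_right ht (abs_nonneg _)
      _ = |Y| := one_mul _
  have ht2 : t ^ 2 ≤ 1 := by
    rw [← sq_abs]; nlinarith [abs_nonneg t]
  have h3 : t ^ 2 * Z ≤ |Z| := by
    calc t ^ 2 * Z ≤ |t ^ 2 * Z| := le_abs_self _
      _ = t ^ 2 * |Z| := by rw [abs_mul, abs_of_nonneg (sq_nonneg t)]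
      _ ≤ 1 * |Z| := mul_le_mul_of_nonneg_right ht2 (abs_nonneg _)
      _ = |Z| := one_mul _
  nlinarith [mul_le_mul_of_nonneg_left (add_le_add (add_le_add h1 h2) h3) (sq_nonneg t)]

theorem int3 {f1 f2 f3 : E3 → ℝ} (i1 : Integrable f1) (i2 : Integrable f2) (i3 : Integrable f3)
    (a b : ℝ) : ∫ x, (f1 x + a * f2 x + b * f3 x) = (∫ x, f1 x) + a * (∫ x, f2 x) + b * ∫ x, f3 x := by
  have j1 : Integrable (fun x => f1 x + a * f2 x) := i1.add (i2.const_mul a)
  rw [integral_add j1 (i3.const_mul b), integral_add i1 (i2.const_mul a), integral_const_mul,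
    integral_const_mul]

theorem mass_expand {u v : E3 → ℝ} {gu gv : E3 → E3} (hu : H1 u gu) (hv : H1 v gv) (t : ℝ) :
    mass (fun x => u x + t * v x) = mass u + 2 * t * (∫ x, u x * v x) + t ^ 2 * mass v := by
  have i1 : Integrable (fun x => u x ^ 2) := hu.memLp.integrable_sq
  have i2 : Integrable (fun x => v x ^ 2) := hv.memLp.integrable_sq
  have i3 : Integrable (fun x => u x * v x) := MemLp.integrable_mul hu.memLp hv.memLp
  unfold mass
  have e : (fun x => (u x + t * v x) ^ 2) =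
      fun x => (u x ^ 2 + (2 * t) * (u x * v x)) + t ^ 2 * v x ^ 2 := by funext x; ring
  rw [e, int3 i1 i3 i2]

theorem nuc_expand {u v : E3 → ℝ} {gu gv : E3 → E3} (hu : H1 u gu) (hv : H1 v gv) (t : ℝ) :
    nuc 0 (fun x => u x + t * v x) =
      nuc 0 u + 2 * t * (∫ x, u x * v x / ‖x‖) + t ^ 2 * nuc 0 v := by
  have i1 := (nuc_le hu 0).1
  have i2 := (nuc_le hv 0).1
  have i3 : Integrable (fun x => u x * v x / ‖x - 0‖) := by
    have := (good_mul hu hv).ker 0
    refine this.congr (Eventually.of_forall fun x => ?_)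
    simp only [zero_sub, sub_zero, norm_neg]
  have e4 : (∫ x, u x * v x / ‖x‖) = ∫ x, u x * v x / ‖x - 0‖ := by simp only [sub_zero]
  rw [e4]
  unfold nuc
  have e : (fun x : E3 => (u x + t * v x) ^ 2 / ‖x - 0‖) =
      fun x => (u x ^ 2 / ‖x - 0‖ + (2 * t) * (u x * v x / ‖x - 0‖)) + t ^ 2 * (v x ^ 2 / ‖x - 0‖) := by
    funext x; ring
  rw [e, int3 i1 i3 i2]

theorem kin_expand {g k : E3 → E3} (hg : MemLp g 2 volume) (hk : MemLp k 2 volume) (t : ℝ) :
    kin (fun x => g x + t • k x) = kin g + 2 * t * (∫ x, ⟪g x, k x⟫) + t ^ 2 * kin k := by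
  have i1 : Integrable (fun x => ‖g x‖ ^ 2) := hg.integrable_norm_pow (by norm_num)
  have i2 : Integrable (fun x => ‖k x‖ ^ 2) := hk.integrable_norm_pow (by norm_num)
  have i3 : Integrable (fun x => ⟪g x, k x⟫) := by
    refine Integrable.mono' ((i1.add i2)) (hg.aestronglyMeasurable.inner hk.aestronglyMeasurable) ?_
    refine Eventually.of_forall fun x => ?_
    simp only [Pi.add_apply]
    calc ‖⟪g x, k x⟫‖ ≤ ‖g x‖ * ‖k x‖ := norm_inner_le_norm _ _
      _ ≤ _ := by nlinarith [sq_nonneg (‖g x‖ - ‖k x‖), sq_nonneg ‖g x‖, sq_nonneg ‖k x‖]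
  unfold kin
  have e : (fun x => ‖g x + t • k x‖ ^ 2) =
      fun x => (‖g x‖ ^ 2 + (2 * t) * ⟪g x, k x⟫) + t ^ 2 * ‖k x‖ ^ 2 := by
    funext x
    rw [norm_add_sq_real, norm_smul, real_inner_smul_right, mul_pow, Real.norm_eq_abs, sq_abs]
    ring
  rw [e, int3 i1 i3 i2]

theorem kin_nonneg (g : E3 → E3) : 0 ≤ kin g := integral_nonneg fun _ => sq_nonneg _

theorem kin_smul (g : E3 → E3) (c : ℝ) : kin (fun x => c • g x) = c ^ 2 * kin g := by
  unfold kin
  rw [← integral_const_mul]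
  congr 1; funext x
  rw [norm_smul, mul_pow, Real.norm_eq_abs, sq_abs]

theorem mass_smul (u : E3 → ℝ) (c : ℝ) : mass (fun x => c * u x) = c ^ 2 * mass u := by
  unfold mass
  rw [← integral_const_mul]
  congr 1; funext x; ring

theorem nuc_smul (u : E3 → ℝ) (c : ℝ) : nuc 0 (fun x => c * u x) = c ^ 2 * nuc 0 u := by
  unfold nuc
  rw [← integral_const_mul]
  congr 1; funext x; ring

theorem coul_sq_smul (u : E3 → ℝ) (c : ℝ) :
    coul (fun x => (c * u x) ^ 2) = (c ^ 2) ^ 2 * coul (fun x => u x ^ 2) := by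
  have : (fun x => (c * u x) ^ 2) = fun x => c ^ 2 * u x ^ 2 := by funext x; ring
  rw [this, coul_smul]

theorem coul_sq_nonneg (u : E3 → ℝ) : 0 ≤ coul (fun x => u x ^ 2) := by
  unfold coul
  refine mul_nonneg (by norm_num) (integral_nonneg fun x => mul_nonneg (sq_nonneg _) ?_)
  exact integral_nonneg fun y => div_nonneg (sq_nonneg _) (norm_nonneg _)

theorem G_scale {p d δ r : ℝ} (hp : 4 / 3 < p) (hd0 : 0 ≤ d) (hd1 : d ≤ 1) (hδ : 1 - d ≤ δ)
    (hr : 0 ≤ r) : G p (d * r) ≤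
      J p r + (4 * (p - 1) * δ) * r ^ (4 / 3 : ℝ) + ((3 * p - 4) * d) * r := by
  unfold G J
  rw [Real.mul_rpow hd0 hr, Real.mul_rpow hd0 hr]
  have hdp : d ^ p ≤ 1 := Real.rpow_le_one hd0 hd1 (by linarith)
  have hrp : 0 ≤ r ^ p := Real.rpow_nonneg hr _
  have hr4 : 0 ≤ r ^ (4 / 3 : ℝ) := Real.rpow_nonneg hr _
  have hb : 1 + (4 / 3 : ℝ) * (d - 1) ≤ (1 + (d - 1)) ^ (4 / 3 : ℝ) :=
    one_add_mul_self_le_rpow_one_add (by linarith) (by norm_num)
  have hb' : 1 - (4 / 3 : ℝ) * δ ≤ d ^ (4 / 3 : ℝ) := by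
    have e : 1 + (d - 1) = d := by ring
    rw [e] at hb
    linarith
  have h1 : d ^ p * r ^ p ≤ r ^ p := by nlinarith
  have h2 : (1 - (4 / 3 : ℝ) * δ) * r ^ (4 / 3 : ℝ) ≤
      d ^ (4 / 3 : ℝ) * r ^ (4 / 3 : ℝ) := mul_le_mul_of_nonneg_right hb' hr4
  have h3 : 0 < 3 * (p - 1) := by linarith
  have h4 := mul_le_mul_of_nonneg_left h2 h3.le
  linarith

theorem nuc_scale {d t ν I νφ q z : ℝ} (ht1 : |t| ≤ 1) (ht2 : t ^ 2 ≤ 1) (hd1 : d ≤ 1)
    (hdδ : 1 - d ≤ t ^ 2 * q) (hz : 0 ≤ z) :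
    -(z * (d * (ν + 2 * t * I + t ^ 2 * νφ))) ≤
      -(z * ν) - 2 * t * (z * I) + z * (|νφ| + q * (|ν| + 2 * |I| + |νφ|)) * t ^ 2 := by
  set Nt := ν + 2 * t * I + t ^ 2 * νφ with hNt
  set N := |ν| + 2 * |I| + |νφ| with hN
  have hN0 : 0 ≤ N := by positivity
  have hNt1 : |Nt| ≤ N := by
    calc |Nt| ≤ |ν + 2 * t * I| + |t ^ 2 * νφ| := abs_add_le _ _
      _ ≤ (|ν| + |2 * t * I|) + |t ^ 2 * νφ| := by gcongr; exact abs_add_le _ _
      _ ≤ (|ν| + 2 * |I|) + |νφ| := by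
          rw [abs_mul, abs_mul, abs_mul, abs_two, abs_of_nonneg (sq_nonneg t)]
          have h1 : 2 * |t| * |I| ≤ 2 * |I| := by
            nlinarith [abs_nonneg I]
          have h2 : t ^ 2 * |νφ| ≤ |νφ| := by nlinarith [abs_nonneg νφ]
          linarith
      _ = N := rfl
  have h1 : (1 - d) * Nt ≤ t ^ 2 * q * N := by
    calc (1 - d) * Nt ≤ (1 - d) * N :=
          mul_le_mul_of_nonneg_left ((le_abs_self _).trans hNt1) (by linarith)
      _ ≤ _ := mul_le_mul_of_nonneg_right hdδ hN0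
  have h2 : -(t ^ 2 * νφ) ≤ t ^ 2 * |νφ| := by
    nlinarith [neg_abs_le νφ, sq_nonneg t]
  have h3 : -(d * Nt) ≤ -ν - 2 * t * I + (|νφ| + q * N) * t ^ 2 := by
    rw [hNt] at h1 ⊢
    linarith
  have := mul_le_mul_of_nonneg_left h3 hz
  linarith

/-- first-order condition -/
theorem lin_zero {L C t0 : ℝ} (ht0 : 0 < t0) (h : ∀ t : ℝ, |t| ≤ t0 → 0 ≤ 2 * t * L + C * t ^ 2) :
    L = 0 := by
  by_contra hL
  have hC : 0 < |C| + 1 := by positivity
  have hLp : 0 < |L| := abs_pos.mpr hL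
  set s := min t0 (|L| / (|C| + 1)) with hs
  have hs0 : 0 < s := lt_min ht0 (div_pos hLp hC)
  have hs1 : s ≤ t0 := min_le_left _ _
  have hs2 : s * (|C| + 1) ≤ |L| := by
    have := min_le_right t0 (|L| / (|C| + 1))
    rw [← hs] at this
    rwa [le_div_iff₀ hC] at this
  have hCs : C * s ^ 2 ≤ |C| * s ^ 2 := mul_le_mul_of_nonneg_right (le_abs_self C) (sq_nonneg _)
  rcases lt_or_gt_of_ne hL with h1 | h1
  · have h2 := h s (by rw [abs_of_pos hs0]; exact hs1)
    rw [abs_of_neg h1] at hs2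
    nlinarith [mul_pos hs0 hs0]
  · have h2 := h (-s) (by rw [abs_neg, abs_of_pos hs0]; exact hs1)
    rw [abs_of_pos h1] at hs2
    nlinarith [mul_pos hs0 hs0]

end ELAux

open ELAux

theorem euler_lagrange {A p z κ lam : ℝ} (hp : 4 / 3 < p) (hA : 0 < A) (hz : 0 < z) (hlam : 0 < lam)
    {ψ : E3 → ℝ} {g : E3 → E3} (h : Adm p ψ g) (hm : mass ψ = lam)
    (hmin : ∀ ψ' g', Adm p ψ' g' → mass ψ' = lam → FF A p z κ ψ g ≤ FF A p z κ ψ' g')
    {φ : E3 → ℝ} (hφ : ContDiff ℝ ∞ φ) (hφc : HasCompactSupport φ) {m M : ℝ} (hm0 : 0 < m)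
    (hmM : ∀ᵐ x, φ x ≠ 0 → m ≤ ψ x ∧ ψ x ≤ M) (horth : ∫ x, ψ x * φ x = 0) :
    A * (∫ x, ⟪g x, gradient φ x⟫) + (∫ x, J' p (ψ x ^ 2) * (ψ x * φ x))
      + (∫ x, pot (fun y => ψ y ^ 2) x * (ψ x * φ x)) - z * (∫ x, ψ x * φ x / ‖x‖) = 0 := by
  have hφH : H1 φ (gradient φ) := H1.of_test hφ hφc
  have hψH : H1 ψ g := h.toH1
  have hp0 : 0 < p := by linarith
  -- bound on φ
  obtain ⟨K0, hK0⟩ := hφc.exists_bound_of_continuous hφ.continuous
  set K := max K0 1 with hKdef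
  have hK1 : 1 ≤ K := le_max_right _ _
  have hK : ∀ x, |φ x| ≤ K := fun x => (hK0 x).trans (le_max_left _ _)
  have hKpos : 0 < K := by linarith
  set t0 := min 1 (m / (2 * K)) with ht0def
  have ht0 : 0 < t0 := lt_min one_pos (div_pos hm0 (by positivity))
  have ht01 : t0 ≤ 1 := min_le_left _ _
  have ht0m : ∀ t : ℝ, |t| ≤ t0 → ∀ x, |t * φ x| ≤ m / 2 := by
    intro t ht x
    rw [abs_mul]
    have h1 : |t| ≤ m / (2 * K) := ht.trans (min_le_right _ _)
    calc |t| * |φ x| ≤ m / (2 * K) * K := mul_le_mul h1 (hK x) (abs_nonneg _) (by positivity)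
      _ = m / 2 := by field_simp
  set q0 := mass φ with hq0
  have hq0n : 0 ≤ q0 := integral_nonneg fun _ => sq_nonneg _
  -- integrability
  have iψ2 : Integrable (fun x => ψ x ^ 2) := hψH.memLp.integrable_sq
  have iφ2 : Integrable (fun x => φ x ^ 2) := hφH.memLp.integrable_sq
  -- power bound
  set S : E3 → ℝ := (tsupport φ).indicator (fun _ => ((M + m) ^ 2) ^ p) with hS
  have iS : Integrable S := by
    refine IntegrableOn.integrable_indicator ?_ (isClosed_tsupport φ).measurableSet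
    exact integrableOn_const hφc.isCompact.measure_lt_top.ne
  have hSn : ∀ x, 0 ≤ S x := fun x => indicator_nonneg (fun _ _ => Real.rpow_nonneg (sq_nonneg _) _) x
  have hpow : ∀ t : ℝ, |t| ≤ t0 → ∀ᵐ x, ((ψ x + t * φ x) ^ 2) ^ p ≤ (ψ x ^ 2) ^ p + S x := by
    intro t ht
    filter_upwards [hmM] with x hx
    by_cases h0 : φ x = 0
    · rw [h0, mul_zero, add_zero]
      linarith [hSn x]
    · obtain ⟨h1, h2⟩ := hx h0
      have hmem : x ∈ tsupport φ := subset_tsupport _ h0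
      have hSx : S x = ((M + m) ^ 2) ^ p := by rw [hS, indicator_of_mem hmem]
      rw [hSx]
      have h3 := abs_le.mp (ht0m t ht x)
      have h4 : (ψ x + t * φ x) ^ 2 ≤ (M + m) ^ 2 := by
        apply pow_le_pow_left₀ <;> linarith
      have h5 : ((ψ x + t * φ x) ^ 2) ^ p ≤ ((M + m) ^ 2) ^ p :=
        Real.rpow_le_rpow (sq_nonneg _) h4 hp0.le
      have h6 : 0 ≤ (ψ x ^ 2) ^ p := Real.rpow_nonneg (sq_nonneg _) _
      linarith
  have hH1t : ∀ t : ℝ, H1 (fun x => ψ x + t * φ x) (fun x => g x + t • gradient φ x) :=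
    fun t => hψH.add (hφH.smul t)
  have ipow : ∀ t : ℝ, |t| ≤ t0 → Integrable (fun x => ((ψ x + t * φ x) ^ 2) ^ p) := by
    intro t ht
    have hmeas : AEStronglyMeasurable (fun x => ((ψ x + t * φ x) ^ 2) ^ p) volume :=
      (((hH1t t).memLp.aestronglyMeasurable.aemeasurable.pow_const 2).pow_const p).aestronglyMeasurable
    refine Integrable.mono' (h.integrable_pow.add iS) hmeas ?_
    filter_upwards [hpow t ht] with x hx
    rw [Real.norm_of_nonneg (Real.rpow_nonneg (sq_nonneg _) _)]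
    exact hx
  have hAdm : ∀ t : ℝ, |t| ≤ t0 → ∀ c : ℝ, Adm p (fun x => c * (ψ x + t * φ x))
      (fun x => c • (g x + t • gradient φ x)) := by
    intro t ht c
    refine ⟨(hH1t t).smul c, ?_⟩
    have e : (fun x => ((c * (ψ x + t * φ x)) ^ 2) ^ p) =
        fun x => (c ^ 2) ^ p * ((ψ x + t * φ x) ^ 2) ^ p := by
      funext x
      rw [mul_pow, Real.mul_rpow (sq_nonneg _) (sq_nonneg _)]
    rw [e]
    exact (ipow t ht).const_mul _
  -- 4/3 power
  have i43 : ∀ u : E3 → ℝ, Integrable (fun x => u x ^ 2) → AEMeasurable u volume →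
      Integrable (fun x => (u x ^ 2) ^ p) → Integrable (fun x => (u x ^ 2) ^ (4 / 3 : ℝ)) := by
    intro u h1 hu h2
    refine Integrable.mono' (h1.add h2) ((hu.pow_const 2).pow_const _).aestronglyMeasurable ?_
    refine Eventually.of_forall fun x => ?_
    rw [Real.norm_of_nonneg (Real.rpow_nonneg (sq_nonneg _) _)]
    exact rpow43_le hp (sq_nonneg _)
  have iρ : ∀ t : ℝ, Integrable (fun x => (ψ x + t * φ x) ^ 2) := fun t => (hH1t t).memLp.integrable_sq
  have i43t : ∀ t : ℝ, |t| ≤ t0 → Integrable (fun x => ((ψ x + t * φ x) ^ 2) ^ (4 / 3 : ℝ)) :=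
    fun t ht => i43 _ (iρ t) (hH1t t).memLp.aestronglyMeasurable.aemeasurable (ipow t ht)
  have i43ψ : Integrable (fun x => (ψ x ^ 2) ^ (4 / 3 : ℝ)) :=
    i43 ψ iψ2 hψH.memLp.aestronglyMeasurable.aemeasurable h.integrable_pow
  have iJψ : Integrable (fun x => J p (ψ x ^ 2)) := by
    unfold J
    exact h.integrable_pow.sub (i43ψ.const_mul _)
  have iJt : ∀ t : ℝ, |t| ≤ t0 → Integrable (fun x => J p ((ψ x + t * φ x) ^ 2)) := by
    intro t ht
    unfold J
    exact (ipow t ht).sub ((i43t t ht).const_mul _)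
  -- masses
  have hmt : ∀ t : ℝ, mass (fun x => ψ x + t * φ x) = lam + t ^ 2 * q0 := by
    intro t
    rw [mass_expand hψH hφH, horth, hm]; ring
  -- bound on the 4/3-integral
  set B := lam + q0 + ((∫ x, (ψ x ^ 2) ^ p) + ∫ x, S x) with hB
  have hB0 : 0 ≤ B := by
    have h1 : 0 ≤ ∫ x, (ψ x ^ 2) ^ p := integral_nonneg fun x => Real.rpow_nonneg (sq_nonneg _) _
    have h2 : 0 ≤ ∫ x, S x := integral_nonneg hSn
    rw [hB]; linarith
  have hB43 : ∀ t : ℝ, |t| ≤ t0 → ∫ x, ((ψ x + t * φ x) ^ 2) ^ (4 / 3 : ℝ) ≤ B := by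
    intro t ht
    have h1 : ∫ x, ((ψ x + t * φ x) ^ 2) ^ (4 / 3 : ℝ) ≤
        ∫ x, ((ψ x + t * φ x) ^ 2 + ((ψ x + t * φ x) ^ 2) ^ p) :=
      integral_mono (i43t t ht) ((iρ t).add (ipow t ht)) fun x => rpow43_le hp (sq_nonneg _)
    rw [integral_add (iρ t) (ipow t ht)] at h1
    have h2 : ∫ x, ((ψ x + t * φ x) ^ 2) ^ p ≤ (∫ x, (ψ x ^ 2) ^ p) + ∫ x, S x := by
      rw [← integral_add h.integrable_pow iS]
      exact integral_mono_ae (ipow t ht) (h.integrable_pow.add iS) (hpow t ht)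
    have h3 : ∫ x, (ψ x + t * φ x) ^ 2 = lam + t ^ 2 * q0 := hmt t
    have h4 : t ^ 2 ≤ 1 := by
      rw [← sq_abs]
      have : |t| ≤ 1 := ht.trans ht01
      nlinarith [abs_nonneg t]
    have h5 : t ^ 2 * q0 ≤ q0 := by nlinarith
    rw [hB]; linarith
  -- Taylor
  obtain ⟨C1, hC1, hT⟩ := J_taylor hp (m := m) (M := M) hm0
  obtain ⟨C2, hC2, hJ'⟩ := abs_J'_le hp (M ^ 2)
  have iJ' : Integrable (fun x => J' p (ψ x ^ 2) * (ψ x * φ x)) := by
    have hi : Integrable (fun x => ψ x * φ x) := MemLp.integrable_mul hψH.memLp hφH.memLp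
    have hmJ : AEMeasurable (fun x => J' p (ψ x ^ 2)) volume := by
      unfold J'
      have := hψH.memLp.aestronglyMeasurable.aemeasurable.pow_const 2
      exact ((this.pow_const (p - 1)).const_mul p).sub ((this.pow_const (1/3 : ℝ)).const_mul (4 * (p - 1)))
    refine Integrable.mono' (hi.abs.const_mul C2) (hmJ.aestronglyMeasurable.mul hi.aestronglyMeasurable) ?_
    filter_upwards [hmM] with x hx
    by_cases h0 : φ x = 0
    · simp [h0]
    · obtain ⟨h1, h2⟩ := hx h0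
      rw [norm_mul, Real.norm_eq_abs, Real.norm_eq_abs]
      refine mul_le_mul_of_nonneg_right (hJ' _ (sq_nonneg _) ?_) (abs_nonneg _)
      exact pow_le_pow_left₀ (by linarith) h2 2
  have hJint : ∀ t : ℝ, |t| ≤ t0 → ∫ x, J p ((ψ x + t * φ x) ^ 2) ≤
      (∫ x, J p (ψ x ^ 2)) + (2 * t) * (∫ x, J' p (ψ x ^ 2) * (ψ x * φ x)) + (C1 * t ^ 2) * q0 := by
    intro t ht
    rw [hq0]
    unfold mass
    rw [← int3 iJψ iJ' iφ2]
    refine integral_mono_ae (iJt t ht) ((iJψ.add (iJ'.const_mul _)).add (iφ2.const_mul _)) ?_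
    filter_upwards [hmM] with x hx
    by_cases h0 : φ x = 0
    · simp [h0]
    · obtain ⟨h1, h2⟩ := hx h0
      have h3 := (abs_le.mp (hT (ψ x) h1 h2 (t * φ x) (ht0m t ht x))).2
      nlinarith
  obtain ⟨C3, hC3⟩ := coul_expand hψH hφH
  set I1 := ∫ x, ⟪g x, gradient φ x⟫ with hI1
  set I2 := ∫ x, J' p (ψ x ^ 2) * (ψ x * φ x) with hI2
  set I3 := ∫ x, pot (fun y => ψ y ^ 2) x * (ψ x * φ x) with hI3
  set I4 := ∫ x, ψ x * φ x / ‖x‖ with hI4
  set N := |nuc 0 ψ| + 2 * |I4| + |nuc 0 φ| with hN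
  have hN0 : 0 ≤ N := by positivity
  apply lin_zero (C := A * kin (gradient φ) + (C1 * q0 + 4 * (p - 1) * (q0 / lam) * B) + C3
    + z * (|nuc 0 φ| + (q0 / lam) * N)) ht0
  intro t ht
  have ht1 : |t| ≤ 1 := ht.trans ht01
  have ht2 : t ^ 2 ≤ 1 := by
    rw [← sq_abs]; nlinarith [abs_nonneg t]
  -- the scaling factor
  have hden : 0 < lam + t ^ 2 * q0 := by positivity
  set d := lam / (lam + t ^ 2 * q0) with hd
  have hd0 : 0 ≤ d := by positivity
  have hd1 : d ≤ 1 := by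
    rw [hd, div_le_one hden]
    nlinarith [mul_nonneg (sq_nonneg t) hq0n]
  have hdδ : 1 - d ≤ t ^ 2 * (q0 / lam) := by
    have e1 : 1 - d = t ^ 2 * q0 / (lam + t ^ 2 * q0) := by
      rw [hd]; field_simp; ring
    rw [e1, mul_div_assoc']
    apply div_le_div_of_nonneg_left (by positivity) hlam
    nlinarith [mul_nonneg (sq_nonneg t) hq0n]
  have hc2 : (√d) ^ 2 = d := Real.sq_sqrt hd0
  have hmass : mass (fun x => √d * (ψ x + t * φ x)) = lam := by
    rw [mass_smul, hmt, hc2, hd]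
    field_simp
  have hkey := hmin _ _ (hAdm t ht (√d)) hmass
  unfold FF PP at hkey
  rw [hmass, hm, kin_smul, nuc_smul, coul_sq_smul, hc2, kin_expand hψH.memLp_grad hφH.memLp_grad,
    nuc_expand hψH hφH] at hkey
  set ρt : E3 → ℝ := fun x => (ψ x + t * φ x) ^ 2 with hρt
  -- b1
  have b1 : A * (d * (kin g + 2 * t * I1 + t ^ 2 * kin (gradient φ))) ≤
      A * (kin g + 2 * t * I1 + t ^ 2 * kin (gradient φ)) := by
    have : 0 ≤ kin g + 2 * t * I1 + t ^ 2 * kin (gradient φ) := by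
      rw [hI1, ← kin_expand hψH.memLp_grad hφH.memLp_grad]
      exact kin_nonneg _
    exact mul_le_mul_of_nonneg_left (mul_le_of_le_one_left this hd1) hA.le
  -- b2
  have b2' : ig p ψ = (∫ x, J p (ψ x ^ 2)) + (3 * p - 4) * lam := by
    unfold ig G
    rw [integral_add iJψ (iψ2.const_mul _), integral_const_mul, ← hm]
    rfl
  have b2 : ig p (fun x => √d * (ψ x + t * φ x)) ≤
      (∫ x, J p (ρt x)) + (4 * (p - 1) * (t ^ 2 * (q0 / lam))) * B + (3 * p - 4) * lam := by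
    have iG : Integrable (fun x => G p ((√d * (ψ x + t * φ x)) ^ 2)) := by
      have hA' := (hAdm t ht (√d))
      have j1 : Integrable (fun x => (√d * (ψ x + t * φ x)) ^ 2) := hA'.memLp.integrable_sq
      have j2 := hA'.integrable_pow
      have j3 := i43 _ j1 hA'.memLp.aestronglyMeasurable.aemeasurable j2
      unfold G J
      exact (j2.sub (j3.const_mul _)).add (j1.const_mul _)
    have e0 : (3 * p - 4) * lam = ((3 * p - 4) * d) * ∫ x, ρt x := by
      have : (∫ x, ρt x) = lam + t ^ 2 * q0 := hmt t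
      rw [this, hd]; field_simp
    have e1 : (∫ x, J p (ρt x)) + (4 * (p - 1) * (t ^ 2 * (q0 / lam))) * (∫ x, (ρt x) ^ (4 / 3 : ℝ))
        + ((3 * p - 4) * d) * (∫ x, ρt x) ≤
        (∫ x, J p (ρt x)) + (4 * (p - 1) * (t ^ 2 * (q0 / lam))) * B + (3 * p - 4) * lam := by
      rw [e0]
      have : 0 ≤ 4 * (p - 1) * (t ^ 2 * (q0 / lam)) := by
        have : 0 < p - 1 := by linarith
        positivity
      have := mul_le_mul_of_nonneg_left (hB43 t ht) this
      linarith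
    refine le_trans ?_ e1
    have iR : Integrable (fun x => J p (ρt x) + (4 * (p - 1) * (t ^ 2 * (q0 / lam))) *
        (ρt x) ^ (4 / 3 : ℝ) + ((3 * p - 4) * d) * ρt x) :=
      ((iJt t ht).add ((i43t t ht).const_mul _)).add ((iρ t).const_mul _)
    have hpt : ∀ x, G p ((√d * (ψ x + t * φ x)) ^ 2) ≤ J p (ρt x) +
        (4 * (p - 1) * (t ^ 2 * (q0 / lam))) * (ρt x) ^ (4 / 3 : ℝ) + ((3 * p - 4) * d) * ρt x := by
      intro x
      rw [mul_pow, hc2]
      exact G_scale hp hd0 hd1 hdδ (sq_nonneg _)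
    have e2 := int3 (iJt t ht) (i43t t ht) (iρ t) (4 * (p - 1) * (t ^ 2 * (q0 / lam)))
      ((3 * p - 4) * d)
    have e3 : ig p (fun x => √d * (ψ x + t * φ x)) ≤ ∫ x, (J p (ρt x) +
        (4 * (p - 1) * (t ^ 2 * (q0 / lam))) * (ρt x) ^ (4 / 3 : ℝ) + ((3 * p - 4) * d) * ρt x) := by
      unfold ig
      exact integral_mono iG iR hpt
    rw [e2] at e3
    exact e3
  -- b3
  have b3 : d ^ 2 * coul (fun x => (ψ x + t * φ x) ^ 2) ≤
      coul (fun x => ψ x ^ 2) + 2 * t * I3 + C3 * t ^ 2 := by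
    refine le_trans ?_ (hC3 t ht1)
    have h0 := coul_sq_nonneg (fun x => ψ x + t * φ x)
    exact mul_le_of_le_one_left h0 (pow_le_one₀ hd0 hd1)
  -- b4
  have b4 : -(z * (d * (nuc 0 ψ + 2 * t * I4 + t ^ 2 * nuc 0 φ))) ≤
      -(z * nuc 0 ψ) - 2 * t * (z * I4) + z * (|nuc 0 φ| + (q0 / lam) * N) * t ^ 2 := by
    exact nuc_scale ht1 ht2 hd1 hdδ hz.le
  have b5 := hJint t ht
  rw [b2'] at hkey
  linarith

end Pool.Agent.W_MP_b91f46_mp
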