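import Pool.Agent.W_MP_b91f46_mp.Defs

open MeasureTheory Filter Topology Set
open scoped RealInnerProductSpace ContDiff ENNReal

namespace Pool.Agent.W_MP_b91f46_mp

/-- the first basis vector -/
noncomputable def e0 : E3 := EuclideanSpace.single 0 1

namespace PotDropAux

lemma norm_e0 : ‖e0‖ = 1 := by
  simp [e0]

/-- the reflection exchanging `x` and `x'` -/
noncomputable def S (x x' y : E3) : E3 :=
  (Submodule.reflection (ℝ ∙ (x - x'))ᗮ) (y - (1 / 2 : ℝ) • (x + x')) + (1 / 2 : ℝ) • (x + x')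

lemma S_eq (x x' y : E3) : S x x' y = y - (2 * (⟪x - x', y - (1 / 2 : ℝ) • (x + x')⟫
    / ‖x - x'‖ ^ 2)) • (x - x') := by
  unfold S
  rw [Submodule.reflection_orthogonal_apply, Submodule.reflection_singleton_apply]
  simp only [RCLike.ofReal_real_eq_id, id_eq]
  rw [two_mul, add_smul, two_smul]
  abel

lemma S_S (x x' y : E3) : S x x' (S x x' y) = y := by
  unfold S
  rw [add_sub_cancel_right, Submodule.reflection_reflection, sub_add_cancel]

lemma dist_S (x x' y z : E3) : ‖S x x' y - S x x' z‖ = ‖y - z‖ := by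
  unfold S
  rw [add_sub_add_right_eq_sub, ← map_sub, LinearIsometryEquiv.norm_map]
  congr 1
  abel

lemma S_left {x x' : E3} (h : x ≠ x') : S x x' x = x' := by
  rw [S_eq]
  have hv : (x - x') ≠ 0 := sub_ne_zero.2 h
  have h1 : x - (1 / 2 : ℝ) • (x + x') = (1 / 2 : ℝ) • (x - x') := by
    module
  rw [h1, inner_smul_right, real_inner_self_eq_norm_sq]
  have hn : ‖x - x'‖ ^ 2 ≠ 0 := by positivity
  have : 2 * (1 / 2 * ‖x - x'‖ ^ 2 / ‖x - x'‖ ^ 2) = 1 := by field_simp
  rw [this, one_smul, sub_sub_cancel]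

lemma S_right {x x' : E3} (h : x ≠ x') : S x x' x' = x := by
  have h1 := S_S x x' x
  rwa [S_left h] at h1

lemma measurePreserving_S (x x' : E3) : MeasurePreserving (S x x') volume volume := by
  have h1 : MeasurePreserving (fun y : E3 => y - (1 / 2 : ℝ) • (x + x')) volume volume :=
    measurePreserving_sub_right volume _
  have h2 := (Submodule.reflection (ℝ ∙ (x - x'))ᗮ).measurePreserving
  have h3 : MeasurePreserving (fun y : E3 => y + (1 / 2 : ℝ) • (x + x')) volume volume :=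
    measurePreserving_add_right volume _
  exact h3.comp (h2.comp h1)

lemma norm_S_sq {x x' : E3} (h : x ≠ x') (y : E3) :
    ‖S x x' y‖ ^ 2 = ‖y‖ ^ 2
      + (‖x' - y‖ ^ 2 - ‖x - y‖ ^ 2) * (‖x'‖ ^ 2 - ‖x‖ ^ 2) / ‖x - x'‖ ^ 2 := by
  have hv : (x - x') ≠ 0 := sub_ne_zero.2 h
  have hn : ‖x - x'‖ ^ 2 ≠ 0 := by positivity
  rw [S_eq]
  set c : ℝ := ⟪x - x', y - (1 / 2 : ℝ) • (x + x')⟫ / ‖x - x'‖ ^ 2 with hc
  have hc' : c * ‖x - x'‖ ^ 2 = ⟪x - x', y - (1 / 2 : ℝ) • (x + x')⟫ := by
    rw [hc]; field_simp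
  have e1 : ⟪x - x', y - (1 / 2 : ℝ) • (x + x')⟫ = (‖x' - y‖ ^ 2 - ‖x - y‖ ^ 2) / 2 := by
    rw [norm_sub_sq_real, norm_sub_sq_real, inner_sub_right, inner_smul_right, inner_add_right,
      inner_sub_left, inner_sub_left, inner_sub_left, real_inner_self_eq_norm_sq,
      real_inner_self_eq_norm_sq, real_inner_comm x' x]
    ring
  have e2 : ⟪y, x - x'⟫ = ⟪x - x', y - (1 / 2 : ℝ) • (x + x')⟫ + (‖x‖ ^ 2 - ‖x'‖ ^ 2) / 2 := by
    simp only [inner_sub_right, inner_smul_right, inner_add_right, inner_sub_left,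
      real_inner_self_eq_norm_sq]
    rw [real_inner_comm x' x, real_inner_comm x y, real_inner_comm x' y]
    ring
  rw [norm_sub_sq_real, inner_smul_right, norm_smul, e2, mul_pow, ← hc', Real.norm_eq_abs, sq_abs]
  rw [show (‖x' - y‖ ^ 2 - ‖x - y‖ ^ 2) = 2 * (c * ‖x - x'‖ ^ 2) by rw [hc', e1]; ring]
  field_simp
  ring

end PotDropAux

open PotDropAux in
theorem pot_drop : ∃ c > 0, ∀ (ρ : E3 → ℝ) (f : ℝ → ℝ) (R t : ℝ), 0 < R → 0 < t →
    (∀ x, x ≠ 0 → ρ x = f ‖x‖) → (∀ r, 0 < r → 0 ≤ f r) → AntitoneOn f (Ioi 0) →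
    (∀ a : E3, Integrable (fun y => ρ y / ‖a - y‖)) →
    (∀ r, 0 < r → r < R → t ≤ f r) → (∀ r, 11 / 10 * R < r → f r ≤ t / 4) →
    ∀ x ∈ Metric.ball ((R / 8) • e0) (R / 64), ∀ x' ∈ Metric.ball ((5 * R / 8) • e0) (R / 64),
      c * t * R ^ 2 ≤ pot ρ x - pot ρ x' := by
  have hV1 : 0 < volume.real (Metric.ball (0 : E3) 1) := by
    rw [Measure.real]
    exact ENNReal.toReal_pos (Metric.measure_ball_pos volume _ one_pos).ne'
      measure_ball_lt_top.ne
  refine ⟨3 / 8 * (35 / 100) * (1 / 64 ^ 3) * volume.real (Metric.ball (0 : E3) 1), by positivity,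
    ?_⟩
  intro ρ f R t hR ht hρ hf0 hanti hint hlow hhigh x hx x' hx'
  rw [Metric.mem_ball, dist_eq_norm] at hx hx'
  -- norms
  have nrm : ∀ a : ℝ, ‖a • e0‖ = |a| := fun a => by rw [norm_smul, norm_e0, mul_one, Real.norm_eq_abs]
  have hxn : ‖x‖ ≤ 9 * R / 64 := by
    have : ‖x‖ ≤ ‖x - (R / 8) • e0‖ + ‖(R / 8) • e0‖ := by
      simpa using norm_add_le (x - (R / 8) • e0) ((R / 8) • e0)
    rw [nrm, abs_of_pos (by positivity)] at this
    linarith
  have hx'n : 39 * R / 64 ≤ ‖x'‖ := by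
    have : ‖(5 * R / 8) • e0‖ ≤ ‖x'‖ + ‖x' - (5 * R / 8) • e0‖ := by
      have := norm_sub_le x' (x' - (5 * R / 8) • e0)
      simpa using this
    rw [nrm, abs_of_pos (by positivity)] at this
    linarith
  have hxx' : ‖x - x'‖ ≤ 34 * R / 64 := by
    have e : x - x' = (x - (R / 8) • e0) - (x' - (5 * R / 8) • e0) - (R / 2) • e0 := by module
    have h1 := norm_sub_le ((x - (R / 8) • e0) - (x' - (5 * R / 8) • e0)) ((R / 2) • e0)
    have h2 := norm_sub_le (x - (R / 8) • e0) (x' - (5 * R / 8) • e0)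
    rw [← e, nrm, abs_of_pos (by positivity)] at h1
    linarith
  have hne : x ≠ x' := by
    rintro rfl
    linarith
  have hd : 0 < ‖x - x'‖ := norm_pos_iff.2 (sub_ne_zero.2 hne)
  set s := S x x' with hs
  have hsm : MeasurePreserving s volume volume := measurePreserving_S x x'
  have hsx : ∀ y, ‖x - s y‖ = ‖x' - y‖ := fun y => by
    rw [← dist_S x x' x' y, S_right hne]
  have hsx' : ∀ y, ‖x' - s y‖ = ‖x - y‖ := fun y => by
    rw [← dist_S x x' x y, S_left hne]
  set k : E3 → ℝ := fun y => 1 / ‖x - y‖ - 1 / ‖x' - y‖ with hk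
  have hks : ∀ y, k (s y) = - k y := fun y => by
    simp only [hk, hsx, hsx']; ring
  have hρk : Integrable (fun y => ρ y * k y) := by
    have := (hint x).sub (hint x')
    refine this.congr (Eventually.of_forall fun y => ?_)
    simp only [hk, Pi.sub_apply]; ring
  have hpot : pot ρ x - pot ρ x' = ∫ y, ρ y * k y := by
    unfold pot
    rw [← integral_sub (hint x) (hint x')]
    congr 1; ext y; simp only [hk]; ring
  have hemb : MeasurableEmbedding s := by
    have hinv : Function.LeftInverse s s := fun y => S_S x x' y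
    exact MeasurableEquiv.measurableEmbedding
      ⟨⟨s, s, hinv, hinv⟩, hsm.measurable, hsm.measurable⟩
  have hρsk : Integrable (fun y => ρ (s y) * k y) := by
    have h1 : Integrable (fun y => ρ (s y) * k (s y)) :=
      (hsm.integrable_comp_emb hemb).2 hρk
    refine h1.neg.congr (Eventually.of_forall fun y => ?_)
    simp only [Pi.neg_apply, hks]; ring
  have hflip : ∫ y, ρ (s y) * k y = - ∫ y, ρ y * k y := by
    have h1 : ∫ y, ρ (s y) * k (s y) = ∫ y, ρ y * k y :=
      hsm.integral_comp hemb (fun y => ρ y * k y)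
    rw [← h1, ← integral_neg]
    congr 1; ext y; rw [hks]; ring
  have hh : ∫ y, (ρ y - ρ (s y)) * k y = 2 * ∫ y, ρ y * k y := by
    have : ∀ y, (ρ y - ρ (s y)) * k y = ρ y * k y - ρ (s y) * k y := fun y => by ring
    simp only [this]
    rw [integral_sub hρk hρsk, hflip]; ring
  have hhi : Integrable (fun y => (ρ y - ρ (s y)) * k y) := by
    refine (hρk.sub hρsk).congr (Eventually.of_forall fun y => ?_)
    simp only [Pi.sub_apply]; ring
  set B := Metric.ball ((-(3 * R / 4)) • e0) (R / 64) with hB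
  set c1 : ℝ := 3 * t / 4 * (35 / 100 / R) with hc1
  -- pointwise bound
  have hpt : ∀ᵐ y, B.indicator (fun _ => c1) y ≤ (ρ y - ρ (s y)) * k y := by
    have n1 : ∀ᵐ y : E3, y ≠ 0 := by
      simpa using (measure_eq_zero_iff_ae_notMem.1 (measure_singleton (μ := volume) (0 : E3)))
    have n2 : ∀ᵐ y : E3, y ≠ s 0 := by
      simpa using (measure_eq_zero_iff_ae_notMem.1 (measure_singleton (μ := volume) (s 0)))
    have n3 : ∀ᵐ y : E3, y ≠ x := by
      simpa using (measure_eq_zero_iff_ae_notMem.1 (measure_singleton (μ := volume) x))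
    have n4 : ∀ᵐ y : E3, y ≠ x' := by
      simpa using (measure_eq_zero_iff_ae_notMem.1 (measure_singleton (μ := volume) x'))
    filter_upwards [n1, n2, n3, n4] with y h1 h2 h3 h4
    have hs0 : s y ≠ 0 := by
      intro h
      apply h2
      rw [← h]
      exact (S_S x x' y).symm
    have hxy : 0 < ‖x - y‖ := norm_pos_iff.2 (sub_ne_zero.2 (Ne.symm h3))
    have hx'y : 0 < ‖x' - y‖ := norm_pos_iff.2 (sub_ne_zero.2 (Ne.symm h4))
    have hy0 : 0 < ‖y‖ := norm_pos_iff.2 h1
    have hsy0 : 0 < ‖s y‖ := norm_pos_iff.2 hs0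
    have hsq := norm_S_sq hne y
    rw [← hs] at hsq
    rw [hρ y h1, hρ (s y) hs0]
    have hxlt : 0 < ‖x'‖ ^ 2 - ‖x‖ ^ 2 := by
      have : ‖x‖ < ‖x'‖ := by linarith
      nlinarith [norm_nonneg x]
    by_cases hyB : y ∈ B
    · rw [indicator_of_mem hyB]
      rw [hB, Metric.mem_ball, dist_eq_norm] at hyB
      have hyn : ‖y‖ < R := by
        have : ‖y‖ ≤ ‖y - (-(3 * R / 4)) • e0‖ + ‖(-(3 * R / 4)) • e0‖ := by
          simpa using norm_add_le (y - (-(3 * R / 4)) • e0) ((-(3 * R / 4)) • e0)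
        rw [nrm, abs_neg, abs_of_pos (by positivity)] at this
        linarith
      have hxy1 : ‖x - y‖ ≤ 58 * R / 64 := by
        have e : x - y = (x - (R / 8) • e0) - (y - (-(3 * R / 4)) • e0) + (7 * R / 8) • e0 := by
          module
        have h1 := norm_add_le ((x - (R / 8) • e0) - (y - (-(3 * R / 4)) • e0)) ((7 * R / 8) • e0)
        have h2 := norm_sub_le (x - (R / 8) • e0) (y - (-(3 * R / 4)) • e0)
        rw [← e, nrm, abs_of_pos (by positivity)] at h1
        linarith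
      have hx'y1 : 86 * R / 64 ≤ ‖x' - y‖ := by
        have e : (11 * R / 8) • e0 = (x' - y) -
            ((x' - (5 * R / 8) • e0) - (y - (-(3 * R / 4)) • e0)) := by
          module
        have h1 := norm_sub_le (x' - y) ((x' - (5 * R / 8) • e0) - (y - (-(3 * R / 4)) • e0))
        have h2 := norm_sub_le (x' - (5 * R / 8) • e0) (y - (-(3 * R / 4)) • e0)
        rw [← e, nrm, abs_of_pos (by positivity)] at h1
        linarith
      have hsyn : 11 / 10 * R < ‖s y‖ := by
        have a1 : (86 * R / 64) ^ 2 - (58 * R / 64) ^ 2 ≤ ‖x' - y‖ ^ 2 - ‖x - y‖ ^ 2 := by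
          have : (86 * R / 64) ^ 2 ≤ ‖x' - y‖ ^ 2 := pow_le_pow_left₀ (by positivity) hx'y1 2
          have : ‖x - y‖ ^ 2 ≤ (58 * R / 64) ^ 2 := pow_le_pow_left₀ hxy.le hxy1 2
          linarith
        have a2 : (39 * R / 64) ^ 2 - (9 * R / 64) ^ 2 ≤ ‖x'‖ ^ 2 - ‖x‖ ^ 2 := by
          have : (39 * R / 64) ^ 2 ≤ ‖x'‖ ^ 2 := pow_le_pow_left₀ (by positivity) hx'n 2
          have : ‖x‖ ^ 2 ≤ (9 * R / 64) ^ 2 := pow_le_pow_left₀ (norm_nonneg _) hxn 2
          linarith
        have a3 : ‖x - x'‖ ^ 2 ≤ (34 * R / 64) ^ 2 := pow_le_pow_left₀ hd.le hxx' 2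
        have a4 : ((86 * R / 64) ^ 2 - (58 * R / 64) ^ 2) * ((39 * R / 64) ^ 2 - (9 * R / 64) ^ 2)
            / (34 * R / 64) ^ 2
            ≤ (‖x' - y‖ ^ 2 - ‖x - y‖ ^ 2) * (‖x'‖ ^ 2 - ‖x‖ ^ 2) / ‖x - x'‖ ^ 2 := by
          refine div_le_div₀ ?_ ?_ (by positivity) a3
          · refine mul_nonneg ?_ hxlt.le
            refine le_trans ?_ a1
            nlinarith [sq_nonneg R]
          · refine mul_le_mul a1 a2 ?_ (le_trans ?_ a1)
            · nlinarith [sq_nonneg R]
            · nlinarith [sq_nonneg R]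
        have a5 : (11 / 10 * R) ^ 2 < ((86 * R / 64) ^ 2 - (58 * R / 64) ^ 2)
            * ((39 * R / 64) ^ 2 - (9 * R / 64) ^ 2) / (34 * R / 64) ^ 2 := by
          rw [lt_div_iff₀ (by positivity)]
          have : 0 < R ^ 4 := by positivity
          nlinarith
        have a6 : (11 / 10 * R) ^ 2 < ‖s y‖ ^ 2 := by
          rw [hsq]
          have := sq_nonneg ‖y‖
          linarith
        exact lt_of_pow_lt_pow_left₀ 2 hsy0.le a6
      have b1 := hlow _ hy0 hyn
      have b2 := hhigh _ hsyn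
      have b3 : 35 / 100 / R ≤ k y := by
        simp only [hk]
        have c1 : 1 / (58 * R / 64) ≤ 1 / ‖x - y‖ := one_div_le_one_div_of_le hxy hxy1
        have c2 : 1 / ‖x' - y‖ ≤ 1 / (86 * R / 64) :=
          one_div_le_one_div_of_le (by positivity) hx'y1
        have c3 : 35 / 100 / R ≤ 1 / (58 * R / 64) - 1 / (86 * R / 64) := by
          rw [div_le_iff₀ hR]
          field_simp
          norm_num
        linarith
      rw [hc1]
      refine mul_le_mul (by linarith) b3 (by positivity) (by linarith)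
    · rw [indicator_of_notMem hyB]
      rcases le_total ‖x - y‖ ‖x' - y‖ with hle | hle
      · refine mul_nonneg ?_ ?_
        · rw [sub_nonneg]
          refine hanti hy0 hsy0 ?_
          refine le_of_sq_le_sq ?_ hsy0.le
          rw [hsq]
          have : 0 ≤ (‖x' - y‖ ^ 2 - ‖x - y‖ ^ 2) * (‖x'‖ ^ 2 - ‖x‖ ^ 2) / ‖x - x'‖ ^ 2 := by
            refine div_nonneg (mul_nonneg ?_ hxlt.le) (by positivity)
            rw [sub_nonneg]
            exact pow_le_pow_left₀ hxy.le hle 2
          linarith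
        · simp only [hk]
          rw [sub_nonneg]
          exact one_div_le_one_div_of_le hxy hle
      · refine mul_nonneg_of_nonpos_of_nonpos ?_ ?_
        · rw [sub_nonpos]
          refine hanti hsy0 hy0 ?_
          refine le_of_sq_le_sq ?_ hy0.le
          rw [hsq]
          have : (‖x' - y‖ ^ 2 - ‖x - y‖ ^ 2) * (‖x'‖ ^ 2 - ‖x‖ ^ 2) / ‖x - x'‖ ^ 2 ≤ 0 := by
            refine div_nonpos_of_nonpos_of_nonneg (mul_nonpos_of_nonpos_of_nonneg ?_ hxlt.le)
              (by positivity)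
            rw [sub_nonpos]
            exact pow_le_pow_left₀ hx'y.le hle 2
          linarith
        · simp only [hk]
          rw [sub_nonpos]
          exact one_div_le_one_div_of_le hx'y hle
  have hBm : MeasurableSet B := measurableSet_ball
  have hBfin : volume B ≠ ⊤ := measure_ball_lt_top.ne
  have hind : Integrable (B.indicator (fun _ => c1)) :=
    (integrable_indicator_iff hBm).2 (integrableOn_const hBfin)
  have hge := integral_mono_ae hind hhi hpt
  rw [integral_indicator hBm, setIntegral_const, smul_eq_mul, hh] at hge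
  have hvol : volume.real B = (R / 64) ^ 3 * volume.real (Metric.ball (0 : E3) 1) := by
    rw [hB, Measure.real, Measure.addHaar_ball volume _ (by positivity), ENNReal.toReal_mul,
      ENNReal.toReal_ofReal (by positivity)]
    simp [Measure.real]
  rw [hvol] at hge
  rw [hpot]
  have hfin : 3 / 8 * (35 / 100) * (1 / 64 ^ 3) * volume.real (Metric.ball (0 : E3) 1) * t * R ^ 2
      = (R / 64) ^ 3 * volume.real (Metric.ball (0 : E3) 1) * c1 / 2 := by
    rw [hc1]; field_simp; ring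
  rw [hfin]
  linarith

end Pool.Agent.W_MP_b91f46_mp
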