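import Pool.Agent.W_MP_b91f46_mp.Basic
import Pool.Agent.W_MP_b91f46_mp.EL
import Pool.Agent.W_MP_b91f46_mp.PotDrop
import Pool.Agent.W_MP_b91f46_mp.Bumps

open MeasureTheory Filter Topology Set
open scoped RealInnerProductSpace ContDiff ENNReal

namespace Pool.Agent.W_MP_b91f46_mp

theorem kin_e0 : ‖e0‖ = 1 := by simp [e0]

/-- points of the inner ball -/
theorem ball1_norm {R : ℝ} (hR : 0 < R) {x : E3} (hx : x ∈ Metric.ball ((R / 8) • e0) (R / 64)) :
    7 * R / 64 < ‖x‖ ∧ ‖x‖ < R / 2 := by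
  rw [mem_ball_iff_norm] at hx
  have h1 : ‖(R / 8) • e0‖ = R / 8 := by
    rw [norm_smul, kin_e0, mul_one, Real.norm_eq_abs, abs_of_pos (by positivity)]
  have h2 := abs_norm_sub_norm_le x ((R / 8) • e0)
  rw [h1, abs_le] at h2
  constructor <;> linarith [h2.1, h2.2]

theorem ball3_norm {R : ℝ} (hR : 0 < R) {x : E3}
    (hx : x ∈ Metric.ball ((5 * R / 8) • e0) (R / 64)) :
    R / 2 < ‖x‖ ∧ ‖x‖ < R := by
  rw [mem_ball_iff_norm] at hx
  have h1 : ‖(5 * R / 8) • e0‖ = 5 * R / 8 := by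
    rw [norm_smul, kin_e0, mul_one, Real.norm_eq_abs, abs_of_pos (by positivity)]
  have h2 := abs_norm_sub_norm_le x ((5 * R / 8) • e0)
  rw [h1, abs_le] at h2
  constructor <;> linarith [h2.1, h2.2]

theorem measurable_pot {ρ : E3 → ℝ} (h : AEStronglyMeasurable ρ volume) :
    AEStronglyMeasurable (pot ρ) volume := by
  have h1 : AEStronglyMeasurable (fun z : E3 × E3 => ρ z.2 / ‖z.1 - z.2‖) (volume.prod volume) := by
    have h2 : AEStronglyMeasurable (fun z : E3 × E3 => ρ z.2) (volume.prod volume) := h.comp_snd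
    have h3 : Measurable (fun z : E3 × E3 => ‖z.1 - z.2‖) := by fun_prop
    exact (h2.aemeasurable.div h3.aemeasurable).aestronglyMeasurable
  exact h1.integral_prod_right'

/-- weighted averages -/
theorem le_integral_of_le {w h : E3 → ℝ} {c : ℝ} (hw : ∀ x, 0 ≤ w x) (hwi : Integrable w)
    (hw1 : ∫ x, w x = 1) (hi : Integrable (fun x => h x * w x)) (hc : ∀ x, w x ≠ 0 → c ≤ h x) :
    c ≤ ∫ x, h x * w x := by
  have h1 : ∫ x, c * w x ≤ ∫ x, h x * w x := by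
    refine integral_mono (hwi.const_mul c) hi fun x => ?_
    by_cases hx : w x = 0
    · simp [hx]
    · exact mul_le_mul_of_nonneg_right (hc x hx) (hw x)
  rwa [integral_const_mul, hw1, mul_one] at h1

theorem integral_le_of_le {w h : E3 → ℝ} {c : ℝ} (hw : ∀ x, 0 ≤ w x) (hwi : Integrable w)
    (hw1 : ∫ x, w x = 1) (hi : Integrable (fun x => h x * w x)) (hc : ∀ x, w x ≠ 0 → h x ≤ c) :
    ∫ x, h x * w x ≤ c := by
  have h1 : ∫ x, h x * w x ≤ ∫ x, c * w x := by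
    refine integral_mono hi (hwi.const_mul c) fun x => ?_
    by_cases hx : w x = 0
    · simp [hx]
    · exact mul_le_mul_of_nonneg_right (hc x hx) (hw x)
  rwa [integral_const_mul, hw1, mul_one] at h1

/-- products with bounded functions on the support -/
theorem integrable_mul_of_bdd {w h : E3 → ℝ} {C : ℝ} (hwi : Integrable w)
    (hh : AEStronglyMeasurable h volume) (hC : ∀ x, w x ≠ 0 → |h x| ≤ C) :
    Integrable (fun x => h x * w x) := by
  refine (hwi.norm.const_mul C).mono' (hh.mul hwi.1) (Eventually.of_forall fun x => ?_)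
  by_cases hx : w x = 0
  · simp [hx]
  · rw [norm_mul, Real.norm_eq_abs]
    exact mul_le_mul_of_nonneg_right (hC x hx) (norm_nonneg _)

theorem core {p tb c1 T : ℝ} (hp : 4 / 3 < p) (hc : Consts p tb c1 T)
    {cP CB : ℝ}
    (hdrop : ∀ (ρ : E3 → ℝ) (f : ℝ → ℝ) (R t : ℝ), 0 < R → 0 < t →
      (∀ x, x ≠ 0 → ρ x = f ‖x‖) → (∀ r, 0 < r → 0 ≤ f r) → AntitoneOn f (Ioi 0) →
      (∀ a : E3, Integrable (fun y => ρ y / ‖a - y‖)) →
      (∀ r, 0 < r → r < R → t ≤ f r) → (∀ r, 11 / 10 * R < r → f r ≤ t / 4) →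
      ∀ x ∈ Metric.ball ((R / 8) • e0) (R / 64), ∀ x' ∈ Metric.ball ((5 * R / 8) • e0) (R / 64),
        cP * t * R ^ 2 ≤ pot ρ x - pot ρ x')
    (hbump : ∀ R > 0, ∀ tb > 0, ∀ ψ : E3 → ℝ, MemLp ψ 2 volume →
      (∀ x, ‖x‖ < R → x ≠ 0 → √tb ≤ ψ x) →
      ∃ φ₁ φ₃ : E3 → ℝ, ContDiff ℝ ∞ φ₁ ∧ HasCompactSupport φ₁ ∧ ContDiff ℝ ∞ φ₃ ∧
        HasCompactSupport φ₃ ∧ (∀ x, 0 ≤ φ₁ x) ∧ (∀ x, 0 ≤ φ₃ x) ∧
        (∀ x, φ₁ x ≠ 0 → x ∈ Metric.ball ((R / 8) • e0) (R / 64)) ∧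
        (∀ x, φ₃ x ≠ 0 → x ∈ Metric.ball ((5 * R / 8) • e0) (R / 64)) ∧
        (∫ x, ψ x * φ₁ x = 1) ∧ (∫ x, ψ x * φ₃ x = 1) ∧
        √(kin (gradient φ₁)) ≤ CB / √tb * R ^ (-(5 / 2) : ℝ) ∧
        √(kin (gradient φ₃)) ≤ CB / √tb * R ^ (-(5 / 2) : ℝ))
    {A z κ lam : ℝ} (hA : 0 < A) (hz : 0 < z) (hlam : 0 < lam) {ψ : E3 → ℝ} {g : E3 → E3}
    {f : ℝ → ℝ}
    (h : Adm p ψ g) (hm : mass ψ = lam)
    (hmin : ∀ ψ' g', Adm p ψ' g' → mass ψ' = lam → FF A p z κ ψ g ≤ FF A p z κ ψ' g')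
    (hψf : ∀ x, ψ x = f ‖x‖) (hf0 : ∀ r, 0 < r → 0 ≤ f r) (hfa : AntitoneOn f (Ioi 0))
    {R : ℝ} (hR : 0 < R) (hin : ∀ r, 0 < r → r < R → tb ≤ f r ^ 2)
    (hout : ∀ r, 11 / 10 * R < r → f r ^ 2 ≤ tb / 4) :
    cP * tb * R ^ 2 ≤ 10 * z / R
      + A * (√(kin g) * (2 * (CB / √tb) * R ^ (-(5 / 2) : ℝ))) := by
  have htb := hc.tb_pos
  have hψl : ∀ x, ‖x‖ < R → x ≠ 0 → √tb ≤ ψ x := by
    intro x hx hx0
    have hx1 : 0 < ‖x‖ := norm_pos_iff.2 hx0
    rw [hψf x, Real.sqrt_le_left (hf0 _ hx1)]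
    exact hin _ hx1 hx
  obtain ⟨φ₁, φ₃, hs1, hc1, hs3, hc3, hn1, hn3, hsupp1, hsupp3, hi1, hi3, hk1, hk3⟩ :=
    hbump R hR tb htb ψ h.memLp hψl
  have hH1 := H1.of_test hs1 hc1
  have hH3 := H1.of_test hs3 hc3
  -- weights
  set w1 : E3 → ℝ := fun x => ψ x * φ₁ x with hw1def
  set w3 : E3 → ℝ := fun x => ψ x * φ₃ x with hw3def
  have hx1 : ∀ x, φ₁ x ≠ 0 → 7 * R / 64 < ‖x‖ ∧ ‖x‖ < R / 2 := fun x hx =>
    ball1_norm hR (hsupp1 x hx)
  have hx3 : ∀ x, φ₃ x ≠ 0 → R / 2 < ‖x‖ ∧ ‖x‖ < R := fun x hx =>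
    ball3_norm hR (hsupp3 x hx)
  have hψpos : ∀ x, 0 < ‖x‖ → ‖x‖ < R → √tb ≤ ψ x := fun x h1 h2 =>
    hψl x h2 (norm_pos_iff.1 h1)
  have hsq : 0 < √tb := Real.sqrt_pos.2 htb
  have hw1n : ∀ x, 0 ≤ w1 x := by
    intro x
    by_cases hx : φ₁ x = 0
    · simp [hw1def, hx]
    · have := hx1 x hx
      exact mul_nonneg (hsq.le.trans (hψpos x (by linarith) (by linarith))) (hn1 x)
  have hw3n : ∀ x, 0 ≤ w3 x := by
    intro x
    by_cases hx : φ₃ x = 0
    · simp [hw3def, hx]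
    · have := hx3 x hx
      exact mul_nonneg (hsq.le.trans (hψpos x (by linarith) (by linarith))) (hn3 x)
  have hw1i : Integrable w1 := h.memLp.integrable_mul hH1.memLp
  have hw3i : Integrable w3 := h.memLp.integrable_mul hH3.memLp
  have hw1s : ∀ x, w1 x ≠ 0 → φ₁ x ≠ 0 := fun x hx hx' => hx (by simp [hw1def, hx'])
  have hw3s : ∀ x, w3 x ≠ 0 → φ₃ x ≠ 0 := fun x hx hx' => hx (by simp [hw3def, hx'])
  -- the upper bound `M`
  set M : ℝ := f (R / 64) with hM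
  have hψM : ∀ x, R / 64 ≤ ‖x‖ → ψ x ≤ M := by
    intro x hx
    rw [hψf x]
    exact hfa (show (0 : ℝ) < R / 64 by positivity) (show (0 : ℝ) < ‖x‖ by
      have : (0 : ℝ) < R / 64 := by positivity
      linarith) hx
  -- Euler-Lagrange
  have hφs : ContDiff ℝ ∞ (fun x => φ₁ x - φ₃ x) := hs1.sub hs3
  have hφc : HasCompactSupport (fun x => φ₁ x - φ₃ x) := by
    exact hc1.sub hc3
  have horth : ∫ x, ψ x * (φ₁ x - φ₃ x) = 0 := by
    have : ∀ x, ψ x * (φ₁ x - φ₃ x) = w1 x - w3 x := fun x => by simp [hw1def, hw3def]; ring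
    simp_rw [this]
    rw [integral_sub hw1i hw3i]
    simp only [hw1def, hw3def]
    rw [hi1, hi3]
    ring
  have hEL := euler_lagrange hp hA hz hlam h hm hmin hφs hφc hsq (M := M)
    (Eventually.of_forall fun x hx => by
      have : φ₁ x ≠ 0 ∨ φ₃ x ≠ 0 := by
        by_contra hcon
        push Not at hcon
        exact hx (by simp [hcon.1, hcon.2])
      rcases this with h1 | h1
      · have := hx1 x h1
        exact ⟨hψpos x (by linarith) (by linarith), hψM x (by linarith)⟩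
      · have := hx3 x h1
        exact ⟨hψpos x (by linarith) (by linarith), hψM x (by linarith)⟩) horth
  have hψm : AEStronglyMeasurable ψ volume := h.memLp.1
  -- gradient term
  have hgrad : ∀ x, gradient (fun x => φ₁ x - φ₃ x) x = gradient φ₁ x - gradient φ₃ x := by
    intro x
    unfold gradient
    rw [← map_sub]
    congr 1
    exact fderiv_fun_sub (hs1.differentiable (by simp) x) (hs3.differentiable (by simp) x)
  have hgi1 : Integrable (fun x => ⟪g x, gradient φ₁ x⟫) := by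
    refine (h.memLp_grad.norm.integrable_mul hH1.memLp_grad.norm).mono'
      (h.memLp_grad.1.inner hH1.memLp_grad.1) (Eventually.of_forall fun x => norm_inner_le_norm _ _)
  have hgi3 : Integrable (fun x => ⟪g x, gradient φ₃ x⟫) := by
    refine (h.memLp_grad.norm.integrable_mul hH3.memLp_grad.norm).mono'
      (h.memLp_grad.1.inner hH3.memLp_grad.1) (Eventually.of_forall fun x => norm_inner_le_norm _ _)
  have hG : ∫ x, ⟪g x, gradient (fun x => φ₁ x - φ₃ x) x⟫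
      = (∫ x, ⟪g x, gradient φ₁ x⟫) - ∫ x, ⟪g x, gradient φ₃ x⟫ := by
    simp_rw [hgrad, inner_sub_right]
    exact integral_sub hgi1 hgi3
  have hG1 := abs_integral_inner_le h.memLp_grad hH1.memLp_grad
  have hG3 := abs_integral_inner_le h.memLp_grad hH3.memLp_grad
  have hkg : 0 ≤ √(kin g) := Real.sqrt_nonneg _
  have hG1' := hG1.trans (mul_le_mul_of_nonneg_left hk1 hkg)
  have hG3' := hG3.trans (mul_le_mul_of_nonneg_left hk3 hkg)
  have hGfin : -(√(kin g) * (2 * (CB / √tb) * R ^ (-(5 / 2) : ℝ)))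
      ≤ ∫ x, ⟪g x, gradient (fun x => φ₁ x - φ₃ x) x⟫ := by
    rw [hG]
    have h1 := (abs_le.1 hG1').1
    have h3 := (abs_le.1 hG3').2
    linarith
  -- J' term
  obtain ⟨CJ, hCJ, hJb⟩ := abs_J'_le hp (M ^ 2)
  have hJm : AEStronglyMeasurable (fun x => J' p (ψ x ^ 2)) volume := by
    have hmeas : Measurable (J' p) := by
      unfold J'
      fun_prop
    exact (hmeas.comp_aemeasurable (hψm.aemeasurable.pow_const 2)).aestronglyMeasurable
  have hJbd : ∀ x, 7 * R / 64 < ‖x‖ → ‖x‖ < R → |J' p (ψ x ^ 2)| ≤ CJ := by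
    intro x h1 h2
    refine hJb _ (sq_nonneg _) ?_
    have h3 := hψpos x (by linarith) h2
    have h4 := hψM x (by linarith)
    exact pow_le_pow_left₀ (hsq.le.trans h3) h4 2
  have hJ1i : Integrable (fun x => J' p (ψ x ^ 2) * w1 x) :=
    integrable_mul_of_bdd hw1i hJm (fun x hx => by
      have := hx1 x (hw1s x hx)
      exact hJbd x this.1 (by linarith))
  have hJ3i : Integrable (fun x => J' p (ψ x ^ 2) * w3 x) :=
    integrable_mul_of_bdd hw3i hJm (fun x hx => by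
      have := hx3 x (hw3s x hx)
      exact hJbd x (by linarith) (by linarith))
  have hmono : ∀ r s, 0 < r → r ≤ s → s < R → J' p (f s ^ 2) ≤ J' p (f r ^ 2) := by
    intro r s hr hrs hs
    refine hc.mono (hin s (hr.trans_le hrs) hs) (hin r hr (hrs.trans_lt hs)) ?_
    exact pow_le_pow_left₀ (hf0 s (hr.trans_le hrs)) (hfa hr (hr.trans_le hrs) hrs) 2
  have hJ : 0 ≤ ∫ x, J' p (ψ x ^ 2) * (ψ x * (φ₁ x - φ₃ x)) := by
    have e : ∀ x, J' p (ψ x ^ 2) * (ψ x * (φ₁ x - φ₃ x))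
        = J' p (ψ x ^ 2) * w1 x - J' p (ψ x ^ 2) * w3 x := fun x => by
      simp [hw1def, hw3def]; ring
    simp_rw [e]
    rw [integral_sub hJ1i hJ3i]
    have h1 : J' p (f (R / 2) ^ 2) ≤ ∫ x, J' p (ψ x ^ 2) * w1 x :=
      le_integral_of_le hw1n hw1i hi1 hJ1i (fun x hx => by
        have := hx1 x (hw1s x hx)
        rw [hψf x]
        exact hmono _ _ (by linarith) this.2.le (by linarith))
    have h3 : ∫ x, J' p (ψ x ^ 2) * w3 x ≤ J' p (f (R / 2) ^ 2) :=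
      integral_le_of_le hw3n hw3i hi3 hJ3i (fun x hx => by
        have := hx3 x (hw3s x hx)
        rw [hψf x]
        exact hmono _ _ (by linarith) this.1.le this.2)
    linarith
  -- potential term
  set Φ : E3 → ℝ := pot (fun y => ψ y ^ 2) with hΦ
  have hΦb : ∀ x, |Φ x| ≤ √(mass ψ) * √(kin g) := by
    intro x
    rw [hΦ, pot_sq_eq_nuc, abs_of_nonneg (nuc_nonneg _ _)]
    exact (nuc_le h.toH1 x).2
  have hΦm : AEStronglyMeasurable Φ volume := measurable_pot h.toH1.integrable_sq.1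
  have hΦ1i : Integrable (fun x => Φ x * w1 x) :=
    integrable_mul_of_bdd hw1i hΦm (fun x _ => hΦb x)
  have hΦ3i : Integrable (fun x => Φ x * w3 x) :=
    integrable_mul_of_bdd hw3i hΦm (fun x _ => hΦb x)
  have hdr : ∀ x ∈ Metric.ball ((R / 8) • e0) (R / 64),
      ∀ x' ∈ Metric.ball ((5 * R / 8) • e0) (R / 64), cP * tb * R ^ 2 ≤ Φ x - Φ x' := by
    refine hdrop (fun y => ψ y ^ 2) (fun r => f r ^ 2) R tb hR htb ?_ ?_ ?_ ?_ hin hout
    · intro x _
      simp only [hψf x]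
    · intro r _
      positivity
    · intro r hr s hs hrs
      exact pow_le_pow_left₀ (hf0 s hs) (hfa hr hs hrs) 2
    · intro a
      have := (nuc_le h.toH1 a).1
      simpa [norm_sub_rev] using this
  have hP : cP * tb * R ^ 2 ≤ ∫ x, Φ x * (ψ x * (φ₁ x - φ₃ x)) := by
    have e : ∀ x, Φ x * (ψ x * (φ₁ x - φ₃ x)) = Φ x * w1 x - Φ x * w3 x := fun x => by
      simp [hw1def, hw3def]; ring
    simp_rw [e]
    rw [integral_sub hΦ1i hΦ3i]
    have h1 : ∀ x' ∈ Metric.ball ((5 * R / 8) • e0) (R / 64),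
        cP * tb * R ^ 2 + Φ x' ≤ ∫ x, Φ x * w1 x := fun x' hx' =>
      le_integral_of_le hw1n hw1i hi1 hΦ1i (fun x hx => by
        have := hdr x (hsupp1 x (hw1s x hx)) x' hx'
        linarith)
    have h3 : ∫ x, Φ x * w3 x ≤ (∫ x, Φ x * w1 x) - cP * tb * R ^ 2 :=
      integral_le_of_le hw3n hw3i hi3 hΦ3i (fun x hx => by
        have := h1 x (hsupp3 x (hw3s x hx))
        linarith)
    linarith
  -- nuclear term
  have hinvm : AEStronglyMeasurable (fun x : E3 => ‖x‖⁻¹) volume :=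
    (measurable_norm.inv).aestronglyMeasurable
  have hN1i : Integrable (fun x => ‖x‖⁻¹ * w1 x) :=
    integrable_mul_of_bdd (C := 10 / R) hw1i hinvm (fun x hx => by
      have h1 := hx1 x (hw1s x hx)
      have h2 : 0 < ‖x‖ := by linarith
      rw [abs_of_pos (by positivity), inv_le_comm₀ h2 (by positivity), inv_div]
      linarith)
  have hN3i : Integrable (fun x => ‖x‖⁻¹ * w3 x) :=
    integrable_mul_of_bdd (C := 10 / R) hw3i hinvm (fun x hx => by
      have h1 := hx3 x (hw3s x hx)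
      have h2 : 0 < ‖x‖ := by linarith
      rw [abs_of_pos (by positivity), inv_le_comm₀ h2 (by positivity), inv_div]
      linarith)
  have hN : ∫ x, ψ x * (φ₁ x - φ₃ x) / ‖x‖ ≤ 10 / R := by
    have e : ∀ x, ψ x * (φ₁ x - φ₃ x) / ‖x‖ = ‖x‖⁻¹ * w1 x - ‖x‖⁻¹ * w3 x := fun x => by
      simp [hw1def, hw3def]; ring
    simp_rw [e]
    rw [integral_sub hN1i hN3i]
    have h1 : ∫ x, ‖x‖⁻¹ * w1 x ≤ 10 / R :=
      integral_le_of_le hw1n hw1i hi1 hN1i (fun x hx => by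
        have h1 := hx1 x (hw1s x hx)
        have h2 : 0 < ‖x‖ := by linarith
        rw [inv_le_comm₀ h2 (by positivity), inv_div]
        linarith)
    have h3 : 0 ≤ ∫ x, ‖x‖⁻¹ * w3 x :=
      integral_nonneg fun x => mul_nonneg (by positivity) (hw3n x)
    linarith
  have hN' : z * ∫ x, ψ x * (φ₁ x - φ₃ x) / ‖x‖ ≤ 10 * z / R := by
    have := mul_le_mul_of_nonneg_left hN hz.le
    calc _ ≤ z * (10 / R) := this
      _ = 10 * z / R := by ring
  have hG' := mul_le_mul_of_nonneg_left hGfin hA.le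
  linarith

end Pool.Agent.W_MP_b91f46_mp
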