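import Mathlib

/-!
# MP_b91f46_mp: basic definitions (TFDW functional on `ℝ³`)
-/

open MeasureTheory Filter Topology Set
open scoped RealInnerProductSpace ContDiff ENNReal

namespace Pool.Agent.W_MP_b91f46_mp

/-- Euclidean three-space. -/
abbrev E3 := EuclideanSpace ℝ (Fin 3)

/-- `g` is the weak (distributional) gradient of `ψ`: for every smooth compactly supported
test function `φ` and every direction `v`, `∫ ψ ∂_v φ = - ∫ φ ⟨g, v⟩`. -/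
def WeakGrad (ψ : E3 → ℝ) (g : E3 → E3) : Prop :=
  ∀ φ : E3 → ℝ, ContDiff ℝ ∞ φ → HasCompactSupport φ → ∀ v : E3,
    ∫ x, ψ x * fderiv ℝ φ x v = - ∫ x, φ x * ⟪g x, v⟫

/-- `ψ ∈ H¹(ℝ³)` with weak gradient `g`. -/
structure H1 (ψ : E3 → ℝ) (g : E3 → E3) : Prop where
  memLp : MemLp ψ 2 volume
  memLp_grad : MemLp g 2 volume
  weakGrad : WeakGrad ψ g

/-- Admissible pairs: `ψ ∈ L² ∩ L^{2p}` with weak gradient `g ∈ L²`. -/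
structure Adm (p : ℝ) (ψ : E3 → ℝ) (g : E3 → E3) : Prop extends H1 ψ g where
  integrable_pow : Integrable (fun x => (ψ x ^ 2) ^ p)

/-- The mass `∫ ψ²`. -/
noncomputable def mass (ψ : E3 → ℝ) : ℝ := ∫ x, ψ x ^ 2

/-- The Dirichlet integral `∫ |g|²`. -/
noncomputable def kin (g : E3 → E3) : ℝ := ∫ x, ‖g x‖ ^ 2

/-- The nuclear term `∫ ψ(x)²/|x - a| dx`. -/
noncomputable def nuc (a : E3) (ψ : E3 → ℝ) : ℝ := ∫ x, ψ x ^ 2 / ‖x - a‖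

/-- The Coulomb potential `∫ ρ(y)/|x-y| dy`. -/
noncomputable def pot (ρ : E3 → ℝ) (x : E3) : ℝ := ∫ y, ρ y / ‖x - y‖

/-- The Coulomb energy `D(ρ,ρ) = ½ ∬ ρ(x)ρ(y)/|x-y| dx dy` (as an iterated integral). -/
noncomputable def coul (ρ : E3 → ℝ) : ℝ := (1 / 2) * ∫ x, ρ x * pot ρ x

/-- The function `J(t) = (γ/p) t^p - (3 C_e/4) t^{4/3}` of the problem. -/
noncomputable def JJ (γ Ce p t : ℝ) : ℝ := γ / p * t ^ p - 3 * Ce / 4 * t ^ (4 / 3 : ℝ)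

/-- The TFDW functional `ℰ'(ψ)` of the problem (nucleus of charge `z` at the origin). -/
noncomputable def energy (A γ Ce p z : ℝ) (ψ : E3 → ℝ) (g : E3 → E3) : ℝ :=
  A * (∫ x, ‖g x‖ ^ 2) + (∫ x, JJ γ Ce p (ψ x ^ 2)) - z * (∫ x, ψ x ^ 2 / ‖x‖)
    + (1 / 2) * ∫ x, ∫ y, ψ x ^ 2 * ψ y ^ 2 / ‖x - y‖

/-- `ψ` is a minimizer of the TFDW functional at mass `lam`. -/
def IsMinimizer (A γ Ce p z lam : ℝ) (ψ : E3 → ℝ) : Prop :=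
  ∃ g : E3 → E3, Adm p ψ g ∧ (∫ x, ψ x ^ 2) = lam ∧
    ∀ (ψ' : E3 → ℝ) (g' : E3 → E3), Adm p ψ' g' → (∫ x, ψ' x ^ 2) = lam →
      energy A γ Ce p z ψ g ≤ energy A γ Ce p z ψ' g'

/-- `ψ` is (a.e. equal to) a symmetric decreasing function: `ψ(x) = f(|x|)` with `f ≥ 0`
nonincreasing on `(0,∞)` (the value of `f` at `0` is irrelevant). -/
def SymDecr (ψ : E3 → ℝ) : Prop :=
  ∃ f : ℝ → ℝ, (∀ r, 0 < r → 0 ≤ f r) ∧ AntitoneOn f (Set.Ioi 0) ∧ ∀ᵐ x, ψ x = f ‖x‖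

/-! ## The normalised functional used in the proof: `γ = p`, `C_e = 4 (p - 1)` -/

/-- `J(t) = t^p - 3 (p-1) t^{4/3}`. -/
noncomputable def J (p t : ℝ) : ℝ := t ^ p - 3 * (p - 1) * t ^ (4 / 3 : ℝ)

/-- `G(t) = J(t) + (3p-4) t ≥ 0`. -/
noncomputable def G (p t : ℝ) : ℝ := J p t + (3 * p - 4) * t

/-- `J'(t) = p t^{p-1} - 4 (p-1) t^{1/3}`. -/
noncomputable def J' (p t : ℝ) : ℝ := p * t ^ (p - 1) - 4 * (p - 1) * t ^ (1 / 3 : ℝ)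

/-- `∫ G(ψ²)`. -/
noncomputable def ig (p : ℝ) (ψ : E3 → ℝ) : ℝ := ∫ x, G p (ψ x ^ 2)

/-- `P(ψ) = A ‖∇ψ‖² + ∫ G(ψ²) + D(ψ²,ψ²)`. -/
noncomputable def PP (A p : ℝ) (ψ : E3 → ℝ) (g : E3 → E3) : ℝ :=
  A * kin g + ig p ψ + coul (fun x => ψ x ^ 2)

/-- `F(ψ) = P(ψ) - z ∫ ψ²/|x| - κ ∫ ψ²`. -/
noncomputable def FF (A p z κ : ℝ) (ψ : E3 → ℝ) (g : E3 → E3) : ℝ :=
  PP A p ψ g - z * nuc 0 ψ - κ * mass ψ

end Pool.Agent.W_MP_b91f46_mp
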