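import Pool.Agent.W_MP_b91f46_mp.Defs

open MeasureTheory Filter Topology Set
open scoped RealInnerProductSpace ContDiff ENNReal

namespace Pool.Agent.W_MP_b91f46_mp

/-- local strong convergence to zero -/
def LocNull (r : ℕ → E3 → ℝ) : Prop :=
  ∀ R : ℝ, Tendsto (fun n => ∫ x in Metric.ball (0 : E3) R, r n x ^ 2) atTop (𝓝 0)

namespace LocNullAux

/-- Cauchy-Schwarz. -/
theorem cs_abs {α : Type*} [MeasurableSpace α] {μ : Measure α} {f k : α → ℝ} (hf : MemLp f 2 μ)
    (hk : MemLp k 2 μ) :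
    ∫ x, |f x * k x| ∂μ ≤ √(∫ x, f x ^ 2 ∂μ) * √(∫ x, k x ^ 2 ∂μ) := by
  have h1 := MeasureTheory.integral_mul_norm_le_Lp_mul_Lq (μ := μ) (p := 2) (q := 2) (f := f)
    (g := k) Real.HolderConjugate.two_two (by simpa using hf) (by simpa using hk)
  have h2 : ∫ x, |f x * k x| ∂μ = ∫ x, ‖f x‖ * ‖k x‖ ∂μ := by
    congr 1
    ext x
    rw [abs_mul]
    rfl
  rw [h2]
  refine (h1.trans (le_of_eq ?_))
  rw [Real.sqrt_eq_rpow, Real.sqrt_eq_rpow]
  congr 2 <;> · congr 1; ext x; simp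

theorem tail_tendsto {f : E3 → ℝ} (hf : Integrable f) :
    Tendsto (fun R : ℝ => ∫ x in (Metric.ball (0 : E3) R)ᶜ, f x) atTop (𝓝 0) := by
  have h1 : Tendsto (fun R : ℝ => ∫ x in Metric.ball (0 : E3) R, f x) atTop (𝓝 (∫ x, f x)) :=
    (aecover_ball tendsto_id).integral_tendsto_of_countably_generated hf
  have h2 : (fun R : ℝ => ∫ x in (Metric.ball (0 : E3) R)ᶜ, f x)
      = fun R : ℝ => (∫ x, f x) - ∫ x in Metric.ball (0 : E3) R, f x := by
    ext R
    rw [← integral_add_compl Metric.isOpen_ball.measurableSet hf (s := Metric.ball (0 : E3) R)]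
    ring
  rw [h2]
  simpa using (tendsto_const_nhds (x := ∫ x, f x)).sub h1

end LocNullAux

theorem LocNull.exists_ae {r : ℕ → E3 → ℝ} {C : ℝ} (h : LocNull r) (hr : ∀ n, MemLp (r n) 2 volume)
    (hm : ∀ n, mass (r n) ≤ C) :
    ∃ s : ℕ → ℕ, StrictMono s ∧ ∀ᵐ x, Tendsto (fun n => r (s n) x) atTop (𝓝 0) := by
  obtain ⟨s, hs, hs'⟩ := extraction_forall_of_eventually'
    (P := fun n k => ∫ x in Metric.ball (0 : E3) n, r k x ^ 2 ≤ (1 / 2) ^ n)
    (fun n => eventually_atTop.1 (((h n).eventually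
      (gt_mem_nhds (by positivity : (0 : ℝ) < (1 / 2) ^ n))).mono fun k hk => hk.le))
  refine ⟨s, hs, ?_⟩
  have key : ∀ R : ℕ, ∀ᵐ x ∂(volume.restrict (Metric.ball (0 : E3) R)),
      Tendsto (fun n => r (s n) x) atTop (𝓝 0) := by
    intro R
    have hi : ∀ n, Integrable (fun x => r (s n) x ^ 2) (volume.restrict (Metric.ball (0 : E3) R)) :=
      fun n => (hr (s n)).integrable_sq.restrict
    have h1 : ∀ n, ∫⁻ x in Metric.ball (0 : E3) R, ENNReal.ofReal (r (s (n + R)) x ^ 2)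
        ≤ ENNReal.ofReal ((1 / 2) ^ n) := by
      intro n
      rw [← ofReal_integral_eq_lintegral_ofReal (hi _) (Eventually.of_forall fun x => sq_nonneg _)]
      refine ENNReal.ofReal_le_ofReal ?_
      calc ∫ x in Metric.ball (0 : E3) R, r (s (n + R)) x ^ 2
          ≤ ∫ x in Metric.ball (0 : E3) ((n + R : ℕ) : ℝ), r (s (n + R)) x ^ 2 := by
            refine setIntegral_mono_set (hr _).integrable_sq.restrict
              (Eventually.of_forall fun x => sq_nonneg _)
              (Metric.ball_subset_ball (by push_cast; linarith [(Nat.cast_nonneg n : (0:ℝ) ≤ n)])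
                |>.eventuallyLE)
        _ ≤ (1 / 2) ^ (n + R) := hs' (n + R)
        _ ≤ (1 / 2) ^ n := pow_le_pow_of_le_one (by norm_num) (by norm_num) (by omega)
    have h2 : ∫⁻ x in Metric.ball (0 : E3) R, ∑' n, ENNReal.ofReal (r (s (n + R)) x ^ 2) ≠ ⊤ := by
      rw [lintegral_tsum fun n => (hi (n + R)).1.aemeasurable.ennreal_ofReal]
      refine ne_top_of_le_ne_top ?_ (ENNReal.tsum_le_tsum h1)
      rw [← ENNReal.ofReal_tsum_of_nonneg (fun n => by positivity)
        (summable_geometric_of_lt_one (by norm_num) (by norm_num))]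
      exact ENNReal.ofReal_ne_top
    have h3 := ae_lt_top' (AEMeasurable.tsum
      fun n => (hi (n + R)).1.aemeasurable.ennreal_ofReal) h2
    filter_upwards [h3] with x hx
    have h4 := ENNReal.tendsto_atTop_zero_of_tsum_ne_top hx.ne
    have h5 : Tendsto (fun n => ENNReal.ofReal (r (s n) x ^ 2)) atTop (𝓝 0) :=
      (tendsto_add_atTop_iff_nat R).1 h4
    have h6 : Tendsto (fun n => r (s n) x ^ 2) atTop (𝓝 0) := by
      have := (ENNReal.tendsto_toReal ENNReal.zero_ne_top).comp h5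
      refine (this.congr fun n => ?_)
      simp [ENNReal.toReal_ofReal (sq_nonneg _)]
    have h7 : Tendsto (fun n => √(r (s n) x ^ 2)) atTop (𝓝 (√0)) :=
      (Real.continuous_sqrt.tendsto _).comp h6
    rw [Real.sqrt_zero] at h7
    simp_rw [Real.sqrt_sq_eq_abs] at h7
    exact (tendsto_zero_iff_abs_tendsto_zero _).2 h7
  have h8 : ∀ᵐ x : E3, ∀ R : ℕ, x ∈ Metric.ball (0 : E3) R →
      Tendsto (fun n => r (s n) x) atTop (𝓝 0) :=
    ae_all_iff.2 fun R => (ae_restrict_iff' Metric.isOpen_ball.measurableSet).1 (key R)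
  filter_upwards [h8] with x hx
  obtain ⟨R, hR⟩ := exists_nat_gt ‖x‖
  exact hx R (by simpa using hR)

theorem LocNull.cross {r : ℕ → E3 → ℝ} {C : ℝ} (hl : LocNull r) (h : ∀ n, MemLp (r n) 2 volume)
    (hm : ∀ n, mass (r n) ≤ C) {u : E3 → ℝ} (hu : MemLp u 2 volume) :
    Tendsto (fun n => ∫ x, |u x * r n x|) atTop (𝓝 0) := by
  rw [Metric.tendsto_atTop']
  intro ε hε
  have hu2 : Integrable (fun x => u x ^ 2) := hu.integrable_sq
  have t1 : Tendsto (fun R : ℝ => √(∫ x in (Metric.ball (0 : E3) R)ᶜ, u x ^ 2) * √C) atTop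
      (𝓝 (√0 * √C)) :=
    ((Real.continuous_sqrt.tendsto _).comp (LocNullAux.tail_tendsto hu2)).mul tendsto_const_nhds
  rw [Real.sqrt_zero, zero_mul] at t1
  obtain ⟨R, hR⟩ := (t1.eventually (gt_mem_nhds (half_pos hε))).exists
  have t2 : Tendsto (fun n => √(∫ x, u x ^ 2) * √(∫ x in Metric.ball (0 : E3) R, r n x ^ 2)) atTop
      (𝓝 (√(∫ x, u x ^ 2) * √0)) :=
    tendsto_const_nhds.mul ((Real.continuous_sqrt.tendsto _).comp (hl R))
  rw [Real.sqrt_zero, mul_zero] at t2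
  obtain ⟨N, hN⟩ := eventually_atTop.1 (t2.eventually (gt_mem_nhds (half_pos hε)))
  refine ⟨N, fun n hn => ?_⟩
  have i1 : Integrable (fun x => |u x * r n x|) := (hu.integrable_mul (h n)).abs
  have hnn : 0 ≤ ∫ x, |u x * r n x| := integral_nonneg fun x => abs_nonneg _
  rw [Real.dist_eq, sub_zero, abs_of_nonneg hnn,
    ← integral_add_compl Metric.isOpen_ball.measurableSet i1 (s := Metric.ball (0 : E3) R)]
  have b1 := LocNullAux.cs_abs (μ := volume.restrict (Metric.ball (0 : E3) R)) (hu.restrict _)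
    ((h n).restrict _)
  have b2 := LocNullAux.cs_abs (μ := volume.restrict (Metric.ball (0 : E3) R)ᶜ) (hu.restrict _)
    ((h n).restrict _)
  have b3 : √(∫ x in Metric.ball (0 : E3) R, u x ^ 2) ≤ √(∫ x, u x ^ 2) :=
    Real.sqrt_le_sqrt (setIntegral_le_integral hu2 (Eventually.of_forall fun x => sq_nonneg _))
  have b4 : √(∫ x in (Metric.ball (0 : E3) R)ᶜ, r n x ^ 2) ≤ √C :=
    Real.sqrt_le_sqrt ((setIntegral_le_integral (h n).integrable_sq
      (Eventually.of_forall fun x => sq_nonneg _)).trans (hm n))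
  have b5 := b1.trans (mul_le_mul_of_nonneg_right b3 (Real.sqrt_nonneg _))
  have b6 := b2.trans (mul_le_mul_of_nonneg_left b4 (Real.sqrt_nonneg _))
  have b7 := hN n hn.le
  linarith

end Pool.Agent.W_MP_b91f46_mp
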