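import Pool.Agent.W_MP_b91f46_mp.Nuc
import Pool.Agent.W_MP_b91f46_mp.LocNull
import Pool.Agent.W_MP_b91f46_mp.H1Alg

open MeasureTheory Filter Topology Set
open scoped RealInnerProductSpace ContDiff ENNReal

namespace Pool.Agent.W_MP_b91f46_mp

theorem LocNull.nuc {r : ℕ → E3 → ℝ} {g : ℕ → E3 → E3} {C : ℝ} (hl : LocNull r)
    (h : ∀ n, H1 (r n) (g n)) (hm : ∀ n, mass (r n) ≤ C) (hk : ∀ n, kin (g n) ≤ C) :
    Tendsto (fun n => nuc 0 (r n)) atTop (𝓝 0) := by
  have hC : 0 ≤ C := (integral_nonneg fun x => sq_nonneg _).trans (hm 0)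
  have hnn : ∀ n, 0 ≤ Pool.Agent.W_MP_b91f46_mp.nuc 0 (r n) := fun n =>
    integral_nonneg fun x => div_nonneg (sq_nonneg _) (norm_nonneg _)
  rw [Metric.tendsto_atTop']
  intro ε hε
  obtain ⟨R, hR0, hR⟩ : ∃ R : ℝ, 0 < R ∧ C / R < ε / 2 := by
    refine ⟨2 * (C + 1) / ε, by positivity, ?_⟩
    rw [div_lt_iff₀ (by positivity)]
    field_simp
    linarith
  let χ : ContDiffBump (0 : E3) := ⟨R, 2 * R, hR0, by linarith⟩
  have hχ : ContDiff ℝ ∞ (χ : E3 → ℝ) := χ.contDiff
  have hχc : HasCompactSupport (χ : E3 → ℝ) := χ.hasCompactSupport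
  have hgs : HasCompactSupport (gradient (χ : E3 → ℝ)) := by
    refine (hχc.fderiv (𝕜 := ℝ)).mono fun x hx => ?_
    contrapose! hx
    rw [Function.mem_support, not_not] at hx ⊢
    simp [gradient, hx]
  have hgc : Continuous (gradient (χ : E3 → ℝ)) := by
    unfold gradient
    exact (InnerProductSpace.toDual ℝ E3).symm.continuous.comp (hχ.continuous_fderiv (by simp))
  obtain ⟨K, hK⟩ := hgs.exists_bound_of_continuous hgc
  have hK0 : 0 ≤ K := (norm_nonneg _).trans (hK 0)
  have H : ∀ n, H1 (fun x => χ x * r n x) (fun x => χ x • g n x + r n x • gradient χ x) :=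
    fun n => (h n).mul_test hχ hχc
  have b1 : ∀ n, mass (fun x => χ x * r n x) ≤
      ∫ x in Metric.ball (0 : E3) (2 * R), r n x ^ 2 := by
    intro n
    unfold mass
    rw [← integral_indicator Metric.isOpen_ball.measurableSet]
    refine integral_mono (H n).memLp.integrable_sq
      ((h n).memLp.integrable_sq.indicator Metric.isOpen_ball.measurableSet) fun x => ?_
    by_cases hx : x ∈ Metric.ball (0 : E3) (2 * R)
    · rw [indicator_of_mem hx, mul_pow]
      have h1 : χ x ^ 2 ≤ 1 := pow_le_one₀ χ.nonneg χ.le_one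
      exact mul_le_of_le_one_left (sq_nonneg _) h1
    · rw [indicator_of_notMem hx]
      have : χ x = 0 := χ.zero_of_le_dist (by simpa using hx)
      simp [this]
  have b2 : ∀ n, kin (fun x => χ x • g n x + r n x • gradient χ x) ≤ 2 * C + 2 * K ^ 2 * C := by
    intro n
    have i1 : Integrable (fun x => ‖g n x‖ ^ 2) := (h n).memLp_grad.integrable_norm_pow (by norm_num)
    have i2 : Integrable (fun x => r n x ^ 2) := (h n).memLp.integrable_sq
    calc kin (fun x => χ x • g n x + r n x • gradient χ x)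
        ≤ ∫ x, (2 * ‖g n x‖ ^ 2 + 2 * K ^ 2 * r n x ^ 2) := by
          unfold kin
          refine integral_mono ((H n).memLp_grad.integrable_norm_pow (by norm_num))
            ((i1.const_mul 2).add (i2.const_mul (2 * K ^ 2))) fun x => ?_
          have h1 : ‖χ x • g n x‖ ≤ ‖g n x‖ := by
            rw [norm_smul, Real.norm_of_nonneg χ.nonneg]
            exact mul_le_of_le_one_left (norm_nonneg _) χ.le_one
          have h2 : ‖r n x • gradient χ x‖ ≤ K * |r n x| := by
            rw [norm_smul, mul_comm]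
            exact mul_le_mul_of_nonneg_right (hK x) (abs_nonneg _)
          have h3 := norm_add_le (χ x • g n x) (r n x • gradient χ x)
          have h4 : ‖χ x • g n x + r n x • gradient χ x‖ ≤ ‖g n x‖ + K * |r n x| := by linarith
          have h5 : (K * |r n x|) ^ 2 = K ^ 2 * r n x ^ 2 := by rw [mul_pow, sq_abs]
          simp only
          nlinarith [norm_nonneg (χ x • g n x + r n x • gradient χ x),
            sq_nonneg (‖g n x‖ - K * |r n x|), norm_nonneg (g n x),
            mul_nonneg hK0 (abs_nonneg (r n x))]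
      _ = 2 * kin (g n) + 2 * K ^ 2 * mass (r n) := by
          unfold kin mass
          rw [integral_add (i1.const_mul 2) (i2.const_mul (2 * K ^ 2)), integral_const_mul,
            integral_const_mul]
      _ ≤ 2 * C + 2 * K ^ 2 * C := by
          have := hm n
          have := hk n
          gcongr
  have b3 : ∀ n, Pool.Agent.W_MP_b91f46_mp.nuc 0 (r n)
      ≤ √(∫ x in Metric.ball (0 : E3) (2 * R), r n x ^ 2) * √(2 * C + 2 * K ^ 2 * C) + C / R := by
    intro n
    have h1 := nuc_le (H n) 0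
    have h2 := nuc_le (h n) 0
    have i2 : Integrable (fun x => r n x ^ 2) := (h n).memLp.integrable_sq
    have h3 : Pool.Agent.W_MP_b91f46_mp.nuc 0 (r n)
        ≤ Pool.Agent.W_MP_b91f46_mp.nuc 0 (fun x => χ x * r n x) + mass (r n) / R := by
      unfold Pool.Agent.W_MP_b91f46_mp.nuc mass
      rw [← integral_div, ← integral_add h1.1 (i2.div_const R)]
      refine integral_mono h2.1 (h1.1.add (i2.div_const R)) fun x => ?_
      simp only [Pi.add_apply]
      by_cases hx : ‖x‖ ≤ R
      · have : χ x = 1 := χ.one_of_mem_closedBall (by simpa using hx)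
        rw [this, one_mul]
        have : 0 ≤ r n x ^ 2 / R := by positivity
        linarith
      · push Not at hx
        have h4 : r n x ^ 2 / ‖x - 0‖ ≤ r n x ^ 2 / R := by
          rw [sub_zero]
          exact div_le_div_of_nonneg_left (sq_nonneg _) hR0 hx.le
        have : 0 ≤ (χ x * r n x) ^ 2 / ‖x - 0‖ := by positivity
        linarith
    have h5 : Pool.Agent.W_MP_b91f46_mp.nuc 0 (fun x => χ x * r n x) ≤
        √(∫ x in Metric.ball (0 : E3) (2 * R), r n x ^ 2) * √(2 * C + 2 * K ^ 2 * C) :=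
      h1.2.trans (mul_le_mul (Real.sqrt_le_sqrt (b1 n)) (Real.sqrt_le_sqrt (b2 n))
        (Real.sqrt_nonneg _) (Real.sqrt_nonneg _))
    have h6 : mass (r n) / R ≤ C / R := div_le_div_of_nonneg_right (hm n) hR0.le
    linarith
  have t2 : Tendsto (fun n => √(∫ x in Metric.ball (0 : E3) (2 * R), r n x ^ 2)
      * √(2 * C + 2 * K ^ 2 * C)) atTop (𝓝 (√0 * √(2 * C + 2 * K ^ 2 * C))) :=
    ((Real.continuous_sqrt.tendsto _).comp (hl (2 * R))).mul tendsto_const_nhds
  rw [Real.sqrt_zero, zero_mul] at t2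
  obtain ⟨N, hN⟩ := eventually_atTop.1 (t2.eventually (gt_mem_nhds (half_pos hε)))
  refine ⟨N, fun n hn => ?_⟩
  rw [Real.dist_eq, sub_zero, abs_of_nonneg (hnn n)]
  have := b3 n
  have := hN n hn.le
  linarith

end Pool.Agent.W_MP_b91f46_mp
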