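import Pool.Agent.W_MP_b91f46_mp.Avg
import Pool.Agent.W_MP_b91f46_mp.LocNull
import Pool.Agent.W_MP_b91f46_mp.H1Alg

open MeasureTheory Filter Topology Set
open scoped RealInnerProductSpace ContDiff ENNReal

namespace Pool.Agent.W_MP_b91f46_mp

theorem rellich_h1 {ψn : ℕ → E3 → ℝ} {gn : ℕ → E3 → E3} (h : ∀ n, H1 (ψn n) (gn n))
    {ψ : E3 → ℝ} {g : E3 → E3} (hψ : MemLp ψ 2 volume) (hg : MemLp g 2 volume)
    (hw : ∀ v : E3 → ℝ, MemLp v 2 volume →
      Tendsto (fun n => ∫ x, ψn n x * v x) atTop (𝓝 (∫ x, ψ x * v x)))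
    (hwg : ∀ v : E3 → E3, MemLp v 2 volume →
      Tendsto (fun n => ∫ x, ⟪gn n x, v x⟫) atTop (𝓝 (∫ x, ⟪g x, v x⟫))) :
    H1 ψ g := by
  refine ⟨hψ, hg, ?_⟩
  intro φ hφ hφc v
  have hd : MemLp (fun x => fderiv ℝ φ x v) 2 volume := by
    have hc : Continuous (fun x => fderiv ℝ φ x v) :=
      (hφ.continuous_fderiv (by simp)).clm_apply continuous_const
    refine hc.memLp_of_hasCompactSupport ?_
    exact hφc.fderiv_apply (𝕜 := ℝ) v
  have hv : MemLp (fun x => φ x • v) 2 volume := by
    have hc : Continuous (fun x => φ x • v) := hφ.continuous.smul continuous_const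
    refine hc.memLp_of_hasCompactSupport ?_
    exact hφc.smul_right
  have h1 := hw _ hd
  have h2 := (hwg _ hv).neg
  have h3 : (fun n => ∫ x, ψn n x * fderiv ℝ φ x v) = fun n => -∫ x, ⟪gn n x, φ x • v⟫ := by
    funext n
    rw [(h n).weakGrad φ hφ hφc v]
    congr 1
    apply integral_congr_ae
    filter_upwards with x
    rw [inner_smul_right]
  rw [h3] at h1
  have h4 := tendsto_nhds_unique h1 h2
  rw [h4]
  congr 1
  apply integral_congr_ae
  filter_upwards with x
  rw [inner_smul_right]

theorem sq_sub_avg_bound (a b : ℝ) : a ^ 2 ≤ 2 * (a - b) ^ 2 + 2 * b ^ 2 := by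
  nlinarith [sq_nonneg (a - 2 * b)]

theorem mass_sub_le {u w : E3 → ℝ} (hu : MemLp u 2 volume) (hw : MemLp w 2 volume) :
    mass (fun x => u x + (-1) * w x) ≤ 2 * mass u + 2 * mass w := by
  unfold mass
  have h1 : Integrable (fun x => u x ^ 2) := hu.integrable_sq
  have h2 : Integrable (fun x => w x ^ 2) := hw.integrable_sq
  rw [← integral_const_mul, ← integral_const_mul, ← integral_add (h1.const_mul 2) (h2.const_mul 2)]
  apply integral_mono_of_nonneg
  · filter_upwards with x; positivity
  · exact (h1.const_mul 2).add (h2.const_mul 2)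
  · filter_upwards with x
    nlinarith [sq_nonneg (u x + w x)]

theorem kin_sub_le {u w : E3 → E3} (hu : MemLp u 2 volume) (hw : MemLp w 2 volume) :
    kin (fun x => u x + (-1 : ℝ) • w x) ≤ 2 * kin u + 2 * kin w := by
  unfold kin
  have h1 : Integrable (fun x => ‖u x‖ ^ 2) := by
    have := hu.integrable_norm_pow (p := 2) (by norm_num)
    simpa using this
  have h2 : Integrable (fun x => ‖w x‖ ^ 2) := by
    have := hw.integrable_norm_pow (p := 2) (by norm_num)
    simpa using this
  rw [← integral_const_mul, ← integral_const_mul, ← integral_add (h1.const_mul 2) (h2.const_mul 2)]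
  apply integral_mono_of_nonneg
  · filter_upwards with x; positivity
  · exact (h1.const_mul 2).add (h2.const_mul 2)
  · filter_upwards with x
    have h3 : ‖u x + (-1 : ℝ) • w x‖ ≤ ‖u x‖ + ‖w x‖ := by
      refine (norm_add_le _ _).trans ?_
      rw [norm_smul]; simp
    have h4 : ‖u x + (-1 : ℝ) • w x‖ ^ 2 ≤ (‖u x‖ + ‖w x‖) ^ 2 := by
      apply pow_le_pow_left₀ (norm_nonneg _) h3
    nlinarith [sq_nonneg (‖u x‖ - ‖w x‖)]

theorem rellich {ψn : ℕ → E3 → ℝ} {gn : ℕ → E3 → E3} {C : ℝ} (h : ∀ n, H1 (ψn n) (gn n))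
    (hm : ∀ n, mass (ψn n) ≤ C) (hk : ∀ n, kin (gn n) ≤ C)
    {ψ : E3 → ℝ} {g : E3 → E3} (hψ : MemLp ψ 2 volume) (hg : MemLp g 2 volume)
    (hw : ∀ v : E3 → ℝ, MemLp v 2 volume →
      Tendsto (fun n => ∫ x, ψn n x * v x) atTop (𝓝 (∫ x, ψ x * v x)))
    (hwg : ∀ v : E3 → E3, MemLp v 2 volume →
      Tendsto (fun n => ∫ x, ⟪gn n x, v x⟫) atTop (𝓝 (∫ x, ⟪g x, v x⟫))) :
    H1 ψ g ∧ LocNull (fun n x => ψn n x - ψ x) := by
  have hH : H1 ψ g := rellich_h1 h hψ hg hw hwg
  refine ⟨hH, ?_⟩
  intro R
  -- the remainder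
  set r : ℕ → E3 → ℝ := fun n x => ψn n x + (-1) * ψ x with hr
  have hrH : ∀ n, H1 (r n) (fun x => gn n x + (-1 : ℝ) • g x) := fun n => (h n).add (hH.smul (-1))
  set M : ℝ := 2 * C + 2 * mass ψ with hM
  set K : ℝ := 2 * C + 2 * kin g with hK
  have hrm : ∀ n, mass (r n) ≤ M := by
    intro n
    have := mass_sub_le (h n).memLp hψ
    have h2 := hm n
    simp only [hM]
    linarith
  have hrk : ∀ n, kin (fun x => gn n x + (-1 : ℝ) • g x) ≤ K := by
    intro n
    have := kin_sub_le (h n).memLp_grad hg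
    have h2 := hk n
    simp only [hK]
    linarith
  have hK0 : 0 ≤ K := le_trans (by unfold kin; positivity) (hrk 0)
  have hM0 : 0 ≤ M := le_trans (by unfold mass; positivity) (hrm 0)
  have hgoal : (fun n => ∫ x in Metric.ball (0 : E3) R, (ψn n x - ψ x) ^ 2)
      = fun n => ∫ x in Metric.ball (0 : E3) R, r n x ^ 2 := by
    funext n
    apply integral_congr_ae
    filter_upwards with x
    simp only [hr]
    ring
  show Tendsto (fun n => ∫ x in Metric.ball (0 : E3) R, (ψn n x - ψ x) ^ 2) atTop (𝓝 0)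
  rw [hgoal]
  -- averages tend to zero
  have havg : ∀ ℓ : ℝ, 0 < ℓ → Tendsto (fun n => ∫ x in Metric.ball (0 : E3) R, (avg ℓ (r n) x) ^ 2)
      atTop (𝓝 0) := by
    intro ℓ hℓ
    have hpt : ∀ x, Tendsto (fun n => avg ℓ (r n) x) atTop (𝓝 0) := by
      intro x
      have hind : MemLp ((Metric.ball x ℓ).indicator (fun _ => (1 : ℝ))) 2 volume :=
        memLp_indicator_const 2 measurableSet_ball 1 (Or.inr measure_ball_lt_top.ne)
      have h1 := (hw _ hind).sub_const (∫ x_1, ψ x_1 * (Metric.ball x ℓ).indicator (fun _ => (1 : ℝ)) x_1)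
      rw [sub_self] at h1
      have h2 := h1.const_mul ((volume.real (Metric.ball (0 : E3) ℓ))⁻¹)
      rw [mul_zero] at h2
      refine h2.congr fun n => ?_
      unfold avg
      congr 1
      have e1 : ∀ w : E3 → ℝ, ∫ y, w y * (Metric.ball x ℓ).indicator (fun _ => (1 : ℝ)) y
          = ∫ y in Metric.ball x ℓ, w y := by
        intro w
        rw [← integral_indicator measurableSet_ball]
        apply integral_congr_ae
        filter_upwards with y
        by_cases hy : y ∈ Metric.ball x ℓ
        · simp [hy]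
        · simp [hy]
      rw [e1, e1]
      have hfin : IsFiniteMeasure (volume.restrict (Metric.ball x ℓ)) :=
        ⟨by rw [Measure.restrict_apply_univ]; exact measure_ball_lt_top⟩
      have i1 : IntegrableOn (ψn n) (Metric.ball x ℓ) :=
        ((h n).memLp.restrict _).integrable (by norm_num)
      have i2 : IntegrableOn ψ (Metric.ball x ℓ) :=
        (hψ.restrict _).integrable (by norm_num)
      rw [← integral_sub i1 i2]
      apply integral_congr_ae
      filter_upwards with y
      simp only [hr]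
      ring
    set B : ℝ := (volume.real (Metric.ball (0 : E3) ℓ))⁻¹ * (volume.real (Metric.ball (0 : E3) ℓ) + M)
      with hB
    have hbd : ∀ n x, |avg ℓ (r n) x| ≤ B := by
      intro n x
      unfold avg
      rw [abs_mul, abs_of_nonneg (inv_nonneg.2 measureReal_nonneg)]
      apply mul_le_mul_of_nonneg_left _ (inv_nonneg.2 measureReal_nonneg)
      have i1 : IntegrableOn (fun y => r n y ^ 2) (Metric.ball x ℓ) :=
        (hrH n).memLp.integrable_sq.integrableOn
      have i2 : IntegrableOn (fun _ : E3 => (1 : ℝ)) (Metric.ball x ℓ) :=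
        integrableOn_const measure_ball_lt_top.ne
      calc |∫ y in Metric.ball x ℓ, r n y| ≤ ∫ y in Metric.ball x ℓ, |r n y| :=
            abs_integral_le_integral_abs
        _ ≤ ∫ y in Metric.ball x ℓ, (1 + r n y ^ 2) := by
            apply integral_mono_of_nonneg
            · filter_upwards with y; positivity
            · exact i2.add i1
            · filter_upwards with y
              nlinarith [sq_nonneg (|r n y| - 1), sq_abs (r n y), abs_nonneg (r n y)]
        _ = (∫ y in Metric.ball x ℓ, (1 : ℝ)) + ∫ y in Metric.ball x ℓ, r n y ^ 2 :=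
            integral_add i2 i1
        _ ≤ volume.real (Metric.ball (0 : E3) ℓ) + M := by
            apply add_le_add
            · simp only [setIntegral_const, smul_eq_mul, mul_one]
              rw [measureReal_def, measureReal_def, Measure.addHaar_ball_center]
            · refine le_trans ?_ (hrm n)
              exact setIntegral_le_integral (hrH n).memLp.integrable_sq
                (by filter_upwards with y; positivity)
    have hfin : IsFiniteMeasure (volume.restrict (Metric.ball (0 : E3) R)) :=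
      ⟨by rw [Measure.restrict_apply_univ]; exact measure_ball_lt_top⟩
    have hT : Tendsto (fun n => ∫ x in Metric.ball (0 : E3) R, (avg ℓ (r n) x) ^ 2) atTop
        (𝓝 (∫ x in Metric.ball (0 : E3) R, (0 : ℝ))) := by
      apply tendsto_integral_of_dominated_convergence (fun _ => B ^ 2)
      · intro n
        exact ((avg_sub_le (hrH n) hℓ).1.aestronglyMeasurable.pow 2).restrict
      · exact integrable_const _
      · intro n
        filter_upwards with x
        rw [Real.norm_eq_abs, abs_pow]
        exact pow_le_pow_left₀ (abs_nonneg _) (hbd n x) 2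
      · filter_upwards with x
        have := (hpt x).pow 2
        simpa using this
    simpa using hT
  rw [Metric.tendsto_atTop]
  intro ε hε
  -- choose ℓ
  obtain ⟨ℓ, hℓ, hℓK⟩ : ∃ ℓ : ℝ, 0 < ℓ ∧ 2 * (ℓ ^ 2 * K) < ε / 2 := by
    refine ⟨√(ε / (8 * (K + 1))), by positivity, ?_⟩
    rw [Real.sq_sqrt (by positivity)]
    have : 2 * (ε / (8 * (K + 1)) * K) = (ε / 4) * (K / (K + 1)) := by
      field_simp
      ring
    rw [this]
    have h1 : K / (K + 1) ≤ 1 := by
      rw [div_le_one (by positivity)]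
      linarith
    nlinarith
  obtain ⟨N, hN⟩ := Metric.tendsto_atTop.1 (havg ℓ hℓ) (ε / 4) (by positivity)
  refine ⟨N, fun n hn => ?_⟩
  have h1 := hN n hn
  rw [Real.dist_eq, sub_zero] at h1 ⊢
  have h2 := (abs_lt.1 h1).2
  have hnn : 0 ≤ ∫ x in Metric.ball (0 : E3) R, r n x ^ 2 := by positivity
  rw [abs_of_nonneg hnn]
  have hA := avg_sub_le (hrH n) hℓ
  have ir : Integrable (fun x => r n x ^ 2) := (hrH n).memLp.integrable_sq
  have ia : Integrable (fun x => (avg ℓ (r n) x) ^ 2) := hA.1.integrable_sq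
  have id : Integrable (fun x => (r n x - avg ℓ (r n) x) ^ 2) :=
    ((hrH n).memLp.sub hA.1).integrable_sq
  have h3 : ∫ x in Metric.ball (0 : E3) R, r n x ^ 2 ≤
      ∫ x in Metric.ball (0 : E3) R, (2 * (r n x - avg ℓ (r n) x) ^ 2 + 2 * (avg ℓ (r n) x) ^ 2) := by
    apply integral_mono_of_nonneg
    · filter_upwards with x; positivity
    · exact ((id.const_mul 2).add (ia.const_mul 2)).integrableOn
    · filter_upwards with x
      exact sq_sub_avg_bound _ _
  rw [integral_add (id.const_mul 2).integrableOn (ia.const_mul 2).integrableOn,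
    integral_const_mul, integral_const_mul] at h3
  have h4 : ∫ x in Metric.ball (0 : E3) R, (r n x - avg ℓ (r n) x) ^ 2 ≤ ℓ ^ 2 * K := by
    calc ∫ x in Metric.ball (0 : E3) R, (r n x - avg ℓ (r n) x) ^ 2
        ≤ ∫ x, (r n x - avg ℓ (r n) x) ^ 2 := setIntegral_le_integral id
          (by filter_upwards with x; positivity)
      _ ≤ ℓ ^ 2 * kin (fun x => gn n x + (-1 : ℝ) • g x) := hA.2
      _ ≤ ℓ ^ 2 * K := mul_le_mul_of_nonneg_left (hrk n) (by positivity)
  linarith

end Pool.Agent.W_MP_b91f46_mp
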