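import Pool.Agent.W_MP_b91f46_mp.Defs

open MeasureTheory Filter Topology Set
open scoped RealInnerProductSpace ContDiff ENNReal

namespace Pool.Agent.W_MP_b91f46_mp

theorem weak_compact_L2 {F : Type*} [NormedAddCommGroup F] [InnerProductSpace ℝ F]
    [FiniteDimensional ℝ F] [MeasurableSpace F] [BorelSpace F]
    (u : ℕ → E3 → F) (C : ℝ) (hu : ∀ n, MemLp (u n) 2 volume) (hC : ∀ n, ∫ x, ‖u n x‖ ^ 2 ≤ C) :
    ∃ s : ℕ → ℕ, StrictMono s ∧ ∃ w : E3 → F, MemLp w 2 volume ∧
      ∀ v : E3 → F, MemLp v 2 volume →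
        Tendsto (fun n => ∫ x, ⟪u (s n) x, v x⟫) atTop (𝓝 (∫ x, ⟪w x, v x⟫)) := by
  have : CompleteSpace F := FiniteDimensional.complete ℝ F
  have : ProperSpace F := FiniteDimensional.proper_real F
  have : SecondCountableTopology F := inferInstance
  have h2 : Fact ((1 : ℝ≥0∞) ≤ 2) := ⟨by norm_num⟩
  have h2' : Fact ((2 : ℝ≥0∞) ≠ ⊤) := ⟨by norm_num⟩
  have : TopologicalSpace.SeparableSpace (Lp F 2 (volume : Measure E3)) := inferInstance
  set U : ℕ → Lp F 2 (volume : Measure E3) := fun n => (hu n).toLp (u n) with hU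
  have hinner : ∀ (f h : E3 → F) (hf : MemLp f 2 volume) (hh : MemLp h 2 volume),
      ⟪hf.toLp f, hh.toLp h⟫ = ∫ x, ⟪f x, h x⟫ := by
    intro f h hf hh
    rw [MeasureTheory.L2.inner_def]
    apply integral_congr_ae
    filter_upwards [hf.coeFn_toLp, hh.coeFn_toLp] with x h1 h2
    rw [h1, h2]
  have hnorm : ∀ n, ‖U n‖ ≤ √C := by
    intro n
    have h1 : ‖U n‖ ^ 2 = ∫ x, ‖u n x‖ ^ 2 := by
      rw [← real_inner_self_eq_norm_sq, hinner]
      simp only [real_inner_self_eq_norm_sq]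
    apply Real.le_sqrt_of_sq_le
    rw [h1]
    exact hC n
  set D : ℕ → WeakDual ℝ (Lp F 2 (volume : Measure E3)) :=
    fun n => StrongDual.toWeakDual (InnerProductSpace.toDual ℝ _ (U n)) with hD
  have hmem : ∀ n, D n ∈ WeakDual.toStrongDual ⁻¹' Metric.closedBall
      (0 : StrongDual ℝ (Lp F 2 (volume : Measure E3))) (√C) := by
    intro n
    simp only [mem_preimage]
    have : WeakDual.toStrongDual (D n) = InnerProductSpace.toDual ℝ _ (U n) := rfl
    rw [this]
    have h7 : ‖(InnerProductSpace.toDual ℝ (Lp F 2 (volume : Measure E3))) (U n)‖ ≤ √C :=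
      le_trans (le_of_eq (LinearIsometryEquiv.norm_map _ _)) (hnorm n)
    exact (mem_closedBall_zero_iff (E := StrongDual ℝ (Lp F 2 (volume : Measure E3)))).2 h7
  obtain ⟨a, -, s, hs, ha⟩ := WeakDual.isSeqCompact_closedBall ℝ _
    (0 : StrongDual ℝ (Lp F 2 (volume : Measure E3))) (√C) hmem
  set W : Lp F 2 (volume : Measure E3) :=
    (InnerProductSpace.toDual ℝ (Lp F 2 (volume : Measure E3))).symm
      (WeakDual.toStrongDual a) with hW
  refine ⟨s, hs, W, Lp.memLp _, ?_⟩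
  intro v hv
  have h3 := ((WeakDual.eval_continuous (hv.toLp v)).tendsto a).comp ha
  have h4 : ∀ n, (D (s n)) (hv.toLp v) = ∫ x, ⟪u (s n) x, v x⟫ := by
    intro n
    have : (D (s n)) (hv.toLp v) = ⟪U (s n), hv.toLp v⟫ := rfl
    rw [this, hinner]
  have h5 : a (hv.toLp v) = ∫ x, ⟪W x, v x⟫ := by
    have h6 : ⟪W, hv.toLp v⟫ = a (hv.toLp v) := by
      rw [hW, InnerProductSpace.toDual_symm_apply]
      rfl
    rw [← h6]
    rw [MeasureTheory.L2.inner_def]
    apply integral_congr_ae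
    filter_upwards [hv.coeFn_toLp] with x h1
    rw [h1]
  rw [← h5]
  refine h3.congr fun n => ?_
  exact h4 n

end Pool.Agent.W_MP_b91f46_mp
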