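import Pool.Agent.W_MP_b91f46_mp.Basic
import Pool.Agent.W_MP_b91f46_mp.Rellich
import Pool.Agent.W_MP_b91f46_mp.WeakCpt
import Pool.Agent.W_MP_b91f46_mp.LocNuc
import Pool.Agent.W_MP_b91f46_mp.Coul
import Pool.Agent.W_MP_b91f46_mp.BL

open MeasureTheory Filter Topology Set
open scoped RealInnerProductSpace ContDiff ENNReal

namespace Pool.Agent.W_MP_b91f46_mp

theorem nuc_young {A z : ℝ} (hA : 0 < A) (hz : 0 < z) {ψ : E3 → ℝ} {g : E3 → E3} (h : H1 ψ g) :
    z * nuc 0 ψ ≤ A / 2 * kin g + z ^ 2 / (2 * A) * mass ψ := by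
  have h1 := (nuc_le h 0).2
  have h2 : z * (√(mass ψ) * √(kin g)) ≤ A / 2 * kin g + z ^ 2 / (2 * A) * mass ψ := by
    have hk := Real.sq_sqrt (kin_nonneg g)
    have hm := Real.sq_sqrt (mass_nonneg ψ)
    have h3 : 0 ≤ (A * √(kin g) - z * √(mass ψ)) ^ 2 / (2 * A) := by positivity
    have h4 : (A * √(kin g) - z * √(mass ψ)) ^ 2 / (2 * A) = A / 2 * (√(kin g)) ^ 2
        + z ^ 2 / (2 * A) * (√(mass ψ)) ^ 2 - z * (√(mass ψ) * √(kin g)) := by
      field_simp
      ring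
    rw [hk, hm] at h4
    linarith
  exact (mul_le_mul_of_nonneg_left h1 hz.le).trans h2

theorem FF_lower {A p z κ : ℝ} (hA : 0 < A) (hz : 0 < z)
    {ψ : E3 → ℝ} {g : E3 → E3} (h : H1 ψ g) :
    A / 2 * kin g + ig p ψ - (z ^ 2 / (2 * A) + κ) * mass ψ ≤ FF A p z κ ψ g := by
  have h1 := nuc_young hA hz h
  have h2 := coul_sq_nonneg ψ
  unfold FF PP
  linarith

theorem H1.sub {ψ φ : E3 → ℝ} {g k : E3 → E3} (h : H1 ψ g) (h' : H1 φ k) :
    H1 (fun x => ψ x - φ x) (fun x => g x - k x) := by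
  have := h.add (h'.smul (-1))
  simpa [sub_eq_add_neg] using this

theorem kin_split {g k : E3 → E3} (hg : MemLp g 2 volume) (hk : MemLp k 2 volume) :
    kin k = kin g + kin (fun x => k x - g x) + 2 * ((∫ x, ⟪k x, g x⟫) - ∫ x, ⟪g x, g x⟫) := by
  have hkg : Integrable (fun x => ⟪k x, g x⟫) :=
    (hk.norm.integrable_mul hg.norm).mono' (hk.1.inner hg.1)
      (Eventually.of_forall fun x => norm_inner_le_norm _ _)
  have hgg : Integrable (fun x => ⟪g x, g x⟫) :=
    (hg.norm.integrable_mul hg.norm).mono' (hg.1.inner hg.1)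
      (Eventually.of_forall fun x => norm_inner_le_norm _ _)
  have hg2 : Integrable (fun x => ‖g x‖ ^ 2) := by
    simpa using hg.integrable_norm_pow (by norm_num)
  have hd2 : Integrable (fun x => ‖k x - g x‖ ^ 2) := by
    simpa using (hk.sub hg).integrable_norm_pow (by norm_num)
  unfold kin
  rw [← integral_sub hkg hgg, ← integral_const_mul, ← integral_add hg2 hd2, ← integral_add]
  · congr 1
    ext x
    have h1 := norm_sub_sq_real (k x) (g x)
    rw [real_inner_self_eq_norm_sq]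
    rw [h1]
    ring
  · exact hg2.add hd2
  · exact (hkg.sub hgg).const_mul 2

theorem mass_split {ψ φ : E3 → ℝ} (hψ : MemLp ψ 2 volume) (hφ : MemLp φ 2 volume) :
    mass φ = mass ψ + mass (fun x => φ x - ψ x)
      + 2 * ((∫ x, φ x * ψ x) - ∫ x, ψ x * ψ x) := by
  have h1 : Integrable (fun x => φ x * ψ x) := hφ.integrable_mul hψ
  have h2 : Integrable (fun x => ψ x * ψ x) := hψ.integrable_mul hψ
  have h3 : Integrable (fun x => ψ x ^ 2) := hψ.integrable_sq
  have h4 : Integrable (fun x => (φ x - ψ x) ^ 2) := (hφ.sub hψ).integrable_sq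
  unfold mass
  rw [← integral_sub h1 h2, ← integral_const_mul, ← integral_add h3 h4, ← integral_add]
  · congr 1
    ext x
    ring
  · exact h3.add h4
  · exact (h1.sub h2).const_mul 2

/-- the nuclear term is continuous -/
theorem nuc_add_le {ψ r : E3 → ℝ} {g k : E3 → E3} (hψ : H1 ψ g) (hr : H1 r k) (a : E3) :
    nuc a (fun x => ψ x + r x) ≤ nuc a ψ + nuc a r + 2 * (√(nuc a ψ) * √(nuc a r)) := by
  have h1 := (nuc_le hψ a).1
  have h2 := (nuc_le hr a).1
  -- `u = ψ / √|x-a|`, `v = r / √|x-a|`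
  set u : E3 → ℝ := fun x => |ψ x| / √‖x - a‖ with hu
  set v : E3 → ℝ := fun x => |r x| / √‖x - a‖ with hv
  have hmeas : Measurable (fun x : E3 => √‖x - a‖) := by fun_prop
  have hu2 : ∀ x, u x ^ 2 = ψ x ^ 2 / ‖x - a‖ := by
    intro x
    simp only [hu]
    rw [div_pow, sq_abs, Real.sq_sqrt (norm_nonneg _)]
  have hv2 : ∀ x, v x ^ 2 = r x ^ 2 / ‖x - a‖ := by
    intro x
    simp only [hv]
    rw [div_pow, sq_abs, Real.sq_sqrt (norm_nonneg _)]
  have hum : AEStronglyMeasurable u volume :=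
    ((hψ.memLp.1.aemeasurable.abs).div hmeas.aemeasurable).aestronglyMeasurable
  have hvm : AEStronglyMeasurable v volume :=
    ((hr.memLp.1.aemeasurable.abs).div hmeas.aemeasurable).aestronglyMeasurable
  have huL : MemLp u 2 volume := (memLp_two_iff_integrable_sq hum).2 (by simpa only [hu2] using h1)
  have hvL : MemLp v 2 volume := (memLp_two_iff_integrable_sq hvm).2 (by simpa only [hv2] using h2)
  have huv : Integrable (fun x => u x * v x) := huL.integrable_mul hvL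
  have hCS : ∫ x, u x * v x ≤ √(nuc a ψ) * √(nuc a r) := by
    have h3 := integral_mul_le_Lp_mul_Lq_of_nonneg (μ := (volume : Measure E3)) (p := 2) (q := 2)
      (f := u) (g := v) (by constructor <;> norm_num)
      (Eventually.of_forall fun x => by positivity) (Eventually.of_forall fun x => by positivity)
      (by simpa using huL) (by simpa using hvL)
    simp only [Real.rpow_two, hu2, hv2] at h3
    rw [← Real.sqrt_eq_rpow, ← Real.sqrt_eq_rpow] at h3
    exact h3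
  have h4 : nuc a (fun x => ψ x + r x)
      ≤ ∫ x, (ψ x ^ 2 / ‖x - a‖ + r x ^ 2 / ‖x - a‖ + 2 * (u x * v x)) := by
    unfold nuc
    refine integral_mono_of_nonneg (Eventually.of_forall fun x => by positivity)
      ((h1.add h2).add (huv.const_mul 2)) (Eventually.of_forall fun x => ?_)
    have e : u x * v x = |ψ x * r x| / ‖x - a‖ := by
      simp only [hu, hv]
      rw [div_mul_div_comm, Real.mul_self_sqrt (norm_nonneg _), abs_mul]
    show (ψ x + r x) ^ 2 / ‖x - a‖ ≤ ψ x ^ 2 / ‖x - a‖ + r x ^ 2 / ‖x - a‖ + 2 * (u x * v x)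
    rw [e]
    have h5 : (ψ x + r x) ^ 2 ≤ ψ x ^ 2 + r x ^ 2 + 2 * |ψ x * r x| := by
      nlinarith [le_abs_self (ψ x * r x)]
    calc (ψ x + r x) ^ 2 / ‖x - a‖ ≤ (ψ x ^ 2 + r x ^ 2 + 2 * |ψ x * r x|) / ‖x - a‖ :=
          div_le_div_of_nonneg_right h5 (norm_nonneg _)
      _ = _ := by ring
  refine h4.trans ?_
  have h6 : ∫ x, (ψ x ^ 2 / ‖x - a‖ + r x ^ 2 / ‖x - a‖ + 2 * (u x * v x))
      = (∫ x, ψ x ^ 2 / ‖x - a‖) + (∫ x, r x ^ 2 / ‖x - a‖) + 2 * ∫ x, u x * v x := by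
    rw [← integral_const_mul, ← integral_add h1 h2, ← integral_add]
    · exact h1.add h2
    · exact huv.const_mul 2
  rw [h6]
  unfold nuc
  unfold nuc at hCS
  linarith

theorem ae_eq_zero_of_mass {ψ : E3 → ℝ} (hψ : MemLp ψ 2 volume) (h : mass ψ = 0) :
    ψ =ᵐ[volume] 0 := by
  unfold mass at h
  rw [integral_eq_zero_iff_of_nonneg (fun x => sq_nonneg _) hψ.integrable_sq] at h
  filter_upwards [h] with x hx
  simpa using hx

/-- The limit step. -/
theorem limit_step {A p z κ I : ℝ} (hp : 4 / 3 < p) (hA : 0 < A) (hz : 0 < z) (hκ : 0 ≤ κ)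
    (hκ' : ∀ ψ g, Adm p ψ g → mass ψ ≤ 1 → κ * mass ψ ≤ PP A p ψ g)
    {Ψ : ℕ → E3 → ℝ} {Γ : ℕ → E3 → E3} {ψ : E3 → ℝ} {g : E3 → E3} {C : ℝ}
    (hadm : ∀ n, Adm p (Ψ n) (Γ n)) (hm : ∀ n, mass (Ψ n) ≤ 1)
    (hkC : ∀ n, kin (Γ n) ≤ C) (hpC : ∀ n, ∫ x, (Ψ n x ^ 2) ^ p ≤ C)
    (hF : Tendsto (fun n => FF A p z κ (Ψ n) (Γ n)) atTop (𝓝 I))
    (hH : H1 ψ g) (hw : Tendsto (fun n => ∫ x, Ψ n x * ψ x) atTop (𝓝 (∫ x, ψ x * ψ x)))
    (hwg : Tendsto (fun n => ∫ x, ⟪Γ n x, g x⟫) atTop (𝓝 (∫ x, ⟪g x, g x⟫)))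
    (hl : LocNull (fun n x => Ψ n x - ψ x))
    (hae : ∀ᵐ x, Tendsto (fun n => Ψ n x) atTop (𝓝 (ψ x))) :
    Adm p ψ g ∧ mass ψ ≤ 1 ∧ FF A p z κ ψ g ≤ I := by
  have hC0 : 0 ≤ C := (kin_nonneg _).trans (hkC 0)
  set C' : ℝ := max C 1 with hC'
  have hCC' : C ≤ C' := le_max_left _ _
  have h1C' : 1 ≤ C' := le_max_right _ _
  obtain ⟨hwp, hrp, hBL⟩ := brezis_lieb hp (fun n => (hadm n).memLp) hH.memLp
    (fun n => (hadm n).integrable_pow) (fun n => (hm n).trans h1C') (fun n => (hpC n).trans hCC') hae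
  have hAdm : Adm p ψ g := { hH with integrable_pow := hwp }
  set r : ℕ → E3 → ℝ := fun n x => Ψ n x - ψ x with hr
  set k : ℕ → E3 → E3 := fun n x => Γ n x - g x with hk
  have hrk : ∀ n, H1 (r n) (k n) := fun n => (hadm n).toH1.sub hH
  have hrAdm : ∀ n, Adm p (r n) (k n) := fun n =>
    { hrk n with integrable_pow := hrp n }
  -- errors
  set e1 : ℕ → ℝ := fun n => 2 * ((∫ x, ⟪Γ n x, g x⟫) - ∫ x, ⟪g x, g x⟫) with he1
  have he1t : Tendsto e1 atTop (𝓝 0) := by
    have := (hwg.sub_const (∫ x, ⟪g x, g x⟫)).const_mul 2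
    rw [sub_self, mul_zero] at this
    exact this
  set e2 : ℕ → ℝ := fun n => 2 * ((∫ x, Ψ n x * ψ x) - ∫ x, ψ x * ψ x) with he2
  have he2t : Tendsto e2 atTop (𝓝 0) := by
    have := (hw.sub_const (∫ x, ψ x * ψ x)).const_mul 2
    rw [sub_self, mul_zero] at this
    exact this
  have hkin : ∀ n, kin (Γ n) = kin g + kin (k n) + e1 n := fun n =>
    kin_split hH.memLp_grad (hadm n).memLp_grad
  have hmass : ∀ n, mass (Ψ n) = mass ψ + mass (r n) + e2 n := fun n =>
    mass_split hH.memLp (hadm n).memLp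
  -- bounds on `r`
  obtain ⟨E1, hE1⟩ := he1t.bddAbove_range.imp fun E h => h
  obtain ⟨E1', hE1'⟩ := he1t.bddBelow_range
  obtain ⟨E2', hE2'⟩ := he2t.bddBelow_range
  have hkr : ∀ n, kin (k n) ≤ C - E1' := by
    intro n
    have h1 := hkin n
    have h2 := kin_nonneg g
    have h3 : E1' ≤ e1 n := hE1' (mem_range_self n)
    linarith [hkC n]
  have hmr : ∀ n, mass (r n) ≤ 1 - E2' := by
    intro n
    have h1 := hmass n
    have h2 := mass_nonneg ψ
    have h3 : E2' ≤ e2 n := hE2' (mem_range_self n)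
    linarith [hm n]
  set M : ℝ := max (max (C - E1') (1 - E2')) (max (kin g) (mass ψ)) with hM
  have hM1 : ∀ n, kin (k n) ≤ M := fun n => (hkr n).trans ((le_max_left _ _).trans (le_max_left _ _))
  have hM2 : ∀ n, mass (r n) ≤ M := fun n =>
    (hmr n).trans ((le_max_right _ _).trans (le_max_left _ _))
  have hM3 : kin g ≤ M := (le_max_left _ _).trans (le_max_right _ _)
  have hM4 : mass ψ ≤ M := (le_max_right _ _).trans (le_max_right _ _)
  have hM0 : 0 ≤ M := (kin_nonneg g).trans hM3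
  have hpotr : ∀ n x, pot (fun y => r n y ^ 2) x ≤ M := by
    intro n x
    rw [pot_sq_eq_nuc]
    refine (nuc_le (hrk n) x).2.trans ?_
    calc √(mass (r n)) * √(kin (k n)) ≤ √M * √M := by
          gcongr
          · exact hM2 n
          · exact hM1 n
      _ = M := Real.mul_self_sqrt hM0
  have hpotψ : ∀ x, pot (fun y => ψ y ^ 2) x ≤ M := by
    intro x
    rw [pot_sq_eq_nuc]
    refine (nuc_le hH x).2.trans ?_
    calc √(mass ψ) * √(kin g) ≤ √M * √M := by gcongr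
      _ = M := Real.mul_self_sqrt hM0
  have hcross : Tendsto (fun n => ∫ x, |ψ x * r n x|) atTop (𝓝 0) :=
    hl.cross (fun n => (hrk n).memLp) hM2 hH.memLp
  have hnucr : Tendsto (fun n => nuc 0 (r n)) atTop (𝓝 0) := hl.nuc hrk hM2 hM1
  have hΨ : ∀ n, Ψ n = fun x => ψ x + r n x := by
    intro n
    ext x
    simp [hr]
  have hcoul : ∀ n, coul (fun x => ψ x ^ 2) + coul (fun x => r n x ^ 2)
      - 6 * M * ∫ x, |ψ x * r n x| ≤ coul (fun x => Ψ n x ^ 2) := by
    intro n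
    have := coul_split hH (hrk n) hpotψ (hpotr n)
    rw [hΨ n]
    exact this
  have hnuc : ∀ n, nuc 0 (Ψ n) ≤ nuc 0 ψ + nuc 0 (r n) + 2 * (√(nuc 0 ψ) * √(nuc 0 (r n))) := by
    intro n
    have := nuc_add_le hH (hrk n) 0
    rw [hΨ n]
    exact this
  -- total error
  set err : ℕ → ℝ := fun n => A * e1 n + ((ig p (Ψ n) - ig p (r n)) - ig p ψ)
    - 6 * M * (∫ x, |ψ x * r n x|) - z * (nuc 0 (r n) + 2 * (√(nuc 0 ψ) * √(nuc 0 (r n))))
    - κ * e2 n with herr
  have herrt : Tendsto err atTop (𝓝 0) := by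
    have hsq : Tendsto (fun n => √(nuc 0 (r n))) atTop (𝓝 0) := by
      have := (Real.continuous_sqrt.tendsto 0).comp hnucr
      rw [Real.sqrt_zero] at this
      exact this
    have h1 := (((he1t.const_mul A).add (hBL.sub_const (ig p ψ))).sub (hcross.const_mul (6 * M))).sub
      ((hnucr.add ((hsq.const_mul (√(nuc 0 ψ))).const_mul 2)).const_mul z)
    have h2 := h1.sub (he2t.const_mul κ)
    simp only [mul_zero, sub_self, add_zero, sub_zero] at h2
    exact h2
  have hmain : ∀ n, FF A p z κ ψ g + (PP A p (r n) (k n) - κ * mass (r n)) + err n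
      ≤ FF A p z κ (Ψ n) (Γ n) := by
    intro n
    have h1 := hcoul n
    have h2 := mul_le_mul_of_nonneg_left (hnuc n) hz.le
    have h3 := hkin n
    have h4 := hmass n
    simp only [herr]
    unfold FF PP
    rw [h3, h4]
    linarith
  have hev : ∀ᶠ n in atTop, mass (r n) ≤ 1 := by
    rcases (mass_nonneg ψ).eq_or_lt with h0 | h0
    · refine Eventually.of_forall fun n => ?_
      have h1 := ae_eq_zero_of_mass hH.memLp h0.symm
      have h2 : mass (r n) = mass (Ψ n) := by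
        unfold mass
        refine integral_congr_ae ?_
        filter_upwards [h1] with x hx
        simp [hr, hx]
      rw [h2]
      exact hm n
    · have h1 : ∀ᶠ n in atTop, -mass ψ < e2 n :=
        he2t.eventually (lt_mem_nhds (by linarith))
      filter_upwards [h1] with n hn
      have := hmass n
      linarith [hm n]
  refine ⟨hAdm, ?_, ?_⟩
  · have h1 : ∀ n, mass ψ + e2 n ≤ 1 := fun n => by
      have := hmass n
      have h2 := mass_nonneg (r n)
      linarith [hm n]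
    have h2 : Tendsto (fun n => mass ψ + e2 n) atTop (𝓝 (mass ψ + 0)) := he2t.const_add _
    rw [add_zero] at h2
    exact le_of_tendsto' h2 h1
  · have h2 : Tendsto (fun n => FF A p z κ ψ g + err n) atTop (𝓝 (FF A p z κ ψ g + 0)) :=
      herrt.const_add _
    rw [add_zero] at h2
    refine le_of_tendsto_of_tendsto h2 hF ?_
    filter_upwards [hev] with n hn
    have h3 := hκ' (r n) (k n) (hrAdm n) hn
    have h4 := hmain n
    linarith

theorem exists_min {A p z κ : ℝ} (hp : 4 / 3 < p) (hA : 0 < A) (hz : 0 < z) (hκ : 0 ≤ κ)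
    (hκ' : ∀ ψ g, Adm p ψ g → mass ψ ≤ 1 → κ * mass ψ ≤ PP A p ψ g)
    (hneg : ∃ ψ g, Adm p ψ g ∧ mass ψ ≤ 1 ∧ FF A p z κ ψ g < 0) :
    ∃ ψ g, Adm p ψ g ∧ 0 < mass ψ ∧ mass ψ ≤ 1 ∧ FF A p z κ ψ g < 0 ∧
      ∀ ψ' g', Adm p ψ' g' → mass ψ' ≤ 1 → FF A p z κ ψ g ≤ FF A p z κ ψ' g' := by
  set S : Set ℝ := {t | ∃ ψ g, Adm p ψ g ∧ mass ψ ≤ 1 ∧ t = FF A p z κ ψ g} with hS
  have hSne : S.Nonempty := by
    obtain ⟨ψ, g, h1, h2, h3⟩ := hneg
    exact ⟨_, ψ, g, h1, h2, rfl⟩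
  set B : ℝ := z ^ 2 / (2 * A) + κ with hB
  have hB0 : 0 ≤ B := by positivity
  have hlow : ∀ ψ g, Adm p ψ g → mass ψ ≤ 1 →
      A / 2 * kin g + ig p ψ - B ≤ FF A p z κ ψ g := by
    intro ψ g h hm
    have h1 := FF_lower (p := p) (κ := κ) hA hz h.toH1
    have h2 : B * mass ψ ≤ B := by nlinarith
    linarith
  have hSb : BddBelow S := by
    refine ⟨-B, ?_⟩
    rintro t ⟨ψ, g, h, hm, rfl⟩
    have h1 := hlow ψ g h hm
    have h2 := kin_nonneg g
    have h3 := ig_nonneg hp ψ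
    have h4 : 0 ≤ A / 2 * kin g := by positivity
    linarith
  obtain ⟨u, hua, hut, huS⟩ := exists_seq_tendsto_sInf hSne hSb
  choose Ψ Γ hadm hm hu using huS
  have hu0 : ∀ n, FF A p z κ (Ψ n) (Γ n) ≤ u 0 := fun n => by
    rw [← hu n]
    exact hua (Nat.zero_le n)
  obtain ⟨CG, hCG, hG⟩ := rpow_le_G hp
  have hk1 : ∀ n, kin (Γ n) ≤ 2 / A * (u 0 + B) := by
    intro n
    have h1 := hlow _ _ (hadm n) (hm n)
    have h3 := ig_nonneg hp (Ψ n)
    have h4 := hu0 n
    rw [div_mul_eq_mul_div, le_div_iff₀ hA]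
    linarith
  have hig : ∀ n, ig p (Ψ n) ≤ u 0 + B := by
    intro n
    have h1 := hlow _ _ (hadm n) (hm n)
    have h3 := kin_nonneg (Γ n)
    have h4 := hu0 n
    have h5 : 0 ≤ A / 2 * kin (Γ n) := by positivity
    linarith
  have hp1 : ∀ n, ∫ x, (Ψ n x ^ 2) ^ p ≤ CG * (u 0 + B + 1) := by
    intro n
    have h1 : ∫ x, (Ψ n x ^ 2) ^ p ≤ ∫ x, CG * (G p (Ψ n x ^ 2) + Ψ n x ^ 2) :=
      integral_mono (hadm n).integrable_pow
        ((((hadm n).integrable_G hp).add (hadm n).toH1.integrable_sq).const_mul CG)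
        (fun x => hG _ (sq_nonneg _))
    rw [integral_const_mul, integral_add ((hadm n).integrable_G hp) (hadm n).toH1.integrable_sq] at h1
    refine h1.trans (mul_le_mul_of_nonneg_left ?_ hCG.le)
    exact add_le_add (hig n) (hm n)
  set C : ℝ := max (2 / A * (u 0 + B)) (max 1 (CG * (u 0 + B + 1))) with hC
  have hkC : ∀ n, kin (Γ n) ≤ C := fun n => (hk1 n).trans (le_max_left _ _)
  have hmC : ∀ n, mass (Ψ n) ≤ C := fun n =>
    (hm n).trans ((le_max_left _ _).trans (le_max_right _ _))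
  have hpC : ∀ n, ∫ x, (Ψ n x ^ 2) ^ p ≤ C := fun n =>
    (hp1 n).trans ((le_max_right _ _).trans (le_max_right _ _))
  -- extraction
  obtain ⟨s1, hs1, ψ, hψ, hψw⟩ := weak_compact_L2 Ψ C (fun n => (hadm n).memLp) (fun n => by
    have := hmC n
    unfold mass at this
    simpa using this)
  obtain ⟨s2, hs2, g, hg, hgw⟩ := weak_compact_L2 (fun n => Γ (s1 n)) C
    (fun n => (hadm (s1 n)).memLp_grad) (fun n => hkC (s1 n))
  have hw : ∀ v : E3 → ℝ, MemLp v 2 volume →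
      Tendsto (fun n => ∫ x, Ψ (s1 (s2 n)) x * v x) atTop (𝓝 (∫ x, ψ x * v x)) := by
    intro v hv
    have := (hψw v hv).comp hs2.tendsto_atTop
    simpa [Function.comp_def, mul_comm] using this
  obtain ⟨hH, hl⟩ := rellich (ψn := fun n => Ψ (s1 (s2 n))) (gn := fun n => Γ (s1 (s2 n)))
    (fun n => (hadm _).toH1) (fun n => hmC _) (fun n => hkC _) hψ hg hw hgw
  obtain ⟨s3, hs3, hae⟩ := hl.exists_ae (C := 2 * C + 2 * mass ψ)
    (fun n => (hadm _).memLp.sub hψ) (fun n => by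
      have h1 : mass (fun x => Ψ (s1 (s2 n)) x - ψ x)
          ≤ ∫ x, (2 * Ψ (s1 (s2 n)) x ^ 2 + 2 * ψ x ^ 2) := by
        refine integral_mono ((hadm _).memLp.sub hψ).integrable_sq
          (((hadm _).memLp.integrable_sq.const_mul 2).add (hψ.integrable_sq.const_mul 2))
          (fun x => ?_)
        show (Ψ (s1 (s2 n)) x - ψ x) ^ 2 ≤ 2 * Ψ (s1 (s2 n)) x ^ 2 + 2 * ψ x ^ 2
        nlinarith [sq_nonneg (Ψ (s1 (s2 n)) x + ψ x)]
      rw [integral_add ((hadm _).memLp.integrable_sq.const_mul 2) (hψ.integrable_sq.const_mul 2),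
        integral_const_mul, integral_const_mul] at h1
      have h2 := hmC (s1 (s2 n))
      unfold mass at h1 h2 ⊢
      linarith)
  set s : ℕ → ℕ := fun n => s1 (s2 (s3 n)) with hs
  have hst : Tendsto s atTop atTop :=
    hs1.tendsto_atTop.comp (hs2.tendsto_atTop.comp hs3.tendsto_atTop)
  obtain ⟨hA1, hA2, hA3⟩ := limit_step (I := sInf S) (C := C) hp hA hz hκ hκ'
    (Ψ := fun n => Ψ (s n)) (Γ := fun n => Γ (s n)) (ψ := ψ) (g := g)
    (fun n => hadm _) (fun n => hm _) (fun n => hkC _) (fun n => hpC _)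
    (by
      have h1 := hut.comp hst
      refine h1.congr fun n => ?_
      exact hu (s n))
    hH ((hw ψ hψ).comp hs3.tendsto_atTop) ((hgw g hg).comp hs3.tendsto_atTop)
    (fun R => (hl R).comp hs3.tendsto_atTop)
    (by
      filter_upwards [hae] with x hx
      have := hx.add_const (ψ x)
      simpa using this)
  have hmin : ∀ ψ' g', Adm p ψ' g' → mass ψ' ≤ 1 → FF A p z κ ψ g ≤ FF A p z κ ψ' g' :=
    fun ψ' g' h' hm' => hA3.trans (csInf_le hSb ⟨ψ', g', h', hm', rfl⟩)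
  have hFneg : FF A p z κ ψ g < 0 := by
    obtain ⟨ψ', g', h1, h2, h3⟩ := hneg
    exact (hmin ψ' g' h1 h2).trans_lt h3
  refine ⟨ψ, g, hA1, ?_, hA2, hFneg, hmin⟩
  rcases (mass_nonneg ψ).eq_or_lt with h0 | h0
  · exfalso
    have h1 := ae_eq_zero_of_mass hψ h0.symm
    have h2 : nuc 0 ψ = 0 := by
      unfold nuc
      rw [integral_eq_zero_of_ae]
      filter_upwards [h1] with x hx
      simp [hx]
    have h3 : 0 ≤ FF A p z κ ψ g := by
      unfold FF
      rw [h2, ← h0]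
      have := PP_nonneg hp hA.le ψ g
      linarith
    linarith
  · exact h0

end Pool.Agent.W_MP_b91f46_mp
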