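import Pool.Agent.W_MP_b91f46_mp.Nonvanish
import Pool.Agent.W_MP_b91f46_mp.H1Alg
import Pool.Agent.W_MP_b91f46_mp.Coul

open MeasureTheory Filter Topology Set
open scoped RealInnerProductSpace ContDiff ENNReal

namespace Pool.Agent.W_MP_b91f46_mp

namespace NegAux

theorem pot_translate (ρ : E3 → ℝ) (a x : E3) :
    pot (fun y => ρ (y + a)) x = pot ρ (x + a) := by
  unfold pot
  have h := integral_add_right_eq_self (μ := (volume : Measure E3))
    (fun y => ρ y / ‖x + a - y‖) a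
  rw [← h]
  congr 1
  funext y
  congr 2
  abel

theorem coul_translate (ρ : E3 → ℝ) (a : E3) : coul (fun y => ρ (y + a)) = coul ρ := by
  unfold coul
  simp only [pot_translate]
  rw [integral_add_right_eq_self (μ := (volume : Measure E3)) (fun x => ρ x * pot ρ x) a]

theorem nuc_translate (ψ : E3 → ℝ) (a : E3) : nuc 0 (fun x => ψ (x + a)) = nuc a ψ := by
  unfold nuc
  rw [← integral_add_right_eq_self (μ := (volume : Measure E3)) (fun x => ψ x ^ 2 / ‖x - a‖) a]
  congr 1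
  funext x
  rw [sub_zero, add_sub_cancel_right]

theorem nuc_ge {ψ : E3 → ℝ} {g : E3 → E3} (h : H1 ψ g) (a : E3) {ℓ : ℝ} (hℓ : 0 < ℓ) :
    (1 / ℓ) * ∫ x in Metric.ball a ℓ, ψ x ^ 2 ≤ nuc a ψ := by
  have hint := (nuc_le h a).1
  have h1 : ∫ x in Metric.ball a ℓ, ψ x ^ 2 / ‖x - a‖ ≤ nuc a ψ := by
    apply setIntegral_le_integral hint
    filter_upwards with x
    positivity
  refine le_trans ?_ h1
  rw [← integral_const_mul]
  apply setIntegral_mono_on_ae ((NonvanishAux.sq_integrable h.memLp).integrableOn.const_mul _)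
    hint.integrableOn Metric.isOpen_ball.measurableSet
  have hne : ∀ᵐ x : E3, x ≠ a := by
    rw [ae_iff]
    simp
  filter_upwards [hne] with x hx hxb
  have h2 : 0 < ‖x - a‖ := norm_pos_iff.2 (sub_ne_zero.2 hx)
  have h3 : ‖x - a‖ ≤ ℓ := by
    rw [Metric.mem_ball, dist_eq_norm] at hxb
    exact hxb.le
  rw [div_eq_mul_one_div (ψ x ^ 2), mul_comm (1 / ℓ)]
  exact mul_le_mul_of_nonneg_left (one_div_le_one_div_of_le h2 h3) (sq_nonneg _)

end NegAux

open NegAux NonvanishAux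

theorem FF_neg {p tb c1 T : ℝ} (hp : 4 / 3 < p) (hc : Consts p tb c1 T) {A z κ : ℝ} (hA : 0 < A)
    (hz : 0 < z) (hκ : 0 ≤ κ) (hκc : κ < c1 / 4)
    (happ : ∀ ε > 0, ∃ ψ g, Adm p ψ g ∧ 0 < mass ψ ∧ mass ψ ≤ 1 ∧ PP A p ψ g ≤ (κ + ε) * mass ψ) :
    ∃ ψ g, Adm p ψ g ∧ mass ψ ≤ 1 ∧ FF A p z κ ψ g < 0 := by
  have hc1 := hc.c1_pos
  have htb := hc.tb_pos
  set ℓ := √(A / (4 * c1)) with hℓdef
  have hℓ : 0 < ℓ := Real.sqrt_pos.2 (by positivity)
  have hℓ2 : ℓ ^ 2 = A / (4 * c1) := Real.sq_sqrt (by positivity)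
  have hVpos : 0 < volume.real (Metric.ball (0 : E3) ℓ) := by
    rw [Measure.real]
    exact ENNReal.toReal_pos (Metric.measure_ball_pos volume _ hℓ).ne' measure_ball_lt_top.ne
  set m0 := tb / 4 * volume.real (Metric.ball (0 : E3) ℓ) with hm0
  have hm0pos : 0 < m0 := by positivity
  set ε := min (c1 / 4 - κ) (z * m0 / ℓ / 2) with hεdef
  have hε : 0 < ε := lt_min (by linarith) (by positivity)
  have hε1 : ε ≤ c1 / 4 - κ := min_le_left _ _
  have hε2 : ε ≤ z * m0 / ℓ / 2 := min_le_right _ _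
  obtain ⟨ψ, g, hadm, hmass, hmass1, hP⟩ := happ ε hε
  have hcoul : 0 ≤ coul (fun x => ψ x ^ 2) := coul_nonneg fun x => sq_nonneg _
  obtain ⟨a, ha⟩ := nonvanish hp hc hA (show 0 < c1 / 4 by positivity) le_rfl hℓ
    (by
      rw [hℓ2]
      apply le_of_eq
      field_simp
      ring) hadm hmass
    (by
      have h1 : (κ + ε) * mass ψ ≤ c1 / 4 * mass ψ :=
        mul_le_mul_of_nonneg_right (by linarith) hmass.le
      unfold PP at hP
      linarith)
  have hmt : mass (fun x => ψ (x + a)) = mass ψ :=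
    integral_add_right_eq_self (μ := (volume : Measure E3)) (fun x => ψ x ^ 2) a
  refine ⟨fun x => ψ (x + a), fun x => g (x + a), ⟨hadm.toH1.translate a, ?_⟩, ?_, ?_⟩
  · exact hadm.integrable_pow.comp_add_right a
  · rw [hmt]
    exact hmass1
  · have hkt : kin (fun x => g (x + a)) = kin g :=
      integral_add_right_eq_self (μ := (volume : Measure E3)) (fun x => ‖g x‖ ^ 2) a
    have hit : ig p (fun x => ψ (x + a)) = ig p ψ :=
      integral_add_right_eq_self (μ := (volume : Measure E3)) (fun x => G p (ψ x ^ 2)) a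
    have hct : coul (fun x => ψ (x + a) ^ 2) = coul (fun x => ψ x ^ 2) :=
      coul_translate (fun x => ψ x ^ 2) a
    have hn := nuc_ge hadm.toH1 a hℓ
    have hn2 : (1 / ℓ) * m0 ≤ nuc a ψ :=
      (mul_le_mul_of_nonneg_left ha (by positivity)).trans hn
    unfold FF
    unfold PP at hP ⊢
    rw [hkt, hit, hct, nuc_translate, hmt]
    have h1 : ε * mass ψ ≤ ε := by
      have := mul_le_mul_of_nonneg_left hmass1 hε.le
      linarith
    have h2 : z * ((1 / ℓ) * m0) ≤ z * nuc a ψ := mul_le_mul_of_nonneg_left hn2 hz.le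
    have h3 : z * ((1 / ℓ) * m0) = z * m0 / ℓ := by ring
    have h4 : 0 < z * m0 / ℓ := by positivity
    nlinarith

end Pool.Agent.W_MP_b91f46_mp
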