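import Pool.Agent.W_MP_b91f46_mp.Nonlin
import Pool.Agent.W_MP_b91f46_mp.Coul
import Pool.Agent.W_MP_b91f46_mp.H1Alg

open MeasureTheory Filter Topology Set
open scoped RealInnerProductSpace ContDiff ENNReal

namespace Pool.Agent.W_MP_b91f46_mp

namespace TrialAux

lemma deriv_bound : ∃ K : ℝ, 0 < K ∧ ∀ t, |deriv Real.smoothTransition t| ≤ K ∧
    (t < 0 ∨ 1 < t → deriv Real.smoothTransition t = 0) := by
  have hcd : ContDiff ℝ 1 Real.smoothTransition := Real.smoothTransition.contDiff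
  have hc : Continuous (deriv Real.smoothTransition) := hcd.continuous_deriv le_rfl
  obtain ⟨K, hK⟩ := (isCompact_Icc (a := (0 : ℝ)) (b := 1)).exists_bound_of_continuousOn
    hc.continuousOn
  have hz : ∀ t : ℝ, (t < 0 ∨ 1 < t) → deriv Real.smoothTransition t = 0 := by
    intro t ht
    rcases ht with ht | ht
    · have h1 : Real.smoothTransition =ᶠ[𝓝 t] fun _ => (0 : ℝ) := by
        filter_upwards [Iio_mem_nhds ht] with s hs
        exact Real.smoothTransition.zero_of_nonpos (le_of_lt hs)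
      rw [h1.deriv_eq]
      simp
    · have h1 : Real.smoothTransition =ᶠ[𝓝 t] fun _ => (1 : ℝ) := by
        filter_upwards [Ioi_mem_nhds ht] with s hs
        exact Real.smoothTransition.one_of_one_le (le_of_lt hs)
      rw [h1.deriv_eq]
      simp
  refine ⟨max K 1, by positivity, fun t => ⟨?_, hz t⟩⟩
  by_cases h : t < 0 ∨ 1 < t
  · rw [hz t h]
    simp
  · push Not at h
    exact (hK t ⟨h.1, h.2⟩).trans (le_max_left _ _)

/-- the trial function -/
noncomputable def tr (R : ℝ) (x : E3) : ℝ := Real.smoothTransition ((R ^ 2 - ‖x‖ ^ 2) / R ^ 4)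

lemma tr_contDiff (R : ℝ) : ContDiff ℝ ∞ (tr R) :=
  Real.smoothTransition.contDiff.comp ((contDiff_const.sub (contDiff_norm_sq ℝ)).div_const _)

lemma tr_zero {R : ℝ} (hR : 0 < R) {x : E3} (hx : R ≤ ‖x‖) : tr R x = 0 := by
  apply Real.smoothTransition.zero_of_nonpos
  apply div_nonpos_of_nonpos_of_nonneg _ (by positivity)
  have : R ^ 2 ≤ ‖x‖ ^ 2 := by gcongr
  linarith

lemma tr_one {R : ℝ} (hR : 0 < R) {x : E3} (hx : ‖x‖ ^ 2 ≤ R ^ 2 - R ^ 4) : tr R x = 1 := by
  apply Real.smoothTransition.one_of_one_le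
  rw [le_div_iff₀ (by positivity)]
  linarith

lemma tr_nonneg (R : ℝ) (x : E3) : 0 ≤ tr R x := Real.smoothTransition.nonneg _
lemma tr_le_one (R : ℝ) (x : E3) : tr R x ≤ 1 := Real.smoothTransition.le_one _

lemma tr_compact {R : ℝ} (hR : 0 < R) : HasCompactSupport (tr R) := by
  refine HasCompactSupport.intro (isCompact_closedBall (0 : E3) R) fun x hx => ?_
  refine tr_zero hR ?_
  simp at hx
  exact hx.le

lemma norm_grad_le {K : ℝ} (hK : ∀ t, |deriv Real.smoothTransition t| ≤ K ∧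
    (t < 0 ∨ 1 < t → deriv Real.smoothTransition t = 0)) {R : ℝ} (hR : 0 < R) (x : E3) :
    ‖gradient (tr R) x‖ ≤ K * (2 * ‖x‖ / R ^ 4) ∧
      ((‖x‖ ^ 2 < R ^ 2 - R ^ 4 ∨ R < ‖x‖) → gradient (tr R) x = 0) := by
  have h1 : HasFDerivAt (fun y : E3 => (R ^ 2 - ‖y‖ ^ 2) / R ^ 4)
      ((R ^ 4)⁻¹ • (-((2 : ℕ) • (innerSL ℝ x : E3 →L[ℝ] ℝ)) : E3 →L[ℝ] ℝ)) x := by
    have h2 : HasFDerivAt (fun y : E3 => ‖y‖ ^ 2) ((2 : ℕ) • (innerSL ℝ x : E3 →L[ℝ] ℝ)) x :=
      (hasStrictFDerivAt_norm_sq x).hasFDerivAt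
    have h3 := (h2.const_sub (R ^ 2)).const_mul ((R ^ 4)⁻¹)
    refine h3.congr_of_eventuallyEq (Eventually.of_forall fun y => ?_)
    simp only
    field_simp
  have h2 : HasDerivAt Real.smoothTransition
      (deriv Real.smoothTransition ((R ^ 2 - ‖x‖ ^ 2) / R ^ 4)) ((R ^ 2 - ‖x‖ ^ 2) / R ^ 4) :=
    ((Real.smoothTransition.contDiff (n := 1)).differentiable (by norm_num) _).hasDerivAt
  have h3 := h2.comp_hasFDerivAt x h1
  have h4 : fderiv ℝ (tr R) x = deriv Real.smoothTransition ((R ^ 2 - ‖x‖ ^ 2) / R ^ 4) •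
      (R ^ 4)⁻¹ • (-((2 : ℕ) • (innerSL ℝ x : E3 →L[ℝ] ℝ)) : E3 →L[ℝ] ℝ) := h3.fderiv
  have h5 : ‖gradient (tr R) x‖ = ‖fderiv ℝ (tr R) x‖ := by
    unfold gradient
    exact LinearIsometryEquiv.norm_map _ _
  constructor
  · rw [h5, h4, norm_smul, norm_smul, norm_neg]
    have h6 : ‖((2 : ℕ) • (innerSL ℝ x : E3 →L[ℝ] ℝ) : E3 →L[ℝ] ℝ)‖ = 2 * ‖x‖ := by
      rw [← Nat.cast_smul_eq_nsmul ℝ, norm_smul, innerSL_apply_norm]
      norm_num
    rw [h6]
    have h7 : ‖(R ^ 4)⁻¹‖ = (R ^ 4)⁻¹ := by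
      rw [Real.norm_eq_abs, abs_of_pos (by positivity)]
    rw [h7]
    have h8 := (hK ((R ^ 2 - ‖x‖ ^ 2) / R ^ 4)).1
    rw [Real.norm_eq_abs]
    have h9 : K * (2 * ‖x‖ / R ^ 4) = K * ((R ^ 4)⁻¹ * (2 * ‖x‖)) := by
      field_simp
    rw [h9]
    exact mul_le_mul_of_nonneg_right h8 (by positivity)
  · intro hx
    have h6 : deriv Real.smoothTransition ((R ^ 2 - ‖x‖ ^ 2) / R ^ 4) = 0 := by
      apply (hK _).2
      rcases hx with hx | hx
      · right
        rw [lt_div_iff₀ (by positivity)]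
        linarith
      · left
        apply div_neg_of_neg_of_pos _ (by positivity)
        have : R ^ 2 < ‖x‖ ^ 2 := by gcongr
        linarith
    rw [← norm_eq_zero, h5, h4, h6]
    simp

/-- volume of the unit ball -/
noncomputable def c3 : ℝ := volume.real (Metric.ball (0 : E3) 1)

lemma c3_pos : 0 < c3 := by
  unfold c3
  rw [measureReal_def]
  apply ENNReal.toReal_pos
  · exact (Metric.measure_ball_pos volume _ one_pos).ne'
  · exact measure_ball_lt_top.ne

lemma vol_ball (r : ℝ) (hr : 0 ≤ r) : volume.real (Metric.ball (0 : E3) r) = c3 * r ^ 3 := by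
  unfold c3
  rw [measureReal_def, measureReal_def, Measure.addHaar_ball _ _ hr, ENNReal.toReal_mul,
    ENNReal.toReal_ofReal (by positivity), mul_comm]
  simp

lemma vol_closedBall (r : ℝ) (hr : 0 ≤ r) :
    volume.real (Metric.closedBall (0 : E3) r) = c3 * r ^ 3 := by
  rw [← vol_ball r hr, measureReal_def, measureReal_def]
  rw [Measure.addHaar_closedBall_eq_addHaar_ball]

/-- the shell -/
def shell (R : ℝ) : Set E3 := Metric.closedBall 0 R \ Metric.ball 0 (√(R ^ 2 - R ^ 4))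

lemma shell_meas (R : ℝ) : MeasurableSet (shell R) :=
  measurableSet_closedBall.diff measurableSet_ball

lemma shell_vol {R : ℝ} (hR : 0 < R) (h2 : R ^ 2 ≤ 1 / 2) :
    volume.real (shell R) ≤ 2 * c3 * R ^ 5 := by
  have h0 : √(R ^ 2 - R ^ 4) ≤ R := by
    apply Real.sqrt_le_iff.2 ⟨hR.le, _⟩
    have : 0 < R ^ 4 := by positivity
    linarith
  unfold shell
  rw [measureReal_sdiff (Metric.ball_subset_closedBall.trans
    (Metric.closedBall_subset_closedBall h0)) measurableSet_ball measure_closedBall_lt_top.ne,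
    vol_closedBall _ hR.le, vol_ball _ (Real.sqrt_nonneg _)]
  have h1 : R * (1 - R ^ 2) ≤ √(R ^ 2 - R ^ 4) := by
    apply Real.le_sqrt_of_sq_le
    have : 0 ≤ R ^ 4 * (1 - R ^ 2) := by
      apply mul_nonneg (by positivity)
      linarith
    nlinarith
  have h3 : (√(R ^ 2 - R ^ 4)) ^ 2 = R ^ 2 - R ^ 4 := by
    apply Real.sq_sqrt
    nlinarith [sq_nonneg R]
  have h4 : R ^ 3 * (1 - 2 * R ^ 2) ≤ (√(R ^ 2 - R ^ 4)) ^ 3 := by
    have h5 : (√(R ^ 2 - R ^ 4)) ^ 3 = (R ^ 2 - R ^ 4) * √(R ^ 2 - R ^ 4) := by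
      rw [pow_succ, h3]
    rw [h5]
    have h6 : (R ^ 2 - R ^ 4) * (R * (1 - R ^ 2)) ≤ (R ^ 2 - R ^ 4) * √(R ^ 2 - R ^ 4) := by
      apply mul_le_mul_of_nonneg_left h1
      nlinarith [sq_nonneg R]
    have h7 : (R ^ 2 - R ^ 4) * (R * (1 - R ^ 2)) = R ^ 3 * (1 - 2 * R ^ 2) + R ^ 7 := by ring
    have h8 : 0 < R ^ 7 := by positivity
    linarith
  have h9 := c3_pos
  nlinarith

lemma notMem_shell {R : ℝ} {x : E3} (hx : x ∉ shell R) :
    R < ‖x‖ ∨ ‖x‖ < √(R ^ 2 - R ^ 4) := by
  unfold shell at hx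
  simp only [Set.mem_sdiff, mem_closedBall_zero_iff, mem_ball_zero_iff, not_and, not_not] at hx
  by_cases h : ‖x‖ ≤ R
  · exact Or.inr (hx h)
  · exact Or.inl (not_le.1 h)

lemma lt_sqrt_sq {R : ℝ} {x : E3} (h : ‖x‖ < √(R ^ 2 - R ^ 4)) : ‖x‖ ^ 2 < R ^ 2 - R ^ 4 :=
  (Real.lt_sqrt (norm_nonneg _)).1 h

lemma integral_le_of_shell {R B : ℝ} {f : E3 → ℝ} (hB : 0 ≤ B)
    (hf : ∀ x ∈ shell R, |f x| ≤ B) (hf0 : ∀ x, x ∉ shell R → f x = 0) :
    ∫ x, f x ≤ B * volume.real (shell R) := by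
  have h1 : ∫ x, f x ≤ ∫ x, (shell R).indicator (fun _ => B) x := by
    by_cases hi : Integrable f
    · apply integral_mono hi
      · apply IntegrableOn.integrable_indicator _ (shell_meas R)
        exact integrableOn_const
          ((measure_mono sdiff_subset).trans_lt measure_closedBall_lt_top).ne (by simp)
      · intro x
        by_cases hx : x ∈ shell R
        · simp only [hx, indicator_of_mem]
          exact (le_abs_self _).trans (hf x hx)
        · simp [hx, hf0 x hx]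
    · rw [integral_undef hi]
      apply integral_nonneg
      intro x
      exact indicator_nonneg (fun _ _ => hB) x
  refine h1.trans ?_
  rw [integral_indicator (shell_meas R)]
  simp [mul_comm]

lemma kin_le {K : ℝ} (hK0 : 0 < K) (hK : ∀ t, |deriv Real.smoothTransition t| ≤ K ∧
    (t < 0 ∨ 1 < t → deriv Real.smoothTransition t = 0)) {R : ℝ} (hR : 0 < R)
    (h2 : R ^ 2 ≤ 1 / 2) : R ^ 6 * kin (gradient (tr R)) ≤ 8 * K ^ 2 * c3 * R ^ 5 := by
  have h1 : kin (gradient (tr R)) ≤ (K * (2 * R / R ^ 4)) ^ 2 * volume.real (shell R) := by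
    unfold kin
    apply integral_le_of_shell (by positivity)
    · intro x hx
      have hx' : ‖x‖ ≤ R := by
        have := hx.1
        simpa using this
      rw [abs_of_nonneg (by positivity)]
      have h3 := (norm_grad_le hK hR x).1
      have h4 : K * (2 * ‖x‖ / R ^ 4) ≤ K * (2 * R / R ^ 4) := by gcongr
      have h5 := h3.trans h4
      gcongr
    · intro x hx
      have h3 := (norm_grad_le hK hR x).2
      have h4 : gradient (tr R) x = 0 := by
        apply h3
        rcases notMem_shell hx with h | h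
        · exact Or.inr h
        · exact Or.inl (lt_sqrt_sq h)
      rw [h4]
      simp
  have h3 := shell_vol hR h2
  have h4 : R ^ 6 * kin (gradient (tr R)) ≤ R ^ 6 * ((K * (2 * R / R ^ 4)) ^ 2 * (2 * c3 * R ^ 5)) := by
    have := mul_le_mul_of_nonneg_left h3 (sq_nonneg (K * (2 * R / R ^ 4)))
    have h5 := h1.trans this
    gcongr
  refine h4.trans_eq ?_
  field_simp
  ring

lemma ig_le {p : ℝ} (hp : 4 / 3 < p) {M : ℝ} (hM0 : 0 < M) (hM : ∀ t, 0 ≤ t → t ≤ 1 → |G p t| ≤ M)
    {R : ℝ} (hR : 0 < R) (h2 : R ^ 2 ≤ 1 / 2) : ig p (tr R) ≤ 2 * M * c3 * R ^ 5 := by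
  have h1 : ig p (tr R) ≤ M * volume.real (shell R) := by
    unfold ig
    apply integral_le_of_shell hM0.le
    · intro x _
      apply hM _ (sq_nonneg _)
      have := tr_le_one R x
      have h3 := tr_nonneg R x
      nlinarith
    · intro x hx
      rcases notMem_shell hx with h | h
      · rw [tr_zero hR h.le]
        simpa using G_zero hp
      · rw [tr_one hR (lt_sqrt_sq h).le]
        simpa using G_one p
  have h3 := shell_vol hR h2
  nlinarith

lemma mass_ge {R : ℝ} (hR : 0 < R) (h2 : R ^ 2 ≤ 1 / 2) : c3 * R ^ 3 / 8 ≤ mass (tr R) := by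
  have h1 : volume.real (Metric.ball (0 : E3) (R / 2)) = c3 * R ^ 3 / 8 := by
    rw [vol_ball _ (by positivity)]
    ring
  rw [← h1]
  unfold mass
  have h3 : ∫ x, (Metric.ball (0 : E3) (R / 2)).indicator (fun _ => (1 : ℝ)) x
      = volume.real (Metric.ball (0 : E3) (R / 2)) := by
    rw [integral_indicator measurableSet_ball]
    simp
  rw [← h3]
  have hsq : HasCompactSupport (fun x => tr R x ^ 2) := by
    have := (tr_compact hR).comp_left (g := fun t : ℝ => t ^ 2) (by simp)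
    exact this
  apply integral_mono
  · apply IntegrableOn.integrable_indicator _ measurableSet_ball
    exact integrableOn_const measure_ball_lt_top.ne (by simp)
  · exact ((tr_contDiff R).continuous.pow 2).integrable_of_hasCompactSupport hsq
  · intro x
    by_cases hx : x ∈ Metric.ball (0 : E3) (R / 2)
    · simp only [hx, indicator_of_mem]
      rw [tr_one hR]
      · simp
      · have hx' : ‖x‖ < R / 2 := by simpa using hx
        have h4 : ‖x‖ ^ 2 ≤ (R / 2) ^ 2 := by gcongr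
        nlinarith [sq_nonneg R]
    · simp only [hx, not_false_eq_true, indicator_of_notMem]
      positivity

lemma mass_le {R : ℝ} (hR : 0 < R) : mass (tr R) ≤ c3 * R ^ 3 := by
  rw [← vol_ball R hR.le]
  unfold mass
  have h3 : ∫ x, (Metric.ball (0 : E3) R).indicator (fun _ => (1 : ℝ)) x
      = volume.real (Metric.ball (0 : E3) R) := by
    rw [integral_indicator measurableSet_ball]
    simp
  rw [← h3]
  have hsq : HasCompactSupport (fun x => tr R x ^ 2) := by
    have := (tr_compact hR).comp_left (g := fun t : ℝ => t ^ 2) (by simp)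
    exact this
  apply integral_mono
  · exact ((tr_contDiff R).continuous.pow 2).integrable_of_hasCompactSupport hsq
  · apply IntegrableOn.integrable_indicator _ measurableSet_ball
    exact integrableOn_const measure_ball_lt_top.ne (by simp)
  · intro x
    by_cases hx : x ∈ Metric.ball (0 : E3) R
    · simp only [hx, indicator_of_mem]
      have := tr_le_one R x
      have h3 := tr_nonneg R x
      nlinarith
    · simp only [hx, not_false_eq_true, indicator_of_notMem]
      rw [tr_zero hR]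
      · simp
      · simpa using hx

lemma nuc_tr_le : ∃ C : ℝ, 0 ≤ C ∧ ∀ R : ℝ, 0 < R → ∀ a : E3, nuc a (tr R) ≤ C * R ^ 2 := by
  let χ : ContDiffBump (0 : E3) := ⟨1, 2, one_pos, by norm_num⟩
  refine ⟨√(mass χ) * √(kin (gradient χ)), by positivity, fun R hR a => ?_⟩
  have hχs : ContDiff ℝ ∞ (χ : E3 → ℝ) := χ.contDiff
  have hs : ContDiff ℝ ∞ (fun x : E3 => χ (R⁻¹ • x)) := hχs.comp (contDiff_const_smul _)
  have hcs : HasCompactSupport (fun x : E3 => χ (R⁻¹ • x)) := by
    refine HasCompactSupport.intro (isCompact_closedBall (0 : E3) (2 * R)) fun x hx => ?_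
    apply χ.zero_of_le_dist
    simp only [dist_zero_right, norm_smul, norm_inv, Real.norm_eq_abs, abs_of_pos hR]
    simp only [mem_closedBall_zero_iff, not_le] at hx
    change 2 ≤ R⁻¹ * ‖x‖
    rw [inv_mul_eq_div, le_div_iff₀ hR]
    exact hx.le
  have h1 := nuc_le (H1.of_test hs hcs) a
  have h2 : mass (fun x : E3 => χ (R⁻¹ • x)) = R ^ 3 * mass χ := by
    unfold mass
    rw [Measure.integral_comp_smul volume (fun x : E3 => χ x ^ 2) R⁻¹]
    simp only [finrank_euclideanSpace, Fintype.card_fin, smul_eq_mul]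
    rw [abs_of_pos (by positivity)]
    field_simp
  have h3 : ∀ x : E3, gradient (fun x : E3 => χ (R⁻¹ • x)) x = R⁻¹ • gradient χ (R⁻¹ • x) := by
    intro x
    unfold gradient
    rw [← map_smul]
    congr 1
    have h4 := fderiv_comp_smul (f := (χ : E3 → ℝ)) (𝕜 := ℝ) R⁻¹ (x := x)
    exact h4
  have h5 : kin (gradient (fun x : E3 => χ (R⁻¹ • x))) = R * kin (gradient χ) := by
    unfold kin
    simp_rw [h3, norm_smul, mul_pow]
    rw [integral_const_mul, Measure.integral_comp_smul volume (fun x : E3 => ‖gradient χ x‖ ^ 2) R⁻¹]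
    simp only [finrank_euclideanSpace, Fintype.card_fin, smul_eq_mul, norm_inv, Real.norm_eq_abs,
      abs_of_pos hR]
    rw [abs_of_pos (by positivity)]
    field_simp
  have h6 : nuc a (tr R) ≤ nuc a (fun x : E3 => χ (R⁻¹ • x)) := by
    unfold nuc
    apply integral_mono_of_nonneg
    · exact Eventually.of_forall fun x => div_nonneg (sq_nonneg _) (norm_nonneg _)
    · exact h1.1
    · refine Eventually.of_forall fun x => ?_
      simp only
      apply div_le_div_of_nonneg_right _ (norm_nonneg _)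
      by_cases hx : R ≤ ‖x‖
      · rw [tr_zero hR hx]
        simpa using sq_nonneg _
      · have h7 : χ (R⁻¹ • x) = 1 := by
          apply χ.one_of_mem_closedBall
          simp only [mem_closedBall_zero_iff, norm_smul, norm_inv, Real.norm_eq_abs, abs_of_pos hR]
          change R⁻¹ * ‖x‖ ≤ 1
          rw [inv_mul_eq_div, div_le_one hR]
          exact (not_le.1 hx).le
        rw [h7]
        have h8 := tr_nonneg R x
        have h9 := tr_le_one R x
        nlinarith
  refine h6.trans (h1.2.trans ?_)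
  rw [h2, h5, Real.sqrt_mul (by positivity), Real.sqrt_mul hR.le]
  have h7 : √(R ^ 3) * √R = R ^ 2 := by
    rw [← Real.sqrt_mul (by positivity), show R ^ 3 * R = (R ^ 2) ^ 2 by ring,
      Real.sqrt_sq (by positivity)]
  calc √(R ^ 3) * √(mass χ) * (√R * √(kin (gradient χ)))
      = √(mass χ) * √(kin (gradient χ)) * (√(R ^ 3) * √R) := by ring
    _ ≤ _ := by rw [h7]

lemma coul_tr_le {C : ℝ} (hC : ∀ R : ℝ, 0 < R → ∀ a : E3, nuc a (tr R) ≤ C * R ^ 2)
    {R : ℝ} (hR : 0 < R) : coul (fun x => tr R x ^ 2) ≤ C / 2 * R ^ 2 * mass (tr R) := by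
  have hsq : HasCompactSupport (fun x => tr R x ^ 2) := by
    have := (tr_compact hR).comp_left (g := fun t : ℝ => t ^ 2) (by simp)
    exact this
  have hi : Integrable (fun x => tr R x ^ 2) :=
    ((tr_contDiff R).continuous.pow 2).integrable_of_hasCompactSupport hsq
  have h1 : ∀ x, pot (fun y => tr R y ^ 2) x = nuc x (tr R) := by
    intro x
    unfold pot nuc
    congr 1
    ext y
    rw [norm_sub_rev]
  have h2 : ∫ x, tr R x ^ 2 * pot (fun y => tr R y ^ 2) x ≤ ∫ x, tr R x ^ 2 * (C * R ^ 2) := by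
    apply integral_mono_of_nonneg
    · refine Eventually.of_forall fun x => ?_
      simp only [h1]
      exact mul_nonneg (sq_nonneg _) (integral_nonneg fun y =>
        div_nonneg (sq_nonneg _) (norm_nonneg _))
    · exact hi.mul_const _
    · refine Eventually.of_forall fun x => ?_
      simp only [h1]
      exact mul_le_mul_of_nonneg_left (hC R hR x) (sq_nonneg _)
  unfold coul
  rw [integral_mul_const] at h2
  have h3 : mass (tr R) = ∫ x, tr R x ^ 2 := rfl
  rw [h3]
  nlinarith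

end TrialAux

open TrialAux in
theorem trial {p : ℝ} (hp : 4 / 3 < p) :
    ∃ C₀ > 0, ∃ A₁ > 0, ∀ A, 0 < A → A < A₁ → ∃ ψ g, Adm p ψ g ∧ 0 < mass ψ ∧ mass ψ ≤ 1 ∧
      PP A p ψ g ≤ C₀ * A ^ (1 / 3 : ℝ) * mass ψ := by
  obtain ⟨K, hK0, hK⟩ := deriv_bound
  obtain ⟨C, hC0, hC⟩ := nuc_tr_le
  obtain ⟨M', hM'0, hM'⟩ := abs_G_le hp
  have hM : ∀ t, 0 ≤ t → t ≤ 1 → |G p t| ≤ 2 * M' := by
    intro t h0 h1
    refine (hM' t h0).trans ?_
    have : t ^ p ≤ 1 := Real.rpow_le_one h0 h1 (by linarith)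
    nlinarith
  have hc3 := c3_pos
  refine ⟨64 * K ^ 2 + 32 * M' + C / 2, by positivity, (min (1 / 2) (1 / c3)) ^ 6, by positivity,
    fun A hA hA1 => ?_⟩
  obtain ⟨R, hRdef⟩ : ∃ R : ℝ, R = A ^ (1 / 6 : ℝ) := ⟨_, rfl⟩
  have hR : 0 < R := by rw [hRdef]; positivity
  have hR6 : R ^ 6 = A := by
    rw [hRdef, ← Real.rpow_natCast, ← Real.rpow_mul hA.le]
    norm_num
  have hR2 : R ^ 2 = A ^ (1 / 3 : ℝ) := by
    rw [hRdef, ← Real.rpow_natCast, ← Real.rpow_mul hA.le]
    norm_num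
  have hRlt : R < min (1 / 2) (1 / c3) := by
    rw [← hR6] at hA1
    exact lt_of_pow_lt_pow_left₀ 6 (by positivity) hA1
  have hRa : R < 1 / 2 := hRlt.trans_le (min_le_left _ _)
  have hRb : R < 1 / c3 := hRlt.trans_le (min_le_right _ _)
  have h2 : R ^ 2 ≤ 1 / 2 := by nlinarith
  refine ⟨tr R, gradient (tr R), ?_, ?_, ?_, ?_⟩
  · refine ⟨H1.of_test (tr_contDiff R) (tr_compact hR), ?_⟩
    apply Continuous.integrable_of_hasCompactSupport
    · exact ((tr_contDiff R).continuous.pow 2).rpow_const fun x => Or.inr (by linarith)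
    · have := (tr_compact hR).comp_left (g := fun t : ℝ => (t ^ 2) ^ p)
        (by simp; rw [Real.zero_rpow (by linarith)])
      exact this
  · exact lt_of_lt_of_le (by positivity) (mass_ge hR h2)
  · refine (mass_le hR).trans ?_
    rw [lt_div_iff₀ hc3] at hRb
    have h3 : R ^ 3 ≤ R := by nlinarith
    nlinarith
  · unfold PP
    have h3 := kin_le hK0 hK hR h2
    rw [hR6] at h3
    have h4 := ig_le hp (by positivity : 0 < 2 * M') hM hR h2
    have h5 := coul_tr_le hC hR
    have h6 := mass_ge hR h2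
    have h7 : c3 * R ^ 5 ≤ 8 * R ^ 2 * mass (tr R) := by
      have := mul_le_mul_of_nonneg_left h6 (by positivity : 0 ≤ 8 * R ^ 2)
      nlinarith
    rw [← hR2]
    have h8 : 8 * K ^ 2 * c3 * R ^ 5 ≤ 64 * K ^ 2 * R ^ 2 * mass (tr R) := by
      have := mul_le_mul_of_nonneg_left h7 (by positivity : 0 ≤ 8 * K ^ 2)
      nlinarith
    have h9 : 2 * (2 * M') * c3 * R ^ 5 ≤ 32 * M' * R ^ 2 * mass (tr R) := by
      have := mul_le_mul_of_nonneg_left h7 (by positivity : 0 ≤ 4 * M')
      nlinarith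
    nlinarith

end Pool.Agent.W_MP_b91f46_mp
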