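import Pool.Agent.W_MP_b91f46_mp.Core
import Pool.Agent.W_MP_b91f46_mp.Bulk
import Pool.Agent.W_MP_b91f46_mp.Neg
import Pool.Agent.W_MP_b91f46_mp.Trial
import Pool.Agent.W_MP_b91f46_mp.Exist

open MeasureTheory Filter Topology Set
open scoped RealInnerProductSpace ContDiff ENNReal

namespace Pool.Agent.W_MP_b91f46_mp

theorem mass_neg (ψ : E3 → ℝ) : mass (fun x => -ψ x) = mass ψ := by
  unfold mass; simp

theorem kin_neg (g : E3 → E3) : kin (fun x => -g x) = kin g := by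
  unfold kin; simp

theorem FF_neg_eq (A p z κ : ℝ) (ψ : E3 → ℝ) (g : E3 → E3) :
    FF A p z κ (fun x => -ψ x) (fun x => -g x) = FF A p z κ ψ g := by
  unfold FF PP kin ig coul nuc mass
  simp

theorem H1.neg {ψ : E3 → ℝ} {g : E3 → E3} (h : H1 ψ g) :
    H1 (fun x => -ψ x) (fun x => -g x) := by
  have := h.smul (-1)
  simpa using this

theorem Adm.neg {p : ℝ} {ψ : E3 → ℝ} {g : E3 → E3} (h : Adm p ψ g) :
    Adm p (fun x => -ψ x) (fun x => -g x) :=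
  { h.toH1.neg with integrable_pow := by simpa using h.integrable_pow }

theorem mass_congr {ψ ψ' : E3 → ℝ} (h : ψ =ᵐ[volume] ψ') : mass ψ = mass ψ' := by
  unfold mass
  refine integral_congr_ae ?_
  filter_upwards [h] with x hx
  rw [hx]

theorem nuc_congr {ψ ψ' : E3 → ℝ} (h : ψ =ᵐ[volume] ψ') (a : E3) : nuc a ψ = nuc a ψ' := by
  unfold nuc
  refine integral_congr_ae ?_
  filter_upwards [h] with x hx
  rw [hx]

theorem ig_congr {p : ℝ} {ψ ψ' : E3 → ℝ} (h : ψ =ᵐ[volume] ψ') : ig p ψ = ig p ψ' := by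
  unfold ig
  refine integral_congr_ae ?_
  filter_upwards [h] with x hx
  rw [hx]

theorem coul_congr {ψ ψ' : E3 → ℝ} (h : ψ =ᵐ[volume] ψ') :
    coul (fun x => ψ x ^ 2) = coul (fun x => ψ' x ^ 2) := by
  unfold coul
  congr 1
  refine integral_congr_ae ?_
  filter_upwards [h] with x hx
  rw [hx, pot_sq_eq_nuc, pot_sq_eq_nuc, nuc_congr h]

theorem FF_congr {A p z κ : ℝ} {ψ ψ' : E3 → ℝ} (h : ψ =ᵐ[volume] ψ') (g : E3 → E3) :
    FF A p z κ ψ g = FF A p z κ ψ' g := by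
  unfold FF PP
  rw [mass_congr h, nuc_congr h, ig_congr h, coul_congr h]

theorem Adm.congr {p : ℝ} {ψ ψ' : E3 → ℝ} {g : E3 → E3} (h : Adm p ψ g) (h1 : ψ' =ᵐ[volume] ψ) :
    Adm p ψ' g :=
  { h.toH1.congr h1 (EventuallyEq.refl _ _) with
    integrable_pow := by
      refine h.integrable_pow.congr ?_
      filter_upwards [h1] with x hx
      rw [hx] }

/-- scalar bookkeeping of the final contradiction; `a = A^{1/6}` -/
theorem final_ineq {a z R kg δ D C c cP CB tb m : ℝ} (ha : 0 < a) (hR : 0 < R)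
    (hD : 0 < D) (hC : 0 < C) (hc : 0 < c) (hcP : 0 < cP) (hCB : 0 < CB) (htb : 0 < tb)
    (hδ : δ = D * a ^ 2) (hz : z ≤ a ^ 4) (hkg0 : 0 ≤ kg) (hkg : a ^ 6 * kg ^ 2 ≤ δ * m)
    (hm : m ≤ C * R ^ 3) (hsurf : c * a ^ 3 * R ^ 2 ≤ δ * m)
    (hmain : cP * tb * R ^ 2 ≤ 10 * z / R
      + a ^ 6 * (kg * (2 * (CB / √tb) * R ^ (-(5 / 2) : ℝ)))) :
    cP * tb * (c / (D * C)) ^ 3 ≤ (10 + 2 * (CB / √tb) * √(D * C)) * a := by
  have hsq : 0 < √tb := Real.sqrt_pos.2 htb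
  -- lower bound for R
  have hR1 : c / (D * C) * a ≤ R := by
    have h1 : c * a ^ 3 * R ^ 2 ≤ D * a ^ 2 * (C * R ^ 3) := by
      refine hsurf.trans ?_
      rw [hδ]
      exact mul_le_mul_of_nonneg_left hm (by positivity)
    have h2 : (a ^ 2 * R ^ 2) * (c * a) ≤ (a ^ 2 * R ^ 2) * (D * C * R) := by
      nlinarith
    have h3 := le_of_mul_le_mul_left h2 (by positivity)
    rw [div_mul_eq_mul_div, div_le_iff₀ (by positivity)]
    linarith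
  -- kg bound
  have hkg1 : a ^ 2 * kg ≤ √(D * C) * R ^ (3 / 2 : ℝ) := by
    have h1 : (a ^ 2 * kg) ^ 2 ≤ (√(D * C) * R ^ (3 / 2 : ℝ)) ^ 2 := by
      have e1 : (√(D * C) * R ^ (3 / 2 : ℝ)) ^ 2 = D * C * R ^ 3 := by
        rw [mul_pow, Real.sq_sqrt (by positivity), ← Real.rpow_natCast, ← Real.rpow_mul hR.le]
        norm_num
      rw [e1]
      have h2 : a ^ 6 * kg ^ 2 ≤ D * a ^ 2 * (C * R ^ 3) := by
        refine hkg.trans ?_
        rw [hδ]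
        exact mul_le_mul_of_nonneg_left hm (by positivity)
      have h3 : a ^ 2 * (a ^ 2 * kg) ^ 2 ≤ a ^ 2 * (D * C * R ^ 3) := by nlinarith
      exact le_of_mul_le_mul_left h3 (by positivity)
    exact le_of_sq_le_sq h1 (by positivity) |>.trans le_rfl
  have hR3 : R ^ (3 / 2 : ℝ) * R ^ (-(5 / 2) : ℝ) = 1 / R := by
    rw [← Real.rpow_add hR]
    norm_num
    rw [Real.rpow_neg_one]
  have h4 : a ^ 6 * (kg * (2 * (CB / √tb) * R ^ (-(5 / 2) : ℝ)))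
      ≤ a ^ 4 * (2 * (CB / √tb) * √(D * C)) / R := by
    calc a ^ 6 * (kg * (2 * (CB / √tb) * R ^ (-(5 / 2) : ℝ)))
        = (a ^ 2 * kg) * (a ^ 4 * (2 * (CB / √tb)) * R ^ (-(5 / 2) : ℝ)) := by ring
      _ ≤ (√(D * C) * R ^ (3 / 2 : ℝ)) * (a ^ 4 * (2 * (CB / √tb)) * R ^ (-(5 / 2) : ℝ)) :=
          mul_le_mul_of_nonneg_right hkg1 (by positivity)
      _ = a ^ 4 * (2 * (CB / √tb) * √(D * C)) * (R ^ (3 / 2 : ℝ) * R ^ (-(5 / 2) : ℝ)) := by ring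
      _ = _ := by rw [hR3]; ring
  have h5 : 10 * z / R ≤ 10 * a ^ 4 / R := by gcongr
  have h6 : cP * tb * R ^ 3 ≤ (10 + 2 * (CB / √tb) * √(D * C)) * a ^ 4 := by
    have h7 : cP * tb * R ^ 2 ≤ ((10 + 2 * (CB / √tb) * √(D * C)) * a ^ 4) / R := by
      calc _ ≤ _ := hmain
        _ ≤ 10 * a ^ 4 / R + a ^ 4 * (2 * (CB / √tb) * √(D * C)) / R := add_le_add h5 h4
        _ = _ := by ring
    rw [le_div_iff₀ hR] at h7
    calc cP * tb * R ^ 3 = cP * tb * R ^ 2 * R := by ring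
      _ ≤ _ := h7
  have h8 : (c / (D * C) * a) ^ 3 ≤ R ^ 3 := pow_le_pow_left₀ (by positivity) hR1 3
  have h9 : a ^ 3 * (cP * tb * (c / (D * C)) ^ 3)
      ≤ a ^ 3 * ((10 + 2 * (CB / √tb) * √(D * C)) * a) := by
    calc a ^ 3 * (cP * tb * (c / (D * C)) ^ 3) = cP * tb * (c / (D * C) * a) ^ 3 := by ring
      _ ≤ cP * tb * R ^ 3 := mul_le_mul_of_nonneg_left h8 (by positivity)
      _ ≤ _ := h6
      _ = _ := by ring
  exact le_of_mul_le_mul_left h9 (by positivity)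

theorem main {p : ℝ} (hp : 4 / 3 < p) :
    ∃ A₀ > 0, ∀ A, 0 < A → A < A₀ → ∃ z₀ > 0, ∀ z, 0 < z → z < z₀ →
      ∃ lam, z < lam ∧ (∃ ψ, IsMinimizer A p (4 * (p - 1)) p z lam ψ) ∧
        ∀ ψ, IsMinimizer A p (4 * (p - 1)) p z lam ψ →
          ¬ SymDecr ψ ∧ ¬ SymDecr (fun x => -ψ x) := by
  obtain ⟨tb, c1, T, hc⟩ := exists_consts hp
  obtain ⟨C₀, hC₀, A₁, hA₁, htrial⟩ := trial hp
  obtain ⟨cb, hcb, Cb, hCb, δ₀, hδ₀, hbulk⟩ := bulk hp hc
  obtain ⟨cP, hcP, hdrop⟩ := pot_drop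
  obtain ⟨CB, hCB, hbump⟩ := bumps
  have htb := hc.tb_pos
  have hsq : 0 < √tb := Real.sqrt_pos.2 htb
  have hc1 := hc.c1_pos
  set D : ℝ := 2 * C₀ + 1 with hD
  have hDpos : 0 < D := by positivity
  set K : ℝ := 10 + 2 * (CB / √tb) * √(D * Cb) with hK
  have hKpos : 0 < K := by positivity
  set K2 : ℝ := cP * tb * (cb / (D * Cb)) ^ 3 / K with hK2
  have hK2pos : 0 < K2 := by positivity
  -- bound on `a = A^{1/6}`
  set a₀ : ℝ := min (min K2 1) (min (√(δ₀ / D)) (√(c1 / (8 * D)))) with ha₀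
  have ha₀pos : 0 < a₀ := by
    refine lt_min (lt_min hK2pos one_pos) (lt_min (Real.sqrt_pos.2 ?_) (Real.sqrt_pos.2 ?_)) <;>
      positivity
  refine ⟨min A₁ (a₀ ^ 6), lt_min hA₁ (by positivity), fun A hA hAlt => ?_⟩
  have hAA₁ : A < A₁ := hAlt.trans_le (min_le_left _ _)
  set a : ℝ := A ^ (1 / 6 : ℝ) with ha
  have hapos : 0 < a := Real.rpow_pos_of_pos hA _
  have hAa : A = a ^ 6 := by
    rw [ha, ← Real.rpow_natCast, ← Real.rpow_mul hA.le]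
    norm_num
  have haa₀ : a < a₀ := by
    have : a ^ 6 < a₀ ^ 6 := by
      rw [← hAa]
      exact hAlt.trans_le (min_le_right _ _)
    exact lt_of_pow_lt_pow_left₀ 6 ha₀pos.le this
  have haK : a < K2 := haa₀.trans_le ((min_le_left _ _).trans (min_le_left _ _))
  have haδ : D * a ^ 2 ≤ δ₀ := by
    have h1 : a < √(δ₀ / D) := haa₀.trans_le ((min_le_right _ _).trans (min_le_left _ _))
    have h2 := Real.lt_sqrt hapos.le |>.1 h1
    rw [lt_div_iff₀ hDpos] at h2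
    linarith
  have hac1 : D * a ^ 2 < c1 / 8 := by
    have h1 : a < √(c1 / (8 * D)) := haa₀.trans_le ((min_le_right _ _).trans (min_le_right _ _))
    have h2 := Real.lt_sqrt hapos.le |>.1 h1
    rw [lt_div_iff₀ (by positivity)] at h2
    linarith
  have hA13 : A ^ (1 / 3 : ℝ) = a ^ 2 := by
    rw [ha, ← Real.rpow_natCast, ← Real.rpow_mul hA.le]
    norm_num
  have hA12 : √A = a ^ 3 := by
    rw [hAa, show a ^ 6 = (a ^ 3) ^ 2 by ring, Real.sqrt_sq (by positivity)]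
  -- `κ`
  set S : Set ℝ := {r | ∃ ψ g, Adm p ψ g ∧ 0 < mass ψ ∧ mass ψ ≤ 1 ∧ r = PP A p ψ g / mass ψ}
    with hS
  set κ : ℝ := sInf S with hκ
  have hSne : S.Nonempty := by
    obtain ⟨ψ, g, h1, h2, h3, h4⟩ := htrial A hA hAA₁
    exact ⟨_, ψ, g, h1, h2, h3, rfl⟩
  have hS0 : ∀ r ∈ S, 0 ≤ r := by
    rintro r ⟨ψ, g, h1, h2, h3, rfl⟩
    exact div_nonneg (PP_nonneg hp hA.le ψ g) h2.le
  have hSb : BddBelow S := ⟨0, fun r hr => hS0 r hr⟩
  have hκ0 : 0 ≤ κ := Real.sInf_nonneg hS0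
  have hκle : κ ≤ C₀ * a ^ 2 := by
    obtain ⟨ψ, g, h1, h2, h3, h4⟩ := htrial A hA hAA₁
    have h5 : κ ≤ PP A p ψ g / mass ψ := csInf_le hSb ⟨ψ, g, h1, h2, h3, rfl⟩
    refine h5.trans ?_
    rw [div_le_iff₀ h2]
    rwa [hA13] at h4
  have hκP : ∀ ψ g, Adm p ψ g → mass ψ ≤ 1 → κ * mass ψ ≤ PP A p ψ g := by
    intro ψ g h hm
    rcases (mass_nonneg ψ).eq_or_lt with h0 | h0
    · rw [← h0, mul_zero]
      exact PP_nonneg hp hA.le ψ g
    · have h5 : κ ≤ PP A p ψ g / mass ψ := csInf_le hSb ⟨ψ, g, h, h0, hm, rfl⟩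
      rwa [le_div_iff₀ h0] at h5
  have hκa : ∀ ε > 0, ∃ ψ g, Adm p ψ g ∧ 0 < mass ψ ∧ mass ψ ≤ 1 ∧
      PP A p ψ g ≤ (κ + ε) * mass ψ := by
    intro ε hε
    obtain ⟨r, ⟨ψ, g, h1, h2, h3, rfl⟩, h5⟩ := exists_lt_of_csInf_lt hSne
      (show sInf S < κ + ε by linarith)
    refine ⟨ψ, g, h1, h2, h3, ?_⟩
    rw [div_lt_iff₀ h2] at h5
    exact h5.le
  have hDa : 0 < D * a ^ 2 := by positivity
  have hκc : κ < c1 / 4 := by
    have : C₀ * a ^ 2 ≤ D * a ^ 2 := by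
      refine mul_le_mul_of_nonneg_right ?_ (by positivity)
      linarith
    linarith
  -- `ℓ`
  set δ : ℝ := D * a ^ 2 with hδ
  set ℓ : ℝ := √(A / (16 * δ)) with hℓ
  have hℓpos : 0 < ℓ := Real.sqrt_pos.2 (by positivity)
  have hℓ2 : 16 * δ * ℓ ^ 2 ≤ A := by
    rw [hℓ, Real.sq_sqrt (by positivity)]
    field_simp
    exact le_rfl
  have hball : 0 < volume.real (Metric.ball (0 : E3) ℓ) := by
    rw [Measure.real, ENNReal.toReal_pos_iff]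
    exact ⟨Metric.measure_ball_pos _ _ hℓpos, Metric.isBounded_ball.measure_lt_top⟩
  set m₀ : ℝ := tb / 4 * volume.real (Metric.ball (0 : E3) ℓ) with hm₀
  have hm₀pos : 0 < m₀ := by positivity
  refine ⟨min (a ^ 4) m₀, lt_min (by positivity) hm₀pos, fun z hz hzlt => ?_⟩
  have hza : z ≤ a ^ 4 := (hzlt.trans_le (min_le_left _ _)).le
  have hzm : z < m₀ := hzlt.trans_le (min_le_right _ _)
  obtain ⟨ψ₀, g₀, hadm, hmpos, hm1, hFneg, hmin⟩ := exists_min hp hA hz hκ0 hκP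
    (FF_neg hp hc hA hz hκ0 hκc hκa)
  -- a priori bound with `δ`
  have hδb : z ^ 2 / A + 2 * κ ≤ δ := by
    have h1 : z ^ 2 / A ≤ a ^ 2 := by
      rw [div_le_iff₀ hA, hAa]
      calc z ^ 2 ≤ (a ^ 4) ^ 2 := pow_le_pow_left₀ hz.le hza 2
        _ = a ^ 2 * a ^ 6 := by ring
    calc z ^ 2 / A + 2 * κ ≤ a ^ 2 + 2 * (C₀ * a ^ 2) := by linarith
      _ = δ := by rw [hδ, hD]; ring
  have hap : ∀ ψ g, H1 ψ g → FF A p z κ ψ g ≤ 0 → A * kin g + ig p ψ ≤ δ * mass ψ := by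
    intro ψ g h hF
    exact (apriori hp hA hz h hF).trans (mul_le_mul_of_nonneg_right hδb (mass_nonneg _))
  obtain ⟨x₀, hx₀⟩ := nonvanish hp hc hA hDa (by linarith) hℓpos hℓ2 hadm hmpos
    (hap ψ₀ g₀ hadm.toH1 hFneg.le)
  have hmz : m₀ ≤ mass ψ₀ := hx₀.trans
    (setIntegral_le_integral hadm.toH1.integrable_sq (Eventually.of_forall fun _ => sq_nonneg _))
  refine ⟨mass ψ₀, hzm.trans_le hmz, ⟨ψ₀, g₀, hadm, rfl, fun ψ' g' h' hm' => ?_⟩, ?_⟩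
  · have hm'' : mass ψ' = mass ψ₀ := hm'
    rw [energy_eq (κ := κ) hp hadm, energy_eq (κ := κ) hp h', hm'']
    have := hmin ψ' g' h' (hm''.le.trans hm1)
    linarith
  -- no radially decreasing minimiser
  have key : ∀ (ψ : E3 → ℝ) (g : E3 → E3), Adm p ψ g → mass ψ = mass ψ₀ →
      (∀ ψ' g', Adm p ψ' g' → mass ψ' = mass ψ₀ → FF A p z κ ψ g ≤ FF A p z κ ψ' g') →
      ¬ SymDecr ψ := by
    rintro ψ g h hm hmn ⟨f, hf0, hfa, hae⟩
    set ψ' : E3 → ℝ := fun x => f ‖x‖ with hψ'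
    have hae' : ψ' =ᵐ[volume] ψ := by
      filter_upwards [hae] with x hx
      rw [hx]
    have h' : Adm p ψ' g := h.congr hae'
    have hm' : mass ψ' = mass ψ₀ := (mass_congr hae').trans hm
    have hmn' : ∀ ψ₁ g₁, Adm p ψ₁ g₁ → mass ψ₁ = mass ψ₀ →
        FF A p z κ ψ' g ≤ FF A p z κ ψ₁ g₁ := by
      intro ψ₁ g₁ h1 h2
      rw [FF_congr hae']
      exact hmn ψ₁ g₁ h1 h2
    have hFle : FF A p z κ ψ' g ≤ 0 := (hmn' ψ₀ g₀ hadm rfl).trans hFneg.le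
    have hb := hap ψ' g h'.toH1 hFle
    obtain ⟨R, hR, hin, hout, hmC, hsurf⟩ := hbulk A δ ψ' g f hA hDa haδ h' (fun x _ => rfl) hf0 hfa
      (by rw [hm']; exact hmpos) hb
    have hcore := core hp hc hdrop hbump hA hz hmpos h' hm' hmn' (fun x => rfl) hf0 hfa hR hin hout
    have hkg : a ^ 6 * √(kin g) ^ 2 ≤ δ * mass ψ' := by
      rw [Real.sq_sqrt (kin_nonneg g), ← hAa]
      have := ig_nonneg hp ψ'
      linarith
    rw [hA12] at hsurf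
    have hfin := final_ineq (a := a) (z := z) (R := R) (kg := √(kin g)) (δ := δ) (D := D) (C := Cb)
      (c := cb) (cP := cP) (CB := CB) (tb := tb) (m := mass ψ') hapos hR hDpos hCb hcb hcP hCB htb
      hδ hza (Real.sqrt_nonneg _) hkg hmC hsurf (by rw [← hAa]; exact hcore)
    have h9 : K2 ≤ a := by
      rw [hK2, div_le_iff₀ hKpos]
      linarith
    linarith
  rintro ψ ⟨g, h, hm, hmn⟩
  have hmn' : ∀ ψ' g', Adm p ψ' g' → mass ψ' = mass ψ₀ → FF A p z κ ψ g ≤ FF A p z κ ψ' g' := by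
    intro ψ' g' h' hm'
    have h1 := hmn ψ' g' h' hm'
    rw [energy_eq (κ := κ) hp h, energy_eq (κ := κ) hp h', hm', show mass ψ = mass ψ₀ from hm] at h1
    linarith
  refine ⟨key ψ g h hm hmn', key _ _ h.neg ((mass_neg ψ).trans hm) ?_⟩
  intro ψ' g' h' hm'
  rw [FF_neg_eq]
  exact hmn' ψ' g' h' hm'

end Pool.Agent.W_MP_b91f46_mp
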