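import Pool.Agent.W_MP_b91f46_mp.Defs

open MeasureTheory Filter Topology Set
open scoped RealInnerProductSpace ContDiff ENNReal

namespace Pool.Agent.W_MP_b91f46_mp

/-- `∫ F(β x) dx = β⁻³ ∫ F` -/
theorem integral_dil {F : Type*} [NormedAddCommGroup F] [NormedSpace ℝ F] {β : ℝ} (hβ : 0 < β)
    (f : E3 → F) : ∫ x, f (β • x) = (β ^ 3)⁻¹ • ∫ x, f x := by
  rw [Measure.integral_comp_smul]
  congr 1
  rw [abs_of_pos (by positivity)]
  simp

theorem memLp_dil {F : Type*} [NormedAddCommGroup F] {β : ℝ} (hβ : 0 < β)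
    {f : E3 → F} (hf : MemLp f 2 volume) : MemLp (fun x => f (β • x)) 2 volume := by
  have h1 : Measure.map (fun x : E3 => β • x) volume
      = ENNReal.ofReal |(β ^ (Module.finrank ℝ E3))⁻¹| • (volume : Measure E3) :=
    Measure.map_addHaar_smul _ hβ.ne'
  have hemb : MeasurableEmbedding (fun x : E3 => β • x) :=
    (Homeomorph.smulOfNeZero β hβ.ne').measurableEmbedding
  have h2 : MemLp f 2 (Measure.map (fun x : E3 => β • x) volume) := by
    rw [h1]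
    exact hf.smul_measure ENNReal.ofReal_ne_top
  exact (hemb.memLp_map_measure_iff).1 h2

/-- dilation of a function -/
def dil (α β : ℝ) (ψ : E3 → ℝ) : E3 → ℝ := fun x => α * ψ (β • x)

/-- dilation of a gradient -/
def dilg (α β : ℝ) (g : E3 → E3) : E3 → E3 := fun x => (α * β) • g (β • x)

theorem WeakGrad.dil {α β : ℝ} (hβ : 0 < β) {ψ : E3 → ℝ} {g : E3 → E3} (h : WeakGrad ψ g) :
    WeakGrad (dil α β ψ) (dilg α β g) := by
  intro φ hφ hφc v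
  set χ : E3 → ℝ := fun y => φ (β⁻¹ • y) with hχ
  have hχs : ContDiff ℝ ∞ χ := hφ.comp (contDiff_const_smul _)
  have hχc : HasCompactSupport χ :=
    hφc.comp_homeomorph (Homeomorph.smulOfNeZero β⁻¹ (inv_ne_zero hβ.ne'))
  have hφχ : ∀ x, φ x = χ (β • x) := by
    intro x
    simp only [hχ]
    rw [smul_smul, inv_mul_cancel₀ hβ.ne', one_smul]
  have hd : ∀ x, fderiv ℝ φ x v = β * fderiv ℝ χ (β • x) v := by
    intro x
    have h1 : φ = χ ∘ (fun x : E3 => β • x) := funext hφχ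
    have h2 : HasFDerivAt (fun x : E3 => β • x) (β • ContinuousLinearMap.id ℝ E3) x :=
      (hasFDerivAt_id x).const_smul β
    have h3 : HasFDerivAt χ (fderiv ℝ χ (β • x)) (β • x) :=
      (hχs.differentiable (by simp) _).hasFDerivAt
    have h4 := h3.comp x h2
    rw [← h1] at h4
    rw [h4.fderiv]
    simp
  have h1 := h χ hχs hχc v
  have e1 : ∫ x, Pool.Agent.W_MP_b91f46_mp.dil α β ψ x * fderiv ℝ φ x v
      = α * β * ((β ^ 3)⁻¹ * ∫ x, ψ x * fderiv ℝ χ x v) := by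
    have := integral_dil hβ (fun y => ψ y * fderiv ℝ χ y v)
    rw [smul_eq_mul] at this
    rw [← this, ← integral_const_mul]
    congr 1
    ext x
    unfold Pool.Agent.W_MP_b91f46_mp.dil
    rw [hd x]
    ring
  have e2 : ∫ x, φ x * ⟪dilg α β g x, v⟫ = α * β * ((β ^ 3)⁻¹ * ∫ x, χ x * ⟪g x, v⟫) := by
    have := integral_dil hβ (fun y => χ y * ⟪g y, v⟫)
    rw [smul_eq_mul] at this
    rw [← this, ← integral_const_mul]
    congr 1
    ext x
    unfold dilg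
    rw [hφχ x, real_inner_smul_left]
    ring
  rw [e1, e2, h1]
  ring

theorem Adm.dil {p α β : ℝ} (hβ : 0 < β) {ψ : E3 → ℝ} {g : E3 → E3}
    (h : Adm p ψ g) : Adm p (dil α β ψ) (dilg α β g) where
  memLp := (memLp_dil hβ h.memLp).const_mul α
  memLp_grad := (memLp_dil hβ h.memLp_grad).const_smul (α * β)
  weakGrad := h.weakGrad.dil hβ
  integrable_pow := by
    have h1 := (h.integrable_pow.comp_smul hβ.ne').const_mul ((α ^ 2) ^ p)
    refine h1.congr (Eventually.of_forall fun x => ?_)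
    simp only [Pool.Agent.W_MP_b91f46_mp.dil]
    rw [mul_pow, Real.mul_rpow (sq_nonneg _) (sq_nonneg _)]

theorem mass_dil {α β : ℝ} (hβ : 0 < β) (ψ : E3 → ℝ) :
    ∫ x, dil α β ψ x ^ 2 = α ^ 2 * ((β ^ 3)⁻¹ * ∫ x, ψ x ^ 2) := by
  have := integral_dil hβ (fun y => ψ y ^ 2)
  rw [smul_eq_mul] at this
  rw [← this, ← integral_const_mul]
  congr 1
  ext x
  unfold dil
  ring

theorem energy_dil {A γ Ce p z A' γ' Ce' z' α β : ℝ} (hα : 0 < α) (hβ : 0 < β)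
    (hA' : A' * β ^ 4 = A * α ^ 2) (hγ : γ' * α ^ (2 * p) * β ^ 2 = γ * α ^ 4)
    (hCe : Ce' * α ^ (8 / 3 : ℝ) * β ^ 2 = Ce * α ^ 4) (hz : z' * β ^ 3 = z * α ^ 2)
    (ψ : E3 → ℝ) (g : E3 → E3) :
    energy A' γ' Ce' p z' (dil α β ψ) (dilg α β g)
      = α ^ 4 * (β ^ 5)⁻¹ * energy A γ Ce p z ψ g := by
  have e1 : ∫ x, ‖dilg α β g x‖ ^ 2 = (α * β) ^ 2 * ((β ^ 3)⁻¹ * ∫ x, ‖g x‖ ^ 2) := by
    have := integral_dil hβ (fun y => ‖g y‖ ^ 2)
    rw [smul_eq_mul] at this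
    rw [← this, ← integral_const_mul]
    congr 1
    ext x
    unfold dilg
    rw [norm_smul, mul_pow, Real.norm_eq_abs, sq_abs]
  have e2 : ∫ x, JJ γ' Ce' p (dil α β ψ x ^ 2)
      = α ^ 4 * (β ^ 2)⁻¹ * ((β ^ 3)⁻¹ * ∫ x, JJ γ Ce p (ψ x ^ 2)) := by
    have := integral_dil hβ (fun y => JJ γ Ce p (ψ y ^ 2))
    rw [smul_eq_mul] at this
    rw [← this, ← integral_const_mul]
    congr 1
    ext x
    unfold dil JJ
    rw [mul_pow, Real.mul_rpow (sq_nonneg _) (sq_nonneg _),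
      Real.mul_rpow (sq_nonneg _) (sq_nonneg _)]
    have h1 : (α ^ 2) ^ p = α ^ (2 * p) := by
      rw [← Real.rpow_natCast, ← Real.rpow_mul hα.le]
      norm_num
    have h2 : (α ^ 2) ^ (4 / 3 : ℝ) = α ^ (8 / 3 : ℝ) := by
      rw [← Real.rpow_natCast, ← Real.rpow_mul hα.le]
      norm_num
    rw [h1, h2]
    have h3 : γ' * α ^ (2 * p) = γ * α ^ 4 * (β ^ 2)⁻¹ := by
      rw [← hγ]
      field_simp
    have h4 : Ce' * α ^ (8 / 3 : ℝ) = Ce * α ^ 4 * (β ^ 2)⁻¹ := by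
      rw [← hCe]
      field_simp
    calc γ' / p * (α ^ (2 * p) * (ψ (β • x) ^ 2) ^ p)
          - 3 * Ce' / 4 * (α ^ (8 / 3 : ℝ) * (ψ (β • x) ^ 2) ^ (4 / 3 : ℝ))
        = (γ' * α ^ (2 * p)) / p * (ψ (β • x) ^ 2) ^ p
          - 3 * (Ce' * α ^ (8 / 3 : ℝ)) / 4 * (ψ (β • x) ^ 2) ^ (4 / 3 : ℝ) := by ring
      _ = _ := by rw [h3, h4]; ring
  have e3 : ∫ x, dil α β ψ x ^ 2 / ‖x‖ = α ^ 2 * β * ((β ^ 3)⁻¹ * ∫ x, ψ x ^ 2 / ‖x‖) := by
    have := integral_dil hβ (fun y => ψ y ^ 2 / ‖y‖)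
    rw [smul_eq_mul] at this
    rw [← this, ← integral_const_mul]
    congr 1
    ext x
    unfold dil
    rw [norm_smul, Real.norm_eq_abs, abs_of_pos hβ]
    rcases eq_or_ne ‖x‖ 0 with hx | hx
    · simp [hx]
    · field_simp
  have e4 : ∫ x, ∫ y, dil α β ψ x ^ 2 * dil α β ψ y ^ 2 / ‖x - y‖
      = α ^ 4 * β * ((β ^ 3)⁻¹ * ((β ^ 3)⁻¹ * ∫ x, ∫ y, ψ x ^ 2 * ψ y ^ 2 / ‖x - y‖)) := by
    have h1 := integral_dil hβ (fun x => ∫ y, ψ x ^ 2 * ψ y ^ 2 / ‖x - y‖)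
    rw [smul_eq_mul] at h1
    rw [← h1, ← integral_const_mul, ← integral_const_mul]
    congr 1
    ext x
    have h2 := integral_dil hβ (fun y => ψ (β • x) ^ 2 * ψ y ^ 2 / ‖β • x - y‖)
    rw [smul_eq_mul] at h2
    rw [← h2, ← integral_const_mul]
    congr 1
    ext y
    unfold dil
    rw [← smul_sub, norm_smul, Real.norm_eq_abs, abs_of_pos hβ]
    rcases eq_or_ne ‖x - y‖ 0 with hx | hx
    · simp [hx]
    · field_simp
  unfold energy
  rw [e1, e2, e3, e4]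
  have hA2 : A' = A * α ^ 2 / β ^ 4 := by
    rw [eq_div_iff (by positivity)]
    exact hA'
  have hz2 : z' = z * α ^ 2 / β ^ 3 := by
    rw [eq_div_iff (by positivity)]
    exact hz
  rw [hA2, hz2]
  field_simp

theorem dil_dil {α β : ℝ} (hα : 0 < α) (hβ : 0 < β) (ψ : E3 → ℝ) :
    dil α β (dil α⁻¹ β⁻¹ ψ) = ψ := by
  ext x
  unfold dil
  rw [smul_smul, inv_mul_cancel₀ hβ.ne', one_smul, mul_inv_cancel_left₀ hα.ne']

theorem dilg_dilg {α β : ℝ} (hα : 0 < α) (hβ : 0 < β) (g : E3 → E3) :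
    dilg α β (dilg α⁻¹ β⁻¹ g) = g := by
  ext1 x
  unfold dilg
  rw [smul_smul, smul_smul, inv_mul_cancel₀ hβ.ne', one_smul]
  have : α * β * (α⁻¹ * β⁻¹) = 1 := by field_simp
  rw [this, one_smul]

theorem IsMinimizer.dil {A γ Ce p z lam A' γ' Ce' z' lam' α β : ℝ} (hα : 0 < α) (hβ : 0 < β)
    (hA' : A' * β ^ 4 = A * α ^ 2) (hγ : γ' * α ^ (2 * p) * β ^ 2 = γ * α ^ 4)
    (hCe : Ce' * α ^ (8 / 3 : ℝ) * β ^ 2 = Ce * α ^ 4) (hz : z' * β ^ 3 = z * α ^ 2)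
    (hlam : lam' * β ^ 3 = lam * α ^ 2) {ψ : E3 → ℝ} (h : IsMinimizer A γ Ce p z lam ψ) :
    IsMinimizer A' γ' Ce' p z' lam' (dil α β ψ) := by
  obtain ⟨g, hadm, hm, hmin⟩ := h
  have hlam' : lam' = α ^ 2 * ((β ^ 3)⁻¹ * lam) := by
    have : lam' = lam * α ^ 2 / β ^ 3 := by
      rw [eq_div_iff (by positivity)]
      exact hlam
    rw [this]
    ring
  refine ⟨dilg α β g, hadm.dil hβ, ?_, fun ψ' g' h' hm' => ?_⟩
  · rw [mass_dil hβ, hm, hlam']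
  · have h1 : Adm p (Pool.Agent.W_MP_b91f46_mp.dil α⁻¹ β⁻¹ ψ') (dilg α⁻¹ β⁻¹ g') :=
      h'.dil (inv_pos.2 hβ)
    have h2 : ∫ x, Pool.Agent.W_MP_b91f46_mp.dil α⁻¹ β⁻¹ ψ' x ^ 2 = lam := by
      rw [mass_dil (inv_pos.2 hβ), hm', hlam']
      field_simp
    have h3 := hmin _ _ h1 h2
    rw [← dil_dil hα hβ ψ', ← dilg_dilg hα hβ g', energy_dil hα hβ hA' hγ hCe hz,
      energy_dil hα hβ hA' hγ hCe hz]
    exact mul_le_mul_of_nonneg_left h3 (by positivity)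

theorem SymDecr.dil {α β : ℝ} (hα : 0 < α) (hβ : 0 < β) {ψ : E3 → ℝ} (h : SymDecr ψ) :
    SymDecr (dil α β ψ) := by
  obtain ⟨f, hf0, hfa, hae⟩ := h
  refine ⟨fun r => α * f (β * r), fun r hr => mul_nonneg hα.le (hf0 _ (by positivity)), ?_, ?_⟩
  · intro r hr s hs hrs
    refine mul_le_mul_of_nonneg_left ?_ hα.le
    exact hfa (mul_pos hβ hr : 0 < β * r) (mul_pos hβ hs : 0 < β * s)
      (mul_le_mul_of_nonneg_left hrs hβ.le)
  · have hq : Measure.QuasiMeasurePreserving (fun x : E3 => β • x) volume volume := by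
      refine ⟨measurable_const_smul β, ?_⟩
      rw [Measure.map_addHaar_smul _ hβ.ne']
      exact Measure.smul_absolutelyContinuous
    have := hq.ae hae
    filter_upwards [this] with x hx
    unfold Pool.Agent.W_MP_b91f46_mp.dil
    rw [hx, norm_smul, Real.norm_eq_abs, abs_of_pos hβ]

end Pool.Agent.W_MP_b91f46_mp
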