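import Pool.Agent.W_MP_b91f46_mp.Final
import Pool.Agent.W_MP_b91f46_mp.Scale

open MeasureTheory Filter Topology Set
open scoped RealInnerProductSpace ContDiff ENNReal

namespace Pool.Agent.W_MP_b91f46_mp

theorem main_general {p γ Ce : ℝ} (hp : 4 / 3 < p) (hγ : 0 < γ) (hCe : 0 < Ce) :
    ∃ A₀ > 0, ∀ A, 0 < A → A < A₀ → ∃ z₀ > 0, ∀ z, 0 < z → z < z₀ →
      ∃ lam, z < lam ∧ (∃ ψ, IsMinimizer A γ Ce p z lam ψ) ∧
        ∀ ψ, IsMinimizer A γ Ce p z lam ψ → ¬ SymDecr ψ ∧ ¬ SymDecr (fun x => -ψ x) := by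
  have hp1 : 0 < p - 1 := by linarith
  have hp0 : 0 < p := by linarith
  have hpe : 0 < 2 * p - 8 / 3 := by linarith
  set Q : ℝ := p * Ce / (4 * (p - 1) * γ) with hQ
  have hQ0 : 0 < Q := by positivity
  set α : ℝ := Q ^ (1 / (2 * p - 8 / 3)) with hα
  have hα0 : 0 < α := Real.rpow_pos_of_pos hQ0 _
  have hαQ : α ^ (2 * p - 8 / 3) = Q := by
    rw [hα, ← Real.rpow_mul hQ0.le, one_div, inv_mul_cancel₀ hpe.ne', Real.rpow_one]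
  have hα83 : 0 < α ^ (8 / 3 : ℝ) := Real.rpow_pos_of_pos hα0 _
  set B : ℝ := 4 * (p - 1) * α ^ 4 / (Ce * α ^ (8 / 3 : ℝ)) with hB
  have hB0 : 0 < B := by positivity
  set β : ℝ := √B with hβ
  have hβ0 : 0 < β := Real.sqrt_pos.2 hB0
  have hβ2 : β ^ 2 = B := Real.sq_sqrt hB0.le
  -- the two relations
  have hCe' : Ce * α ^ (8 / 3 : ℝ) * β ^ 2 = 4 * (p - 1) * α ^ 4 := by
    rw [hβ2, hB]
    field_simp
  have hsplit : α ^ (2 * p) = Q * α ^ (8 / 3 : ℝ) := by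
    rw [← hαQ, ← Real.rpow_add hα0]
    congr 1
    ring
  have hγ' : γ * α ^ (2 * p) * β ^ 2 = p * α ^ 4 := by
    rw [hsplit, hβ2, hB, hQ]
    field_simp
  obtain ⟨A₀, hA₀, hmain⟩ := main hp
  refine ⟨A₀ * α ^ 2 / β ^ 4, by positivity, fun A hA hAlt => ?_⟩
  set A₁ : ℝ := A * β ^ 4 / α ^ 2 with hA₁
  have hA₁pos : 0 < A₁ := by positivity
  have hA₁lt : A₁ < A₀ := by
    rw [hA₁, div_lt_iff₀ (by positivity)]
    rw [lt_div_iff₀ (by positivity)] at hAlt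
    exact hAlt
  obtain ⟨z₀, hz₀, hmain2⟩ := hmain A₁ hA₁pos hA₁lt
  refine ⟨z₀ * α ^ 2 / β ^ 3, by positivity, fun z hz hzlt => ?_⟩
  set z₁ : ℝ := z * β ^ 3 / α ^ 2 with hz₁
  have hz₁pos : 0 < z₁ := by positivity
  have hz₁lt : z₁ < z₀ := by
    rw [hz₁, div_lt_iff₀ (by positivity)]
    rw [lt_div_iff₀ (by positivity)] at hzlt
    exact hzlt
  obtain ⟨lam₁, hlam₁, ⟨ψ₁, hψ₁⟩, hall⟩ := hmain2 z₁ hz₁pos hz₁lt
  have hAr : A * β ^ 4 = A₁ * α ^ 2 := by rw [hA₁]; field_simp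
  have hzr : z * β ^ 3 = z₁ * α ^ 2 := by rw [hz₁]; field_simp
  have hlr : lam₁ * α ^ 2 / β ^ 3 * β ^ 3 = lam₁ * α ^ 2 := by field_simp
  refine ⟨lam₁ * α ^ 2 / β ^ 3, ?_, ⟨_, hψ₁.dil hα0 hβ0 hAr hγ' hCe' hzr hlr⟩, ?_⟩
  · rw [lt_div_iff₀ (by positivity), hzr]
    exact mul_lt_mul_of_pos_right hlam₁ (by positivity)
  · intro ψ hψ
    have hαi : 0 < α⁻¹ := inv_pos.2 hα0
    have hβi : 0 < β⁻¹ := inv_pos.2 hβ0
    have e1 : A₁ * β⁻¹ ^ 4 = A * α⁻¹ ^ 2 := by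
      rw [hA₁]
      field_simp
    have e2 : p * α⁻¹ ^ (2 * p) * β⁻¹ ^ 2 = γ * α⁻¹ ^ 4 := by
      rw [Real.inv_rpow hα0.le]
      have h1 : 0 < α ^ (2 * p) := Real.rpow_pos_of_pos hα0 _
      generalize α ^ (2 * p) = X at hγ' h1
      field_simp
      linarith
    have e3 : 4 * (p - 1) * α⁻¹ ^ (8 / 3 : ℝ) * β⁻¹ ^ 2 = Ce * α⁻¹ ^ 4 := by
      rw [Real.inv_rpow hα0.le]
      generalize α ^ (8 / 3 : ℝ) = X at hCe' hα83
      field_simp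
      linarith
    have e4 : z₁ * β⁻¹ ^ 3 = z * α⁻¹ ^ 2 := by
      rw [hz₁]
      field_simp
    have e5 : lam₁ * β⁻¹ ^ 3 = lam₁ * α ^ 2 / β ^ 3 * α⁻¹ ^ 2 := by
      field_simp
    have h1 := hall _ (hψ.dil hαi hβi e1 e2 e3 e4 e5)
    refine ⟨fun h => h1.1 (h.dil hαi hβi), fun h => h1.2 ?_⟩
    have h2 := h.dil hαi hβi
    have h3 : (fun x => -dil α⁻¹ β⁻¹ ψ x) = dil α⁻¹ β⁻¹ (fun x => -ψ x) := by
      ext x
      unfold dil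
      ring
    rw [h3]
    exact h2

end Pool.Agent.W_MP_b91f46_mp
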