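import Pool.Agent.W_MP_b91f46_mp.Defs

open MeasureTheory Filter Topology Set
open scoped RealInnerProductSpace ContDiff ENNReal

namespace Pool.Agent.W_MP_b91f46_mp

/-- the constants attached to `p` used throughout. -/
structure Consts (p tb c1 T : ℝ) : Prop where
  tb_pos : 0 < tb
  tb_lt : tb < 1
  c1_pos : 0 < c1
  low : ∀ t, 0 ≤ t → t ≤ tb → c1 * t ≤ G p t
  mono : MonotoneOn (J' p) (Ici tb)
  T_ge : 1 ≤ T
  high : ∀ t, T ≤ t → t ≤ G p t

/-- `G(t) = t (s^q - 1 - q (s-1))` with `s = t^{1/3}`, `q = 3(p-1)`. -/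
theorem G_eq {p t : ℝ} (hp : 4 / 3 < p) (ht : 0 ≤ t) :
    G p t = t * ((t ^ (1 / 3 : ℝ)) ^ (3 * (p - 1)) - 1 - (3 * (p - 1)) * (t ^ (1 / 3 : ℝ) - 1)) := by
  rcases ht.eq_or_lt with rfl | ht'
  · unfold G J
    rw [Real.zero_rpow (by linarith), Real.zero_rpow (by norm_num)]
    ring
  · have h1 : (t ^ (1 / 3 : ℝ)) ^ (3 * (p - 1)) = t ^ (p - 1) := by
      rw [← Real.rpow_mul ht]
      congr 1
      ring
    have h2 : t ^ p = t * t ^ (p - 1) := by
      rw [← Real.rpow_one_add' ht (by linarith)]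
      congr 1
      ring
    have h3 : t ^ (4 / 3 : ℝ) = t * t ^ (1 / 3 : ℝ) := by
      rw [← Real.rpow_one_add' ht (by norm_num)]
      norm_num
    unfold G J
    rw [h1, h2, h3]
    ring

theorem bern {q s : ℝ} (hq : 1 ≤ q) (hs : 0 ≤ s) : 0 ≤ s ^ q - 1 - q * (s - 1) := by
  have := one_add_mul_self_le_rpow_one_add (show (-1 : ℝ) ≤ s - 1 by linarith) hq
  rw [show 1 + (s - 1) = s by ring] at this
  linarith

theorem G_nonneg {p t : ℝ} (hp : 4 / 3 < p) (ht : 0 ≤ t) : 0 ≤ G p t := by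
  rw [G_eq hp ht]
  exact mul_nonneg ht (bern (by linarith) (Real.rpow_nonneg ht _))

theorem G_zero {p : ℝ} (hp : 4 / 3 < p) : G p 0 = 0 := by
  rw [G_eq hp le_rfl, zero_mul]

theorem G_one (p : ℝ) : G p 1 = 0 := by
  unfold G J
  rw [Real.one_rpow, Real.one_rpow]
  ring

theorem cube_rpow_third {s : ℝ} (hs : 0 ≤ s) : (s ^ 3) ^ (1 / 3 : ℝ) = s := by
  rw [← Real.rpow_natCast, ← Real.rpow_mul hs]
  norm_num

theorem J'_eq {p t : ℝ} (ht : 0 ≤ t) :
    J' p t = p * (t ^ (1 / 3 : ℝ)) ^ (3 * (p - 1)) - 4 * (p - 1) * t ^ (1 / 3 : ℝ) := by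
  unfold J'
  rw [← Real.rpow_mul ht]
  congr 3
  ring

theorem exists_consts {p : ℝ} (hp : 4 / 3 < p) : ∃ tb c1 T, Consts p tb c1 T := by
  set q : ℝ := 3 * (p - 1) with hq
  have hq1 : 1 < q := by linarith
  have hq0 : 0 < q := by linarith
  have hp0 : 0 < p := by linarith
  -- the threshold
  set b : ℝ := (4 / (3 * p)) ^ (1 / (q - 1)) with hb
  have hb0 : 0 < 4 / (3 * p) := by positivity
  have hb1 : 4 / (3 * p) < 1 := by
    rw [div_lt_one (by positivity)]
    linarith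
  have hbpos : 0 < b := Real.rpow_pos_of_pos hb0 _
  have hblt : b < 1 := Real.rpow_lt_one hb0.le hb1 (by
    have : 0 < q - 1 := by linarith
    positivity)
  have hbq : b ^ (q - 1) = 4 / (3 * p) := by
    rw [hb, ← Real.rpow_mul hb0.le, one_div, inv_mul_cancel₀ (by linarith), Real.rpow_one]
  -- minimum of H on [0,b]
  have hcont : ContinuousOn (fun s : ℝ => s ^ q - 1 - q * (s - 1)) (Icc 0 b) := by
    have : Continuous (fun s : ℝ => s ^ q) := Real.continuous_rpow_const hq0.le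
    fun_prop
  obtain ⟨s0, hs0, hmin⟩ := isCompact_Icc.exists_isMinOn (nonempty_Icc.2 hbpos.le) hcont
  have hc1 : 0 < s0 ^ q - 1 - q * (s0 - 1) := by
    have h1 := one_add_mul_self_lt_rpow_one_add (show (-1 : ℝ) ≤ s0 - 1 by linarith [hs0.1])
      (show s0 - 1 ≠ 0 by linarith [hs0.2]) hq1
    rw [show 1 + (s0 - 1) = s0 by ring] at h1
    linarith
  -- T
  set sT : ℝ := max 1 ((q + 1) ^ (1 / (q - 1))) with hsT
  have hsT1 : 1 ≤ sT := le_max_left _ _
  have hsTq : q + 1 ≤ sT ^ (q - 1) := by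
    have h1 : ((q + 1) ^ (1 / (q - 1))) ^ (q - 1) = q + 1 := by
      rw [← Real.rpow_mul (by linarith), one_div, inv_mul_cancel₀ (by linarith), Real.rpow_one]
    calc q + 1 = ((q + 1) ^ (1 / (q - 1))) ^ (q - 1) := h1.symm
      _ ≤ sT ^ (q - 1) := Real.rpow_le_rpow (by positivity) (le_max_right _ _) (by linarith)
  have third_mono : ∀ {t s : ℝ}, 0 ≤ s → s ^ 3 ≤ t → s ≤ t ^ (1 / 3 : ℝ) := by
    intro t s hs hst
    have := Real.rpow_le_rpow (by positivity) hst (show (0 : ℝ) ≤ 1 / 3 by norm_num)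
    rwa [cube_rpow_third hs] at this
  refine ⟨b ^ 3, s0 ^ q - 1 - q * (s0 - 1), sT ^ 3, ?_⟩
  constructor
  · positivity
  · exact pow_lt_one₀ hbpos.le hblt (by norm_num)
  · exact hc1
  · intro t ht htb
    rw [G_eq hp ht, mul_comm]
    refine mul_le_mul_of_nonneg_left ?_ ht
    have hs1 : t ^ (1 / 3 : ℝ) ≤ b := by
      have := Real.rpow_le_rpow ht htb (show (0 : ℝ) ≤ 1 / 3 by norm_num)
      rwa [cube_rpow_third hbpos.le] at this
    exact hmin ⟨Real.rpow_nonneg ht _, hs1⟩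
  · intro t ht t' ht' htt'
    have ht0 : 0 ≤ t := le_trans (by positivity) ht
    have ht0' : 0 ≤ t' := ht0.trans htt'
    rw [J'_eq ht0, J'_eq ht0']
    set s := t ^ (1 / 3 : ℝ) with hs
    set s' := t' ^ (1 / 3 : ℝ) with hs'
    have hbs : b ≤ s := third_mono hbpos.le ht
    have hss' : s ≤ s' := Real.rpow_le_rpow ht0 htt' (by norm_num)
    have hspos : 0 < s := hbpos.trans_le hbs
    have h1 : s ^ q + q * s ^ (q - 1) * (s' - s) ≤ s' ^ q := by
      have h2 := bern hq1.le (div_nonneg (hspos.le.trans hss') hspos.le : 0 ≤ s' / s)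
      have h3 : (s' / s) ^ q = s' ^ q / s ^ q := Real.div_rpow (hspos.le.trans hss') hspos.le q
      rw [h3] at h2
      have h4 : 0 < s ^ q := Real.rpow_pos_of_pos hspos _
      have h5 : s ^ q = s * s ^ (q - 1) := by
        rw [← Real.rpow_one_add' hspos.le (by linarith)]
        congr 1
        ring
      have h6 := mul_nonneg h4.le h2
      have h7 : s ^ q * (s' ^ q / s ^ q - 1 - q * (s' / s - 1))
          = s' ^ q - s ^ q - q * s ^ (q - 1) * (s' - s) := by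
        have : s ^ q * (q * (s' / s - 1)) = q * s ^ (q - 1) * (s' - s) := by
          rw [h5]
          field_simp
        rw [mul_sub, mul_sub, this, mul_div_cancel₀ _ h4.ne']
        ring
      rw [h7] at h6
      linarith
    have h2 : 4 / (3 * p) ≤ s ^ (q - 1) := by
      rw [← hbq]
      exact Real.rpow_le_rpow hbpos.le hbs (by linarith)
    have h3 : 4 ≤ 3 * p * s ^ (q - 1) := by
      rw [div_le_iff₀ (by positivity)] at h2
      linarith
    have h4 : 0 ≤ (p - 1) * (s' - s) * (3 * p * s ^ (q - 1) - 4) :=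
      mul_nonneg (mul_nonneg (by linarith) (by linarith)) (by linarith)
    have h5 := mul_le_mul_of_nonneg_left h1 hp0.le
    have h6 : q * (s' - s) = 3 * ((p - 1) * (s' - s)) := by rw [hq]; ring
    have h7 : p * (s ^ q + q * s ^ (q - 1) * (s' - s))
        = p * s ^ q + (p - 1) * (s' - s) * (3 * p * s ^ (q - 1)) := by
      rw [hq]; ring
    rw [h7] at h5
    linarith
  · exact one_le_pow₀ hsT1
  · intro t ht
    have ht0 : 0 ≤ t := le_trans (by positivity) ht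
    rw [G_eq hp ht0]
    set s := t ^ (1 / 3 : ℝ) with hs
    have hsT' : sT ≤ s := third_mono (by linarith) ht
    have hs1 : 1 ≤ s := hsT1.trans hsT'
    have h1 : q + 1 ≤ s ^ (q - 1) := hsTq.trans (Real.rpow_le_rpow (by linarith) hsT' (by linarith))
    have h5 : s ^ q = s * s ^ (q - 1) := by
      rw [← Real.rpow_one_add' (by linarith) (by linarith)]
      congr 1
      ring
    have h6 : 1 ≤ s ^ q - 1 - q * (s - 1) := by
      rw [h5]
      nlinarith
    calc t = t * 1 := (mul_one t).symm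
      _ ≤ _ := mul_le_mul_of_nonneg_left h6 ht0

theorem rpow_le_G {p : ℝ} (hp : 4 / 3 < p) :
    ∃ C, 0 < C ∧ ∀ t, 0 ≤ t → t ^ p ≤ C * (G p t + t) := by
  set q : ℝ := 3 * (p - 1) with hq
  have hq1 : 1 < q := by linarith
  set sT : ℝ := (2 * q) ^ (1 / (q - 1)) with hsT
  have hsT0 : 0 < sT := Real.rpow_pos_of_pos (by linarith) _
  have hsTq : sT ^ (q - 1) = 2 * q := by
    rw [hsT, ← Real.rpow_mul (by linarith), one_div, inv_mul_cancel₀ (by linarith), Real.rpow_one]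
  have hsTp : 0 < sT ^ q := Real.rpow_pos_of_pos hsT0 _
  refine ⟨2 + sT ^ q, by positivity, fun t ht => ?_⟩
  rcases ht.eq_or_lt with rfl | ht'
  · rw [Real.zero_rpow (by linarith), G_zero hp]
    simp
  have h1 : (t ^ (1 / 3 : ℝ)) ^ q = t ^ (p - 1) := by
    rw [← Real.rpow_mul ht]
    congr 1
    ring
  have h2 : t ^ p = t * (t ^ (1 / 3 : ℝ)) ^ q := by
    rw [h1, ← Real.rpow_one_add' ht (by linarith)]
    congr 1
    ring
  rw [h2, G_eq hp ht]
  set s := t ^ (1 / 3 : ℝ) with hs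
  have hs0 : 0 < s := Real.rpow_pos_of_pos ht' _
  have hb := bern hq1.le hs0.le
  have hsq : 0 < s ^ q := Real.rpow_pos_of_pos hs0 _
  have key : s ^ q ≤ (2 + sT ^ q) * ((s ^ q - 1 - q * (s - 1)) + 1) := by
    rcases le_total s sT with h | h
    · have h3 : s ^ q ≤ sT ^ q := Real.rpow_le_rpow hs0.le h (by linarith)
      nlinarith
    · have h3 : 2 * q ≤ s ^ (q - 1) := by
        rw [← hsTq]
        exact Real.rpow_le_rpow hsT0.le h (by linarith)
      have h5 : s ^ q = s * s ^ (q - 1) := by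
        rw [← Real.rpow_one_add' hs0.le (by linarith)]
        congr 1
        ring
      have h6 : 2 * (q * s) ≤ s ^ q := by
        rw [h5]
        nlinarith
      have h7 : s ^ q ≤ 2 * ((s ^ q - 1 - q * (s - 1)) + 1) := by linarith
      have h8 : 0 ≤ sT ^ q * ((s ^ q - 1 - q * (s - 1)) + 1) := by positivity
      linarith
  calc t * s ^ q ≤ t * ((2 + sT ^ q) * ((s ^ q - 1 - q * (s - 1)) + 1)) :=
        mul_le_mul_of_nonneg_left key ht
    _ = _ := by ring

theorem rpow43_le {p t : ℝ} (hp : 4 / 3 < p) (ht : 0 ≤ t) : t ^ (4 / 3 : ℝ) ≤ t + t ^ p := by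
  have h0 : 0 ≤ t ^ p := Real.rpow_nonneg ht _
  rcases le_total t 1 with h | h
  · rcases ht.eq_or_lt with rfl | ht'
    · rw [Real.zero_rpow (by norm_num)]
      linarith
    · have := Real.rpow_le_rpow_of_exponent_ge ht' h (show (1 : ℝ) ≤ 4 / 3 by norm_num)
      rw [Real.rpow_one] at this
      linarith
  · have := Real.rpow_le_rpow_of_exponent_le h hp.le
    linarith

theorem abs_G_le {p : ℝ} (hp : 4 / 3 < p) :
    ∃ C, 0 < C ∧ ∀ t, 0 ≤ t → |G p t| ≤ C * (t + t ^ p) := by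
  refine ⟨1 + 3 * (p - 1) + (3 * p - 4), by linarith, fun t ht => ?_⟩
  have h1 := rpow43_le hp ht
  have h2 : 0 ≤ t ^ p := Real.rpow_nonneg ht _
  have h3 : 0 ≤ t ^ (4 / 3 : ℝ) := Real.rpow_nonneg ht _
  rw [abs_of_nonneg (G_nonneg hp ht)]
  unfold G J
  nlinarith

theorem abs_J'_le {p : ℝ} (hp : 4 / 3 < p) (M : ℝ) :
    ∃ C, 0 < C ∧ ∀ t, 0 ≤ t → t ≤ M → |J' p t| ≤ C := by
  refine ⟨p * |M| ^ (p - 1) + 4 * (p - 1) * |M| ^ (1 / 3 : ℝ) + 1, ?_, fun t ht htM => ?_⟩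
  · have h1 : 0 ≤ |M| ^ (p - 1) := Real.rpow_nonneg (abs_nonneg _) _
    have h2 : 0 ≤ |M| ^ (1 / 3 : ℝ) := Real.rpow_nonneg (abs_nonneg _) _
    have h3 : 0 ≤ p * |M| ^ (p - 1) := mul_nonneg (by linarith) h1
    have h4 : 0 ≤ 4 * (p - 1) * |M| ^ (1 / 3 : ℝ) := mul_nonneg (by linarith) h2
    linarith
  · have hM : t ≤ |M| := htM.trans (le_abs_self _)
    have h1 : t ^ (p - 1) ≤ |M| ^ (p - 1) := Real.rpow_le_rpow ht hM (by linarith)
    have h2 : t ^ (1 / 3 : ℝ) ≤ |M| ^ (1 / 3 : ℝ) := Real.rpow_le_rpow ht hM (by norm_num)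
    have h3 : 0 ≤ t ^ (p - 1) := Real.rpow_nonneg ht _
    have h4 : 0 ≤ t ^ (1 / 3 : ℝ) := Real.rpow_nonneg ht _
    have h5 : p * t ^ (p - 1) ≤ p * |M| ^ (p - 1) := mul_le_mul_of_nonneg_left h1 (by linarith)
    have h6 : 4 * (p - 1) * t ^ (1 / 3 : ℝ) ≤ 4 * (p - 1) * |M| ^ (1 / 3 : ℝ) :=
      mul_le_mul_of_nonneg_left h2 (by linarith)
    have h7 : 0 ≤ p * t ^ (p - 1) := mul_nonneg (by linarith) h3
    have h8 : 0 ≤ 4 * (p - 1) * t ^ (1 / 3 : ℝ) := mul_nonneg (by linarith) h4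
    unfold J'
    rw [abs_le]
    constructor <;> linarith

theorem continuous_G {p : ℝ} (hp : 4 / 3 < p) : Continuous (G p) := by
  have h1 : Continuous (fun t : ℝ => t ^ p) := Real.continuous_rpow_const (by linarith)
  have h2 : Continuous (fun t : ℝ => t ^ (4 / 3 : ℝ)) := Real.continuous_rpow_const (by norm_num)
  unfold G J
  fun_prop

end Pool.Agent.W_MP_b91f46_mp
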