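import Pool.Agent.W_MP_b91f46_mp.Nonlin

/-!
# MP_b91f46_mp: Taylor bound for `J(s²)` and a Brezis-Lieb type pointwise inequality
-/

open MeasureTheory Filter Topology Set
open scoped RealInnerProductSpace ContDiff ENNReal

namespace Pool.Agent.W_MP_b91f46_mp

namespace NonlinBAux

/-- second order Taylor bound for a real power on a compact interval of positive numbers -/
theorem rpow_taylor (a : ℝ) {m : ℝ} (M : ℝ) (hm : 0 < m) :
    ∃ C, 0 < C ∧ ∀ s, m ≤ s → s ≤ M → ∀ h, |h| ≤ m / 2 →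
      |(s + h) ^ a - s ^ a - h * (a * s ^ (a - 1))| ≤ C * h ^ 2 := by
  set lo := m / 2 with hlo
  set hi := M + m / 2 with hhi
  have hlo0 : 0 < lo := by positivity
  set K := |a| * |a - 1| * (lo ^ (a - 2) + |hi| ^ (a - 2)) with hK
  have hK0 : 0 ≤ K := by positivity
  have hb : ∀ x ∈ Icc lo hi, x ^ (a - 2) ≤ lo ^ (a - 2) + |hi| ^ (a - 2) := by
    intro x hx
    have hx0 : 0 < x := hlo0.trans_le hx.1
    have hhi0 : 0 < hi := hx0.trans_le hx.2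
    rw [abs_of_pos hhi0]
    have h1 : 0 < lo ^ (a - 2) := Real.rpow_pos_of_pos hlo0 _
    have h2 : 0 < hi ^ (a - 2) := Real.rpow_pos_of_pos hhi0 _
    rcases le_total 0 (a - 2) with h | h
    · have := Real.rpow_le_rpow hx0.le hx.2 h
      linarith
    · have := Real.rpow_le_rpow_of_nonpos hlo0 hx.1 h
      linarith
  have hconv : Convex ℝ (Icc lo hi) := convex_Icc lo hi
  have hder : ∀ (b : ℝ), ∀ x ∈ Icc lo hi,
      HasDerivWithinAt (fun y : ℝ => y ^ b) (b * x ^ (b - 1)) (Icc lo hi) x := by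
    intro b x hx
    have hx0 : 0 < x := hlo0.trans_le hx.1
    exact (Real.hasDerivAt_rpow_const (Or.inl hx0.ne')).hasDerivWithinAt
  have h1 : ∀ x ∈ Icc lo hi, ∀ y ∈ Icc lo hi, |a * y ^ (a - 1) - a * x ^ (a - 1)| ≤ K * |y - x| := by
    intro x hx y hy
    have := hconv.norm_image_sub_le_of_norm_hasDerivWithin_le
      (f := fun y : ℝ => a * y ^ (a - 1)) (f' := fun x => a * ((a - 1) * x ^ (a - 1 - 1)))
      (C := K) (fun z hz => (hder (a - 1) z hz).const_mul a) ?_ hx hy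
    · simpa [Real.norm_eq_abs] using this
    · intro z hz
      have hz0 : 0 < z := hlo0.trans_le hz.1
      rw [Real.norm_eq_abs, abs_mul, abs_mul, show a - 1 - 1 = a - 2 by ring,
        abs_of_pos (Real.rpow_pos_of_pos hz0 _), hK, mul_assoc]
      have := hb z hz
      gcongr
  refine ⟨K + 1, by linarith, ?_⟩
  intro s hs1 hs2 h hh
  obtain ⟨hh1, hh2⟩ := abs_le.1 hh
  have hs : s ∈ Icc lo hi := ⟨by rw [hlo]; linarith, by rw [hhi]; linarith⟩
  have hsh : s + h ∈ Icc lo hi := ⟨by rw [hlo]; linarith, by rw [hhi]; linarith⟩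
  set I := uIcc s (s + h) with hI
  have hIsub : I ⊆ Icc lo hi := uIcc_subset_Icc hs hsh
  have hconv2 : Convex ℝ I := convex_uIcc _ _
  have h2 := hconv2.norm_image_sub_le_of_norm_hasDerivWithin_le
      (f := fun y : ℝ => y ^ a - y * (a * s ^ (a - 1)))
      (f' := fun x => a * x ^ (a - 1) - 1 * (a * s ^ (a - 1)))
      (C := K * |h|) (fun z hz => (((hder a z (hIsub hz)).mono hIsub).sub
        ((hasDerivWithinAt_id z I).mul_const _))) ?_ left_mem_uIcc right_mem_uIcc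
  · rw [Real.norm_eq_abs, Real.norm_eq_abs] at h2
    have e1 : (fun y : ℝ => y ^ a - y * (a * s ^ (a - 1))) (s + h) -
        (fun y : ℝ => y ^ a - y * (a * s ^ (a - 1))) s =
        (s + h) ^ a - s ^ a - h * (a * s ^ (a - 1)) := by ring
    rw [e1] at h2
    refine h2.trans ?_
    rw [show s + h - s = h by ring, mul_assoc, abs_mul_abs_self]
    nlinarith [sq_nonneg h]
  · intro z hz
    rw [one_mul, Real.norm_eq_abs]
    refine (h1 s hs z (hIsub hz)).trans ?_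
    have : |z - s| ≤ |h| := by
      have := abs_sub_left_of_mem_uIcc hz
      simpa using this
    gcongr

/-- perturbation of a power -/
theorem pow_perturb {r δ : ℝ} (hr : 0 < r) (hδ : 0 < δ) :
    ∃ C, 0 < C ∧ ∀ a b : ℝ,
      |((a + b) ^ 2) ^ r - (a ^ 2) ^ r| ≤ δ * (a ^ 2) ^ r + C * (b ^ 2) ^ r := by
  have hc : Tendsto (fun η : ℝ => ((1 + η) ^ 2) ^ r - ((1 - η) ^ 2) ^ r) (𝓝 0)
      (𝓝 (((1 + 0 : ℝ) ^ 2) ^ r - ((1 - 0 : ℝ) ^ 2) ^ r)) := by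
    apply Continuous.tendsto
    exact ((by fun_prop : Continuous fun η : ℝ => (1 + η) ^ 2).rpow_const fun _ => Or.inr hr.le).sub
      ((by fun_prop : Continuous fun η : ℝ => (1 - η) ^ 2).rpow_const fun _ => Or.inr hr.le)
  have h0 : ((1 + 0 : ℝ) ^ 2) ^ r - ((1 - 0 : ℝ) ^ 2) ^ r = 0 := by norm_num
  rw [h0] at hc
  obtain ⟨η, hη0, hη1, hη⟩ : ∃ η : ℝ, 0 < η ∧ η < 1 ∧ ((1 + η) ^ 2) ^ r - ((1 - η) ^ 2) ^ r < δ := by
    have h1 : ∀ᶠ η : ℝ in 𝓝 0, ((1 + η) ^ 2) ^ r - ((1 - η) ^ 2) ^ r < δ :=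
      hc.eventually_lt_const hδ
    have h2 : ∀ᶠ η : ℝ in 𝓝[>] 0, ((1 + η) ^ 2) ^ r - ((1 - η) ^ 2) ^ r < δ :=
      h1.filter_mono nhdsWithin_le_nhds
    have h3 : ∀ᶠ η : ℝ in 𝓝[>] 0, η ∈ Ioo (0 : ℝ) 1 :=
      Ioo_mem_nhdsGT one_pos
    obtain ⟨η, h4, h5⟩ := (h2.and h3).exists
    exact ⟨η, h5.1, h5.2, h4⟩
  set C := ((1 + 1 / η) ^ 2) ^ r with hC
  have hCpos : 0 < C := by positivity
  refine ⟨C, hCpos, ?_⟩
  intro a b
  have hA : 0 ≤ (a ^ 2) ^ r := by positivity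
  have hB : 0 ≤ (b ^ 2) ^ r := by positivity
  rcases le_total |b| (η * |a|) with h | h
  · -- small perturbation
    have u1 : (a + b) ^ 2 ≤ (1 + η) ^ 2 * a ^ 2 := by
      have : |a + b| ≤ (1 + η) * |a| := by
        have := abs_add_le a b
        linarith
      calc (a + b) ^ 2 = |a + b| ^ 2 := (sq_abs _).symm
        _ ≤ ((1 + η) * |a|) ^ 2 := by gcongr
        _ = (1 + η) ^ 2 * a ^ 2 := by rw [mul_pow, sq_abs]
    have u2 : (1 - η) ^ 2 * a ^ 2 ≤ (a + b) ^ 2 := by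
      have h1 : (1 - η) * |a| ≤ |a + b| := by
        have : |a| ≤ |a + b| + |b| := by
          calc |a| = |a + b - b| := by ring_nf
            _ ≤ |a + b| + |b| := abs_sub _ _
        linarith
      have h2 : 0 ≤ (1 - η) * |a| := mul_nonneg (by linarith) (abs_nonneg _)
      calc (1 - η) ^ 2 * a ^ 2 = ((1 - η) * |a|) ^ 2 := by rw [mul_pow, sq_abs]
        _ ≤ |a + b| ^ 2 := by gcongr
        _ = (a + b) ^ 2 := sq_abs _
    have v1 : ((a + b) ^ 2) ^ r ≤ ((1 + η) ^ 2) ^ r * (a ^ 2) ^ r := by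
      rw [← Real.mul_rpow (by positivity) (by positivity)]
      exact Real.rpow_le_rpow (by positivity) u1 hr.le
    have v2 : ((1 - η) ^ 2) ^ r * (a ^ 2) ^ r ≤ ((a + b) ^ 2) ^ r := by
      rw [← Real.mul_rpow (by positivity) (by positivity)]
      exact Real.rpow_le_rpow (by positivity) u2 hr.le
    have w1 : 1 ≤ ((1 + η) ^ 2) ^ r := by
      apply Real.one_le_rpow _ hr.le
      nlinarith
    have w2 : ((1 - η) ^ 2) ^ r ≤ 1 := by
      apply Real.rpow_le_one (by positivity) _ hr.le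
      nlinarith
    have : |((a + b) ^ 2) ^ r - (a ^ 2) ^ r| ≤ δ * (a ^ 2) ^ r := by
      rw [abs_le]
      constructor
      · nlinarith
      · nlinarith
    have : 0 ≤ C * (b ^ 2) ^ r := by positivity
    linarith
  · -- large perturbation
    have ha : |a| ≤ 1 / η * |b| := by
      rw [div_mul_eq_mul_div, one_mul, le_div_iff₀ hη0]
      linarith
    have u1 : (a + b) ^ 2 ≤ (1 + 1 / η) ^ 2 * b ^ 2 := by
      have : |a + b| ≤ (1 + 1 / η) * |b| := by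
        have := abs_add_le a b
        linarith
      calc (a + b) ^ 2 = |a + b| ^ 2 := (sq_abs _).symm
        _ ≤ ((1 + 1 / η) * |b|) ^ 2 := by gcongr
        _ = (1 + 1 / η) ^ 2 * b ^ 2 := by rw [mul_pow, sq_abs]
    have u2 : a ^ 2 ≤ (1 + 1 / η) ^ 2 * b ^ 2 := by
      have h1 : |a| ≤ (1 + 1 / η) * |b| := by
        have := abs_nonneg b
        linarith
      calc a ^ 2 = |a| ^ 2 := (sq_abs _).symm
        _ ≤ ((1 + 1 / η) * |b|) ^ 2 := by gcongr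
        _ = (1 + 1 / η) ^ 2 * b ^ 2 := by rw [mul_pow, sq_abs]
    have v1 : ((a + b) ^ 2) ^ r ≤ C * (b ^ 2) ^ r := by
      rw [hC, ← Real.mul_rpow (by positivity) (by positivity)]
      exact Real.rpow_le_rpow (by positivity) u1 hr.le
    have v2 : (a ^ 2) ^ r ≤ C * (b ^ 2) ^ r := by
      rw [hC, ← Real.mul_rpow (by positivity) (by positivity)]
      exact Real.rpow_le_rpow (by positivity) u2 hr.le
    have v3 : 0 ≤ ((a + b) ^ 2) ^ r := by positivity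
    have : 0 ≤ δ * (a ^ 2) ^ r := by positivity
    rw [abs_le]
    constructor <;> linarith

end NonlinBAux

open NonlinBAux

theorem J_taylor {p : ℝ} (hp : 4 / 3 < p) {m M : ℝ} (hm : 0 < m) :
    ∃ C, 0 < C ∧ ∀ s, m ≤ s → s ≤ M → ∀ h, |h| ≤ m / 2 →
      |J p ((s + h) ^ 2) - J p (s ^ 2) - 2 * h * s * J' p (s ^ 2)| ≤ C * h ^ 2 := by
  obtain ⟨C1, hC1, h1⟩ := rpow_taylor (2 * p) M hm
  obtain ⟨C2, hC2, h2⟩ := rpow_taylor (8 / 3) M hm
  refine ⟨C1 + 3 * (p - 1) * C2, by have : 0 < p - 1 := by linarith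
                                    positivity, ?_⟩
  intro s hs1 hs2 h hh
  have hs : 0 < s := hm.trans_le hs1
  obtain ⟨hh1, hh2⟩ := abs_le.1 hh
  have hsh : 0 < s + h := by linarith
  have e1 : ∀ (x a : ℝ), 0 < x → (x ^ 2) ^ a = x ^ (2 * a) := by
    intro x a hx
    rw [← Real.rpow_natCast x 2, ← Real.rpow_mul hx.le]
    norm_num
  have k1 := h1 s hs1 hs2 h hh
  have k2 := h2 s hs1 hs2 h hh
  have e2 : s * s ^ (2 * (p - 1)) = s ^ (2 * p - 1) := by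
    rw [← Real.rpow_one_add' hs.le (by linarith)]
    congr 1; ring
  have e3 : s * s ^ (2 * (1 / 3 : ℝ)) = s ^ (8 / 3 - 1 : ℝ) := by
    rw [← Real.rpow_one_add' hs.le (by norm_num)]
    congr 1; norm_num
  have key : J p ((s + h) ^ 2) - J p (s ^ 2) - 2 * h * s * J' p (s ^ 2) =
      ((s + h) ^ (2 * p) - s ^ (2 * p) - h * (2 * p * s ^ (2 * p - 1))) -
      3 * (p - 1) * ((s + h) ^ (8 / 3 : ℝ) - s ^ (8 / 3 : ℝ) - h * (8 / 3 * s ^ (8 / 3 - 1 : ℝ))) := by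
    unfold J J'
    rw [e1 _ _ hs, e1 _ _ hs, e1 _ _ hsh, e1 _ _ hsh, e1 _ _ hs, e1 _ _ hs, ← e2, ← e3]
    norm_num
    ring
  rw [key]
  have hp1 : 0 ≤ 3 * (p - 1) := by linarith
  refine (abs_sub _ _).trans ?_
  rw [abs_mul, abs_of_nonneg hp1]
  nlinarith

/-- Brezis-Lieb type pointwise inequality for `j(s) = G(s²)`. -/
theorem G_brezis_lieb {p : ℝ} (hp : 4 / 3 < p) {ε : ℝ} (hε : 0 < ε) :
    ∃ C, 0 < C ∧ ∀ a b : ℝ,
      |G p ((a + b) ^ 2) - G p (a ^ 2)| ≤ ε * (a ^ 2 + (a ^ 2) ^ p) + C * (b ^ 2 + (b ^ 2) ^ p) := by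
  set N := 1 + 3 * (p - 1) + (3 * p - 4) with hN
  have hN0 : 0 < N := by rw [hN]; linarith
  set δ := ε / N with hδ
  have hδ0 : 0 < δ := by positivity
  obtain ⟨C1, hC1, h1⟩ := pow_perturb (r := p) (by linarith) hδ0
  obtain ⟨C2, hC2, h2⟩ := pow_perturb (r := (4 / 3 : ℝ)) (by norm_num) hδ0
  obtain ⟨C3, hC3, h3⟩ := pow_perturb (r := (1 : ℝ)) (by norm_num) hδ0
  have hp1 : 0 < 3 * (p - 1) := by linarith
  have hp2 : 0 < 3 * p - 4 := by linarith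
  refine ⟨C1 + 3 * (p - 1) * C2 + (3 * p - 4) * C3, by positivity, ?_⟩
  intro a b
  have k1 := h1 a b
  have k2 := h2 a b
  have k3 := h3 a b
  simp only [Real.rpow_one] at k3
  have t43 : ∀ x : ℝ, (x ^ 2) ^ (4 / 3 : ℝ) ≤ x ^ 2 + (x ^ 2) ^ p := by
    intro x
    have hx : 0 ≤ x ^ 2 := sq_nonneg x
    rcases le_total (x ^ 2) 1 with h | h
    · have : (x ^ 2) ^ (4 / 3 : ℝ) ≤ (x ^ 2) ^ (1 : ℝ) := by
        rcases eq_or_lt_of_le hx with h0 | h0
        · rw [← h0, Real.zero_rpow (by norm_num), Real.zero_rpow (by norm_num)]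
        · exact Real.rpow_le_rpow_of_exponent_ge h0 h (by norm_num)
      rw [Real.rpow_one] at this
      have : 0 ≤ (x ^ 2) ^ p := by positivity
      linarith
    · have : (x ^ 2) ^ (4 / 3 : ℝ) ≤ (x ^ 2) ^ p := Real.rpow_le_rpow_of_exponent_le h hp.le
      linarith
  have key : G p ((a + b) ^ 2) - G p (a ^ 2) =
      (((a + b) ^ 2) ^ p - (a ^ 2) ^ p) -
      3 * (p - 1) * (((a + b) ^ 2) ^ (4 / 3 : ℝ) - (a ^ 2) ^ (4 / 3 : ℝ)) +
      (3 * p - 4) * ((a + b) ^ 2 - a ^ 2) := by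
    unfold G J
    ring
  rw [key]
  have hb : |(((a + b) ^ 2) ^ p - (a ^ 2) ^ p) -
      3 * (p - 1) * (((a + b) ^ 2) ^ (4 / 3 : ℝ) - (a ^ 2) ^ (4 / 3 : ℝ)) +
      (3 * p - 4) * ((a + b) ^ 2 - a ^ 2)| ≤
      |((a + b) ^ 2) ^ p - (a ^ 2) ^ p| +
      3 * (p - 1) * |((a + b) ^ 2) ^ (4 / 3 : ℝ) - (a ^ 2) ^ (4 / 3 : ℝ)| +
      (3 * p - 4) * |(a + b) ^ 2 - a ^ 2| := by
    refine (abs_add_le _ _).trans ?_
    rw [abs_mul (3 * p - 4), abs_of_pos hp2]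
    gcongr
    refine (abs_sub _ _).trans ?_
    rw [abs_mul (3 * (p - 1)), abs_of_pos hp1]
  refine hb.trans ?_
  have ta := t43 a
  have tb := t43 b
  have hεN : ε = δ * N := by rw [hδ]; field_simp
  have ha0 : 0 ≤ (a ^ 2) ^ p := by positivity
  have hb0 : 0 ≤ (b ^ 2) ^ p := by positivity
  have ha1 : 0 ≤ a ^ 2 := by positivity
  have hb1 : 0 ≤ b ^ 2 := by positivity
  have l1 : |((a + b) ^ 2) ^ p - (a ^ 2) ^ p| ≤
      δ * (a ^ 2 + (a ^ 2) ^ p) + C1 * (b ^ 2 + (b ^ 2) ^ p) := by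
    nlinarith [mul_nonneg hδ0.le ha1, mul_nonneg hC1.le hb1]
  have l2 : |((a + b) ^ 2) ^ (4 / 3 : ℝ) - (a ^ 2) ^ (4 / 3 : ℝ)| ≤
      δ * (a ^ 2 + (a ^ 2) ^ p) + C2 * (b ^ 2 + (b ^ 2) ^ p) := by
    have e1 := mul_le_mul_of_nonneg_left ta hδ0.le
    have e2 := mul_le_mul_of_nonneg_left tb hC2.le
    linarith
  have l3 : |(a + b) ^ 2 - a ^ 2| ≤
      δ * (a ^ 2 + (a ^ 2) ^ p) + C3 * (b ^ 2 + (b ^ 2) ^ p) := by
    nlinarith [mul_nonneg hδ0.le ha0, mul_nonneg hC3.le hb0]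
  have m2 := mul_le_mul_of_nonneg_left l2 hp1.le
  have m3 := mul_le_mul_of_nonneg_left l3 hp2.le
  rw [hεN, hN]
  linarith

end Pool.Agent.W_MP_b91f46_mp
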