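import Pool.Agent.W_MP_b91f46_mp.Nonlin
import Pool.Agent.W_MP_b91f46_mp.Avg

open MeasureTheory Filter Topology Set
open scoped RealInnerProductSpace ContDiff ENNReal

namespace Pool.Agent.W_MP_b91f46_mp

namespace NonvanishAux

theorem sq_integrable {ψ : E3 → ℝ} (h : MemLp ψ 2 volume) : Integrable (fun x => ψ x ^ 2) :=
  (memLp_two_iff_integrable_sq h.1).1 h

/-- Cauchy-Schwarz for the ball average. -/
theorem avg_sq_le {ψ : E3 → ℝ} (h : MemLp ψ 2 volume) {ℓ : ℝ} (hℓ : 0 < ℓ) (a : E3) :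
    avg ℓ ψ a ^ 2 * volume.real (Metric.ball (0 : E3) ℓ) ≤ ∫ x in Metric.ball a ℓ, ψ x ^ 2 := by
  set V := volume.real (Metric.ball (0 : E3) ℓ) with hV
  have hVa : volume.real (Metric.ball a ℓ) = V := by
    rw [hV, Measure.real, Measure.real, Measure.addHaar_ball_center]
  have hVpos : 0 < V := by
    rw [hV, Measure.real]
    exact ENNReal.toReal_pos (Metric.measure_ball_pos volume _ hℓ).ne' measure_ball_lt_top.ne
  set m := avg ℓ ψ a with hm
  have hint : IntegrableOn ψ (Metric.ball a ℓ) volume := by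
    have hmem : MemLp ψ 2 (volume.restrict (Metric.ball a ℓ)) := h.restrict _
    have : IsFiniteMeasure (volume.restrict (Metric.ball a ℓ)) := by
      constructor
      rw [Measure.restrict_apply_univ]
      exact measure_ball_lt_top
    exact hmem.integrable (by norm_num)
  have hint2 : IntegrableOn (fun x => ψ x ^ 2) (Metric.ball a ℓ) volume :=
    (sq_integrable h).integrableOn
  have hconst : IntegrableOn (fun _ : E3 => m ^ 2) (Metric.ball a ℓ) volume :=
    integrableOn_const (by exact measure_ball_lt_top.ne)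
  have hm1 : ∫ x in Metric.ball a ℓ, ψ x = m * V := by
    rw [hm, avg, ← hV]
    field_simp
  have h0 : 0 ≤ ∫ x in Metric.ball a ℓ, (ψ x - m) ^ 2 := integral_nonneg fun x => sq_nonneg _
  have h1 : ∫ x in Metric.ball a ℓ, (ψ x - m) ^ 2 =
      (∫ x in Metric.ball a ℓ, ψ x ^ 2) - m ^ 2 * V := by
    have e1 : ∀ x, (ψ x - m) ^ 2 = (ψ x ^ 2 - (2 * m) * ψ x) + m ^ 2 := fun x => by ring
    simp only [e1]
    have hs : IntegrableOn (fun x => ψ x ^ 2 - 2 * m * ψ x) (Metric.ball a ℓ) volume :=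
      hint2.sub (hint.const_mul (2 * m))
    rw [integral_add hs hconst, integral_sub hint2 (hint.const_mul (2 * m)),
      integral_const_mul, hm1, integral_const, measureReal_restrict_apply_univ, hVa, smul_eq_mul]
    ring
  rw [h1] at h0
  linarith

end NonvanishAux

open NonvanishAux

theorem nonvanish {p tb c1 T : ℝ} (hp : 4 / 3 < p) (hc : Consts p tb c1 T) {A ε ℓ : ℝ} (hA : 0 < A)
    (hε : 0 < ε) (hε' : ε ≤ c1 / 4) (hℓ : 0 < ℓ) (hℓ' : 16 * ε * ℓ ^ 2 ≤ A)
    {ψ : E3 → ℝ} {g : E3 → E3} (h : Adm p ψ g) (hpos : 0 < mass ψ)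
    (hP : A * kin g + ig p ψ ≤ ε * mass ψ) :
    ∃ a : E3, tb / 4 * volume.real (Metric.ball (0 : E3) ℓ)
      ≤ ∫ x in Metric.ball a ℓ, ψ x ^ 2 := by
  classical
  by_contra hcon
  push Not at hcon
  have hL2 : MemLp ψ 2 volume := h.memLp
  have hsq := sq_integrable hL2
  obtain ⟨hav, havle⟩ := avg_sub_le h.toH1 hℓ
  have hc1 := hc.c1_pos
  have hVpos : 0 < volume.real (Metric.ball (0 : E3) ℓ) := by
    rw [Measure.real]
    exact ENNReal.toReal_pos (Metric.measure_ball_pos volume _ hℓ).ne' measure_ball_lt_top.ne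
  have havg : ∀ a, avg ℓ ψ a ^ 2 < tb / 4 := by
    intro a
    have h1 := (avg_sq_le hL2 hℓ a).trans_lt (hcon a)
    exact lt_of_mul_lt_mul_right h1 hVpos.le
  -- integrability of the nonlinear term
  have hGint : Integrable (fun x => G p (ψ x ^ 2)) := by
    obtain ⟨C, hC, hCle⟩ := abs_G_le hp
    refine Integrable.mono' ((hsq.add h.integrable_pow).const_mul C) ?_ ?_
    · exact (continuous_G hp).comp_aestronglyMeasurable hsq.1
    · filter_upwards with x
      exact hCle _ (sq_nonneg _)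
  -- the truncated functions
  let F : ℝ → ℝ := fun s => if s ^ 2 < tb then s ^ 2 else 0
  have hFm : Measurable F := by
    apply Measurable.ite (measurableSet_lt (by fun_prop) (by fun_prop)) (by fun_prop) (by fun_prop)
  have hFp : ∀ s, s ^ 2 < tb → F s = s ^ 2 := fun s hs => if_pos hs
  have hFn : ∀ s, ¬ s ^ 2 < tb → F s = 0 := fun s hs => if_neg hs
  have hFint : Integrable (fun x => F (ψ x)) := by
    refine Integrable.mono' hsq (hFm.comp_aemeasurable hL2.1.aemeasurable).aestronglyMeasurable ?_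
    filter_upwards with x
    by_cases hx : ψ x ^ 2 < tb
    · rw [hFp _ hx, Real.norm_eq_abs, abs_of_nonneg (sq_nonneg _)]
    · rw [hFn _ hx, norm_zero]
      positivity
  have h1 : c1 * ∫ x, F (ψ x) ≤ ig p ψ := by
    rw [← integral_const_mul, ig]
    apply integral_mono (hFint.const_mul _) hGint
    intro x
    beta_reduce
    by_cases hx : ψ x ^ 2 < tb
    · rw [hFp _ hx]
      exact hc.low _ (sq_nonneg _) hx.le
    · rw [hFn _ hx, mul_zero]
      exact G_nonneg hp (sq_nonneg _)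
  have hkin : 0 ≤ kin g := integral_nonneg fun x => by positivity
  have hig : 0 ≤ ig p ψ := integral_nonneg fun x => G_nonneg hp (sq_nonneg _)
  have h2 : ∫ x, F (ψ x) ≤ mass ψ / 4 := by
    have h3 : c1 * ∫ x, F (ψ x) ≤ c1 / 4 * mass ψ := by
      have h4 : 0 ≤ A * kin g := mul_nonneg hA.le hkin
      have h5 : ε * mass ψ ≤ c1 / 4 * mass ψ := mul_le_mul_of_nonneg_right hε' hpos.le
      linarith
    have h6 : c1 * ∫ x, F (ψ x) ≤ c1 * (mass ψ / 4) := by linarith
    exact le_of_mul_le_mul_left h6 hc1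
  have h3 : (1 / 4) * (mass ψ - ∫ x, F (ψ x)) ≤ ∫ x, (ψ x - avg ℓ ψ x) ^ 2 := by
    rw [mass, ← integral_sub hsq hFint, ← integral_const_mul]
    apply integral_mono ((hsq.sub hFint).const_mul _) (sq_integrable (hL2.sub hav))
    intro x
    change 1 / 4 * (ψ x ^ 2 - F (ψ x)) ≤ (ψ x - avg ℓ ψ x) ^ 2
    by_cases hx : ψ x ^ 2 < tb
    · rw [hFp _ hx, sub_self, mul_zero]
      exact sq_nonneg _
    · rw [hFn _ hx, sub_zero]
      push Not at hx
      have h4 := havg x
      -- `avg^2 < tb/4 ≤ psi^2/4`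
      have h5 : (2 * avg ℓ ψ x) ^ 2 < ψ x ^ 2 := by nlinarith
      have h6 : |2 * avg ℓ ψ x| < |ψ x| := sq_lt_sq.1 h5
      rw [abs_mul, abs_two] at h6
      have h7 : |ψ x| / 2 ≤ |ψ x - avg ℓ ψ x| := by
        have := abs_sub_abs_le_abs_sub (ψ x) (avg ℓ ψ x)
        linarith
      have h8 : (|ψ x| / 2) ^ 2 ≤ |ψ x - avg ℓ ψ x| ^ 2 := by
        apply pow_le_pow_left₀ (by positivity) h7
      rw [sq_abs, div_pow, sq_abs] at h8
      linarith
  have h4 : ℓ ^ 2 * kin g ≤ mass ψ / 16 := by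
    have h5 : A * kin g ≤ ε * mass ψ := by linarith
    have h6 : 16 * ε * ℓ ^ 2 * kin g ≤ A * kin g := mul_le_mul_of_nonneg_right hℓ' hkin
    have h7 : ε * (16 * (ℓ ^ 2 * kin g)) ≤ ε * mass ψ := by
      calc ε * (16 * (ℓ ^ 2 * kin g)) = 16 * ε * ℓ ^ 2 * kin g := by ring
        _ ≤ ε * mass ψ := h6.trans h5
    have h8 := le_of_mul_le_mul_left h7 hε
    linarith
  linarith

end Pool.Agent.W_MP_b91f46_mp
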